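import Pool.Agent.H.MP_bb4c62_an.helper6.NPencil

/-!
Isomorphisms of the quasinilpotent difference relation, lines, rank one lines.
-/

namespace Pool.Agent.H.MP_bb4c62_an.helper6.NL

open Complex Metric Set Filter Topology
open Pool.Agent.H.MP_bb4c62_an.helper6.Perturb
open Pool.Agent.H.MP_bb4c62_an.helper6.Gadgets

variable {X : Type*} [NormedAddCommGroup X] [NormedSpace ℂ X]
variable {Y : Type*} [NormedAddCommGroup Y] [NormedSpace ℂ Y]
variable {Z : Type*} [NormedAddCommGroup Z] [NormedSpace ℂ Z]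

/-! ### isomorphisms -/

theorem IsGIso.comp {φ : (X →L[ℂ] X) → (Y →L[ℂ] Y)} {ψ : (Y →L[ℂ] Y) → (Z →L[ℂ] Z)}
    (hψ : IsGIso ψ) (hφ : IsGIso φ) : IsGIso (ψ ∘ φ) :=
  ⟨hψ.1.comp hφ.1, fun _ _ => (hψ.2 _ _).trans (hφ.2 _ _)⟩

theorem IsGIso.exists_inv {φ : (X →L[ℂ] X) → (Y →L[ℂ] Y)} (hφ : IsGIso φ) :
    ∃ ψ : (Y →L[ℂ] Y) → (X →L[ℂ] X), IsGIso ψ ∧ (∀ T, ψ (φ T) = T) ∧ (∀ U, φ (ψ U) = U) := by
  let e := Equiv.ofBijective φ hφ.1
  have he : ∀ T, e T = φ T := fun _ => rfl
  have h1 : ∀ U, φ (e.symm U) = U := fun U => e.apply_symm_apply U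
  have h2 : ∀ T, e.symm (φ T) = T := fun T => e.symm_apply_apply T
  refine ⟨e.symm, ⟨e.symm.bijective, fun T S => ?_⟩, h2, h1⟩
  rw [← hφ.2, h1, h1]

/-- affine similarities are automorphisms -/
theorem isGIso_aff {S R : X →L[ℂ] X} (hSR : S * R = 1) (hRS : R * S = 1) {c : ℂ} (hc : c ≠ 0)
    (B : X →L[ℂ] X) : IsGIso (fun T : X →L[ℂ] X => B + c • (S * T * R)) := by
  have hinv : ∀ T : X →L[ℂ] X, R * (S * T * R) * S = T := by
    intro T
    calc R * (S * T * R) * S = (R * S) * T * (R * S) := by simp only [mul_assoc]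
      _ = T := by rw [hRS, one_mul, mul_one]
  have hinv' : ∀ T : X →L[ℂ] X, S * (R * T * S) * R = T := by
    intro T
    calc S * (R * T * S) * R = (S * R) * T * (S * R) := by simp only [mul_assoc]
      _ = T := by rw [hSR, one_mul, mul_one]
  refine ⟨⟨?_, ?_⟩, ?_⟩
  · intro T T' h
    have h1 : c • (S * T * R) = c • (S * T' * R) := add_left_cancel h
    have h2 : S * T * R = S * T' * R := by
      have := congrArg (fun U => c⁻¹ • U) h1
      simpa only [smul_smul, inv_mul_cancel₀ hc, one_smul] using this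
    rw [← hinv T, h2, hinv]
  · intro U
    refine ⟨c⁻¹ • (R * (U - B) * S), ?_⟩
    show B + c • (S * (c⁻¹ • (R * (U - B) * S)) * R) = U
    rw [mul_smul_comm, smul_mul_assoc, smul_smul, mul_inv_cancel₀ hc, one_smul, hinv']
    abel
  · intro T T'
    have h1 : (B + c • (S * T * R)) - (B + c • (S * T' * R)) = c • (S * (T - T') * R) := by
      rw [mul_sub, sub_mul, smul_sub]; abel
    show QN ((B + c • (S * T * R)) - (B + c • (S * T' * R))) ↔ _
    rw [h1]
    refine (qn_smul_iff hc).trans ?_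
    constructor
    · intro h
      have := qn_conj h hRS hSR
      rwa [hinv] at this
    · intro h
      exact qn_conj h hSR hRS

theorem isGIso_refl (B : X →L[ℂ] X) : IsGIso (fun T : X →L[ℂ] X => B - T) := by
  have := isGIso_aff (S := (1 : X →L[ℂ] X)) (R := 1) (mul_one 1) (mul_one 1)
    (neg_ne_zero.mpr one_ne_zero) B
  convert this using 2 with T
  rw [one_mul, mul_one, neg_one_smul, sub_eq_add_neg]

theorem isGIso_trans (B : X →L[ℂ] X) : IsGIso (fun T : X →L[ℂ] X => B + T) := by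
  have := isGIso_aff (S := (1 : X →L[ℂ] X)) (R := 1) (mul_one 1) (mul_one 1)
    (one_ne_zero) B
  convert this using 2 with T
  rw [one_mul, mul_one, one_smul]

theorem isGIso_conj {S R : X →L[ℂ] X} (hSR : S * R = 1) (hRS : R * S = 1) :
    IsGIso (fun T : X →L[ℂ] X => S * T * R) := by
  have := isGIso_aff hSR hRS one_ne_zero 0
  convert this using 2 with T
  rw [one_smul, zero_add]

/-! ### lines -/

theorem IsLine.image {φ : (X →L[ℂ] X) → (Y →L[ℂ] Y)} (hφ : IsGIso φ) {m : Set (X →L[ℂ] X)}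
    (hm : IsLine m) : IsLine (φ '' m) where
  inf := hm.inf.image hφ.1.1.injOn
  clique := by
    rintro _ ⟨S, hS, rfl⟩ _ ⟨T, hT, rfl⟩
    exact (hφ.2 S T).mpr (hm.clique S hS T hT)
  gen := by
    rintro T _ _ _ ⟨a, ha, rfl⟩ ⟨b, hb, rfl⟩ ⟨c, hc, rfl⟩ hab hac hbc h1 h2 h3 _ ⟨s, hs, rfl⟩
    obtain ⟨T, rfl⟩ := hφ.1.2 T
    rw [hφ.2] at h1 h2 h3 ⊢
    exact hm.gen T a b c ha hb hc (fun h => hab (by rw [h])) (fun h => hac (by rw [h]))
      (fun h => hbc (by rw [h])) h1 h2 h3 s hs
  closed := by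
    intro V hV
    obtain ⟨V, rfl⟩ := hφ.1.2 V
    refine ⟨V, hm.closed V ?_, rfl⟩
    intro T hT
    rw [← hφ.2]
    apply hV
    rintro _ ⟨s, hs, rfl⟩
    rw [hφ.2]
    exact hT s hs

theorem IsLine.subset_of_three {m m' : Set (X →L[ℂ] X)} (hm : IsLine m) (hm' : IsLine m')
    {a b c : X →L[ℂ] X} (ha : a ∈ m) (hb : b ∈ m) (hc : c ∈ m) (ha' : a ∈ m') (hb' : b ∈ m')
    (hc' : c ∈ m') (hab : a ≠ b) (hac : a ≠ c) (hbc : b ≠ c) : m ⊆ m' := by
  intro s hs
  apply hm'.closed
  intro T hT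
  rw [qn_sub_comm]
  exact hm.gen T a b c ha hb hc hab hac hbc (hT a ha') (hT b hb') (hT c hc') s hs

theorem IsLine.eq_of_three {m m' : Set (X →L[ℂ] X)} (hm : IsLine m) (hm' : IsLine m')
    {a b c : X →L[ℂ] X} (ha : a ∈ m) (hb : b ∈ m) (hc : c ∈ m) (ha' : a ∈ m') (hb' : b ∈ m')
    (hc' : c ∈ m') (hab : a ≠ b) (hac : a ≠ c) (hbc : b ≠ c) : m = m' :=
  Subset.antisymm (hm.subset_of_three hm' ha hb hc ha' hb' hc' hab hac hbc)
    (hm'.subset_of_three hm ha' hb' hc' ha hb hc hab hac hbc)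

/-! ### separation lemmas -/

theorem dual_zero_smul (k : X →L[ℂ] ℂ) : (0 : ℂ) • k = 0 := by ext w; simp

/-- functionals separating a vector from a finite dimensional subspace -/
theorem exists_sep_sub {M : Submodule ℂ X} (hM : M.FG) {v : X} (hv : v ∉ M) :
    ∃ k : X →L[ℂ] ℂ, (∀ m ∈ M, k m = 0) ∧ k v = 1 := by
  have hfd : FiniteDimensional ℂ M := Module.Finite.iff_fg.mpr hM
  set b := Module.finBasis ℂ M with hb
  set n := Module.finrank ℂ M with hn
  have hli : LinearIndependent ℂ (Fin.cons v (fun i => (b i : X)) : Fin (n + 1) → X) := by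
    rw [linearIndependent_finCons]
    refine ⟨b.linearIndependent.map' M.subtype (Submodule.ker_subtype M), ?_⟩
    intro h
    apply hv
    have : Submodule.span ℂ (Set.range fun i => (b i : X)) ≤ M := by
      rw [Submodule.span_le]
      rintro _ ⟨i, rfl⟩
      exact (b i).2
    exact this h
  obtain ⟨k, hk⟩ := exists_dual hli (Fin.cons 1 (fun _ => 0))
  refine ⟨k, ?_, by simpa using hk 0⟩
  intro m hm
  have h1 : (⟨m, hm⟩ : M) = ∑ i, b.repr ⟨m, hm⟩ i • b i := (b.sum_repr _).symm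
  have h2 : m = ∑ i, b.repr ⟨m, hm⟩ i • (b i : X) := by
    have := congrArg Subtype.val h1
    rw [Submodule.coe_sum] at this
    exact this
  rw [h2, map_sum]
  apply Finset.sum_eq_zero
  intro i _
  rw [map_smul]
  have : k (b i) = 0 := by simpa using hk i.succ
  rw [this, smul_zero]

theorem exists_ap {f : X →L[ℂ] ℂ} (hf : f ≠ 0) : ∃ z, f z = 1 := by
  by_contra hcon
  push Not at hcon
  apply hf
  ext v
  by_contra hv
  apply hcon ((f v)⁻¹ • v)
  rw [map_smul, smul_eq_mul, inv_mul_cancel₀ hv]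

theorem mem_span_pair_of {x v : X} (h : ∃ c : ℂ, v = c • x) : v ∈ Submodule.span ℂ ({x} : Set X) := by
  obtain ⟨c, rfl⟩ := h
  exact Submodule.smul_mem _ _ (Submodule.mem_span_singleton_self x)

/-- operators mapping `ker f` into the line of `x` -/
theorem form_of_range {K : X →L[ℂ] X} {x : X} {f : X →L[ℂ] ℂ} (hx : x ≠ 0) (hf : f ≠ 0)
    (h : ∀ v, f v = 0 → ∃ a : ℂ, K v = a • x) :
    ∃ (θ : X →L[ℂ] ℂ) (q : X), K = ten x θ + ten q f := by
  obtain ⟨z, hz⟩ := exists_ap hf
  obtain ⟨η, hη⟩ := SeparatingDual.exists_eq_one (R := ℂ) hx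
  refine ⟨η.comp (K - ten (K z) f), K z, ?_⟩
  ext v
  have h1 : f (v - f v • z) = 0 := by
    rw [map_sub, map_smul, hz, smul_eq_mul, mul_one, sub_self]
  obtain ⟨a, ha⟩ := h _ h1
  have h2 : K v - f v • K z = a • x := by
    rw [← ha, map_sub, map_smul]
  show K v = η (K v - f v • K z) • x + f v • K z
  rw [h2, map_smul, hη, smul_eq_mul, mul_one, ← h2]
  abel

/-- operators which are scalar on `ker f` modulo the line of `x` -/
theorem form_of_scalar_mod {V : X →L[ℂ] X} {x : X} {f : X →L[ℂ] ℂ} (hx : x ≠ 0) (hf : f ≠ 0)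
    (hbig : ∀ Z : Submodule ℂ X, Z.FG → ∃ u, f u = 0 ∧ u ∉ Z)
    (h : ∀ v, f v = 0 → V v ∈ Submodule.span ℂ ({x, v} : Set X)) :
    ∃ (c : ℂ) (θ : X →L[ℂ] ℂ) (q : X), V = c • (1 : X →L[ℂ] X) + ten x θ + ten q f := by
  obtain ⟨y0, hy0f, hy0⟩ := hbig (Submodule.span ℂ {x}) (Submodule.fg_span_singleton x)
  obtain ⟨a0, c0, h0⟩ := Submodule.mem_span_pair.mp (h y0 hy0f)
  have key : ∀ v, f v = 0 → ∃ a : ℂ, (V - c0 • (1 : X →L[ℂ] X)) v = a • x := by
    intro v hv
    obtain ⟨u, huf, hu⟩ := hbig (Submodule.span ℂ {x, y0, v}) (Submodule.fg_span (Set.toFinite _))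
    have hxZ : x ∈ Submodule.span ℂ ({x, y0, v} : Set X) := Submodule.subset_span (by simp)
    have hyZ : y0 ∈ Submodule.span ℂ ({x, y0, v} : Set X) := Submodule.subset_span (by simp)
    have hvZ : v ∈ Submodule.span ℂ ({x, y0, v} : Set X) := Submodule.subset_span (by simp)
    obtain ⟨a1, c1, h1⟩ := Submodule.mem_span_pair.mp (h u huf)
    obtain ⟨a2, c2, h2⟩ := Submodule.mem_span_pair.mp (h (u + y0) (by rw [map_add, huf, hy0f, add_zero]))
    obtain ⟨a3, c3, h3⟩ := Submodule.mem_span_pair.mp (h (u + v) (by rw [map_add, huf, hv, add_zero]))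
    have e2 : (c2 - c1) • u = (a1 + a0 - a2) • x + (c0 - c2) • y0 := by
      rw [map_add, ← h1, ← h0] at h2
      have : (c2 - c1) • u = (a2 • x + c2 • (u + y0)) - a2 • x - c2 • y0 - c1 • u := by
        module
      rw [this, h2]; module
    have hc2 : c2 = c1 := by
      by_contra hne
      apply hu
      have : u = (c2 - c1)⁻¹ • ((a1 + a0 - a2) • x + (c0 - c2) • y0) := by
        rw [← e2, smul_smul, inv_mul_cancel₀ (sub_ne_zero.mpr hne), one_smul]
      rw [this]
      exact Submodule.smul_mem _ _ (Submodule.add_mem _ (Submodule.smul_mem _ _ hxZ)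
        (Submodule.smul_mem _ _ hyZ))
    have hc0 : c0 = c1 := by
      by_contra hne
      apply hy0
      rw [hc2, sub_self, zero_smul] at e2
      have : y0 = -(c0 - c1)⁻¹ • ((a1 + a0 - a2) • x) := by
        have h5 : (c0 - c1) • y0 = -((a1 + a0 - a2) • x) := by
          rw [eq_neg_iff_add_eq_zero, add_comm]; exact e2.symm
        have h6 : y0 = (c0 - c1)⁻¹ • ((c0 - c1) • y0) := by
          rw [smul_smul, inv_mul_cancel₀ (sub_ne_zero.mpr hne), one_smul]
        rw [h6, h5]; module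
      rw [this]
      exact Submodule.smul_mem _ _ (Submodule.smul_mem _ _ (Submodule.mem_span_singleton_self x))
    have e3 : V v = (a3 - a1) • x + (c3 - c1) • u + c3 • v := by
      rw [map_add, ← h1] at h3
      have : V v = (a3 • x + c3 • (u + v)) - (a1 • x + c1 • u) := by rw [h3]; abel
      rw [this]; module
    have hc3 : c3 = c1 := by
      by_contra hne
      apply hu
      obtain ⟨a4, c4, h4⟩ := Submodule.mem_span_pair.mp (h v hv)
      have h5 : (c3 - c1) • u = (a4 - (a3 - a1)) • x + (c4 - c3) • v := by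
        have : (c3 - c1) • u = V v - (a3 - a1) • x - c3 • v := by rw [e3]; abel
        rw [this, ← h4]; module
      have h6 : u = (c3 - c1)⁻¹ • ((c3 - c1) • u) := by
        rw [smul_smul, inv_mul_cancel₀ (sub_ne_zero.mpr hne), one_smul]
      rw [h6, h5]
      exact Submodule.smul_mem _ _ (Submodule.add_mem _ (Submodule.smul_mem _ _ hxZ)
        (Submodule.smul_mem _ _ hvZ))
    refine ⟨a3 - a1, ?_⟩
    show V v - c0 • v = _
    rw [e3, hc3, sub_self, zero_smul, add_zero, hc0, add_sub_cancel_right]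
  obtain ⟨θ, q, hK⟩ := form_of_range hx hf key
  refine ⟨c0, θ, q, ?_⟩
  rw [add_assoc, ← hK]; abel

/-- finite codimension: infinite dimensional spaces have large kernels -/
theorem big_ker (hX : ¬ Module.Finite ℂ X) (f : X →L[ℂ] ℂ) (Z : Submodule ℂ X) (hZ : Z.FG) :
    ∃ u, f u = 0 ∧ u ∉ Z := by
  by_contra hcon
  push Not at hcon
  apply hX
  by_cases hf : f = 0
  · have : (⊤ : Submodule ℂ X) ≤ Z := fun u _ => hcon u (by rw [hf]; rfl)
    exact ⟨Submodule.FG.of_le hZ this⟩
  · obtain ⟨z, hz⟩ := exists_ap hf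
    have : (⊤ : Submodule ℂ X) ≤ Z ⊔ Submodule.span ℂ {z} := by
      intro u _
      have h1 : f (u - f u • z) = 0 := by
        rw [map_sub, map_smul, hz, smul_eq_mul, mul_one, sub_self]
      have h2 : u = (u - f u • z) + f u • z := by abel
      rw [h2]
      exact Submodule.add_mem_sup (hcon _ h1)
        (Submodule.smul_mem _ _ (Submodule.mem_span_singleton_self z))
    exact ⟨Submodule.FG.of_le (hZ.sup (Submodule.fg_span_singleton z)) this⟩

/-! ### rank one lines -/

/-- the core of the closedness of rank one lines -/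
theorem closed_core {v : Fin 3 → X} (hv3 : LinearIndependent ℂ v) {x : X} {f : X →L[ℂ] ℂ}
    (hx : x ≠ 0) (hf : f ≠ 0) (hfx : f x = 0) {V : X →L[ℂ] X} (hV : QN V)
    (h : ∀ (y : X) (k : X →L[ℂ] ℂ), k y = 0 → (f y = 0 ∨ k x = 0) → k (V y) = 0) :
    ∃ z : ℂ, V = z • ten x f := by
  -- scalar on the kernel of `f`
  have h1 : ∀ y, f y = 0 → ∃ c : ℂ, V y = c • y := by
    intro y hy
    by_cases hy0 : y = 0
    · exact ⟨0, by rw [hy0, map_zero, smul_zero]⟩
    by_contra hcon
    obtain ⟨⟨k, hk1, hk2⟩, -⟩ := exists_sep' (y2 := V y) hy0 hcon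
    have := h y k hk1 (Or.inl hy)
    rw [hk2] at this
    exact one_ne_zero this
  obtain ⟨c, hc⟩ := prop_of_pointwise (V : X →ₗ[ℂ] X) LinearMap.id (LinearMap.ker (f : X →ₗ[ℂ] ℂ))
    (fun _ _ h => h) (fun y hy => h1 y hy)
  have hc' : ∀ y, f y = 0 → V y = c • y := fun y hy => hc y hy
  have hc0 : c = 0 := by
    by_contra hne
    exact not_qn_of_eigen hx hne (hc' x hfx) hV
  subst hc0
  obtain ⟨z0, hz0⟩ := exists_ap hf
  have hV' : ∀ w, V w = f w • V z0 := by
    intro w
    have h2 := hc' (w - f w • z0) (by rw [map_sub, map_smul, hz0, smul_eq_mul, mul_one, sub_self])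
    rw [zero_smul, map_sub, map_smul] at h2
    exact sub_eq_zero.mp h2
  obtain ⟨D3, -⟩ := d3 hv3
  -- the vector `V z0` is a multiple of `x`
  have hq : ∃ z : ℂ, V z0 = z • x := by
    by_contra hcon
    obtain ⟨⟨k, hk1, hk2⟩, -⟩ := exists_sep' (y2 := V z0) hx hcon
    -- functionals killing `x` and not killing `V z0` are parallel to `f`
    have hpar : ∀ k : X →L[ℂ] ℂ, k x = 0 → k (V z0) ≠ 0 → ∃ d : ℂ, f = d • k := by
      intro k hkx hkq
      by_contra hnot
      have hk0 : k ≠ 0 := by rintro rfl; exact hkq rfl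
      obtain ⟨⟨y, hy1, hy2⟩, -⟩ := exists_sep hk0 hnot
      have h3 := h y k hy1 (Or.inr hkx)
      rw [hV' y, map_smul, hy2, smul_eq_mul, one_mul] at h3
      exact hkq h3
    obtain ⟨d, hd⟩ := hpar k hk1 (by rw [hk2]; exact one_ne_zero)
    have hd0 : d ≠ 0 := by rintro rfl; exact hf (by rw [hd, dual_zero_smul])
    -- another functional
    obtain ⟨g, hg0, hg1, hg2⟩ := D3 x z0
    have hg1' : g x = 0 := hg1
    have hg2' : g z0 = 0 := hg2
    have hgf : ∀ e : ℂ, g ≠ e • f := by
      intro e he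
      apply hg0
      have : e = 0 := by
        have h4 : g z0 = e * f z0 := by rw [he]; rfl
        rw [hg2', hz0, mul_one] at h4
        exact h4.symm
      rw [he, this, dual_zero_smul]
    by_cases hgq : g (V z0) = 0
    · obtain ⟨e, he⟩ := hpar (k + g) (by show k x + g x = 0; rw [hk1, hg1', add_zero]) (by
        show k (V z0) + g (V z0) ≠ 0
        rw [hk2, hgq, add_zero]; exact one_ne_zero)
      have he0 : e ≠ 0 := by rintro rfl; exact hf (by rw [he, dual_zero_smul])
      apply hgf (e⁻¹ - d⁻¹)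
      have h5 : k = d⁻¹ • f := by rw [hd, smul_smul, inv_mul_cancel₀ hd0, one_smul]
      have h6 : k + g = e⁻¹ • f := by
        conv_rhs => rw [he]
        rw [smul_smul, inv_mul_cancel₀ he0, one_smul]
      ext w
      have e5 : k w = d⁻¹ * f w := by
        have := congrArg (fun g : X →L[ℂ] ℂ => g w) h5
        exact this
      have e6 : k w + g w = e⁻¹ * f w := by
        have := congrArg (fun g : X →L[ℂ] ℂ => g w) h6
        exact this
      show g w = (e⁻¹ - d⁻¹) * f w
      linear_combination e6 - e5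
    · obtain ⟨e, he⟩ := hpar g hg1' hgq
      have he0 : e ≠ 0 := by rintro rfl; exact hf (by rw [he, dual_zero_smul])
      apply hgf e⁻¹
      conv_rhs => rw [he]
      rw [smul_smul, inv_mul_cancel₀ he0, one_smul]
  obtain ⟨z, hz⟩ := hq
  refine ⟨z, ?_⟩
  ext w
  rw [hV' w, hz]
  show f w • z • x = z • (f w • x)
  rw [smul_comm]

/-- rank one tests for a rank one line -/
theorem qn_test [CompleteSpace X] {x y : X} {f k : X →L[ℂ] ℂ} (hfx : f x = 0) (hky : k y = 0)
    (h : f y = 0 ∨ k x = 0) (t s : ℂ) : QN (t • ten y k - s • ten x f) := by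
  have h1 : QN (-(s • ten x f)) := qn_neg (qn_smul (qn_of_sq (ten_sq hfx)) s)
  have h2 := qn_add_smul_ten_of_orth h1 (y := y) (k := k) (fun n => ?_) t
  · have : t • ten y k - s • ten x f = -(s • ten x f) + t • ten y k := by abel
    rw [this]; exact h2
  · match n with
    | 0 => simpa using hky
    | 1 =>
      rw [pow_one]
      show k (-(s • (f y • x))) = 0
      rw [map_neg, map_smul, map_smul]
      rcases h with h | h
      · rw [h]; simp
      · rw [h]; simp
    | (n + 2) =>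
      have h3 : (-(s • ten x f)) ^ (n + 2) = 0 := by
        rw [pow_add, pow_two, neg_mul_neg, smul_mul_smul_comm, ten_sq hfx, smul_zero, mul_zero]
      rw [h3]; exact map_zero k

theorem isLine_rline [CompleteSpace X] {v : Fin 3 → X} (hv3 : LinearIndependent ℂ v) {x : X}
    {f : X →L[ℂ] ℂ} (hx : x ≠ 0) (hf : f ≠ 0) (hfx : f x = 0) (R : X →L[ℂ] X) :
    IsLine (rline R (ten x f)) where
  inf := by
    apply Set.infinite_range_of_injective
    intro a b hab
    have h1 : a • ten x f = b • ten x f := add_left_cancel hab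
    by_contra hne
    have h2 : (a - b) • ten x f = 0 := by rw [sub_smul, h1, sub_self]
    rcases smul_eq_zero.mp h2 with h3 | h3
    · exact hne (sub_eq_zero.mp h3)
    · rcases ten_eq_zero_iff.mp h3 with h4 | h4
      · exact hx h4
      · exact hf h4
  clique := by
    rintro _ ⟨a, rfl⟩ _ ⟨b, rfl⟩
    have : (R + a • ten x f) - (R + b • ten x f) = (a - b) • ten x f := by
      rw [sub_smul]; abel
    show QN ((R + a • ten x f) - (R + b • ten x f))
    rw [this]
    exact qn_smul (qn_of_sq (ten_sq hfx)) _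
  gen := by
    rintro T _ _ _ ⟨a, rfl⟩ ⟨b, rfl⟩ ⟨c, rfl⟩ hab hac hbc h1 h2 h3 _ ⟨s, rfl⟩
    have e : ∀ s : ℂ, T - (R + s • ten x f) = (T - (R + a • ten x f)) + (a - s) • ten x f := by
      intro s; rw [sub_smul]; abel
    show QN (T - (R + s • ten x f))
    have h2' : QN (T - (R + b • ten x f)) := h2
    have h3' : QN (T - (R + c • ten x f)) := h3
    rw [e] at h2' h3' ⊢
    refine rank_one_three h1 (a := a - b) (b := a - c) ?_ ?_ ?_ h2' h3' _
    · intro h; apply hab; rw [sub_eq_zero.mp h]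
    · intro h; apply hac; rw [sub_eq_zero.mp h]
    · intro h; apply hbc
      have : b = c := by linear_combination -h
      rw [this]
  closed := by
    intro V hV
    have hV0 : QN (V - R) := by
      apply hV R
      rintro _ ⟨s, rfl⟩
      have : R - (R + s • ten x f) = -(s • ten x f) := by abel
      show QN (R - (R + s • ten x f))
      rw [this]
      exact qn_neg (qn_smul (qn_of_sq (ten_sq hfx)) s)
    obtain ⟨z, hz⟩ := closed_core hv3 hx hf hfx hV0 (by
      intro y k hky hor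
      have hp : ∀ t : ℂ, QN ((V - R) + t • ten y k) := by
        intro t
        have h1 := hV (R + (-t) • ten y k) (by
          rintro _ ⟨s, rfl⟩
          have : R + (-t) • ten y k - (R + s • ten x f) = (-t) • ten y k - s • ten x f := by abel
          show QN (R + (-t) • ten y k - (R + s • ten x f))
          rw [this]
          exact qn_test hfx hky hor (-t) s)
        have : V - (R + (-t) • ten y k) = V - R + t • ten y k := by rw [neg_smul]; abel
        rwa [this] at h1
      have h2 := pencil_one hV0 hp 1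
      rwa [pow_one] at h2)
    refine ⟨z, ?_⟩
    show R + z • ten x f = V
    rw [← hz]; abel

end Pool.Agent.H.MP_bb4c62_an.helper6.NL
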