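import Pool.Agent.H.MP_bb4c62_an.helper6.Dual2

/-!
From linear bijections preserving quasinilpotency to the dual pair data.
-/

namespace Pool.Agent.H.MP_bb4c62_an.helper6.Gadgets

open Complex Metric Set Filter Topology
open Pool.Agent.H.MP_bb4c62_an.helper6.Perturb

variable {X : Type*} [NormedAddCommGroup X] [NormedSpace ℂ X]
variable {Y : Type*} [NormedAddCommGroup Y] [NormedSpace ℂ Y]

/-- a nonzero quasinilpotent operator moves some vector off its line -/
theorem exists_indep_of_qn {A : X →L[ℂ] X} (hA : spectralRadius ℂ A = 0) (hA0 : A ≠ 0) :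
    ∃ x, x ≠ 0 ∧ ¬ ∃ c : ℂ, A x = c • x := by
  obtain ⟨x, hx⟩ : ∃ x, A x ≠ 0 := by
    by_contra hcon
    push Not at hcon
    apply hA0
    ext w; exact hcon w
  have hx0 : x ≠ 0 := by
    rintro rfl
    exact hx (map_zero A)
  refine ⟨x, hx0, ?_⟩
  rintro ⟨c, hc⟩
  have hc0 : c ≠ 0 := by
    rintro rfl
    rw [zero_smul] at hc
    exact hx hc
  exact not_qn_of_eigen hx0 hc0 hc hA

/-- if all quasinilpotent translates are quasinilpotent, the operator vanishes. -/
theorem eq_zero_of_translates {A : X →L[ℂ] X}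
    (h : ∀ N : X →L[ℂ] X, spectralRadius ℂ N = 0 → spectralRadius ℂ (A + N) = 0) : A = 0 := by
  have hA : spectralRadius ℂ A = 0 := by
    have := h 0 qn_zero
    rwa [add_zero] at this
  by_contra hA0
  obtain ⟨x, hx0, hx⟩ := exists_indep_of_qn hA hA0
  have hli : LinearIndependent ℂ ![x, A x] := by
    rw [LinearIndependent.pair_iff' hx0]
    intro a ha
    exact hx ⟨a, ha.symm⟩
  obtain ⟨f, hf⟩ := exists_dual hli ![1, 1]
  have f1 : f x = 1 := by simpa using hf 0
  have f2 : f (A x) = 1 := by simpa using hf 1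
  have hN : spectralRadius ℂ (ten (x - A x) f) = 0 := by
    apply qn_of_sq
    apply ten_sq
    rw [map_sub, f1, f2, sub_self]
  have h1 := h _ hN
  refine not_qn_of_eigen (x := x) (μ := 1) hx0 one_ne_zero ?_ h1
  show A x + f x • (x - A x) = (1 : ℂ) • x
  rw [f1, one_smul, one_smul]; abel

section Transfer

variable [CompleteSpace X] [CompleteSpace Y]
variable (φ : (X →L[ℂ] X) ≃ₗ[ℂ] (Y →L[ℂ] Y))
  (hφ : ∀ T, spectralRadius ℂ (φ T) = 0 ↔ spectralRadius ℂ T = 0)

include hφ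

omit [CompleteSpace X] [CompleteSpace Y] in
theorem star_transfer (A : X →L[ℂ] X) : Star (φ A) ↔ Star A := by
  constructor
  · rintro ⟨h1, h2⟩
    refine ⟨(hφ A).mp h1, fun V hV hV1 hV2 τ => ?_⟩
    have := h2 (φ V) ((hφ V).mpr hV) (by rw [← map_add]; exact (hφ _).mpr hV1)
      (by rw [← map_sub]; exact (hφ _).mpr hV2) τ
    rw [← map_smul, ← map_add] at this
    exact (hφ _).mp this
  · rintro ⟨h1, h2⟩
    refine ⟨(hφ A).mpr h1, fun V hV hV1 hV2 τ => ?_⟩
    obtain ⟨V, rfl⟩ := φ.surjective V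
    have := h2 V ((hφ V).mp hV) (by rw [← map_add] at hV1; exact (hφ _).mp hV1)
      (by rw [← map_sub] at hV2; exact (hφ _).mp hV2) τ
    rw [← map_smul, ← map_add]
    exact (hφ _).mpr this

theorem map_F0 : (F0 X).map (φ : (X →L[ℂ] X) →ₗ[ℂ] (Y →L[ℂ] Y)) = F0 Y := by
  rw [← span_star, ← span_star, Submodule.map_span]
  congr 1
  ext B
  constructor
  · rintro ⟨A, hA, rfl⟩
    exact (star_transfer φ hφ A).mpr hA
  · intro hB
    obtain ⟨A, rfl⟩ := φ.surjective B
    exact ⟨A, (star_transfer φ hφ A).mp hB, rfl⟩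

theorem mem_F0_iff (T : X →L[ℂ] X) : φ T ∈ F0 Y ↔ T ∈ F0 X := by
  rw [← map_F0 φ hφ]
  constructor
  · rintro ⟨S, hS, hST⟩
    have : S = T := φ.injective hST
    rwa [← this]
  · intro h
    exact ⟨T, h, rfl⟩

theorem star2_transfer (A : X →L[ℂ] X) : Star2 (φ A) ↔ Star2 A := by
  constructor
  · rintro ⟨h0, h1, h2⟩
    refine ⟨(mem_F0_iff φ hφ A).mp h0, (hφ A).mp h1, fun V hVF hV hV1 τ => ?_⟩
    have := h2 (φ V) ((mem_F0_iff φ hφ V).mpr hVF) ((hφ V).mpr hV)
      (by rw [← map_add]; exact (hφ _).mpr hV1) τ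
    rw [← map_smul, ← map_add] at this
    exact (hφ _).mp this
  · rintro ⟨h0, h1, h2⟩
    refine ⟨(mem_F0_iff φ hφ A).mpr h0, (hφ A).mpr h1, fun V hVF hV hV1 τ => ?_⟩
    obtain ⟨V, rfl⟩ := φ.surjective V
    have := h2 V ((mem_F0_iff φ hφ V).mp hVF) ((hφ V).mp hV)
      (by rw [← map_add] at hV1; exact (hφ _).mp hV1) τ
    rw [← map_smul, ← map_add]
    exact (hφ _).mpr this

theorem n1_transfer (A : X →L[ℂ] X) : N1 (φ A) ↔ N1 A := by
  rw [← star2_iff, ← star2_iff]
  exact star2_transfer φ hφ A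

end Transfer

/-- the evaluation pairing -/
noncomputable def evalP (X : Type*) [NormedAddCommGroup X] [NormedSpace ℂ X] :
    X →ₗ[ℂ] (X →L[ℂ] ℂ) →ₗ[ℂ] ℂ :=
  LinearMap.mk₂ ℂ (fun x f => f x) (fun x y f => map_add f x y) (fun c x f => map_smul f c x)
    (fun _ _ _ => rfl) (fun _ _ _ => rfl)

theorem evalP_apply (x : X) (f : X →L[ℂ] ℂ) : evalP X x f = f x := rfl

/-- the bilinear map attached to a linear map on operators -/
noncomputable def tenΨ (φ : (X →L[ℂ] X) →ₗ[ℂ] (Y →L[ℂ] Y)) :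
    X →ₗ[ℂ] (X →L[ℂ] ℂ) →ₗ[ℂ] (Y →L[ℂ] Y) :=
  LinearMap.mk₂ ℂ (fun x f => φ (ten x f))
    (fun x y f => by rw [ten_add_right, map_add])
    (fun c x f => by rw [ten_smul_left, map_smul])
    (fun x f g => by rw [ten_add_right', map_add])
    (fun c x f => by rw [ten_smul_right, map_smul])

theorem tenΨ_apply (φ : (X →L[ℂ] X) →ₗ[ℂ] (Y →L[ℂ] Y)) (x : X) (f : X →L[ℂ] ℂ) :
    tenΨ φ x f = φ (ten x f) := rfl

/-- two equations in three unknowns -/
theorem exists_comb3 (a b : Fin 3 → ℂ) :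
    ∃ t : Fin 3 → ℂ, t ≠ 0 ∧ ∑ i, t i * a i = 0 ∧ ∑ i, t i * b i = 0 := by
  let L : (Fin 3 → ℂ) →ₗ[ℂ] (Fin 2 → ℂ) :=
    { toFun := fun t => ![∑ i, t i * a i, ∑ i, t i * b i]
      map_add' := fun s t => by
        ext j; fin_cases j <;> simp [add_mul, Finset.sum_add_distrib]
      map_smul' := fun c t => by
        ext j; fin_cases j <;> simp [Finset.mul_sum, mul_assoc] }
  have hker : LinearMap.ker L ≠ ⊥ := by
    apply LinearMap.ker_ne_bot_of_finrank_lt
    simp
  obtain ⟨t, ht, ht0⟩ := Submodule.exists_mem_ne_zero_of_ne_bot hker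
  refine ⟨t, ht0, ?_, ?_⟩
  · have := congrFun (LinearMap.mem_ker.mp ht) 0
    simpa [L] using this
  · have := congrFun (LinearMap.mem_ker.mp ht) 1
    simpa [L] using this

theorem exists_comb2 (a : Fin 2 → ℂ) :
    ∃ t : Fin 2 → ℂ, t ≠ 0 ∧ ∑ i, t i * a i = 0 := by
  by_cases h : a 0 = 0
  · refine ⟨![1, 0], ?_, by simp [h]⟩
    intro h'
    have := congrFun h' 0
    simp at this
  · refine ⟨![-(a 1 / a 0), 1], ?_, ?_⟩
    · intro h'
      have := congrFun h' 1
      simp at this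
    · simp [h]

theorem exists_comb_vec {n : ℕ} {v : Fin n → X} (hv : LinearIndependent ℂ v) {t : Fin n → ℂ}
    (ht : t ≠ 0) : ∑ i, t i • v i ≠ 0 := by
  intro h
  rw [Fintype.linearIndependent_iff] at hv
  apply ht
  ext i
  exact hv t h i

theorem exists_dual_family {n : ℕ} {v : Fin n → X} (hv : LinearIndependent ℂ v) :
    ∃ f : Fin n → X →L[ℂ] ℂ, ∀ i j, f i (v j) = if i = j then 1 else 0 := by
  choose f hf using fun i : Fin n => exists_dual hv (fun j => if i = j then (1 : ℂ) else 0)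
  exact ⟨f, hf⟩

theorem exists_comb_dual {n : ℕ} {v : Fin n → X} {f : Fin n → X →L[ℂ] ℂ}
    (hf : ∀ i j, f i (v j) = if i = j then 1 else 0) {t : Fin n → ℂ}
    (ht : t ≠ 0) : ∑ i, t i • f i ≠ 0 := by
  intro h
  apply ht
  ext j
  have h1 : (∑ i, t i • f i) (v j) = 0 := by rw [h]; rfl
  rw [sum_apply] at h1
  have h2 : ∀ i, (t i • f i) (v j) = if i = j then t i else 0 := by
    intro i
    show t i * f i (v j) = _
    rw [hf]; split_ifs <;> simp
  rw [Finset.sum_congr rfl (fun i _ => h2 i), Finset.sum_ite_eq' Finset.univ j] at h1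
  simpa using h1

theorem dual_data [CompleteSpace X] [CompleteSpace Y] (φ : (X →L[ℂ] X) ≃ₗ[ℂ] (Y →L[ℂ] Y))
    (hφ : ∀ T, spectralRadius ℂ (φ T) = 0 ↔ spectralRadius ℂ T = 0)
    {v : Fin 2 → X} (hv : LinearIndependent ℂ v) :
    DualData (evalP X) (tenΨ (φ : (X →L[ℂ] X) →ₗ[ℂ] (Y →L[ℂ] Y))) where
  ndl := fun x hx => by
    obtain ⟨f, hf⟩ := SeparatingDual.exists_eq_one (R := ℂ) hx
    exact ⟨f, by rw [evalP_apply, hf]; exact one_ne_zero⟩
  ndr := fun f hf => by
    obtain ⟨w, hw⟩ := exists_apply_one hf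
    exact ⟨w, by rw [evalP_apply, hw]; exact one_ne_zero⟩
  n1 := fun x f h => (n1_transfer φ hφ _).mpr ⟨x, f, h, rfl⟩
  ne := fun x f h hx hf h0 => by
    rw [tenΨ_apply] at h0
    have h1 : φ (ten x f) = 0 := h0
    rw [LinearEquiv.map_eq_zero_iff, ten_eq_zero_iff] at h1
    rcases h1 with h1 | h1
    · exact hx h1
    · exact hf h1
  r2 := fun x x' f f' h h' hx hxx hf hff h0 => by
    rw [tenΨ_apply, tenΨ_apply] at h0
    have h1 : N1 (φ (ten x f + ten x' f')) := by rw [map_add]; exact h0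
    rw [n1_transfer φ hφ] at h1
    obtain ⟨z, k, -, hz⟩ := h1
    rcases rank_sum hx hf hz with h2 | h2
    · exact hxx h2
    · exact hff h2
  d1 := fun x => by
    obtain ⟨f, hf⟩ := exists_dual_family hv
    obtain ⟨t, ht, h1⟩ := exists_comb2 (fun i => f i x)
    refine ⟨∑ i, t i • f i, exists_comb_dual hf ht, ?_⟩
    rw [evalP_apply, sum_apply]
    exact h1
  d1' := fun f => by
    obtain ⟨t, ht, h1⟩ := exists_comb2 (fun i => f (v i))
    refine ⟨∑ i, t i • v i, exists_comb_vec hv ht, ?_⟩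
    rw [evalP_apply, map_sum]
    simpa using h1
  surj := fun B hB => by
    obtain ⟨A, rfl⟩ := φ.surjective B
    rw [n1_transfer φ hφ] at hB
    obtain ⟨x, f, h, rfl⟩ := hB
    exact ⟨x, f, h, rfl⟩

theorem d3 {v : Fin 3 → X} (hv : LinearIndependent ℂ v) :
    (∀ x x', ∃ f : X →L[ℂ] ℂ, f ≠ 0 ∧ evalP X x f = 0 ∧ evalP X x' f = 0) ∧
    (∀ f f' : X →L[ℂ] ℂ, ∃ x, x ≠ 0 ∧ evalP X x f = 0 ∧ evalP X x f' = 0) := by
  constructor
  · intro x x'
    obtain ⟨f, hf⟩ := exists_dual_family hv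
    obtain ⟨t, ht, h1, h2⟩ := exists_comb3 (fun i => f i x) (fun i => f i x')
    refine ⟨∑ i, t i • f i, exists_comb_dual hf ht, ?_, ?_⟩
    · rw [evalP_apply, sum_apply]; exact h1
    · rw [evalP_apply, sum_apply]; exact h2
  · intro f f'
    obtain ⟨t, ht, h1, h2⟩ := exists_comb3 (fun i => f (v i)) (fun i => f' (v i))
    refine ⟨∑ i, t i • v i, exists_comb_vec hv ht, ?_, ?_⟩
    · rw [evalP_apply, map_sum]; simpa using h1
    · rw [evalP_apply, map_sum]; simpa using h2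

/-- in dimension two all pairs are of the first type -/
theorem types_dim_two
    (h3 : ¬ ∃ w : Fin 3 → X, LinearIndependent ℂ w)
    {Ψ : X →ₗ[ℂ] (X →L[ℂ] ℂ) →ₗ[ℂ] (Y →L[ℂ] Y)} (D : DualData (evalP X) Ψ) :
    (∀ x, x ≠ 0 → ∃ y : Y, y ≠ 0 ∧ ∀ f, evalP X x f = 0 → ∃ g : Y →L[ℂ] ℂ, Ψ x f = ten y g) ∧
    (∀ f, f ≠ 0 → ∃ g : Y →L[ℂ] ℂ, g ≠ 0 ∧ ∀ x, evalP X x f = 0 → ∃ y : Y,
      Ψ x f = ten y g) := by
  constructor
  · intro x hx
    obtain ⟨f0, hf0, hP0⟩ := D.d1 x
    obtain ⟨y, g, -, hyg⟩ := D.n1 x f0 hP0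
    have hne := D.ne x f0 hP0 hx hf0
    refine ⟨y, ?_, ?_⟩
    · rintro rfl
      exact hne (by rw [hyg]; exact ten_eq_zero_iff.mpr (Or.inl rfl))
    intro f hf
    have hpar : ∃ c : ℂ, f = c • f0 := by
      by_contra hcon
      obtain ⟨⟨w1, a1, a2⟩, ⟨w0, a3, a4⟩⟩ := exists_sep hf0 hcon
      apply h3
      refine ⟨![x, w0, w1], ?_⟩
      rw [Fintype.linearIndependent_iff]
      intro t ht
      rw [Fin.sum_univ_three] at ht
      have ht' : t 0 • x + t 1 • w0 + t 2 • w1 = 0 := ht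
      have e1 : t 1 = 0 := by
        have := congrArg f0 ht'
        rw [map_add, map_add, map_smul, map_smul, map_smul, a1, a3, map_zero] at this
        have hP0' : f0 x = 0 := hP0
        rw [hP0'] at this
        simpa using this
      have e2 : t 2 = 0 := by
        have := congrArg f ht'
        rw [map_add, map_add, map_smul, map_smul, map_smul, a2, a4, map_zero] at this
        have hf' : f x = 0 := hf
        rw [hf'] at this
        simpa using this
      have e0 : t 0 = 0 := by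
        rw [e1, e2, zero_smul, zero_smul, add_zero, add_zero] at ht'
        exact (smul_eq_zero.mp ht').resolve_right hx
      intro i
      fin_cases i
      · exact e0
      · exact e1
      · exact e2
    obtain ⟨c, rfl⟩ := hpar
    refine ⟨c • g, ?_⟩
    rw [map_smul, hyg, ten_smul_right]
  · intro f hf
    obtain ⟨x0, hx0, hP0⟩ := D.d1' f
    obtain ⟨y, g, -, hyg⟩ := D.n1 x0 f hP0
    have hne := D.ne x0 f hP0 hx0 hf
    refine ⟨g, ?_, ?_⟩
    · rintro rfl
      exact hne (by rw [hyg]; exact ten_eq_zero_iff.mpr (Or.inr rfl))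
    intro x hx
    have hpar : ∃ c : ℂ, x = c • x0 := by
      by_contra hcon
      obtain ⟨w, hw⟩ := exists_apply_one hf
      apply h3
      refine ⟨![x0, x, w], ?_⟩
      have hli : LinearIndependent ℂ ![x0, x] := by
        rw [LinearIndependent.pair_iff' hx0]
        intro a ha
        exact hcon ⟨a, ha.symm⟩
      rw [LinearIndependent.pair_iff] at hli
      rw [Fintype.linearIndependent_iff]
      intro t ht
      rw [Fin.sum_univ_three] at ht
      have ht' : t 0 • x0 + t 1 • x + t 2 • w = 0 := ht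
      have hP0' : f x0 = 0 := hP0
      have hf' : f x = 0 := hx
      have e2 : t 2 = 0 := by
        have := congrArg f ht'
        rw [map_add, map_add, map_smul, map_smul, map_smul, hw, map_zero, hP0', hf'] at this
        simpa using this
      rw [e2, zero_smul, add_zero] at ht'
      obtain ⟨e0, e1⟩ := hli _ _ ht'
      intro i
      fin_cases i
      · exact e0
      · exact e1
      · exact e2
    obtain ⟨c, rfl⟩ := hpar
    refine ⟨c • y, ?_⟩
    rw [map_smul, LinearMap.smul_apply, hyg, ten_smul_left]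

end Pool.Agent.H.MP_bb4c62_an.helper6.Gadgets
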