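import Pool.Agent.H.MP_bb4c62_an.helper6.Structure

/-!
Dual pair form of the structure theorem.
-/

namespace Pool.Agent.H.MP_bb4c62_an.helper6.Gadgets

open Complex Metric Set Filter Topology
open Pool.Agent.H.MP_bb4c62_an.helper6.Perturb

variable {E E' : Type*} [AddCommGroup E] [Module ℂ E] [AddCommGroup E'] [Module ℂ E']
variable {Y : Type*} [NormedAddCommGroup Y] [NormedSpace ℂ Y]

/-- pointwise proportional linear maps are proportional -/
theorem prop_of_pointwise {F : Type*} [AddCommGroup F] [Module ℂ F] (L A : E →ₗ[ℂ] F)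
    (W : Submodule ℂ E) (hinj : ∀ x ∈ W, A x = 0 → x = 0)
    (h : ∀ x ∈ W, ∃ a : ℂ, L x = a • A x) : ∃ a : ℂ, ∀ x ∈ W, L x = a • A x := by
  by_cases hW : ∀ x ∈ W, x = 0
  · refine ⟨0, fun x hx => ?_⟩
    rw [hW x hx]; simp
  push Not at hW
  obtain ⟨x0, hx0, hx00⟩ := hW
  obtain ⟨a, ha⟩ := h x0 hx0
  refine ⟨a, fun x hx => ?_⟩
  obtain ⟨b, hb⟩ := h x hx
  obtain ⟨c, hc⟩ := h (x + x0) (W.add_mem hx hx0)
  have h1 : A ((c - b) • x + (c - a) • x0) = 0 := by
    rw [map_add, map_smul, map_smul]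
    rw [map_add, map_add, ha, hb] at hc
    have : (c - b) • A x + (c - a) • A x0 = c • (A x + A x0) - (b • A x + a • A x0) := by module
    rw [this, ← hc, sub_self]
  have h2 := hinj _ (W.add_mem (W.smul_mem _ hx) (W.smul_mem _ hx0)) h1
  by_cases hcb : c = b
  · rw [hcb, sub_self, zero_smul, zero_add] at h2
    rcases smul_eq_zero.mp h2 with h3 | h3
    · rw [hb, sub_eq_zero.mp h3]
    · exact absurd h3 hx00
  · have hcb' : c - b ≠ 0 := sub_ne_zero.mpr hcb
    have hx' : x = (-(c - b)⁻¹ * (c - a)) • x0 := by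
      have h3 : (c - b) • x = -((c - a) • x0) := eq_neg_of_add_eq_zero_left h2
      have h4 : x = (c - b)⁻¹ • ((c - b) • x) := by
        rw [smul_smul, inv_mul_cancel₀ hcb', one_smul]
      rw [h4, h3, smul_neg, smul_smul, neg_mul, neg_smul]
    rw [hx', map_smul, map_smul, ha, smul_comm]

theorem dual_smul_inj {g : Y →L[ℂ] ℂ} (hg : g ≠ 0) {a b : ℂ} (h : a • g = b • g) : a = b := by
  by_contra hab
  apply hg
  ext w
  have h1 : (a • g) w = (b • g) w := by rw [h]
  have h2 : a * g w = b * g w := h1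
  have h3 : (a - b) * g w = 0 := by linear_combination h2
  rcases mul_eq_zero.mp h3 with h4 | h4
  · exact absurd (sub_eq_zero.mp h4) hab
  · exact h4

/-- abstract data: a nondegenerate pairing and a bilinear operator valued map which sends
the isotropic pairs to rank one nilpotents -/
structure DualData (P : E →ₗ[ℂ] E' →ₗ[ℂ] ℂ) (Ψ : E →ₗ[ℂ] E' →ₗ[ℂ] (Y →L[ℂ] Y)) : Prop where
  ndl : ∀ x, x ≠ 0 → ∃ f, P x f ≠ 0
  ndr : ∀ f, f ≠ 0 → ∃ x, P x f ≠ 0
  n1 : ∀ x f, P x f = 0 → N1 (Ψ x f)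
  ne : ∀ x f, P x f = 0 → x ≠ 0 → f ≠ 0 → Ψ x f ≠ 0
  r2 : ∀ x x' f f', P x f = 0 → P x' f' = 0 → x ≠ 0 → (¬ ∃ c : ℂ, x' = c • x) → f ≠ 0 →
    (¬ ∃ c : ℂ, f' = c • f) → ¬ N1 (Ψ x f + Ψ x' f')
  d1 : ∀ x, ∃ f, f ≠ 0 ∧ P x f = 0
  d1' : ∀ f, ∃ x, x ≠ 0 ∧ P x f = 0
  surj : ∀ B, N1 B → ∃ x f, P x f = 0 ∧ Ψ x f = B

variable {P : E →ₗ[ℂ] E' →ₗ[ℂ] ℂ} {Ψ : E →ₗ[ℂ] E' →ₗ[ℂ] (Y →L[ℂ] Y)}

theorem core (D : DualData P Ψ)
    (TL : ∀ x, x ≠ 0 → ∃ y : Y, y ≠ 0 ∧ ∀ f, P x f = 0 → ∃ g : Y →L[ℂ] ℂ, Ψ x f = ten y g)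
    (TR : ∀ f, f ≠ 0 → ∃ g : Y →L[ℂ] ℂ, g ≠ 0 ∧ ∀ x, P x f = 0 → ∃ y : Y, Ψ x f = ten y g)
    {e : E} {e' : E'} (he : P e e' = 1) :
    ∃ (A : E →ₗ[ℂ] Y) (κ : E' →ₗ[ℂ] (Y →L[ℂ] ℂ)) (K : Y →L[ℂ] Y),
      ∀ x f, Ψ x f = ten (A x) (κ f) + P x f • K := by
  have he0 : e ≠ 0 := by
    rintro rfl
    rw [map_zero, LinearMap.zero_apply] at he
    exact zero_ne_one he
  have he'0 : e' ≠ 0 := by
    rintro rfl
    rw [map_zero] at he
    exact zero_ne_one he
  obtain ⟨y0, hy0, hTe⟩ := TL e he0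
  obtain ⟨g0, hg0, hTe'⟩ := TR e' he'0
  obtain ⟨η, hη⟩ := SeparatingDual.exists_eq_one (R := ℂ) hy0
  obtain ⟨w, hw⟩ : ∃ w, g0 w = 1 := by
    by_contra hcon
    push Not at hcon
    apply hg0
    ext v
    by_contra hv
    apply hcon ((g0 v)⁻¹ • v)
    rw [map_smul, smul_eq_mul, inv_mul_cancel₀ hv]
  -- the two linear maps
  let A1 : E →ₗ[ℂ] Y :=
    { toFun := fun x => Ψ x e' w
      map_add' := fun x y => by simp
      map_smul' := fun c x => by simp }
  let κ1 : E' →ₗ[ℂ] (Y →L[ℂ] ℂ) :=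
    { toFun := fun f => η.comp (Ψ e f)
      map_add' := fun x y => by rw [map_add, ContinuousLinearMap.comp_add]
      map_smul' := fun c x => by rw [map_smul, ContinuousLinearMap.comp_smul]; rfl }
  have hA1 : ∀ x, A1 x = Ψ x e' w := fun _ => rfl
  have hκ1 : ∀ f, κ1 f = η.comp (Ψ e f) := fun _ => rfl
  have h1 : ∀ x, P x e' = 0 → Ψ x e' = ten (A1 x) g0 := by
    intro x hx
    obtain ⟨y, hy⟩ := hTe' x hx
    rw [hA1, hy, ten_apply, hw, one_smul]
  have h2 : ∀ f, P e f = 0 → Ψ e f = ten y0 (κ1 f) := by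
    intro f hf
    obtain ⟨g, hg⟩ := hTe f hf
    have : κ1 f = g := by
      rw [hκ1, hg]
      ext v
      show η (g v • y0) = g v
      rw [map_smul, hη, smul_eq_mul, mul_one]
    rw [this, hg]
  have hA1ne : ∀ x, P x e' = 0 → x ≠ 0 → A1 x ≠ 0 := by
    intro x hx hx0 h
    apply D.ne x e' hx hx0 he'0
    rw [h1 x hx, h]
    exact ten_eq_zero_iff.mpr (Or.inl rfl)
  have hκ1ne : ∀ f, P e f = 0 → f ≠ 0 → κ1 f ≠ 0 := by
    intro f hf hf0 h
    apply D.ne e f hf he0 hf0
    rw [h2 f hf, h]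
    exact ten_eq_zero_iff.mpr (Or.inr rfl)
  have hg0A : ∀ x, P x e' = 0 → g0 (A1 x) = 0 := by
    intro x hx
    have := D.n1 x e' hx
    rw [h1 x hx] at this
    exact n1_ten_iff.mp this
  have hκy0 : ∀ f, P e f = 0 → κ1 f y0 = 0 := by
    intro f hf
    have := D.n1 e f hf
    rw [h2 f hf] at this
    exact n1_ten_iff.mp this
  have hr2 : ∀ x f, P x e' = 0 → P e f = 0 → P x f ≠ 0 → ¬ N1 (Ψ e f + Ψ x e') := by
    intro x f hx hf hp
    refine D.r2 e x f e' hf hx he0 ?_ ?_ ?_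
    · rintro ⟨c, rfl⟩
      rw [map_smul, LinearMap.smul_apply, he] at hx
      have hc : c = 0 := by simpa using hx
      apply hp
      rw [hc]; simp
    · rintro rfl
      apply hp; simp
    · rintro ⟨c, hc⟩
      rw [hc, map_smul, smul_eq_mul] at hx
      have hc0 : c = 0 := (mul_eq_zero.mp hx).resolve_right hp
      apply he'0
      rw [hc, hc0, zero_smul]
  have hc : ∀ x, P x e' = 0 → x ≠ 0 → ¬ ∃ c : ℂ, A1 x = c • y0 := by
    rintro x hx hx0 ⟨c, hc⟩
    obtain ⟨h, hh⟩ := D.ndl x hx0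
    have k1 : P e (h - P e h • e') = 0 := by
      rw [map_sub, map_smul, he]; simp
    have k2 : P x (h - P e h • e') ≠ 0 := by
      rw [map_sub, map_smul, hx]; simpa using hh
    apply hr2 x _ hx k1 k2
    rw [h2 _ k1, h1 x hx, hc, ten_smul_left, ← ten_smul_right, ← ten_add_right', n1_ten_iff]
    show κ1 (h - P e h • e') y0 + c * g0 y0 = 0
    rw [hκy0 _ k1, zero_add]
    have := hg0A x hx
    rw [hc, map_smul, smul_eq_mul] at this
    exact this
  have hc' : ∀ f, P e f = 0 → f ≠ 0 → ¬ ∃ c : ℂ, g0 = c • κ1 f := by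
    rintro f hf hf0 ⟨c, hc⟩
    obtain ⟨h, hh⟩ := D.ndr f hf0
    have k1 : P (h - P h e' • e) e' = 0 := by
      rw [map_sub, map_smul]; simp [he]
    have k2 : P (h - P h e' • e) f ≠ 0 := by
      rw [map_sub, map_smul]
      simpa [hf] using hh
    apply hr2 _ f k1 hf k2
    set x := h - P h e' • e with hx
    have h3 := hg0A x k1
    rw [h2 f hf, h1 x k1]
    rw [hc, ten_smul_right, ← ten_smul_left, ← ten_add_right, n1_ten_iff, map_add, hκy0 f hf,
      zero_add, map_smul, smul_eq_mul]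
    rw [hc] at h3
    exact h3
  -- the corrected bilinear map
  have main : ∀ x f, P x e' = 0 → P e f = 0 → x ≠ 0 → f ≠ 0 → ∃ α β : ℂ, α ≠ 0 ∧
      α * β = P x f ∧ Ψ x f - P x f • Ψ e e' = α • ten (A1 x) (κ1 f) - β • ten y0 g0 := by
    intro x f hx hf hx0 hf0
    by_cases hp : P x f = 0
    · obtain ⟨yx, hyx, hTx⟩ := TL x hx0
      obtain ⟨gf, hgf, hTf⟩ := TR f hf0
      obtain ⟨g', hg'⟩ := hTx e' hx
      obtain ⟨g'', hg''⟩ := hTx f hp
      obtain ⟨y', hy'⟩ := hTf e hf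
      obtain ⟨y'', hy''⟩ := hTf x hp
      have e1 : A1 x = g' w • yx := by rw [hA1, hg', ten_apply]
      have e2 : κ1 f = η y' • gf := by
        rw [hκ1, hy']
        ext v
        show η (gf v • y') = η y' * gf v
        rw [map_smul, smul_eq_mul, mul_comm]
      have hA1x := hA1ne x hx hx0
      have hκ1f := hκ1ne f hf hf0
      have hg'w : g' w ≠ 0 := by
        intro h; rw [h, zero_smul] at e1; exact hA1x e1
      have hηy' : η y' ≠ 0 := by
        intro h; apply hκ1f; rw [e2, h]; ext v; simp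
      have e3 : yx = (g' w)⁻¹ • A1 x := by
        rw [e1, smul_smul, inv_mul_cancel₀ hg'w, one_smul]
      have e4 : gf = (η y')⁻¹ • κ1 f := by
        rw [e2, smul_smul, inv_mul_cancel₀ hηy', one_smul]
      obtain ⟨v, hv⟩ : ∃ v, κ1 f v = 1 := by
        by_contra hcon
        push Not at hcon
        apply hκ1f
        ext v
        by_contra hv
        apply hcon ((κ1 f v)⁻¹ • v)
        rw [map_smul, smul_eq_mul, inv_mul_cancel₀ hv]
      have e5 : g'' v • yx = (η y')⁻¹ • y'' := by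
        have h3 : Ψ x f v = g'' v • yx := by rw [hg'', ten_apply]
        have h4 : Ψ x f v = (η y')⁻¹ • y'' := by
          rw [hy'', ten_apply, e4]
          show ((η y')⁻¹ * κ1 f v) • y'' = _
          rw [hv, mul_one]
        rw [← h3, h4]
      refine ⟨g'' v * (g' w)⁻¹, 0, ?_, ?_, ?_⟩
      · intro h
        have h3 : g'' v = 0 := by
          rcases mul_eq_zero.mp h with h4 | h4
          · exact h4
          · exact absurd h4 (inv_ne_zero hg'w)
        rw [h3, zero_smul] at e5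
        have h4 : y'' = 0 := by
          rcases smul_eq_zero.mp e5.symm with h5 | h5
          · exact absurd h5 (inv_ne_zero hηy')
          · exact h5
        apply D.ne x f hp hx0 hf0
        rw [hy'', h4]
        exact ten_eq_zero_iff.mpr (Or.inl rfl)
      · rw [mul_zero, hp]
      · rw [hp, zero_smul, sub_zero, zero_smul, sub_zero, hy'', e4, ten_smul_right,
          ← ten_smul_left, ← e5, e3, smul_smul, ten_smul_left]
    · -- the determinant argument
      have hκ1f := hκ1ne f hf hf0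
      obtain ⟨⟨η1, a1, a2⟩, ⟨η0, a3, a4⟩⟩ := exists_sep' hy0 (hc x hx hx0)
      obtain ⟨⟨w1, b1, b2⟩, ⟨w0, b3, b4⟩⟩ := exists_sep hκ1f (hc' f hf hf0)
      obtain ⟨α, β, hαβ, hZ⟩ := lemma_z (y0 := y0) (a := A1 x) (κ := κ1 f) (g0 := g0)
        (Z := Ψ x f - P x f • Ψ e e') hp a3 a4 a2 b3 b4 b2 (by
          intro s
          have hP : P (e + s • x) (f - (s * P x f) • e') = 0 := by
            simp only [map_add, map_sub, map_smul, LinearMap.add_apply, LinearMap.smul_apply,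
              smul_eq_mul, hf, he, hx]
            ring
          obtain ⟨y, g, -, hyg⟩ := D.n1 _ _ hP
          refine ⟨y, g, ?_⟩
          rw [← hyg]
          simp only [map_add, map_sub, map_smul, LinearMap.add_apply, LinearMap.smul_apply]
          rw [h2 f hf, h1 x hx]
          module)
      refine ⟨α, β, ?_, hαβ, hZ⟩
      rintro rfl
      rw [zero_mul] at hαβ
      exact hp hαβ.symm
  -- the constant
  obtain ⟨x1, hx10, hx1⟩ := D.d1' e'
  obtain ⟨f1, hf10, hf1⟩ := D.d1 e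
  have hconst : ∃ a : ℂ, ∀ x f, P x e' = 0 → P e f = 0 → x ≠ 0 → f ≠ 0 →
      ∀ α β : ℂ, Ψ x f - P x f • Ψ e e' = α • ten (A1 x) (κ1 f) - β • ten y0 g0 → α = a := by
    obtain ⟨⟨η1, a1, a2⟩, -⟩ := exists_sep' hy0 (hc x1 hx1 hx10)
    -- first variable fixed
    let L' : E' →ₗ[ℂ] (Y →L[ℂ] ℂ) :=
      { toFun := fun f => η1.comp (Ψ x1 f - P x1 f • Ψ e e')
        map_add' := fun x y => by
          rw [map_add, map_add, add_smul, ← ContinuousLinearMap.comp_add]
          congr 1; abel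
        map_smul' := fun c x => by
          rw [map_smul, map_smul, smul_eq_mul, mul_smul, ← smul_sub,
            ContinuousLinearMap.comp_smul]; rfl }
    have hL' : ∀ f, L' f = η1.comp (Ψ x1 f - P x1 f • Ψ e e') := fun _ => rfl
    have hval : ∀ (f : E') (α β : ℂ), Ψ x1 f - P x1 f • Ψ e e' = α • ten (A1 x1) (κ1 f) - β • ten y0 g0 →
        L' f = α • κ1 f := by
      intro f α β h
      rw [hL', h]
      ext v
      show η1 (α • (κ1 f v • A1 x1) - β • (g0 v • y0)) = α * κ1 f v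
      simp only [map_sub, map_smul, smul_eq_mul, a1, a2]
      ring
    obtain ⟨a, ha⟩ := prop_of_pointwise L' κ1 (LinearMap.ker (P e)) (by
      intro f hf h
      by_contra hf0
      exact hκ1ne f hf hf0 h) (by
      intro f hf
      by_cases hf0 : f = 0
      · exact ⟨0, by rw [hf0]; simp⟩
      · obtain ⟨α, β, -, -, h⟩ := main x1 f hx1 hf hx10 hf0
        exact ⟨α, hval f α β h⟩)
    have hax1 : ∀ f, P e f = 0 → f ≠ 0 → ∀ α β : ℂ,
        Ψ x1 f - P x1 f • Ψ e e' = α • ten (A1 x1) (κ1 f) - β • ten y0 g0 → α = a := by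
      intro f hf hf0 α β h
      have h3 := hval f α β h
      rw [ha f hf] at h3
      exact (dual_smul_inj (hκ1ne f hf hf0) h3).symm
    refine ⟨a, ?_⟩
    intro x f hx hf hx0 hf0 α β h
    obtain ⟨-, ⟨w0, b3, b4⟩⟩ := exists_sep (hκ1ne f hf hf0) (hc' f hf hf0)
    let L : E →ₗ[ℂ] Y :=
      { toFun := fun x => (Ψ x f - P x f • Ψ e e') w0
        map_add' := fun x y => by
          simp only [map_add, LinearMap.add_apply, add_smul]
          show (Ψ x f + Ψ y f) w0 - (P x f • Ψ e e' + P y f • Ψ e e') w0 =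
            (Ψ x f w0 - (P x f • Ψ e e') w0) + (Ψ y f w0 - (P y f • Ψ e e') w0)
          rw [add_apply, add_apply]; abel
        map_smul' := fun c x => by
          simp only [map_smul, LinearMap.smul_apply, smul_eq_mul, mul_smul, RingHom.id_apply]
          rw [← smul_sub]; rfl }
    have hL : ∀ x, L x = (Ψ x f - P x f • Ψ e e') w0 := fun _ => rfl
    have hval' : ∀ (x : E) (α β : ℂ), Ψ x f - P x f • Ψ e e' = α • ten (A1 x) (κ1 f) - β • ten y0 g0 →
        L x = α • A1 x := by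
      intro x α β h
      rw [hL, h]
      show α • (κ1 f w0 • A1 x) - β • (g0 w0 • y0) = α • A1 x
      rw [b3, b4]; simp
    obtain ⟨b, hb⟩ := prop_of_pointwise L A1 (LinearMap.ker (P.flip e')) (by
      intro x hx h
      by_contra hx0
      exact hA1ne x hx hx0 h) (by
      intro x hx
      by_cases hx0 : x = 0
      · exact ⟨0, by rw [hx0]; simp⟩
      · obtain ⟨α, β, -, -, h⟩ := main x f hx hf hx0 hf0
        exact ⟨α, hval' x α β h⟩)
    have hbx : ∀ x, P x e' = 0 → x ≠ 0 → ∀ α β : ℂ,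
        Ψ x f - P x f • Ψ e e' = α • ten (A1 x) (κ1 f) - β • ten y0 g0 → α = b := by
      intro x hx hx0 α β h
      have h3 := hval' x α β h
      rw [hb x hx] at h3
      have h4 : (α - b) • A1 x = 0 := by rw [sub_smul, ← h3, sub_self]
      rcases smul_eq_zero.mp h4 with h5 | h5
      · exact sub_eq_zero.mp h5
      · exact absurd h5 (hA1ne x hx hx0)
    obtain ⟨α', β', -, -, h'⟩ := main x1 f hx1 hf hx10 hf0
    rw [hbx x hx hx0 α β h, ← hbx x1 hx1 hx10 α' β' h', hax1 f hf hf0 α' β' h']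
  obtain ⟨a, ha⟩ := hconst
  have ha0 : a ≠ 0 := by
    obtain ⟨α, β, hα, -, h⟩ := main x1 f1 hx1 hf1 hx10 hf10
    rw [← ha x1 f1 hx1 hf1 hx10 hf10 α β h]
    exact hα
  have hall : ∀ x f, P x e' = 0 → P e f = 0 →
      Ψ x f = P x f • Ψ e e' + a • ten (A1 x) (κ1 f) - (P x f * a⁻¹) • ten y0 g0 := by
    intro x f hx hf
    by_cases hx0 : x = 0
    · rw [hx0]
      simp only [map_zero, LinearMap.zero_apply, zero_smul, zero_mul, sub_zero, zero_add]
      rw [ten_eq_zero_iff.mpr (Or.inl rfl), smul_zero]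
    by_cases hf0 : f = 0
    · rw [hf0]
      simp only [map_zero, zero_smul, zero_mul, sub_zero, zero_add]
      rw [ten_eq_zero_iff.mpr (Or.inr rfl), smul_zero]
    obtain ⟨α, β, hα, hαβ, h⟩ := main x f hx hf hx0 hf0
    have hαa := ha x f hx hf hx0 hf0 α β h
    rw [hαa] at h hαβ
    have hβ : β = P x f * a⁻¹ := by rw [← hαβ]; field_simp
    rw [hβ] at h
    rw [add_sub_assoc, ← h]
    abel
  -- the final maps
  let A : E →ₗ[ℂ] Y :=
    { toFun := fun x => P x e' • y0 + a • A1 (x - P x e' • e)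
      map_add' := fun x y => by
        simp only [map_add, LinearMap.add_apply, map_sub, map_smul]; module
      map_smul' := fun c x => by
        simp only [map_smul, LinearMap.smul_apply, map_sub, smul_eq_mul, RingHom.id_apply]
        module }
  let κ : E' →ₗ[ℂ] (Y →L[ℂ] ℂ) :=
    { toFun := fun f => (P e f * a⁻¹) • g0 + κ1 (f - P e f • e')
      map_add' := fun x y => by
        simp only [map_add, map_sub, map_smul]; module
      map_smul' := fun c x => by
        simp only [map_smul, map_sub, smul_eq_mul, RingHom.id_apply]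
        module }
  refine ⟨A, κ, Ψ e e' - a⁻¹ • ten y0 g0, fun x f => ?_⟩
  set t := P x e' with ht
  set t' := P e f with ht'
  set x' := x - t • e with hx'
  set f' := f - t' • e' with hf'
  have k1 : P x' e' = 0 := by
    rw [hx', map_sub, map_smul, LinearMap.sub_apply, LinearMap.smul_apply, he, ht]; simp
  have k2 : P e f' = 0 := by
    rw [hf', map_sub, map_smul, he, ht']; simp
  have hxd : x = t • e + x' := by rw [hx']; abel
  have hfd : f = t' • e' + f' := by rw [hf']; abel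
  have hPxf : P x f = t * t' + P x' f' := by
    conv_lhs => rw [hxd, hfd]
    simp only [map_add, map_smul, LinearMap.add_apply, LinearMap.smul_apply, smul_eq_mul, he, k1,
      k2]
    ring
  have hΨxf : Ψ x f = (t * t') • Ψ e e' + t • Ψ e f' + t' • Ψ x' e' + Ψ x' f' := by
    conv_lhs => rw [hxd, hfd]
    simp only [map_add, map_smul, LinearMap.add_apply, LinearMap.smul_apply]
    module
  have hAx : A x = t • y0 + a • A1 x' := rfl
  have hκf : κ f = (t' * a⁻¹) • g0 + κ1 f' := rfl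
  rw [hΨxf, hall x' f' k1 k2, h2 f' k2, h1 x' k1, hPxf, hAx, hκf]
  rw [ten_add_right', ten_add_right, ten_add_right, ten_smul_right, ten_smul_right,
    ten_smul_left, ten_smul_left, ten_smul_left, ten_smul_left]
  have e1 : (t' * a⁻¹) • a • ten (A1 x') g0 = t' • ten (A1 x') g0 := by
    rw [smul_smul, mul_assoc, inv_mul_cancel₀ ha0, mul_one]
  rw [e1]
  module

end Pool.Agent.H.MP_bb4c62_an.helper6.Gadgets
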