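import Pool.Agent.H.MP_bb4c62_an.helper6.Dual

/-!
Dual pair form of the structure theorem, part two: surjectivity, continuity, the two types.
-/

namespace Pool.Agent.H.MP_bb4c62_an.helper6.Gadgets

open Complex Metric Set Filter Topology
open Pool.Agent.H.MP_bb4c62_an.helper6.Perturb

variable {E E' : Type*} [AddCommGroup E] [Module ℂ E] [AddCommGroup E'] [Module ℂ E']
variable {Y : Type*} [NormedAddCommGroup Y] [NormedSpace ℂ Y]
variable {P : E →ₗ[ℂ] E' →ₗ[ℂ] ℂ} {Ψ : E →ₗ[ℂ] E' →ₗ[ℂ] (Y →L[ℂ] Y)}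

theorem exists_apply_one {g : Y →L[ℂ] ℂ} (hg : g ≠ 0) : ∃ w, g w = 1 := by
  by_contra hcon
  push Not at hcon
  apply hg
  ext v
  by_contra hv
  apply hcon ((g v)⁻¹ • v)
  rw [map_smul, smul_eq_mul, inv_mul_cancel₀ hv]

theorem core2 (D : DualData P Ψ)
    (TL : ∀ x, x ≠ 0 → ∃ y : Y, y ≠ 0 ∧ ∀ f, P x f = 0 → ∃ g : Y →L[ℂ] ℂ, Ψ x f = ten y g)
    (TR : ∀ f, f ≠ 0 → ∃ g : Y →L[ℂ] ℂ, g ≠ 0 ∧ ∀ x, P x f = 0 → ∃ y : Y, Ψ x f = ten y g)
    {e : E} {e' : E'} (he : P e e' = 1) :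
    ∃ (A : E →ₗ[ℂ] Y) (κ : E' →ₗ[ℂ] (Y →L[ℂ] ℂ)) (c : ℂ), c ≠ 0 ∧ Function.Bijective A ∧
      Function.Bijective κ ∧ (∀ x f, κ f (A x) = c * P x f) ∧
      ∀ x f, P x f = 0 → Ψ x f = ten (A x) (κ f) := by
  obtain ⟨A, κ, K, hAκ⟩ := core D TL TR he
  have hΨ : ∀ x f, P x f = 0 → Ψ x f = ten (A x) (κ f) := by
    intro x f h
    rw [hAκ x f, h, zero_smul, add_zero]
  have hB0 : ∀ x f, P x f = 0 → κ f (A x) = 0 := by
    intro x f h
    have := D.n1 x f h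
    rw [hΨ x f h] at this
    exact n1_ten_iff.mp this
  have hAne : ∀ x, x ≠ 0 → A x ≠ 0 := by
    intro x hx h
    obtain ⟨f, hf, hP⟩ := D.d1 x
    apply D.ne x f hP hx hf
    rw [hΨ x f hP, h]
    exact ten_eq_zero_iff.mpr (Or.inl rfl)
  have hκne : ∀ f, f ≠ 0 → κ f ≠ 0 := by
    intro f hf h
    obtain ⟨x, hx, hP⟩ := D.d1' f
    apply D.ne x f hP hx hf
    rw [hΨ x f hP, h]
    exact ten_eq_zero_iff.mpr (Or.inr rfl)
  have he'0 : e' ≠ 0 := by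
    rintro rfl
    rw [map_zero] at he
    exact zero_ne_one he
  have hc : ∀ x f, κ f (A x) = κ e' (A e) * P x f := by
    intro x f
    set t := P x e' with ht
    set t' := P e f with ht'
    set x' := x - t • e with hx'
    set f' := f - t' • e' with hf'
    have k1 : P x' e' = 0 := by
      rw [hx', map_sub, map_smul, LinearMap.sub_apply, LinearMap.smul_apply, he, ht]; simp
    have k2 : P e f' = 0 := by
      rw [hf', map_sub, map_smul, he, ht']; simp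
    have hxd : x = t • e + x' := by rw [hx']; abel
    have hfd : f = t' • e' + f' := by rw [hf']; abel
    have hPxf : P x f = t * t' + P x' f' := by
      conv_lhs => rw [hxd, hfd]
      simp only [map_add, map_smul, LinearMap.add_apply, LinearMap.smul_apply, smul_eq_mul, he,
        k1, k2]
      ring
    have k3 : P (e + x') (f' - P x' f' • e') = 0 := by
      simp only [map_add, map_sub, map_smul, LinearMap.add_apply, smul_eq_mul, he, k1, k2]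
      ring
    have b1 := hB0 x' e' k1
    have b2 := hB0 e f' k2
    have b3 := hB0 _ _ k3
    have b3' : κ f' (A x') = P x' f' * κ e' (A e) := by
      rw [map_sub, map_smul, map_add] at b3
      have b4 : κ f' (A e + A x') - P x' f' * κ e' (A e + A x') = 0 := b3
      rw [map_add, map_add, b1, b2] at b4
      linear_combination b4
    rw [hPxf]
    conv_lhs => rw [hxd, hfd]
    rw [map_add, map_add, map_smul, map_smul]
    show t' * κ e' (t • A e + A x') + κ f' (t • A e + A x') = _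
    rw [map_add, map_add, map_smul, map_smul, b1, b2, b3']
    simp only [smul_eq_mul]
    ring
  obtain ⟨x1, hx10, hx1⟩ := D.d1' e'
  have hy1 : A x1 ≠ 0 := hAne x1 hx10
  have hg1 : κ e' ≠ 0 := hκne e' he'0
  have hg1y1 : κ e' (A x1) = 0 := hB0 _ _ hx1
  have hsep : ∀ g : Y →L[ℂ] ℂ, g ≠ 0 → ∃ w, g w = 1 := by
    intro g hg
    by_contra hcon
    push Not at hcon
    apply hg
    ext v
    by_contra hv
    apply hcon ((g v)⁻¹ • v)
    rw [map_smul, smul_eq_mul, inv_mul_cancel₀ hv]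
  have hAsurj : Function.Surjective A := by
    intro y
    by_cases hy : y = 0
    · exact ⟨0, by rw [map_zero, hy]⟩
    obtain ⟨g, hg, hgy⟩ : ∃ g : Y →L[ℂ] ℂ, g ≠ 0 ∧ g y = 0 := by
      by_cases h : κ e' y = 0
      · exact ⟨κ e', hg1, h⟩
      · obtain ⟨⟨η, hη1, hη2⟩, -⟩ := exists_sep' (y2 := A x1) hy (by
          rintro ⟨c, hc⟩
          rw [hc, map_smul, smul_eq_mul] at hg1y1
          have hc0 : c = 0 := (mul_eq_zero.mp hg1y1).resolve_right h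
          apply hy1
          rw [hc, hc0, zero_smul])
        refine ⟨η, ?_, hη1⟩
        intro h'
        rw [h'] at hη2
        exact zero_ne_one hη2
    obtain ⟨x, f, hP, hxf⟩ := D.surj (ten y g) (n1_ten_iff.mpr hgy)
    rw [hΨ x f hP] at hxf
    obtain ⟨w, hw⟩ := hsep g hg
    refine ⟨κ f w • x, ?_⟩
    have h1 : ten (A x) (κ f) w = ten y g w := by rw [hxf]
    rw [ten_apply, ten_apply, hw, one_smul] at h1
    rw [map_smul]; exact h1
  have hκsurj : Function.Surjective κ := by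
    intro g
    by_cases hg : g = 0
    · exact ⟨0, by rw [map_zero, hg]⟩
    obtain ⟨y, hy, hgy⟩ : ∃ y : Y, y ≠ 0 ∧ g y = 0 := by
      by_cases h : g (A x1) = 0
      · exact ⟨A x1, hy1, h⟩
      · obtain ⟨w, hw⟩ := hsep _ hg1
        refine ⟨w - (g w / g (A x1)) • A x1, ?_, ?_⟩
        · intro h'
          have h3 : κ e' (w - (g w / g (A x1)) • A x1) = 0 := by rw [h', map_zero]
          rw [map_sub, map_smul, hw, hg1y1] at h3
          simp at h3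
        · rw [map_sub, map_smul, smul_eq_mul, div_mul_cancel₀ _ h, sub_self]
    obtain ⟨x, f, hP, hxf⟩ := D.surj (ten y g) (n1_ten_iff.mpr hgy)
    rw [hΨ x f hP] at hxf
    obtain ⟨η, hη⟩ := SeparatingDual.exists_eq_one (R := ℂ) hy
    refine ⟨η (A x) • f, ?_⟩
    rw [map_smul]
    ext w
    have h1 : η (ten (A x) (κ f) w) = η (ten y g w) := by rw [hxf]
    rw [ten_apply, ten_apply, map_smul, map_smul, hη, smul_eq_mul, smul_eq_mul, mul_one] at h1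
    show η (A x) * κ f w = g w
    rw [mul_comm]; exact h1
  have hc0 : κ e' (A e) ≠ 0 := by
    intro h
    obtain ⟨η, hη⟩ := SeparatingDual.exists_eq_one (R := ℂ) hy1
    obtain ⟨f, hf⟩ := hκsurj η
    have := hc x1 f
    rw [h, zero_mul, hf, hη] at this
    exact one_ne_zero this
  refine ⟨A, κ, κ e' (A e), hc0, ⟨?_, hAsurj⟩, ⟨?_, hκsurj⟩, hc, hΨ⟩
  · rw [injective_iff_map_eq_zero]
    intro x hx
    by_contra h
    exact hAne x h hx
  · rw [injective_iff_map_eq_zero]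
    intro x hx
    by_contra h
    exact hκne x h hx

theorem DualData.flip (D : DualData P Ψ) : DualData P.flip Ψ.flip where
  ndl := fun f hf => by
    obtain ⟨x, hx⟩ := D.ndr f hf
    exact ⟨x, hx⟩
  ndr := fun x hx => by
    obtain ⟨f, hf⟩ := D.ndl x hx
    exact ⟨f, hf⟩
  n1 := fun f x h => D.n1 x f h
  ne := fun f x h hf hx => D.ne x f h hx hf
  r2 := fun f f' x x' h h' hf hff hx hxx => D.r2 x x' f f' h h' hx hxx hf hff
  d1 := fun f => by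
    obtain ⟨x, hx, h⟩ := D.d1' f
    exact ⟨x, hx, h⟩
  d1' := fun x => by
    obtain ⟨f, hf, h⟩ := D.d1 x
    exact ⟨f, hf, h⟩
  surj := fun B hB => by
    obtain ⟨x, f, h, h'⟩ := D.surj B hB
    exact ⟨f, x, h, h'⟩

/-- the dichotomy of types -/
theorem dichotomy [Nontrivial Y] (D : DualData P Ψ)
    (D3a : ∀ x x', ∃ f, f ≠ 0 ∧ P x f = 0 ∧ P x' f = 0)
    (D3b : ∀ f f', ∃ x, x ≠ 0 ∧ P x f = 0 ∧ P x f' = 0) :
    ((∀ x, x ≠ 0 → ∃ y : Y, y ≠ 0 ∧ ∀ f, P x f = 0 → ∃ g : Y →L[ℂ] ℂ, Ψ x f = ten y g) ∧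
     (∀ f, f ≠ 0 → ∃ g : Y →L[ℂ] ℂ, g ≠ 0 ∧ ∀ x, P x f = 0 → ∃ y : Y, Ψ x f = ten y g)) ∨
    ((∀ f, f ≠ 0 → ∃ y : Y, y ≠ 0 ∧ ∀ x, P x f = 0 → ∃ g : Y →L[ℂ] ℂ, Ψ x f = ten y g) ∧
     (∀ x, x ≠ 0 → ∃ g : Y →L[ℂ] ℂ, g ≠ 0 ∧ ∀ f, P x f = 0 → ∃ y : Y, Ψ x f = ten y g)) := by
  -- the alternatives for a single vector or functional
  have hx : ∀ x, (∃ y : Y, y ≠ 0 ∧ ∀ f, P x f = 0 → ∃ g : Y →L[ℂ] ℂ, Ψ x f = ten y g) ∨
      (∃ g : Y →L[ℂ] ℂ, g ≠ 0 ∧ ∀ f, P x f = 0 → ∃ y : Y, Ψ x f = ten y g) := by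
    intro x
    have := rank_one_space ((Ψ x).domRestrict (LinearMap.ker (P x))) (by
      rintro ⟨f, hf⟩
      obtain ⟨y, g, -, h⟩ := D.n1 x f hf
      exact ⟨y, g, h⟩)
    rcases this with ⟨y, hy, h⟩ | ⟨g, hg, h⟩
    · exact Or.inl ⟨y, hy, fun f hf => h ⟨f, hf⟩⟩
    · exact Or.inr ⟨g, hg, fun f hf => h ⟨f, hf⟩⟩
  have hf : ∀ f, (∃ y : Y, y ≠ 0 ∧ ∀ x, P x f = 0 → ∃ g : Y →L[ℂ] ℂ, Ψ x f = ten y g) ∨
      (∃ g : Y →L[ℂ] ℂ, g ≠ 0 ∧ ∀ x, P x f = 0 → ∃ y : Y, Ψ x f = ten y g) := by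
    intro f
    have := rank_one_space ((Ψ.flip f).domRestrict (LinearMap.ker (P.flip f))) (by
      rintro ⟨x, hx⟩
      obtain ⟨y, g, -, h⟩ := D.n1 x f hx
      exact ⟨y, g, h⟩)
    rcases this with ⟨y, hy, h⟩ | ⟨g, hg, h⟩
    · exact Or.inl ⟨y, hy, fun x hx => h ⟨x, hx⟩⟩
    · exact Or.inr ⟨g, hg, fun x hx => h ⟨x, hx⟩⟩
  -- independent partners
  have hx2 : ∀ x f, x ≠ 0 → ∃ x', P x' f = 0 ∧ ¬ ∃ c : ℂ, x' = c • x := by
    intro x f hx0
    obtain ⟨h, hh⟩ := D.ndl x hx0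
    obtain ⟨x', hx', h1, h2⟩ := D3b f h
    refine ⟨x', h1, ?_⟩
    rintro ⟨c, rfl⟩
    rw [map_smul, LinearMap.smul_apply, smul_eq_mul] at h2
    have hc : c = 0 := (mul_eq_zero.mp h2).resolve_right hh
    apply hx'
    rw [hc, zero_smul]
  have hf2 : ∀ f x, f ≠ 0 → ∃ f', P x f' = 0 ∧ ¬ ∃ c : ℂ, f' = c • f := by
    intro f x hf0
    obtain ⟨h, hh⟩ := D.ndr f hf0
    obtain ⟨f', hf', h1, h2⟩ := D3a x h
    refine ⟨f', h1, ?_⟩
    rintro ⟨c, rfl⟩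
    rw [map_smul, smul_eq_mul] at h2
    have hc : c = 0 := (mul_eq_zero.mp h2).resolve_right hh
    apply hf'
    rw [hc, zero_smul]
  -- not both of the same kind
  have excl1 : ∀ x f, x ≠ 0 → f ≠ 0 → P x f = 0 →
      (∃ g : Y →L[ℂ] ℂ, g ≠ 0 ∧ ∀ f, P x f = 0 → ∃ y : Y, Ψ x f = ten y g) →
      (∃ g : Y →L[ℂ] ℂ, g ≠ 0 ∧ ∀ x, P x f = 0 → ∃ y : Y, Ψ x f = ten y g) → False := by
    rintro x f hx0 hf0 hP ⟨gx, hgx, hTx⟩ ⟨gf, hgf, hTf⟩
    obtain ⟨x', hx'P, hx'⟩ := hx2 x f hx0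
    obtain ⟨f', hf'P, hf'⟩ := hf2 f x hf0
    obtain ⟨y1, hy1⟩ := hTx f hP
    obtain ⟨y2, hy2⟩ := hTf x hP
    obtain ⟨y3, hy3⟩ := hTx f' hf'P
    obtain ⟨y4, hy4⟩ := hTf x' hx'P
    -- `gx` and `gf` are proportional
    have hne := D.ne x f hP hx0 hf0
    have hprop : ∃ c : ℂ, gx = c • gf := by
      have hy10 : y1 ≠ 0 := by
        rintro rfl
        apply hne; rw [hy1]; exact ten_eq_zero_iff.mpr (Or.inl rfl)
      obtain ⟨η, hη⟩ := SeparatingDual.exists_eq_one (R := ℂ) hy10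
      refine ⟨η y2, ?_⟩
      ext w
      have h1 : η (ten y1 gx w) = η (ten y2 gf w) := by rw [← hy1, hy2]
      rw [ten_apply, ten_apply, map_smul, map_smul, hη, smul_eq_mul, smul_eq_mul, mul_one] at h1
      show gx w = η y2 * gf w
      rw [h1, mul_comm]
    obtain ⟨c, hc⟩ := hprop
    apply D.r2 x' x f f' hx'P hf'P (by rintro rfl; exact hx' ⟨0, by simp⟩) (by
      rintro ⟨d, hd⟩
      apply hx'
      have hd0 : d ≠ 0 := by
        rintro rfl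
        rw [zero_smul] at hd
        exact hx0 hd
      refine ⟨d⁻¹, ?_⟩
      rw [hd, smul_smul, inv_mul_cancel₀ hd0, one_smul]) hf0 hf'
    have hn4 := D.n1 x' f hx'P
    have hn3 := D.n1 x f' hf'P
    rw [hy4, n1_ten_iff] at hn4
    rw [hy3, n1_ten_iff, hc] at hn3
    rw [hy4, hy3, hc, ten_smul_right, ← ten_smul_left, ← ten_add_right, n1_ten_iff, map_add, hn4,
      map_smul, smul_eq_mul, zero_add]
    exact hn3
  have excl2 : ∀ x f, x ≠ 0 → f ≠ 0 → P x f = 0 →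
      (∃ y : Y, y ≠ 0 ∧ ∀ f, P x f = 0 → ∃ g : Y →L[ℂ] ℂ, Ψ x f = ten y g) →
      (∃ y : Y, y ≠ 0 ∧ ∀ x, P x f = 0 → ∃ g : Y →L[ℂ] ℂ, Ψ x f = ten y g) → False := by
    rintro x f hx0 hf0 hP ⟨yx, hyx, hTx⟩ ⟨yf, hyf, hTf⟩
    obtain ⟨x', hx'P, hx'⟩ := hx2 x f hx0
    obtain ⟨f', hf'P, hf'⟩ := hf2 f x hf0
    obtain ⟨g1, hg1⟩ := hTx f hP
    obtain ⟨g2, hg2⟩ := hTf x hP
    obtain ⟨g3, hg3⟩ := hTx f' hf'P
    obtain ⟨g4, hg4⟩ := hTf x' hx'P
    have hne := D.ne x f hP hx0 hf0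
    have hprop : ∃ c : ℂ, yx = c • yf := by
      have hg10 : g1 ≠ 0 := by
        rintro rfl
        apply hne; rw [hg1]; exact ten_eq_zero_iff.mpr (Or.inr rfl)
      obtain ⟨w, hw⟩ := exists_apply_one hg10
      refine ⟨g2 w, ?_⟩
      have h1 : ten yx g1 w = ten yf g2 w := by rw [← hg1, hg2]
      rw [ten_apply, ten_apply, hw, one_smul] at h1
      exact h1
    obtain ⟨c, hc⟩ := hprop
    apply D.r2 x' x f f' hx'P hf'P (by rintro rfl; exact hx' ⟨0, by simp⟩) (by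
      rintro ⟨d, hd⟩
      apply hx'
      have hd0 : d ≠ 0 := by
        rintro rfl
        rw [zero_smul] at hd
        exact hx0 hd
      refine ⟨d⁻¹, ?_⟩
      rw [hd, smul_smul, inv_mul_cancel₀ hd0, one_smul]) hf0 hf'
    have hn4 := D.n1 x' f hx'P
    have hn3 := D.n1 x f' hf'P
    rw [hg4, n1_ten_iff] at hn4
    rw [hg3, n1_ten_iff, hc] at hn3
    rw [hg4, hg3, hc, ten_smul_left, ← ten_smul_right, ← ten_add_right', n1_ten_iff]
    show g4 yf + c * g3 yf = 0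
    rw [map_smul, smul_eq_mul] at hn3
    rw [hn4, hn3, add_zero]
  by_cases hex : ∃ x, x ≠ 0 ∧ (∃ y : Y, y ≠ 0 ∧ ∀ f, P x f = 0 → ∃ g : Y →L[ℂ] ℂ,
      Ψ x f = ten y g)
  · left
    obtain ⟨x0, hx00, hTx0⟩ := hex
    have hTL : ∀ x, x ≠ 0 → ∃ y : Y, y ≠ 0 ∧ ∀ f, P x f = 0 → ∃ g : Y →L[ℂ] ℂ,
        Ψ x f = ten y g := by
      intro x hx0
      rcases hx x with h | h
      · exact h
      · exfalso
        obtain ⟨f, hf0, hf1, hf2'⟩ := D3a x x0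
        rcases hf f with h' | h'
        · exact excl2 x0 f hx00 hf0 hf2' hTx0 h'
        · exact excl1 x f hx0 hf0 hf1 h h'
    refine ⟨hTL, ?_⟩
    intro f hf0
    rcases hf f with h | h
    · exfalso
      obtain ⟨x, hx0, hP⟩ := D.d1' f
      exact excl2 x f hx0 hf0 hP (hTL x hx0) h
    · exact h
  · right
    push Not at hex
    have hTR : ∀ x, x ≠ 0 → ∃ g : Y →L[ℂ] ℂ, g ≠ 0 ∧ ∀ f, P x f = 0 → ∃ y : Y,
        Ψ x f = ten y g := by
      intro x hx0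
      rcases hx x with ⟨y, hy, h⟩ | h
      · exfalso
        obtain ⟨f, hf1, hf2⟩ := hex x hx0 y hy
        obtain ⟨g, hg⟩ := h f hf1
        exact hf2 g hg
      · exact h
    refine ⟨?_, hTR⟩
    intro f hf0
    rcases hf f with h | h
    · exact h
    · exfalso
      obtain ⟨x, hx0, hP⟩ := D.d1' f
      exact excl1 x f hx0 hf0 hP (hTR x hx0) h

end Pool.Agent.H.MP_bb4c62_an.helper6.Gadgets
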