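import Pool.Agent.H.MP_bb4c62_an.helper6.StructF0

/-!
Extension from the trace zero finite rank operators to all quasinilpotent operators.
-/

namespace Pool.Agent.H.MP_bb4c62_an.helper6.Gadgets

open Complex Metric Set Filter Topology
open Pool.Agent.H.MP_bb4c62_an.helper6.Perturb

variable {X : Type*} [NormedAddCommGroup X] [NormedSpace ℂ X]
variable {Y : Type*} [NormedAddCommGroup Y] [NormedSpace ℂ Y]

/-- the finite rank operators -/
noncomputable def FRk (X : Type*) [NormedAddCommGroup X] [NormedSpace ℂ X] :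
    Submodule ℂ (X →L[ℂ] X) :=
  Submodule.span ℂ {T | ∃ (x : X) (f : X →L[ℂ] ℂ), T = ten x f}

theorem ten_mem_FRk (x : X) (f : X →L[ℂ] ℂ) : ten x f ∈ FRk X :=
  Submodule.subset_span ⟨x, f, rfl⟩

theorem FRk_mul_right {S : X →L[ℂ] X} (hS : S ∈ FRk X) (T : X →L[ℂ] X) : S * T ∈ FRk X := by
  unfold FRk at hS
  induction hS using Submodule.span_induction with
  | mem R hR =>
    obtain ⟨x, f, rfl⟩ := hR
    rw [ten_mul]
    exact ten_mem_FRk _ _
  | zero => rw [zero_mul]; exact Submodule.zero_mem _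
  | add S R _ _ hS hR => rw [add_mul]; exact Submodule.add_mem _ hS hR
  | smul a R _ hR => rw [smul_mul_assoc]; exact Submodule.smul_mem _ _ hR

theorem comm_mem_F0 {R : X →L[ℂ] X} (hR : R ∈ FRk X) (T : X →L[ℂ] X) :
    R * T - T * R ∈ F0 X := by
  unfold FRk at hR
  induction hR using Submodule.span_induction with
  | mem R hR =>
    obtain ⟨x, f, rfl⟩ := hR
    have h := sum_ten_mem_F0 (X := X) ![x, -(T x)] ![f.comp T, f] (by
      rw [Fin.sum_univ_two]
      show f (T x) + f (-(T x)) = 0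
      rw [map_neg, add_neg_cancel])
    rw [Fin.sum_univ_two] at h
    have h2 : ten x f * T - T * ten x f = ten x (f.comp T) + ten (-(T x)) f := by
      rw [ten_mul, mul_ten]
      ext w
      show f (T w) • x - f w • T x = f (T w) • x + f w • (-(T x))
      rw [smul_neg, sub_eq_add_neg]
    rw [h2]
    exact h
  | zero =>
    rw [zero_mul, mul_zero, sub_zero]; exact Submodule.zero_mem _
  | add S R _ _ hS hR =>
    have : (S + R) * T - T * (S + R) = (S * T - T * S) + (R * T - T * R) := by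
      rw [add_mul, mul_add]; abel
    rw [this]
    exact Submodule.add_mem _ hS hR
  | smul a R _ hR =>
    have : (a • R) * T - T * (a • R) = a • (R * T - T * R) := by
      rw [smul_mul_assoc, mul_smul_comm, smul_sub]
    rw [this]
    exact Submodule.smul_mem _ _ hR

theorem conj_sub_mem_F0 {S R : X →L[ℂ] X} (hRS : R * S = 1) (hS : S - 1 ∈ FRk X)
    (N : X →L[ℂ] X) : S * N * R - N ∈ F0 X := by
  have h := comm_mem_F0 hS (N * R)
  have h2 : (S - 1) * (N * R) - N * R * (S - 1) = S * N * R - N := by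
    rw [sub_mul, mul_sub, one_mul, mul_one, mul_assoc N R S, hRS, mul_one, ← mul_assoc]
    abel
  rwa [h2] at h

/-- the operator swapping two pairs of vectors -/
noncomputable def swp (v : Fin 4 → X) (f : Fin 4 → X →L[ℂ] ℂ) : X →L[ℂ] X :=
  1 + (ten (v 2 - v 0) (f 0) + ten (v 3 - v 1) (f 1) + ten (v 0 - v 2) (f 2)
    + ten (v 1 - v 3) (f 3))

theorem swp_apply (v : Fin 4 → X) (f : Fin 4 → X →L[ℂ] ℂ) (w : X) :
    swp v f w = w + (f 0 w • (v 2 - v 0) + f 1 w • (v 3 - v 1) + f 2 w • (v 0 - v 2)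
      + f 3 w • (v 1 - v 3)) := rfl

theorem swp_sub_one (v : Fin 4 → X) (f : Fin 4 → X →L[ℂ] ℂ) : swp v f - 1 ∈ FRk X := by
  have : swp v f - 1 = ten (v 2 - v 0) (f 0) + ten (v 3 - v 1) (f 1) + ten (v 0 - v 2) (f 2)
    + ten (v 1 - v 3) (f 3) := by
    unfold swp; abel
  rw [this]
  exact Submodule.add_mem _ (Submodule.add_mem _ (Submodule.add_mem _ (ten_mem_FRk _ _)
    (ten_mem_FRk _ _)) (ten_mem_FRk _ _)) (ten_mem_FRk _ _)

section

variable {v : Fin 4 → X} {f : Fin 4 → X →L[ℂ] ℂ}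
  (hf : ∀ i j, f i (v j) = if i = j then 1 else 0)

include hf

theorem swp_f0 (w : X) : f 0 (swp v f w) = f 2 w := by
  rw [swp_apply]
  simp only [map_add, map_smul, map_sub, hf, smul_eq_mul]
  simp

theorem swp_f1 (w : X) : f 1 (swp v f w) = f 3 w := by
  rw [swp_apply]
  simp only [map_add, map_smul, map_sub, hf, smul_eq_mul]
  simp

theorem swp_f2 (w : X) : f 2 (swp v f w) = f 0 w := by
  rw [swp_apply]
  simp only [map_add, map_smul, map_sub, hf, smul_eq_mul]
  simp

theorem swp_f3 (w : X) : f 3 (swp v f w) = f 1 w := by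
  rw [swp_apply]
  simp only [map_add, map_smul, map_sub, hf, smul_eq_mul]
  simp

theorem swp_sq : swp v f * swp v f = 1 := by
  ext w
  show swp v f (swp v f w) = w
  rw [swp_apply v f (swp v f w), swp_f0 hf, swp_f1 hf, swp_f2 hf, swp_f3 hf, swp_apply]
  module

theorem swp_v0 : swp v f (v 0) = v 2 := by
  rw [swp_apply]; simp [hf]

theorem swp_v1 : swp v f (v 1) = v 3 := by
  rw [swp_apply]; simp [hf]

theorem swp_v2 : swp v f (v 2) = v 0 := by
  rw [swp_apply]; simp [hf]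

theorem swp_v3 : swp v f (v 3) = v 1 := by
  rw [swp_apply]; simp [hf]

end

/-- two vectors independent modulo a finite dimensional subspace -/
theorem exists_two_outside {M : Type*} [AddCommGroup M] [Module ℂ M]
    (hM : ¬ Module.Finite ℂ M) {V : Submodule ℂ M} (hV : V.FG) :
    ∃ w w' : M, ∀ a b : ℂ, a • w + b • w' ∈ V → a = 0 ∧ b = 0 := by
  have hne : ∀ W : Submodule ℂ M, W.FG → ∃ w, w ∉ W := by
    intro W hW
    by_contra hcon
    push Not at hcon
    apply hM
    have : W = ⊤ := by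
      ext w; simp [hcon w]
    rw [this] at hW
    exact ⟨hW⟩
  obtain ⟨w, hw⟩ := hne V hV
  obtain ⟨w', hw'⟩ := hne (V ⊔ Submodule.span ℂ {w}) (hV.sup (Submodule.fg_span_singleton w))
  refine ⟨w, w', fun a b hab => ?_⟩
  have hb : b = 0 := by
    by_contra hb
    apply hw'
    have h1 : w' = b⁻¹ • (a • w + b • w') + (-(b⁻¹ * a)) • w := by
      rw [smul_add, smul_smul, smul_smul, inv_mul_cancel₀ hb, one_smul, neg_smul]
      abel
    rw [h1]
    exact Submodule.add_mem_sup (V.smul_mem _ hab)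
      (Submodule.smul_mem _ _ (Submodule.mem_span_singleton_self w))
  refine ⟨?_, hb⟩
  by_contra ha
  apply hw
  rw [hb, zero_smul, add_zero] at hab
  have h1 : w = a⁻¹ • (a • w) := by rw [smul_smul, inv_mul_cancel₀ ha, one_smul]
  rw [h1]
  exact V.smul_mem _ hab

theorem li_four {M : Type*} [AddCommGroup M] [Module ℂ M] {V : Submodule ℂ M} {x x' w w' : M}
    (hx : x ∈ V) (hx' : x' ∈ V) (hli : LinearIndependent ℂ ![x, x'])
    (hw : ∀ a b : ℂ, a • w + b • w' ∈ V → a = 0 ∧ b = 0) :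
    LinearIndependent ℂ ![x, x', w, w'] := by
  rw [LinearIndependent.pair_iff] at hli
  rw [Fintype.linearIndependent_iff]
  intro t ht
  rw [Fin.sum_univ_four] at ht
  have ht' : t 0 • x + t 1 • x' + t 2 • w + t 3 • w' = 0 := ht
  have h1 : t 2 • w + t 3 • w' ∈ V := by
    have : t 2 • w + t 3 • w' = -(t 0 • x + t 1 • x') := by
      rw [eq_neg_iff_add_eq_zero, ← ht']; abel
    rw [this]
    exact V.neg_mem (V.add_mem (V.smul_mem _ hx) (V.smul_mem _ hx'))
  obtain ⟨e2, e3⟩ := hw _ _ h1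
  rw [e2, e3, zero_smul, zero_smul, add_zero, add_zero] at ht'
  obtain ⟨e0, e1⟩ := hli _ _ ht'
  intro i
  fin_cases i
  · exact e0
  · exact e1
  · exact e2
  · exact e3

theorem exists_move (hX : ¬ Module.Finite ℂ X) {x x' z z' : X}
    (hx : LinearIndependent ℂ ![x, x']) (hz : LinearIndependent ℂ ![z, z']) :
    ∃ S R : X →L[ℂ] X, S * R = 1 ∧ R * S = 1 ∧ S - 1 ∈ FRk X ∧ S x = z ∧ S x' = z' := by
  have hV : (Submodule.span ℂ ({x, x', z, z'} : Set X)).FG :=
    Submodule.fg_span (Set.toFinite _)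
  obtain ⟨w, w', hw⟩ := exists_two_outside hX hV
  have l1 := li_four (Submodule.subset_span (by simp)) (Submodule.subset_span (by simp)) hx hw
  have l2 := li_four (Submodule.subset_span (by simp)) (Submodule.subset_span (by simp)) hz hw
  obtain ⟨f, hf⟩ := exists_dual_family l1
  obtain ⟨g, hg⟩ := exists_dual_family l2
  have s1 := swp_sq hf
  have s2 := swp_sq hg
  have a1 : swp ![x, x', w, w'] f x = w := swp_v0 hf
  have a2 : swp ![x, x', w, w'] f x' = w' := swp_v1 hf
  have b1 : swp ![z, z', w, w'] g w = z := swp_v2 hg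
  have b2 : swp ![z, z', w, w'] g w' = z' := swp_v3 hg
  have m1 := swp_sub_one ![x, x', w, w'] f
  have m2 := swp_sub_one ![z, z', w, w'] g
  set W1 := swp ![x, x', w, w'] f
  set W2 := swp ![z, z', w, w'] g
  refine ⟨W2 * W1, W1 * W2, ?_, ?_, ?_, ?_, ?_⟩
  · rw [mul_assoc, ← mul_assoc W1, s1, one_mul, s2]
  · rw [mul_assoc, ← mul_assoc W2, s2, one_mul, s1]
  · -- `W2 W1 - 1 = (W2 - 1) W1 + (W1 - 1)`
    have h1 : W2 * W1 - 1 = (W2 - 1) * W1 + (W1 - 1) := by
      rw [sub_mul, one_mul]; abel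
    rw [h1]
    exact Submodule.add_mem _ (FRk_mul_right m2 _) m1
  · show W2 (W1 x) = z
    rw [a1, b1]
  · show W2 (W1 x') = z'
    rw [a2, b2]

/-- independent functionals have dual vectors -/
theorem exists_predual {n : ℕ} {f : Fin n → X →L[ℂ] ℂ} (hf : LinearIndependent ℂ f) :
    ∃ v : Fin n → X, ∀ i j, f i (v j) = if i = j then 1 else 0 := by
  let Φ : X →ₗ[ℂ] (Fin n → ℂ) :=
    { toFun := fun x i => f i x
      map_add' := fun x y => by ext i; simp
      map_smul' := fun c x => by ext i; simp }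
  have hsurj : LinearMap.range Φ = ⊤ := by
    by_contra hne
    obtain ⟨L, hL0, hL⟩ := Submodule.exists_le_ker_of_lt_top _ (lt_top_iff_ne_top.mpr hne)
    apply hL0
    have hsum : ∑ i, L (Pi.single i 1) • f i = 0 := by
      ext x
      rw [sum_apply]
      have h1 : L (Φ x) = 0 := hL ⟨x, rfl⟩
      have h2 : Φ x = ∑ i, (f i x) • (Pi.single i (1 : ℂ) : Fin n → ℂ) := by
        ext j
        rw [Finset.sum_apply]
        simp only [Pi.smul_apply, Pi.single_apply, smul_eq_mul, mul_ite, mul_one, mul_zero]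
        rw [Finset.sum_ite_eq Finset.univ j]
        simp [Φ]
      rw [h2, map_sum] at h1
      show ∑ i, L (Pi.single i 1) * f i x = 0
      rw [← h1]
      refine Finset.sum_congr rfl fun i _ => ?_
      rw [map_smul, smul_eq_mul, mul_comm]
    rw [Fintype.linearIndependent_iff] at hf
    have h3 := hf _ hsum
    apply LinearMap.pi_ext'
    intro i
    ext
    simpa using h3 i
  rw [LinearMap.range_eq_top] at hsurj
  choose v hv using fun j : Fin n => hsurj (Pi.single j (1 : ℂ))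
  refine ⟨v, fun i j => ?_⟩
  have := congrFun (hv j) i
  rw [Pi.single_apply] at this
  exact this

theorem exists_move_dual (hX : ¬ Module.Finite ℂ (X →L[ℂ] ℂ)) {f f' h h' : X →L[ℂ] ℂ}
    (hf : LinearIndependent ℂ ![f, f']) (hh : LinearIndependent ℂ ![h, h']) :
    ∃ S R : X →L[ℂ] X, S * R = 1 ∧ R * S = 1 ∧ S - 1 ∈ FRk X ∧
      (∀ w, f (R w) = h w) ∧ (∀ w, f' (R w) = h' w) := by
  have hV : (Submodule.span ℂ ({f, f', h, h'} : Set (X →L[ℂ] ℂ))).FG :=
    Submodule.fg_span (Set.toFinite _)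
  obtain ⟨k, k', hk⟩ := exists_two_outside hX hV
  have l1 := li_four (Submodule.subset_span (by simp)) (Submodule.subset_span (by simp)) hf hk
  have l2 := li_four (Submodule.subset_span (by simp)) (Submodule.subset_span (by simp)) hh hk
  obtain ⟨v, hv⟩ := exists_predual l1
  obtain ⟨u, hu⟩ := exists_predual l2
  have s1 := swp_sq hv
  have s2 := swp_sq hu
  have a1 : ∀ w, f (swp v ![f, f', k, k'] w) = k w := swp_f0 hv
  have a2 : ∀ w, f' (swp v ![f, f', k, k'] w) = k' w := swp_f1 hv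
  have b1 : ∀ w, k (swp u ![h, h', k, k'] w) = h w := swp_f2 hu
  have b2 : ∀ w, k' (swp u ![h, h', k, k'] w) = h' w := swp_f3 hu
  have m1 := swp_sub_one v ![f, f', k, k']
  have m2 := swp_sub_one u ![h, h', k, k']
  set W1 := swp v ![f, f', k, k']
  set W2 := swp u ![h, h', k, k']
  refine ⟨W2 * W1, W1 * W2, ?_, ?_, ?_, ?_, ?_⟩
  · rw [mul_assoc, ← mul_assoc W1, s1, one_mul, s2]
  · rw [mul_assoc, ← mul_assoc W2, s2, one_mul, s1]
  · have h1 : W2 * W1 - 1 = (W2 - 1) * W1 + (W1 - 1) := by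
      rw [sub_mul, one_mul]; abel
    rw [h1]
    exact Submodule.add_mem _ (FRk_mul_right m2 _) m1
  · intro w
    show f (W1 (W2 w)) = h w
    rw [a1, b1]
  · intro w
    show f' (W1 (W2 w)) = h' w
    rw [a2, b2]

/-- rigidity from moving pairs -/
theorem eq_of_moves {Z : Type*} [NormedAddCommGroup Z] [NormedSpace ℂ Z] [CompleteSpace Z]
    {N M : Z →L[ℂ] Z} (hN : spectralRadius ℂ N = 0) (hN0 : N ≠ 0)
    (hM : spectralRadius ℂ M = 0)
    (h : ∀ x x' z z' : Z, LinearIndependent ℂ ![x, x'] → LinearIndependent ℂ ![z, z'] →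
      ∃ S R : Z →L[ℂ] Z, S * R = 1 ∧ R * S = 1 ∧ S x = z ∧ S x' = z' ∧
        spectralRadius ℂ (M - N + S * N * R) = 0) : M = N := by
  obtain ⟨x, hx0, hx⟩ := exists_indep_of_qn hN hN0
  have hli : LinearIndependent ℂ ![x, x - N x] := by
    rw [LinearIndependent.pair_iff' hx0]
    intro a ha
    apply hx
    refine ⟨1 - a, ?_⟩
    rw [sub_smul, ha, one_smul]; abel
  by_cases hD : ∃ z, z ≠ 0 ∧ ¬ ∃ c : ℂ, (M - N) z = c • z
  · exfalso
    obtain ⟨z, hz0, hz⟩ := hD
    have hli2 : LinearIndependent ℂ ![z, (M - N) z] := by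
      rw [LinearIndependent.pair_iff' hz0]
      intro a ha
      exact hz ⟨a, ha.symm⟩
    obtain ⟨S, R, hSR, hRS, hSx, hSx', hq⟩ := h _ _ _ _ hli hli2
    have h1 := qn_conj hq hRS hSR
    have h2 : R * (M - N + S * N * R) * S = R * (M - N) * S + N := by
      rw [mul_add, add_mul]
      have : R * (S * N * R) * S = N := by
        rw [mul_assoc, mul_assoc (S * N), hRS, mul_one, ← mul_assoc, hRS, one_mul]
      rw [this]
    rw [h2] at h1
    refine not_qn_of_eigen (x := x) (μ := 1) hx0 one_ne_zero ?_ h1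
    show R ((M - N) (S x)) + N x = (1 : ℂ) • x
    rw [hSx, ← hSx', one_smul]
    have h3 : (R * S) (x - N x) = x - N x := by rw [hRS]; rfl
    have h4 : R (S (x - N x)) = x - N x := h3
    rw [h4]; abel
  · push Not at hD
    obtain ⟨d, hd⟩ := prop_of_pointwise ((M - N : Z →L[ℂ] Z) : Z →ₗ[ℂ] Z) LinearMap.id ⊤
      (fun x _ h => h) (fun z _ => by
        by_cases hz : z = 0
        · exact ⟨0, by rw [hz]; simp⟩
        · obtain ⟨c, hc⟩ := hD z hz
          exact ⟨c, hc⟩)
    have hMN : M - N = d • (1 : Z →L[ℂ] Z) := by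
      ext z; exact hd z trivial
    by_cases hd0 : d = 0
    · rw [hd0, zero_smul] at hMN
      exact sub_eq_zero.mp hMN
    · exfalso
      have hu := (qn_iff M).mp hM d⁻¹
      have h1 : 1 - d⁻¹ • M = (-d⁻¹) • N := by
        have : M = N + d • (1 : Z →L[ℂ] Z) := by rw [← hMN]; abel
        rw [this, smul_add, smul_smul, inv_mul_cancel₀ hd0, one_smul, neg_smul]
        abel
      rw [h1] at hu
      have hNu : IsUnit N := by
        obtain ⟨u, hu⟩ := hu
        have h2 : (-d) • (u : Z →L[ℂ] Z) = N := by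
          rw [hu, smul_smul]
          have : -d * -d⁻¹ = 1 := by field_simp
          rw [this, one_smul]
        rw [← h2]
        exact (isUnit_smul_iff (Units.mk0 (-d) (neg_ne_zero.mpr hd0)) _).mpr u.isUnit
      have : Nontrivial Z := ⟨x, 0, hx0⟩
      obtain ⟨k, hk⟩ := spectrum.nonempty N
      have hk0 : k = 0 := by
        by_contra hk0
        have := (qn_iff N).mp hN k⁻¹
        rw [isUnit_one_sub_smul_iff _ (inv_ne_zero hk0), inv_inv] at this
        exact this hk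
      rw [hk0] at hk
      exact (spectrum.zero_mem_iff ℂ).mp hk hNu

theorem extend1 [CompleteSpace X] (hinf : ¬ Module.Finite ℂ X)
    (φ : (X →L[ℂ] X) →ₗ[ℂ] (X →L[ℂ] X)) (h0 : ∀ T ∈ F0 X, φ T = T)
    (hq : ∀ T, spectralRadius ℂ T = 0 → spectralRadius ℂ (φ T) = 0)
    (N : X →L[ℂ] X) (hN : spectralRadius ℂ N = 0) : φ N = N := by
  by_cases hN0 : N = 0
  · rw [hN0, map_zero]
  refine eq_of_moves hN hN0 (hq N hN) ?_
  intro x x' z z' hx hz
  obtain ⟨S, R, hSR, hRS, hS1, hSx, hSx'⟩ := exists_move hinf hx hz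
  refine ⟨S, R, hSR, hRS, hSx, hSx', ?_⟩
  have h1 := hq _ (qn_conj hN hSR hRS)
  have h2 := h0 _ (conj_sub_mem_F0 hRS hS1 N)
  have h3 : φ (S * N * R) = φ N - N + S * N * R := by
    rw [map_sub] at h2
    have : φ (S * N * R) = (φ (S * N * R) - φ N) + φ N := by abel
    rw [this, h2]; abel
  rwa [h3] at h1

/-- the Banach space adjoint -/
noncomputable def adj (T : X →L[ℂ] X) : (X →L[ℂ] ℂ) →L[ℂ] (X →L[ℂ] ℂ) :=
  (ContinuousLinearMap.compL ℂ X X ℂ).flip T

theorem adj_apply (T : X →L[ℂ] X) (f : X →L[ℂ] ℂ) : adj T f = f.comp T := rfl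

theorem adj_mul (S T : X →L[ℂ] X) : adj (S * T) = adj T * adj S := rfl

theorem adj_one : adj (1 : X →L[ℂ] X) = 1 := rfl

theorem adj_sub (S T : X →L[ℂ] X) : adj (S - T) = adj S - adj T := by
  unfold adj; rw [map_sub]

theorem adj_smul (c : ℂ) (T : X →L[ℂ] X) : adj (c • T) = c • adj T := by
  unfold adj; rw [map_smul]

theorem adj_unit {T : X →L[ℂ] X} (hT : IsUnit T) : IsUnit (adj T) := by
  obtain ⟨u, hu⟩ := hT
  have h2 : adj (u : X →L[ℂ] X) * adj (↑u⁻¹ : X →L[ℂ] X) = 1 := by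
    rw [← adj_mul, Units.inv_mul, adj_one]
  have h3 : adj (↑u⁻¹ : X →L[ℂ] X) * adj (u : X →L[ℂ] X) = 1 := by
    rw [← adj_mul, Units.mul_inv, adj_one]
  rw [← hu]
  exact isUnit_iff_exists.mpr ⟨_, h2, h3⟩

theorem qn_adj {T : X →L[ℂ] X} (hT : spectralRadius ℂ T = 0) :
    spectralRadius ℂ (adj T) = 0 := by
  refine (qn_iff (adj T)).mpr fun z => ?_
  have h1 : 1 - z • adj T = adj (1 - z • T) := by
    rw [adj_sub, adj_one, adj_smul]
  rw [h1]
  exact adj_unit ((qn_iff T).mp hT z)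

theorem extend2 (hinf : ¬ Module.Finite ℂ (X →L[ℂ] ℂ))
    (φ : (X →L[ℂ] X) →ₗ[ℂ] ((X →L[ℂ] ℂ) →L[ℂ] (X →L[ℂ] ℂ))) (h0 : ∀ T ∈ F0 X, φ T = adj T)
    (hq : ∀ T, spectralRadius ℂ T = 0 → spectralRadius ℂ (φ T) = 0)
    (N : X →L[ℂ] X) (hN : spectralRadius ℂ N = 0) : φ N = adj N := by
  by_cases hN0 : adj N = 0
  · have hN00 : N = 0 := by
      ext w
      apply (SeparatingDual.eq_iff_forall_dual_eq (R := ℂ)).mpr
      intro g
      have h1 : adj N g w = 0 := by rw [hN0]; rfl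
      have h2 : g (N w) = 0 := h1
      rw [h2]; simp
    rw [hN00, map_zero]
    unfold adj; rw [map_zero]
  refine eq_of_moves (qn_adj hN) hN0 (hq N hN) ?_
  intro f f' h h' hf hh
  obtain ⟨S, R, hSR, hRS, hS1, hfR, hf'R⟩ := exists_move_dual hinf hf hh
  refine ⟨adj R, adj S, ?_, ?_, ?_, ?_, ?_⟩
  · rw [← adj_mul, hSR, adj_one]
  · rw [← adj_mul, hRS, adj_one]
  · ext w; exact hfR w
  · ext w; exact hf'R w
  · have h1 := hq _ (qn_conj hN hSR hRS)
    have h2 := h0 _ (conj_sub_mem_F0 hRS hS1 N)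
    have h3 : φ (S * N * R) = φ N - adj N + adj R * adj N * adj S := by
      rw [map_sub, adj_sub] at h2
      have e : adj (S * N * R) = adj R * adj N * adj S := by
        rw [adj_mul, adj_mul, mul_assoc]
      have : φ (S * N * R) = (φ (S * N * R) - φ N) + φ N := by abel
      rw [this, h2, e]; abel
    rwa [h3] at h1

end Pool.Agent.H.MP_bb4c62_an.helper6.Gadgets
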