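import Pool.Agent.H.MP_bb4c62_an.helper6.Extend

/-!
Final assembly for linear maps preserving quasinilpotent operators in both directions.
-/

namespace Pool.Agent.H.MP_bb4c62_an.helper6.Gadgets

open Complex Metric Set Filter Topology
open Pool.Agent.H.MP_bb4c62_an.helper6.Perturb

variable {X : Type*} [NormedAddCommGroup X] [NormedSpace ℂ X]
variable {Y : Type*} [NormedAddCommGroup Y] [NormedSpace ℂ Y]

theorem adj_pow (T : X →L[ℂ] X) (n : ℕ) : adj (T ^ n) = (adj T) ^ n := by
  induction n with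
  | zero => rw [pow_zero, pow_zero, adj_one]
  | succ n ih => rw [pow_succ, adj_mul, ih, pow_succ']

theorem norm_adj (T : X →L[ℂ] X) : ‖adj T‖ = ‖T‖ := by
  apply le_antisymm
  · refine ContinuousLinearMap.opNorm_le_bound _ (norm_nonneg _) fun f => ?_
    rw [adj_apply, mul_comm]
    exact ContinuousLinearMap.opNorm_comp_le f T
  · refine ContinuousLinearMap.opNorm_le_bound T (norm_nonneg (adj T)) fun x => ?_
    refine NormedSpace.norm_le_dual_bound ℂ (T x) (by positivity) fun f => ?_
    have h1 : f (T x) = adj T f x := rfl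
    rw [h1]
    calc ‖adj T f x‖ ≤ ‖adj T f‖ * ‖x‖ := ContinuousLinearMap.le_opNorm _ _
      _ ≤ (‖adj T‖ * ‖f‖) * ‖x‖ := by
        gcongr
        exact ContinuousLinearMap.le_opNorm _ _
      _ = ‖adj T‖ * ‖x‖ * ‖f‖ := by ring

theorem qn_adj_iff [CompleteSpace X] {T : X →L[ℂ] X} :
    spectralRadius ℂ (adj T) = 0 ↔ spectralRadius ℂ T = 0 := by
  have h1 := spectrum.pow_nnnorm_pow_one_div_tendsto_nhds_spectralRadius T
  have h2 := spectrum.pow_nnnorm_pow_one_div_tendsto_nhds_spectralRadius (adj T)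
  have h3 : (fun n : ℕ => ((‖(adj T) ^ n‖₊ : ENNReal)) ^ (1 / n : ℝ)) =
      (fun n : ℕ => ((‖T ^ n‖₊ : ENNReal)) ^ (1 / n : ℝ)) := by
    ext n
    have : ‖(adj T) ^ n‖₊ = ‖T ^ n‖₊ := by
      rw [← adj_pow]
      exact Subtype.ext (norm_adj (T ^ n))
    rw [this]
  rw [h3] at h2
  have h4 := tendsto_nhds_unique h1 h2
  constructor
  · intro h; rw [h4]; exact h
  · intro h; rw [← h4]; exact h

theorem conj_qn {Z : Type*} [NormedAddCommGroup Z] [NormedSpace ℂ Z]
    (A : Z ≃L[ℂ] Y) {U : Y →L[ℂ] Y} {S : Z →L[ℂ] Z} {c : ℂ} (hc : c ≠ 0)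
    (h : ∀ x, U (A x) = c • A (S x)) :
    spectralRadius ℂ U = 0 ↔ spectralRadius ℂ S = 0 := by
  have h1 : spectralRadius ℂ U = 0 ↔ spectralRadius ℂ (c • S) = 0 := by
    have hU : A.conjContinuousAlgEquiv (c • S) = U := by
      ext y
      rw [ContinuousLinearEquiv.conjContinuousAlgEquiv_apply_apply]
      show A (c • S (A.symm y)) = U y
      rw [map_smul, ← h, ContinuousLinearEquiv.apply_symm_apply]
    have key : ∀ z : ℂ, IsUnit (1 - z • U) ↔ IsUnit (1 - z • (c • S)) := by
      intro z
      have h2 : 1 - z • U = A.conjContinuousAlgEquiv (1 - z • (c • S)) := by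
        rw [map_sub, map_one, map_smul, hU]
      rw [h2]
      exact isUnit_map_iff A.conjContinuousAlgEquiv _
    constructor
    · intro hu
      exact (qn_iff (c • S)).mpr fun z => (key z).mp ((qn_iff U).mp hu z)
    · intro hu
      exact (qn_iff U).mpr fun z => (key z).mpr ((qn_iff (c • S)).mp hu z)
  rw [h1]
  exact qn_smul_iff hc

/-- linear isomorphism of operator algebras: dimension -/
theorem equiv_of_finite (φ : (X →L[ℂ] X) ≃ₗ[ℂ] (Y →L[ℂ] Y)) (hX : Module.Finite ℂ X) :
    Nonempty (X ≃L[ℂ] Y) := by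
  have hBX : Module.Finite ℂ (X →L[ℂ] X) := inferInstance
  have hBY : Module.Finite ℂ (Y →L[ℂ] Y) := Module.Finite.equiv φ
  have hY : Module.Finite ℂ Y := by
    rcases subsingleton_or_nontrivial Y with h | h
    · infer_instance
    · obtain ⟨y, hy⟩ := exists_ne (0 : Y)
      obtain ⟨g, hg⟩ := SeparatingDual.exists_eq_one (R := ℂ) hy
      let L : Y →ₗ[ℂ] (Y →L[ℂ] Y) :=
        { toFun := fun y => ten y g
          map_add' := fun a b => ten_add_right a b g
          map_smul' := fun c a => ten_smul_left c a g }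
      have hL : Function.Injective L := by
        intro a b hab
        have h1 : ten a g y = ten b g y := by
          have : ten a g = ten b g := hab
          rw [this]
        rw [ten_apply, ten_apply, hg, one_smul, one_smul] at h1
        exact h1
      exact Module.Finite.of_injective L hL
  have e1 : Module.finrank ℂ (X →L[ℂ] X) = Module.finrank ℂ X * Module.finrank ℂ X := by
    rw [← LinearEquiv.finrank_eq (LinearMap.toContinuousLinearMap (𝕜 := ℂ) (E := X) (F' := X)),
      Module.finrank_linearMap]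
  have e2 : Module.finrank ℂ (Y →L[ℂ] Y) = Module.finrank ℂ Y * Module.finrank ℂ Y := by
    rw [← LinearEquiv.finrank_eq (LinearMap.toContinuousLinearMap (𝕜 := ℂ) (E := Y) (F' := Y)),
      Module.finrank_linearMap]
  have e3 : Module.finrank ℂ X * Module.finrank ℂ X = Module.finrank ℂ Y * Module.finrank ℂ Y := by
    rw [← e1, ← e2]; exact LinearEquiv.finrank_eq φ
  have e4 : Module.finrank ℂ X = Module.finrank ℂ Y := Nat.mul_self_inj.mp e3
  exact ⟨ContinuousLinearEquiv.ofFinrankEq e4⟩

theorem infinite_dual (hX : ¬ Module.Finite ℂ X) : ¬ Module.Finite ℂ (X →L[ℂ] ℂ) := by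
  intro hfin
  have h1 : ¬ (⊤ : Submodule ℂ X).FG := fun h => hX ⟨h⟩
  obtain ⟨v, hv, -⟩ := exists_li_of_not_fg h1 (Module.finrank ℂ (X →L[ℂ] ℂ) + 1)
  obtain ⟨f, hf⟩ := exists_dual_family hv
  have hli : LinearIndependent ℂ f := by
    rw [Fintype.linearIndependent_iff]
    intro t ht
    by_contra hcon
    push Not at hcon
    obtain ⟨i, hi⟩ := hcon
    exact exists_comb_dual hf (t := t) (fun h => hi (congrFun h i)) ht
  have := hli.fintype_card_le_finrank
  rw [Fintype.card_fin] at this
  omega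

theorem forward [CompleteSpace X] [CompleteSpace Y] (φ : (X →L[ℂ] X) ≃ₗ[ℂ] (Y →L[ℂ] Y))
    (hφ : ∀ T, spectralRadius ℂ (φ T) = 0 ↔ spectralRadius ℂ T = 0) :
    (∃ c : ℂ, c ≠ 0 ∧ ∃ A : X ≃L[ℂ] Y, ∀ T, spectralRadius ℂ T = 0 →
      ∀ x, φ T (A x) = c • A (T x)) ∨
    (∃ c : ℂ, c ≠ 0 ∧ ∃ C : (X →L[ℂ] ℂ) ≃L[ℂ] Y, ∀ T, spectralRadius ℂ T = 0 →
      ∀ f : X →L[ℂ] ℂ, φ T (C f) = c • C (f.comp T)) := by
  by_cases h2 : ∃ v : Fin 2 → X, LinearIndependent ℂ v
  · obtain ⟨v, hv⟩ := h2
    by_cases hX : Module.Finite ℂ X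
    · -- finite dimension: quasinilpotents have trace zero
      have hQ : ∀ T : X →L[ℂ] X, spectralRadius ℂ T = 0 → T ∈ F0 X := by
        intro T hT
        refine qn_finite_rank_mem_F0 ?_ hT
        exact (Module.finite_def.mp hX).of_le le_top
      rcases structure_F0 φ hφ hv with ⟨c, hc, A, h⟩ | ⟨c, hc, C, h⟩
      · exact Or.inl ⟨c, hc, A, fun T hT => h T (hQ T hT)⟩
      · exact Or.inr ⟨c, hc, C, fun T hT => h T (hQ T hT)⟩
    · rcases structure_F0 φ hφ hv with ⟨c, hc, A, h⟩ | ⟨c, hc, C, h⟩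
      · left
        refine ⟨c, hc, A, ?_⟩
        -- the normalised map
        let φ' : (X →L[ℂ] X) →ₗ[ℂ] (X →L[ℂ] X) :=
          { toFun := fun T => c⁻¹ • A.symm.conjContinuousAlgEquiv (φ T)
            map_add' := fun S T => by rw [map_add, map_add, smul_add]
            map_smul' := fun a T => by
              rw [map_smul, map_smul, smul_comm]; rfl }
        have hφ' : ∀ T x, φ' T x = c⁻¹ • A.symm (φ T (A x)) := fun T x => rfl
        have h0 : ∀ T ∈ F0 X, φ' T = T := by
          intro T hT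
          ext x
          rw [hφ', h T hT x, map_smul, smul_smul, inv_mul_cancel₀ hc, one_smul,
            ContinuousLinearEquiv.symm_apply_apply]
        have hq : ∀ T, spectralRadius ℂ T = 0 → spectralRadius ℂ (φ' T) = 0 := by
          intro T hT
          refine (conj_qn A hc (U := φ T) (S := φ' T) ?_).mp ((hφ T).mpr hT)
          intro x
          rw [hφ', map_smul, smul_smul, mul_inv_cancel₀ hc, one_smul,
            ContinuousLinearEquiv.apply_symm_apply]
        intro T hT x
        have h1 := extend1 hX φ' h0 hq T hT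
        have h3 : φ' T x = T x := by rw [h1]
        rw [hφ'] at h3
        rw [← h3, map_smul, smul_smul, mul_inv_cancel₀ hc, one_smul,
          ContinuousLinearEquiv.apply_symm_apply]
      · right
        refine ⟨c, hc, C, ?_⟩
        let φ' : (X →L[ℂ] X) →ₗ[ℂ] ((X →L[ℂ] ℂ) →L[ℂ] (X →L[ℂ] ℂ)) :=
          { toFun := fun T => c⁻¹ • C.symm.conjContinuousAlgEquiv (φ T)
            map_add' := fun S T => by rw [map_add, map_add, smul_add]
            map_smul' := fun a T => by
              rw [map_smul, map_smul, smul_comm]; rfl }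
        have hφ' : ∀ T f, φ' T f = c⁻¹ • C.symm (φ T (C f)) := fun T f => rfl
        have h0 : ∀ T ∈ F0 X, φ' T = adj T := by
          intro T hT
          ext f : 1
          rw [hφ', h T hT f, map_smul, ContinuousLinearEquiv.symm_apply_apply, adj_apply]
          ext w
          show c⁻¹ * (c * (f.comp T) w) = (f.comp T) w
          rw [inv_mul_cancel_left₀ hc]
        have hq : ∀ T, spectralRadius ℂ T = 0 → spectralRadius ℂ (φ' T) = 0 := by
          intro T hT
          refine (conj_qn C hc (U := φ T) (S := φ' T) ?_).mp ((hφ T).mpr hT)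
          intro f
          rw [hφ', map_smul, smul_smul, mul_inv_cancel₀ hc, one_smul,
            ContinuousLinearEquiv.apply_symm_apply]
        intro T hT f
        have h1 := extend2 (infinite_dual hX) φ' h0 hq T hT
        have h3 : φ' T f = f.comp T := by rw [h1]; rfl
        rw [hφ'] at h3
        rw [← h3, map_smul, smul_smul, mul_inv_cancel₀ hc, one_smul,
          ContinuousLinearEquiv.apply_symm_apply]
  · -- dimension at most one
    left
    have hQ : ∀ T : X →L[ℂ] X, spectralRadius ℂ T = 0 → T = 0 := by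
      intro T hT
      by_contra hT0
      obtain ⟨x, hx0, hx⟩ := exists_indep_of_qn hT hT0
      apply h2
      refine ⟨![x, T x], ?_⟩
      rw [LinearIndependent.pair_iff' hx0]
      intro a ha
      exact hx ⟨a, ha.symm⟩
    have hX : Module.Finite ℂ X := by
      by_contra hX
      have h1 : ¬ (⊤ : Submodule ℂ X).FG := fun h => hX ⟨h⟩
      obtain ⟨v, hv, -⟩ := exists_li_of_not_fg h1 2
      exact h2 ⟨v, hv⟩
    obtain ⟨A⟩ := equiv_of_finite φ hX
    refine ⟨1, one_ne_zero, A, fun T hT x => ?_⟩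
    rw [hQ T hT]; simp

end Pool.Agent.H.MP_bb4c62_an.helper6.Gadgets
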