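import Pool.Agent.H.MP_bb4c62_an.helper6.Gadgets2

/-!
Finite rank quasinilpotent operators: nilpotency and trace.
-/

namespace Pool.Agent.H.MP_bb4c62_an.helper6.Gadgets

open Complex Metric Set Filter Topology
open Pool.Agent.H.MP_bb4c62_an.helper6.Perturb
open Pool.Agent.H.MP_bb4c62_an.helper6.Picard

variable {X : Type*} [NormedAddCommGroup X] [NormedSpace ℂ X]

theorem isUnit_aeval [CompleteSpace X] {A : X →L[ℂ] X} (hA : spectralRadius ℂ A = 0)
    {q : Polynomial ℂ} (hq : q.eval 0 ≠ 0) : IsUnit (Polynomial.aeval A q) := by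
  rcases subsingleton_or_nontrivial X with hX | hX
  · have : Subsingleton (X →L[ℂ] X) := ⟨fun a b => by ext x; exact Subsingleton.elim _ _⟩
    exact isUnit_of_subsingleton _
  rw [← spectrum.zero_notMem_iff (R := ℂ),
    spectrum.map_polynomial_aeval_of_nonempty A q (spectrum.nonempty A)]
  rintro ⟨k, hk, hk0⟩
  have hk' : k = 0 := by
    by_contra h
    have := (qn_iff A).mp hA k⁻¹
    rw [isUnit_one_sub_smul_iff _ (inv_ne_zero h), inv_inv] at this
    exact this hk
  rw [hk'] at hk0
  exact hq hk0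

theorem li_pow [CompleteSpace X] {A : X →L[ℂ] X} (hA : spectralRadius ℂ A = 0) {x : X} {n : ℕ}
    (hx : (A ^ n) x ≠ 0) : LinearIndependent ℂ (fun k : Fin (n + 1) => (A ^ (k : ℕ)) x) := by
  rw [Fintype.linearIndependent_iff]
  intro g hg
  by_contra hcon
  push Not at hcon
  obtain ⟨i, hi⟩ := hcon
  -- polynomial
  set p : Polynomial ℂ := ∑ k : Fin (n + 1), Polynomial.monomial (k : ℕ) (g k) with hp
  have hcoeff : ∀ k : Fin (n + 1), p.coeff k = g k := by
    intro k
    rw [hp, Polynomial.finsetSum_coeff]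
    simp only [Polynomial.coeff_monomial]
    rw [Finset.sum_eq_single k]
    · simp
    · intro j _ hj
      have : (j : ℕ) ≠ (k : ℕ) := fun h => hj (Fin.ext h)
      simp [this]
    · simp
  have hp0 : p ≠ 0 := by
    intro h
    apply hi
    rw [← hcoeff i, h]; simp
  have hdeg : p.natDegree ≤ n := by
    rw [hp]
    refine Polynomial.natDegree_sum_le_of_forall_le _ _ ?_
    intro k _
    exact (Polynomial.natDegree_monomial_le _).trans (Nat.lt_succ_iff.mp k.2)
  have hpx : (Polynomial.aeval A p) x = 0 := by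
    rw [hp, map_sum, sum_apply, ← hg]
    refine Finset.sum_congr rfl fun k _ => ?_
    rw [Polynomial.aeval_monomial, Algebra.algebraMap_eq_smul_one, smul_mul_assoc, one_mul]
    rfl
  obtain ⟨q, hpq, hq⟩ := p.exists_eq_pow_rootMultiplicity_mul_and_not_dvd hp0 0
  have hq0 : q.eval 0 ≠ 0 := by
    intro h
    apply hq
    rw [Polynomial.dvd_iff_isRoot]
    exact h
  have hqne : q ≠ 0 := by
    rintro rfl
    simp at hq0
  have hm : p.rootMultiplicity 0 ≤ n := by
    refine le_trans ?_ hdeg
    have hX : ((Polynomial.X - Polynomial.C (0 : ℂ)) ^ p.rootMultiplicity 0).natDegree =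
        p.rootMultiplicity 0 := by
      rw [Polynomial.natDegree_pow, Polynomial.natDegree_X_sub_C, mul_one]
    have h2 : p.natDegree = ((Polynomial.X - Polynomial.C (0 : ℂ)) ^
        p.rootMultiplicity 0).natDegree + q.natDegree := by
      conv_lhs => rw [hpq]
      rw [Polynomial.natDegree_mul (pow_ne_zero _ (Polynomial.X_sub_C_ne_zero 0)) hqne]
    omega
  rw [hpq, mul_comm] at hpx
  rw [map_mul, map_pow, map_sub, Polynomial.aeval_X, Polynomial.aeval_C, map_zero, sub_zero] at hpx
  obtain ⟨u, hu⟩ := isUnit_aeval hA hq0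
  rw [← hu] at hpx
  have h3 : (A ^ p.rootMultiplicity 0) x = 0 := by
    have h4 : ((↑u⁻¹ * (↑u : X →L[ℂ] X)) : X →L[ℂ] X) ((A ^ p.rootMultiplicity 0) x) =
        (A ^ p.rootMultiplicity 0) x := by
      rw [Units.inv_mul]; rfl
    rw [← h4]
    show (↑u⁻¹ : X →L[ℂ] X) ((↑u : X →L[ℂ] X) ((A ^ p.rootMultiplicity 0) x)) = 0
    have h5 : (↑u : X →L[ℂ] X) ((A ^ p.rootMultiplicity 0) x) = 0 := hpx
    rw [h5, map_zero]
  apply hx
  have h6 : A ^ n = A ^ (n - p.rootMultiplicity 0) * A ^ p.rootMultiplicity 0 := by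
    rw [← pow_add]; congr 1; omega
  rw [h6]
  show (A ^ (n - p.rootMultiplicity 0)) ((A ^ p.rootMultiplicity 0) x) = 0
  rw [h3, map_zero]

/-- modulo the trace zero operators, `x ⊗ f` is `f x` times a fixed rank one idempotent -/
theorem ten_sub_mem_F0 {u : X} {g : X →L[ℂ] ℂ} (hgu : g u = 1) (x : X) (f : X →L[ℂ] ℂ) :
    ten x f - f x • ten u g ∈ F0 X := by
  set s : ℂ := 1 - g x with hs
  set t : ℂ := g x * f u - f x - f u with ht
  have h1 : ten x f - f x • ten u g = ten (x + s • u) (f + t • g) - t • ten (x - g x • u) g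
      - s • ten u (f - f u • g) := by
    ext w
    show f w • x - f x • (g w • u) = (f w + t * g w) • (x + s • u)
      - t • (g w • (x - g x • u)) - s • ((f w - f u * g w) • u)
    simp only [smul_add, smul_sub, smul_smul, add_smul, sub_smul]
    have h2 : (f x * g w) • u = -((t * g w * s) • u) - (t * (g w * g x)) • u
        - (s * (f u * g w)) • u := by
      rw [← neg_smul, ← sub_smul, ← sub_smul]
      congr 1
      rw [hs, ht]
      ring
    rw [h2]
    module
  rw [h1]
  refine Submodule.sub_mem _ (Submodule.sub_mem _ (ten_mem_F0 ?_) (Submodule.smul_mem _ _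
    (ten_mem_F0 ?_))) (Submodule.smul_mem _ _ (ten_mem_F0 ?_))
  · show f (x + s • u) + t * g (x + s • u) = 0
    rw [map_add, map_add, map_smul, map_smul, hgu]
    simp only [smul_eq_mul]
    rw [hs, ht]
    ring
  · rw [map_sub, map_smul, hgu]; simp
  · show f u - f u * g u = 0
    rw [hgu]; ring

theorem sum_ten_mem_F0 {n : ℕ} (x : Fin n → X) (f : Fin n → X →L[ℂ] ℂ)
    (h : ∑ i, f i (x i) = 0) : ∑ i, ten (x i) (f i) ∈ F0 X := by
  rcases subsingleton_or_nontrivial X with hX | hX
  · have h0 : ∑ i, ten (x i) (f i) = 0 := by ext w; exact Subsingleton.elim _ _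
    rw [h0]; exact Submodule.zero_mem _
  obtain ⟨u, hu⟩ := exists_ne (0 : X)
  obtain ⟨g, hg⟩ := SeparatingDual.exists_eq_one (R := ℂ) hu
  have h1 : ∑ i, ten (x i) (f i) = ∑ i, (ten (x i) (f i) - f i (x i) • ten u g) := by
    rw [Finset.sum_sub_distrib, ← Finset.sum_smul, h, zero_smul, sub_zero]
  rw [h1]
  exact Submodule.sum_mem _ fun i _ => ten_sub_mem_F0 hg _ _

/-- finite rank operators are finite sums of rank one operators -/
theorem exists_repr {T : X →L[ℂ] X} (hT : (LinearMap.range (T : X →ₗ[ℂ] X)).FG) :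
    ∃ (n : ℕ) (x : Fin n → X) (f : Fin n → X →L[ℂ] ℂ), T = ∑ i, ten (x i) (f i) := by
  have hfd : FiniteDimensional ℂ (LinearMap.range (T : X →ₗ[ℂ] X)) :=
    Module.Finite.iff_fg.mpr hT
  set R := LinearMap.range (T : X →ₗ[ℂ] X) with hR
  set b := Module.finBasis ℂ R with hb
  have hTR : ∀ w, T w ∈ R := fun w => ⟨w, rfl⟩
  set T' : X →L[ℂ] R := T.codRestrict R hTR with hT'
  refine ⟨Module.finrank ℂ R, fun i => (b i : X),
    fun i => (LinearMap.toContinuousLinearMap (b.coord i)).comp T', ?_⟩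
  ext w
  rw [sum_apply]
  have h1 := b.sum_repr (T' w)
  have h2 := congrArg (Subtype.val) h1
  rw [Submodule.coe_sum] at h2
  show T w = ∑ i, (b.coord i (T' w)) • (b i : X)
  rw [show T w = ((T' w : R) : X) from rfl, ← h2]
  rfl

/-- The matrix of a sum of rank one operators has only zero eigenvalues when the sum is
quasinilpotent. -/
theorem matrix_roots {n : ℕ} (x : Fin n → X) (f : Fin n → X →L[ℂ] ℂ)
    (hT : spectralRadius ℂ (∑ i, ten (x i) (f i)) = 0) :
    ∀ μ ∈ (Matrix.charpoly (Matrix.of fun i j => f i (x j))).roots, μ = 0 := by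
  intro μ hμ
  by_contra hμ0
  set M : Matrix (Fin n) (Fin n) ℂ := Matrix.of fun i j => f i (x j) with hM
  have h1 : (Matrix.charpoly M).eval μ = 0 := (Polynomial.mem_roots'.mp hμ).2
  rw [Matrix.eval_charpoly] at h1
  obtain ⟨v, hv0, hv⟩ := Matrix.exists_mulVec_eq_zero_iff.mpr h1
  have h2 : M.mulVec v = μ • v := by
    rw [Matrix.sub_mulVec] at hv
    have h3 := sub_eq_zero.mp hv
    rw [← h3]
    ext i
    simp [Matrix.scalar_apply, Matrix.mulVec_diagonal]
  set w : X := ∑ j, v j • x j with hw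
  have h3 : ∀ i, f i w = μ * v i := by
    intro i
    have h4 := congrFun h2 i
    rw [hw, map_sum]
    simp only [map_smul, smul_eq_mul]
    have h5 : M.mulVec v i = ∑ j, f i (x j) * v j := rfl
    rw [h5] at h4
    rw [show (μ • v) i = μ * v i from rfl] at h4
    rw [← h4]
    exact Finset.sum_congr rfl fun j _ => mul_comm _ _
  have hw0 : w ≠ 0 := by
    intro h
    apply hv0
    ext i
    have := h3 i
    rw [h, map_zero] at this
    rcases mul_eq_zero.mp this.symm with h' | h'
    · exact absurd h' hμ0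
    · simpa using h'
  have hTw : (∑ i, ten (x i) (f i)) w = μ • w := by
    rw [sum_apply]
    simp only [ten_apply, h3]
    rw [hw, Finset.smul_sum]
    exact Finset.sum_congr rfl fun j _ => mul_smul _ _ _
  exact not_qn_of_eigen hw0 hμ0 hTw hT

theorem qn_finite_rank_mem_F0 {T : X →L[ℂ] X} (hfr : (LinearMap.range (T : X →ₗ[ℂ] X)).FG)
    (hT : spectralRadius ℂ T = 0) : T ∈ F0 X := by
  obtain ⟨n, x, f, rfl⟩ := exists_repr hfr
  apply sum_ten_mem_F0
  have h1 := matrix_roots x f hT
  have h2 : (Matrix.of fun i j => f i (x j)).trace = 0 := by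
    rw [Matrix.trace_eq_sum_roots_charpoly]
    exact Multiset.sum_eq_zero h1
  simpa [Matrix.trace] using h2

theorem qn_finite_rank_nilpotent {T : X →L[ℂ] X}
    (hfr : (LinearMap.range (T : X →ₗ[ℂ] X)).FG)
    (hT : spectralRadius ℂ T = 0) : ∃ n : ℕ, T ^ n = 0 := by
  obtain ⟨n, x, f, hTe⟩ := exists_repr hfr
  rw [hTe] at hT
  have h1 := matrix_roots x f hT
  set M : Matrix (Fin n) (Fin n) ℂ := Matrix.of fun i j => f i (x j) with hM
  -- charpoly is a power of X
  have h2 : M.charpoly = Polynomial.X ^ n := by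
    have h3 := (IsAlgClosed.splits M.charpoly).eq_prod_roots_of_monic (Matrix.charpoly_monic M)
    have h4 : M.charpoly.roots = Multiset.replicate (Multiset.card M.charpoly.roots) 0 :=
      Multiset.eq_replicate_card.mpr h1
    have h5 : Multiset.card M.charpoly.roots = n := by
      rw [← (IsAlgClosed.splits M.charpoly).natDegree_eq_card_roots,
        Matrix.charpoly_natDegree_eq_dim, Fintype.card_fin]
    rw [h4, h5] at h3
    rw [h3]
    simp
  have h6 : M ^ n = 0 := by
    have := Matrix.aeval_self_charpoly M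
    rw [h2] at this
    simpa using this
  -- the powers
  have h7 : ∀ (k : ℕ) (w : X), (T ^ (k + 1)) w =
      ∑ i, ((M ^ k).mulVec (fun j => f j w)) i • x i := by
    intro k
    induction k with
    | zero =>
      intro w
      rw [zero_add, pow_one, pow_zero, Matrix.one_mulVec, hTe, sum_apply]
      rfl
    | succ k ih =>
      intro w
      rw [pow_succ]
      show (T ^ (k + 1)) (T w) = _
      rw [ih (T w)]
      refine Finset.sum_congr rfl fun i _ => ?_
      congr 1
      rw [pow_succ, ← Matrix.mulVec_mulVec]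
      congr 2
      ext j
      rw [hTe, sum_apply, map_sum]
      show _ = ∑ l, f j (x l) * f l w
      refine Finset.sum_congr rfl fun l _ => ?_
      rw [ten_apply, map_smul, smul_eq_mul, mul_comm]
  refine ⟨n + 1, ?_⟩
  ext w
  rw [h7 n w, h6]
  simp

end Pool.Agent.H.MP_bb4c62_an.helper6.Gadgets
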