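import Mathlib

/-!
Quasinilpotent operators and finite rank perturbations.
-/

namespace Pool.Agent.H.MP_bb4c62_an.helper6.Perturb

open Complex Metric Set Filter Topology

section Alg

variable {A : Type*} [Ring A] [Algebra ℂ A]

theorem isUnit_one_sub_smul_iff (a : A) {z : ℂ} (hz : z ≠ 0) :
    IsUnit (1 - z • a) ↔ z⁻¹ ∉ spectrum ℂ a := by
  rw [spectrum.notMem_iff]
  have : algebraMap ℂ A z⁻¹ - a = z⁻¹ • (1 - z • a) := by
    rw [smul_sub, smul_smul, inv_mul_cancel₀ hz, one_smul, Algebra.algebraMap_eq_smul_one]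
  rw [this]
  have hu : IsUnit (z⁻¹) := isUnit_iff_ne_zero.mpr (inv_ne_zero hz)
  obtain ⟨u, hu⟩ := hu
  rw [← hu]
  exact (isUnit_smul_iff u _).symm

end Alg

section Alg2

variable {A : Type*} [NormedRing A] [NormedAlgebra ℂ A]

/-- An element is quasinilpotent iff `1 - z a` is a unit for all `z`. -/
theorem qn_iff (a : A) : spectralRadius ℂ a = 0 ↔ ∀ z : ℂ, IsUnit (1 - z • a) := by
  unfold spectralRadius
  constructor
  · intro h z
    by_cases hz : z = 0
    · rw [hz, zero_smul, sub_zero]; exact isUnit_one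
    · rw [isUnit_one_sub_smul_iff a hz]
      intro hmem
      rw [ENNReal.iSup_eq_zero] at h
      have h1 := h z⁻¹
      rw [ENNReal.iSup_eq_zero] at h1
      have h2 := h1 hmem
      simp [hz] at h2
  · intro h
    rw [ENNReal.iSup_eq_zero]
    intro k
    rw [ENNReal.iSup_eq_zero]
    intro hk
    by_cases hk0 : k = 0
    · simp [hk0]
    · exfalso
      have h1 := h k⁻¹
      rw [isUnit_one_sub_smul_iff a (inv_ne_zero hk0), inv_inv] at h1
      exact h1 hk

theorem qn_zero : spectralRadius ℂ (0 : A) = 0 := by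
  rw [qn_iff]; intro z; simp

theorem qn_smul {a : A} (ha : spectralRadius ℂ a = 0) (c : ℂ) : spectralRadius ℂ (c • a) = 0 := by
  rw [qn_iff] at ha ⊢
  intro z
  rw [smul_smul]
  exact ha _

theorem qn_smul_iff {a : A} {c : ℂ} (hc : c ≠ 0) :
    spectralRadius ℂ (c • a) = 0 ↔ spectralRadius ℂ a = 0 := by
  constructor
  · intro h
    have := qn_smul h c⁻¹
    rwa [smul_smul, inv_mul_cancel₀ hc, one_smul] at this
  · intro h; exact qn_smul h c

/-- square zero elements are quasinilpotent -/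
theorem qn_of_sq {a : A} (ha : a * a = 0) : spectralRadius ℂ a = 0 := by
  rw [qn_iff]
  intro z
  refine ⟨⟨1 - z • a, 1 + z • a, ?_, ?_⟩, rfl⟩
  · have : (1 - z • a) * (1 + z • a) = 1 - (z * z) • (a * a) := by
      rw [sub_mul, mul_add, mul_add, one_mul, one_mul, mul_one, smul_mul_smul_comm]
      abel
    rw [this, ha, smul_zero, sub_zero]
  · have : (1 + z • a) * (1 - z • a) = 1 - (z * z) • (a * a) := by
      rw [add_mul, mul_sub, mul_sub, one_mul, one_mul, mul_one, smul_mul_smul_comm]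
      abel
    rw [this, ha, smul_zero, sub_zero]

theorem qn_conj {a : A} (ha : spectralRadius ℂ a = 0) {s t : A} (hst : s * t = 1)
    (hts : t * s = 1) : spectralRadius ℂ (s * a * t) = 0 := by
  rw [qn_iff] at ha ⊢
  intro z
  have h1 : 1 - z • (s * a * t) = s * (1 - z • a) * t := by
    rw [mul_sub, sub_mul, mul_one, hst, mul_smul_comm, smul_mul_assoc]
  rw [h1]
  have hs : IsUnit s := ⟨⟨s, t, hst, hts⟩, rfl⟩
  have ht : IsUnit t := ⟨⟨t, s, hts, hst⟩, rfl⟩
  exact (hs.mul (ha z)).mul ht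

end Alg2

section Op

variable {X : Type*} [NormedAddCommGroup X] [NormedSpace ℂ X]

/-- A nonzero eigenvalue excludes quasinilpotence. -/
theorem not_qn_of_eigen {T : X →L[ℂ] X} {x : X} (hx : x ≠ 0) {μ : ℂ} (hμ : μ ≠ 0)
    (h : T x = μ • x) : spectralRadius ℂ T ≠ 0 := by
  intro hq
  rw [qn_iff] at hq
  obtain ⟨u, hu⟩ := hq μ⁻¹
  have h1 : (1 - μ⁻¹ • T : X →L[ℂ] X) x = 0 := by
    show x - μ⁻¹ • T x = 0
    rw [h, smul_smul, inv_mul_cancel₀ hμ, one_smul, sub_self]
  apply hx
  have h2 : ((↑u⁻¹ * (↑u : X →L[ℂ] X)) : X →L[ℂ] X) x = x := by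
    rw [Units.inv_mul]; rfl
  rw [← h2]
  show (↑u⁻¹ : X →L[ℂ] X) ((↑u : X →L[ℂ] X) x) = 0
  rw [hu, h1, map_zero]

theorem not_qn_of_pow_eigen [CompleteSpace X] {T : X →L[ℂ] X} {x : X} (hx : x ≠ 0) {μ : ℂ}
    (hμ : μ ≠ 0) {n : ℕ} (hn : 0 < n) (h : (T ^ n) x = μ • x) : spectralRadius ℂ T ≠ 0 := by
  intro hq
  have h1 := not_qn_of_eigen hx hμ h
  apply h1
  rw [qn_iff]
  intro z
  by_cases hz : z = 0
  · rw [hz, zero_smul, sub_zero]; exact isUnit_one
  rw [isUnit_one_sub_smul_iff _ hz, spectrum.map_pow_of_pos T hn]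
  rintro ⟨k, hk, hkn⟩
  have hk0 : k ≠ 0 := by
    rintro rfl
    simp only [zero_pow hn.ne'] at hkn
    exact inv_ne_zero hz hkn.symm
  rw [qn_iff] at hq
  have := hq k⁻¹
  rw [isUnit_one_sub_smul_iff _ (inv_ne_zero hk0), inv_inv] at this
  exact this hk

/-- The rank one operator. -/
noncomputable abbrev ten (x : X) (f : X →L[ℂ] ℂ) : X →L[ℂ] X := ContinuousLinearMap.smulRight f x

theorem ten_apply (x : X) (f : X →L[ℂ] ℂ) (y : X) : ten x f y = f y • x := rfl

theorem mul_ten (T : X →L[ℂ] X) (x : X) (f : X →L[ℂ] ℂ) : T * ten x f = ten (T x) f := by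
  ext y
  simp

theorem ten_mul (T : X →L[ℂ] X) (x : X) (f : X →L[ℂ] ℂ) : ten x f * T = ten x (f.comp T) := by
  ext y
  simp

theorem ten_sq {x : X} {f : X →L[ℂ] ℂ} (h : f x = 0) : ten x f * ten x f = 0 := by
  rw [mul_ten, ten_apply, h, zero_smul]
  ext y; simp

theorem isUnit_one_sub_ten_iff (y : X) (f : X →L[ℂ] ℂ) :
    IsUnit (1 - ten y f) ↔ f y ≠ 1 := by
  constructor
  · intro hu h1
    obtain ⟨u, hu⟩ := hu
    have hy : y ≠ 0 := by
      rintro rfl
      simp at h1
    apply hy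
    have h2 : ((↑u⁻¹ * (↑u : X →L[ℂ] X)) : X →L[ℂ] X) y = y := by
      rw [Units.inv_mul]; rfl
    have h3 : (1 - ten y f : X →L[ℂ] X) y = 0 := by
      show y - f y • y = 0
      rw [h1, one_smul, sub_self]
    rw [← h2]
    show (↑u⁻¹ : X →L[ℂ] X) ((↑u : X →L[ℂ] X) y) = 0
    rw [hu, h3, map_zero]
  · intro h
    have h1 : (1 : ℂ) - f y ≠ 0 := sub_ne_zero.mpr (Ne.symm h)
    refine ⟨⟨1 - ten y f, 1 + (1 - f y)⁻¹ • ten y f, ?_, ?_⟩, rfl⟩
    · ext w
      show (w + (1 - f y)⁻¹ • (f w • y)) - f (w + (1 - f y)⁻¹ • (f w • y)) • y = w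
      rw [map_add, map_smul, map_smul, smul_smul, add_smul]
      simp only [smul_eq_mul]
      have h2 : (1 - f y)⁻¹ * f w = f w + (1 - f y)⁻¹ * (f w * f y) := by
        field_simp; ring
      rw [h2, add_smul]
      abel
    · ext w
      show (w - f w • y) + (1 - f y)⁻¹ • (f (w - f w • y) • y) = w
      rw [map_sub, map_smul, smul_smul]
      simp only [smul_eq_mul]
      have h2 : (1 - f y)⁻¹ * (f w - f w * f y) = f w := by
        field_simp
      rw [h2]
      abel

/-- The rank one perturbation of a quasinilpotent operator. -/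
theorem qn_add_ten_iff {V : X →L[ℂ] X} (hV : spectralRadius ℂ V = 0) (x : X) (f : X →L[ℂ] ℂ) :
    spectralRadius ℂ (V + ten x f) = 0 ↔ ∀ z : ℂ, z * f (Ring.inverse (1 - z • V) x) ≠ 1 := by
  rw [qn_iff] at hV ⊢
  refine forall_congr' fun z => ?_
  have hu := hV z
  have h1 : 1 - z • (V + ten x f) =
      (1 - z • V) * (1 - ten (z • Ring.inverse (1 - z • V) x) f) := by
    rw [mul_sub, mul_one, mul_ten, map_smul]
    have h2 : (1 - z • V) (Ring.inverse (1 - z • V) x) = x := by
      have := Ring.mul_inverse_cancel _ hu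
      have h3 : ((1 - z • V) * Ring.inverse (1 - z • V)) x = x := by rw [this]; rfl
      exact h3
    rw [h2, smul_add, sub_sub]
    congr 2
    ext w
    show z • (f w • x) = f w • (z • x)
    rw [smul_comm]
  rw [h1]
  obtain ⟨u, hu'⟩ := hu
  rw [← hu', Units.isUnit_units_mul, hu', isUnit_one_sub_ten_iff, map_smul, smul_eq_mul]

theorem isCompact_ten (x : X) (f : X →L[ℂ] ℂ) : IsCompactOperator (ten x f) :=
  (isCompactOperator_of_locallyCompactSpace_rng
    (ContinuousLinearMap.toSpanSingleton ℂ x)).comp_clm f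

/-- Compact perturbations of quasinilpotent operators: nonzero spectral points are
eigenvalues. -/
theorem qn_add_of_no_eigen [CompleteSpace X] {V K : X →L[ℂ] X}
    (hV : spectralRadius ℂ V = 0) (hK : IsCompactOperator K)
    (h : ∀ μ : ℂ, μ ≠ 0 → ∀ ξ : X, V ξ + K ξ = μ • ξ → ξ = 0) :
    spectralRadius ℂ (V + K) = 0 := by
  rw [qn_iff] at hV ⊢
  intro z
  by_cases hz : z = 0
  · rw [hz, zero_smul, sub_zero]; exact isUnit_one
  have hu := hV z
  have hinv : (1 - z • V) * Ring.inverse (1 - z • V) = 1 := Ring.mul_inverse_cancel _ hu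
  set K' : X →L[ℂ] X := z • (Ring.inverse (1 - z • V) * K) with hK'
  have hcomp : IsCompactOperator K' := by
    rw [hK']
    exact (hK.clm_comp (Ring.inverse (1 - z • V))).smul z
  have h1 : 1 - z • (V + K) = (1 - z • V) * (1 - K') := by
    rw [mul_sub, mul_one, hK', mul_smul_comm, ← mul_assoc, hinv, one_mul, smul_add, sub_sub]
  rw [h1]
  refine hu.mul ?_
  rcases hcomp.hasEigenvalue_or_mem_resolventSet (one_ne_zero (α := ℂ)) with he | hr
  · exfalso
    obtain ⟨ξ, hξ⟩ := he.exists_hasEigenvector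
    have hξ0 := hξ.2
    have hξ1 : K' ξ = ξ := by
      have := hξ.apply_eq_smul
      simpa using this
    apply hξ0
    apply h z⁻¹ (inv_ne_zero hz)
    have h2 : (1 - z • V) (K' ξ) = z • K ξ := by
      have h3 : ((1 - z • V) * K') ξ = (z • K) ξ := by
        rw [hK', mul_smul_comm, ← mul_assoc, hinv, one_mul]
      exact h3
    rw [hξ1] at h2
    have h4 : ξ - z • V ξ = z • K ξ := h2
    have h5 : ξ = z • (V ξ + K ξ) := by
      rw [smul_add, ← h4]; abel
    conv_rhs => rw [h5]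
    rw [smul_smul, inv_mul_cancel₀ hz, one_smul]
  · rw [spectrum.mem_resolventSet_iff, map_one] at hr
    exact hr

/-- finite families of linearly independent vectors have dual functionals -/
theorem exists_dual {ι : Type*} [Finite ι] {v : ι → X} (hv : LinearIndependent ℂ v) (a : ι → ℂ) :
    ∃ f : X →L[ℂ] ℂ, ∀ i, f (v i) = a i := by
  classical
  let W := Submodule.span ℂ (Set.range v)
  have : FiniteDimensional ℂ W := FiniteDimensional.span_of_finite ℂ (Set.finite_range v)
  let b : Module.Basis ι ℂ W := Module.Basis.span hv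
  let g : W →ₗ[ℂ] ℂ := b.constr ℂ a
  obtain ⟨f, hf, -⟩ := exists_extension_norm_eq W (LinearMap.toContinuousLinearMap g)
  refine ⟨f, fun i => ?_⟩
  have h1 : (b i : X) = v i := by rw [Module.Basis.span_apply hv i]
  rw [← h1, hf]
  show g (b i) = a i
  simp [g]

end Op

end Pool.Agent.H.MP_bb4c62_an.helper6.Perturb
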