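import Pool.Agent.H.MP_bb4c62_an.helper6.Picard
import Pool.Agent.H.MP_bb4c62_an.helper6.Perturb

/-!
Lines of quasinilpotent operators: rank one operators against operators of higher rank.
-/

namespace Pool.Agent.H.MP_bb4c62_an.helper6.Gadgets

open Complex Metric Set Filter Topology
open Pool.Agent.H.MP_bb4c62_an.helper6.Perturb
open Pool.Agent.H.MP_bb4c62_an.helper6.Picard

variable {X : Type*} [NormedAddCommGroup X] [NormedSpace ℂ X]

theorem ten_add_right (x y : X) (f : X →L[ℂ] ℂ) : ten (x + y) f = ten x f + ten y f := by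
  ext w; simp

theorem ten_smul_left (c : ℂ) (x : X) (f : X →L[ℂ] ℂ) : ten (c • x) f = c • ten x f := by
  ext w
  show f w • (c • x) = c • (f w • x)
  rw [smul_comm]

/-- the resolvent function of a quasinilpotent operator is entire -/
theorem differentiable_resolvent [CompleteSpace X] {V : X →L[ℂ] X}
    (hV : spectralRadius ℂ V = 0) (x : X) (f : X →L[ℂ] ℂ) :
    Differentiable ℂ (fun z : ℂ => f (Ring.inverse (1 - z • V) x)) := by
  intro z
  rw [qn_iff] at hV
  have h1 : DifferentiableAt ℂ (fun z : ℂ => (1 - z • V : X →L[ℂ] X)) z := by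
    fun_prop
  have h2 : DifferentiableAt ℂ (fun z : ℂ => Ring.inverse (1 - z • V : X →L[ℂ] X)) z :=
    h1.inverse (hV z)
  have h3 : DifferentiableAt ℂ (fun z : ℂ => Ring.inverse (1 - z • V : X →L[ℂ] X) x) z :=
    h2.clm_apply (differentiableAt_const x)
  exact f.differentiableAt.comp z h3

/-- Rank one operators: two quasinilpotent translates force the whole line. -/
theorem rank_one_star [CompleteSpace X] {V : X →L[ℂ] X} (hV : spectralRadius ℂ V = 0)
    {x : X} {f : X →L[ℂ] ℂ} (h1 : spectralRadius ℂ (V + ten x f) = 0)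
    (h2 : spectralRadius ℂ (V - ten x f) = 0) (τ : ℂ) :
    spectralRadius ℂ (V + τ • ten x f) = 0 := by
  set G : ℂ → ℂ := fun z => z * f (Ring.inverse (1 - z • V) x) with hG
  have hGd : Differentiable ℂ G := differentiable_id.mul (differentiable_resolvent hV x f)
  have h1' : ∀ z, G z ≠ 1 := (qn_add_ten_iff hV x f).mp h1
  have h2' : ∀ z, G z ≠ -1 := by
    intro z hz
    have h3 : V - ten x f = V + ten (-x) f := by
      ext w; simp [sub_eq_add_neg]
    rw [h3, qn_add_ten_iff hV] at h2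
    apply h2 z
    rw [map_neg, map_neg, mul_neg]
    have : z * f (Ring.inverse (1 - z • V) x) = -1 := hz
    rw [this]; simp
  have hconst : ∀ z, G z = 0 := by
    intro z
    rw [picard hGd h1' h2' z 0]
    simp [hG]
  rw [← ten_smul_left, qn_add_ten_iff hV]
  intro z
  rw [map_smul, map_smul, smul_eq_mul]
  have := hconst z
  have h4 : z * f (Ring.inverse (1 - z • V) x) = 0 := this
  have h5 : z * (τ * f (Ring.inverse (1 - z • V) x)) = 0 := by
    rw [mul_left_comm, h4, mul_zero]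
  rw [h5]
  exact zero_ne_one

/-- For quasinilpotent `A`, `μ - τ A` is injective for `μ ≠ 0`. -/
theorem inj_of_qn {A : X →L[ℂ] X} (hA : spectralRadius ℂ A = 0) {μ τ : ℂ} (hμ : μ ≠ 0) {ξ : X}
    (h : τ • A ξ = μ • ξ) : ξ = 0 := by
  by_contra hξ
  exact not_qn_of_eigen (T := τ • A) hξ hμ h (qn_smul hA τ)

section Strand

variable {ι : Type*} [Fintype ι] [DecidableEq ι]

/-- the cyclic strand operator -/
noncomputable def strand (A : X →L[ℂ] X) (σ : Equiv.Perm ι) (x : ι → X) (f : ι → X →L[ℂ] ℂ)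
    (c : ι → ℂ) : X →L[ℂ] X :=
  ∑ j, (c j • ten (A (x j)) ((f j).comp A) + ten (x (σ j)) (f j))

omit [DecidableEq ι] in
theorem strand_apply (A : X →L[ℂ] X) (σ : Equiv.Perm ι) (x : ι → X) (f : ι → X →L[ℂ] ℂ)
    (c : ι → ℂ) (ξ : X) : strand A σ x f c ξ =
      ∑ j, ((c j * f j (A ξ)) • A (x j) + (f j ξ) • x (σ j)) := by
  unfold strand
  rw [sum_apply]
  refine Finset.sum_congr rfl fun j _ => ?_
  show c j • (f j (A ξ) • A (x j)) + f j ξ • x (σ j) = _
  rw [smul_smul]

omit [DecidableEq ι] in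
theorem isCompact_strand (A : X →L[ℂ] X) (σ : Equiv.Perm ι) (x : ι → X) (f : ι → X →L[ℂ] ℂ)
    (c : ι → ℂ) : IsCompactOperator (strand A σ x f c) := by
  classical
  unfold strand
  induction (Finset.univ : Finset ι) using Finset.induction_on with
  | empty => simpa using isCompactOperator_zero
  | insert a s ha ih =>
    rw [Finset.sum_insert ha]
    exact (((isCompact_ten _ _).smul _).add (isCompact_ten _ _)).add ih

theorem strand_qn [CompleteSpace X] (σ : Equiv.Perm ι) (j0 : ι)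
    (hcyc : ∀ j, ∃ n : ℕ, (σ ^ n) j0 = j)
    {A : X →L[ℂ] X} (hA : spectralRadius ℂ A = 0) (x : ι → X) (f : ι → X →L[ℂ] ℂ) (c : ι → ℂ)
    (hA2 : ∀ j, A (A (x j)) = 0) (h0 : ∀ i j, f i (x j) = 0)
    (h1 : ∀ i j, f i (A (x j)) = if i = j then 1 else 0) {τ : ℂ} (hτ : c j0 + τ = 0) :
    spectralRadius ℂ (τ • A + strand A σ x f c) = 0 := by
  apply qn_add_of_no_eigen (qn_smul hA τ) (isCompact_strand A σ x f c)
  intro μ hμ ξ hξ
  rw [strand_apply] at hξ
  set a : ι → ℂ := fun j => f j (A ξ) with ha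
  set b : ι → ℂ := fun j => f j ξ with hb
  set η : X := ∑ j, ((c j * a j * μ⁻¹) • A (x j) + (b j * μ⁻¹) • x (σ j)
    + (b j * (μ⁻¹ * μ⁻¹ * τ)) • A (x (σ j))) with hη
  have hAη : A η = ∑ j, (b j * μ⁻¹) • A (x (σ j)) := by
    rw [hη, map_sum]
    refine Finset.sum_congr rfl fun j _ => ?_
    simp only [map_add, map_smul, hA2, smul_zero, zero_add, add_zero]
  have hμη : μ • η - τ • A η = ∑ j, ((c j * a j) • A (x j) + (b j) • x (σ j)) := by
    rw [hAη, hη, Finset.smul_sum, Finset.smul_sum, ← Finset.sum_sub_distrib]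
    refine Finset.sum_congr rfl fun j _ => ?_
    simp only [smul_add, smul_smul]
    have e1 : μ * (c j * a j * μ⁻¹) = c j * a j := by field_simp
    have e2 : μ * (b j * μ⁻¹) = b j := by field_simp
    have e3 : μ * (b j * (μ⁻¹ * μ⁻¹ * τ)) = τ * (b j * μ⁻¹) := by field_simp
    rw [e1, e2, e3]
    abel
  have hξη : ξ = η := by
    have h2 : τ • A (ξ - η) = μ • (ξ - η) := by
      rw [map_sub, smul_sub, smul_sub]
      have h3 : (τ • A) ξ = τ • A ξ := rfl
      rw [h3] at hξ
      have h4 : μ • ξ - τ • A ξ = μ • η - τ • A η := by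
        rw [hμη, ← hξ]; abel
      have h5 : τ • A ξ - τ • A η = μ • ξ - μ • η := by
        have : μ • ξ - μ • η = (μ • ξ - τ • A ξ) - (μ • η - τ • A η) + (τ • A ξ - τ • A η) := by
          abel
        rw [this, h4]; abel
      exact h5
    have := inj_of_qn hA hμ h2
    exact sub_eq_zero.mp this
  have hbk : ∀ k, b (σ k) = c (σ k) * a (σ k) * μ⁻¹ + b k * (μ⁻¹ * μ⁻¹ * τ) := by
    intro k
    show f (σ k) ξ = _
    rw [hξη, hη, map_sum]
    simp only [map_add, map_smul, h0, h1, smul_eq_mul, mul_zero, add_zero, mul_ite, mul_one]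
    rw [Finset.sum_add_distrib, Finset.sum_ite_eq Finset.univ (σ k)]
    simp only [Finset.mem_univ, if_true, EmbeddingLike.apply_eq_iff_eq]
    rw [Finset.sum_ite_eq Finset.univ k]
    simp
  have hak : ∀ k, a (σ k) = b k * μ⁻¹ := by
    intro k
    show f (σ k) (A ξ) = _
    rw [hξη, hAη, map_sum]
    simp only [map_smul, h1, smul_eq_mul, mul_ite, mul_one, mul_zero,
      EmbeddingLike.apply_eq_iff_eq]
    rw [Finset.sum_ite_eq Finset.univ k]
    simp
  have hrec : ∀ k, b (σ k) = μ⁻¹ * μ⁻¹ * (c (σ k) + τ) * b k := by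
    intro k
    rw [hbk, hak]; ring
  have hb0 : b j0 = 0 := by
    have := hrec (σ.symm j0)
    rw [Equiv.apply_symm_apply, hτ] at this
    rw [this]; ring
  have hbn : ∀ n : ℕ, b ((σ ^ n) j0) = 0 := by
    intro n
    induction n with
    | zero => simpa using hb0
    | succ n ih =>
      rw [pow_succ', Equiv.Perm.mul_apply, hrec, ih, mul_zero]
  have hball : ∀ j, b j = 0 := by
    intro j
    obtain ⟨n, hn⟩ := hcyc j
    rw [← hn]; exact hbn n
  have haall : ∀ j, a j = 0 := by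
    intro j
    have := hak (σ.symm j)
    rw [Equiv.apply_symm_apply] at this
    rw [this, hball, zero_mul]
  rw [hξη, hη]
  apply Finset.sum_eq_zero
  intro j _
  rw [hball, haall]
  simp

theorem strand_step (σ : Equiv.Perm ι)
    {A : X →L[ℂ] X} (x : ι → X) (f : ι → X →L[ℂ] ℂ) (c : ι → ℂ)
    (hA2 : ∀ j, A (A (x j)) = 0) (h0 : ∀ i j, f i (x j) = 0)
    (h1 : ∀ i j, f i (A (x j)) = if i = j then 1 else 0) (τ : ℂ) (j : ι) :
    ((τ • A + strand A σ x f c) ^ 2) (x j) = (c j + τ) • x (σ j) := by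
  have e1 : (τ • A + strand A σ x f c) (x j) = (c j + τ) • A (x j) := by
    show τ • A (x j) + strand A σ x f c (x j) = _
    rw [strand_apply]
    simp only [h0, h1, zero_smul, add_zero, mul_ite, mul_one, mul_zero, ite_smul]
    rw [Finset.sum_ite_eq' Finset.univ j]
    simp only [Finset.mem_univ, if_true]
    rw [add_smul, add_comm]
  have e2 : (τ • A + strand A σ x f c) (A (x j)) = x (σ j) := by
    show τ • A (A (x j)) + strand A σ x f c (A (x j)) = _
    rw [strand_apply]
    simp only [hA2, h1, map_zero, mul_zero, zero_smul, zero_add, smul_zero, ite_smul, one_smul]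
    rw [Finset.sum_ite_eq' Finset.univ j]
    simp
  rw [pow_two]
  show (τ • A + strand A σ x f c) ((τ • A + strand A σ x f c) (x j)) = _
  rw [e1, map_smul, e2]

/-- correcting the functionals -/
theorem exists_strand_functionals {A : X →L[ℂ] X} (x : ι → X)
    (hA2 : ∀ j, A (A (x j)) = 0) (hli : LinearIndependent ℂ (fun j => A (x j))) :
    ∃ f : ι → X →L[ℂ] ℂ, (∀ i j, f i (x j) = 0) ∧
      (∀ i j, f i (A (x j)) = if i = j then 1 else 0) := by
  choose g hg using fun i : ι => exists_dual hli (fun j => if i = j then (1 : ℂ) else 0)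
  refine ⟨fun j => g j - ∑ i, g j (x i) • (g i).comp A, ?_, ?_⟩
  · intro i j
    show g i (x j) - (∑ k, g i (x k) • (g k).comp A) (x j) = 0
    rw [sum_apply]
    have : ∀ k, (g i (x k) • (g k).comp A) (x j) = if k = j then g i (x k) else 0 := by
      intro k
      show g i (x k) * g k (A (x j)) = _
      rw [hg k j]
      split_ifs <;> simp
    rw [Finset.sum_congr rfl (fun k _ => this k), Finset.sum_ite_eq' Finset.univ j]
    simp
  · intro i j
    show g i (A (x j)) - (∑ k, g i (x k) • (g k).comp A) (A (x j)) = _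
    rw [sum_apply]
    have : ∀ k, (g i (x k) • (g k).comp A) (A (x j)) = 0 := by
      intro k
      show g i (x k) * g k (A (A (x j))) = _
      rw [hA2, map_zero, mul_zero]
    rw [Finset.sum_congr rfl (fun k _ => this k), Finset.sum_const_zero, sub_zero, hg i j]

end Strand

/-- the trace zero finite rank operators -/
noncomputable def F0 (X : Type*) [NormedAddCommGroup X] [NormedSpace ℂ X] :
    Submodule ℂ (X →L[ℂ] X) :=
  Submodule.span ℂ {T | ∃ (x : X) (f : X →L[ℂ] ℂ), f x = 0 ∧ T = ten x f}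

theorem ten_mem_F0 {x : X} {f : X →L[ℂ] ℂ} (h : f x = 0) : ten x f ∈ F0 X :=
  Submodule.subset_span ⟨x, f, h, rfl⟩

theorem gadget_three [CompleteSpace X] {A : X →L[ℂ] X} (hA : spectralRadius ℂ A = 0)
    (x : Fin 3 → X) (hA2 : ∀ j, A (A (x j)) = 0)
    (hli : LinearIndependent ℂ (fun j => A (x j))) :
    ∃ V : X →L[ℂ] X, spectralRadius ℂ V = 0 ∧ spectralRadius ℂ (V + A) = 0 ∧
      spectralRadius ℂ (V - A) = 0 ∧ ∃ τ : ℂ, spectralRadius ℂ (V + τ • A) ≠ 0 := by
  obtain ⟨f, h0, h1⟩ := exists_strand_functionals x hA2 hli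
  have hcyc : ∀ j0 j : Fin 3, ∃ n : ℕ, ((finRotate 3) ^ n) j0 = j := by
    have : ∀ j0 j : Fin 3, ∃ n : Fin 3, ((finRotate 3) ^ (n : ℕ)) j0 = j := by decide
    intro j0 j
    obtain ⟨n, hn⟩ := this j0 j
    exact ⟨n, hn⟩
  refine ⟨strand A (finRotate 3) x f ![-1, 1, 0], ?_, ?_, ?_, 2, ?_⟩
  · have := strand_qn (finRotate 3) 2 (hcyc 2) hA x f ![-1, 1, 0] hA2 h0 h1 (τ := 0) (by simp)
    simpa using this
  · have := strand_qn (finRotate 3) 0 (hcyc 0) hA x f ![-1, 1, 0] hA2 h0 h1 (τ := 1) (by simp)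
    rw [one_smul, add_comm] at this
    exact this
  · have := strand_qn (finRotate 3) 1 (hcyc 1) hA x f ![-1, 1, 0] hA2 h0 h1 (τ := -1) (by simp)
    rw [neg_one_smul, add_comm, ← sub_eq_add_neg] at this
    exact this
  · have hx : x 0 ≠ 0 := by
      intro h
      have := hli.ne_zero 0
      apply this
      show A (x 0) = 0
      rw [h, map_zero]
    rw [add_comm]
    refine not_qn_of_pow_eigen (n := 6) hx (μ := 6) (by norm_num) (by norm_num) ?_
    have hs := strand_step (finRotate 3) x f ![-1, 1, 0] hA2 h0 h1 2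
    have h6 : ((2 : ℂ) • A + strand A (finRotate 3) x f ![-1, 1, 0]) ^ 6 =
        ((2 : ℂ) • A + strand A (finRotate 3) x f ![-1, 1, 0]) ^ 2 *
        (((2 : ℂ) • A + strand A (finRotate 3) x f ![-1, 1, 0]) ^ 2 *
        ((2 : ℂ) • A + strand A (finRotate 3) x f ![-1, 1, 0]) ^ 2) := by
      rw [← pow_add, ← pow_add]
    rw [h6]
    set S := ((2 : ℂ) • A + strand A (finRotate 3) x f ![-1, 1, 0]) ^ 2
    show S (S (S (x 0))) = _
    have r0 : (finRotate 3) 0 = 1 := by decide
    have r1 : (finRotate 3) 1 = 2 := by decide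
    have r2 : (finRotate 3) 2 = 0 := by decide
    rw [hs 0, r0, map_smul, map_smul, hs 1, r1, map_smul, hs 2, r2]
    simp only [smul_smul]
    congr 1
    simp
    norm_num

theorem gadget_two [CompleteSpace X] {A : X →L[ℂ] X} (hA : spectralRadius ℂ A = 0)
    (x : Fin 2 → X) (hA2 : ∀ j, A (A (x j)) = 0)
    (hli : LinearIndependent ℂ (fun j => A (x j))) :
    ∃ V ∈ F0 X, spectralRadius ℂ V = 0 ∧ spectralRadius ℂ (V + A) = 0 ∧
      ∃ τ : ℂ, spectralRadius ℂ (V + τ • A) ≠ 0 := by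
  obtain ⟨f, h0, h1⟩ := exists_strand_functionals x hA2 hli
  have hcyc : ∀ j0 j : Fin 2, ∃ n : ℕ, ((finRotate 2) ^ n) j0 = j := by
    have : ∀ j0 j : Fin 2, ∃ n : Fin 2, ((finRotate 2) ^ (n : ℕ)) j0 = j := by decide
    intro j0 j
    obtain ⟨n, hn⟩ := this j0 j
    exact ⟨n, hn⟩
  refine ⟨strand A (finRotate 2) x f ![-1, 0], ?_, ?_, ?_, 2, ?_⟩
  · unfold strand
    refine Submodule.sum_mem _ fun j _ => ?_
    refine Submodule.add_mem _ (Submodule.smul_mem _ _ (ten_mem_F0 ?_)) (ten_mem_F0 (h0 _ _))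
    show f j (A (A (x j))) = 0
    rw [hA2, map_zero]
  · have := strand_qn (finRotate 2) 1 (hcyc 1) hA x f ![-1, 0] hA2 h0 h1 (τ := 0) (by simp)
    simpa using this
  · have := strand_qn (finRotate 2) 0 (hcyc 0) hA x f ![-1, 0] hA2 h0 h1 (τ := 1) (by simp)
    rw [one_smul, add_comm] at this
    exact this
  · have hx : x 0 ≠ 0 := by
      intro h
      have := hli.ne_zero 0
      apply this
      show A (x 0) = 0
      rw [h, map_zero]
    rw [add_comm]
    refine not_qn_of_pow_eigen (n := 4) hx (μ := 2) (by norm_num) (by norm_num) ?_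
    have hs := strand_step (finRotate 2) x f ![-1, 0] hA2 h0 h1 2
    have h6 : ((2 : ℂ) • A + strand A (finRotate 2) x f ![-1, 0]) ^ 4 =
        ((2 : ℂ) • A + strand A (finRotate 2) x f ![-1, 0]) ^ 2 *
        (((2 : ℂ) • A + strand A (finRotate 2) x f ![-1, 0]) ^ 2) := by
      rw [← pow_add]
    rw [h6]
    set S := ((2 : ℂ) • A + strand A (finRotate 2) x f ![-1, 0]) ^ 2
    show S (S (x 0)) = _
    have r0 : (finRotate 2) 0 = 1 := by decide
    have r1 : (finRotate 2) 1 = 0 := by decide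
    rw [hs 0, r0, map_smul, hs 1, r1]
    simp only [smul_smul]
    congr 1
    simp
    norm_num

theorem gadget_one [CompleteSpace X] {A : X →L[ℂ] X} (hA : spectralRadius ℂ A = 0)
    (x : X) (hA3 : A (A (A x)) = 0) (hA2 : A (A x) ≠ 0) :
    ∃ V ∈ F0 X, spectralRadius ℂ V = 0 ∧ spectralRadius ℂ (V + A) = 0 ∧
      ∃ τ : ℂ, spectralRadius ℂ (V + τ • A) ≠ 0 := by
  obtain ⟨g, hg⟩ := SeparatingDual.exists_eq_one (R := ℂ) hA2
  -- correct the functional
  obtain ⟨f, hf0, hf1, hf2⟩ : ∃ f : X →L[ℂ] ℂ, f x = 0 ∧ f (A x) = 0 ∧ f (A (A x)) = 1 := by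
    refine ⟨g - g (A x) • g.comp A - (g x - g (A x) * g (A x)) • g.comp (A.comp A), ?_, ?_, ?_⟩
    · show g x - g (A x) * g (A x) - (g x - g (A x) * g (A x)) * g (A (A x)) = 0
      rw [hg]; ring
    · show g (A x) - g (A x) * g (A (A x)) - (g x - g (A x) * g (A x)) * g (A (A (A x))) = 0
      rw [hg, hA3, map_zero]; ring
    · show g (A (A x)) - g (A x) * g (A (A (A x)))
        - (g x - g (A x) * g (A x)) * g (A (A (A (A x)))) = 1
      rw [hg, hA3, map_zero, map_zero, map_zero]; ring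
  set V : X →L[ℂ] X := ten x f - ten (A x) (f.comp (A.comp A)) with hV
  have hVapp : ∀ ξ, V ξ = f ξ • x - f (A (A ξ)) • A x := fun ξ => rfl
  have hcomp : IsCompactOperator V := (isCompact_ten _ _).sub (isCompact_ten _ _)
  have key : ∀ τ : ℂ, τ * (τ - 1) = 0 → spectralRadius ℂ (τ • A + V) = 0 := by
    intro τ hτ
    apply qn_add_of_no_eigen (qn_smul hA τ) hcomp
    intro μ hμ ξ hξ
    have hξ' : τ • A ξ + (f ξ • x - f (A (A ξ)) • A x) = μ • ξ := hξ
    set a := f (A (A ξ)) with ha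
    set b := f ξ with hb
    set η : X := (b * μ⁻¹) • x + (b * μ⁻¹ ^ 2 * τ - a * μ⁻¹) • A x +
      (b * μ⁻¹ ^ 3 * τ ^ 2 - a * μ⁻¹ ^ 2 * τ) • A (A x) with hη
    have hAη : A η = (b * μ⁻¹) • A x + (b * μ⁻¹ ^ 2 * τ - a * μ⁻¹) • A (A x) := by
      rw [hη]
      simp only [map_add, map_smul, hA3, smul_zero, add_zero]
    have hμη : μ • η - τ • A η = b • x - a • A x := by
      rw [hAη, hη]
      simp only [smul_add, smul_smul]
      have e1 : μ * (b * μ⁻¹) = b := by field_simp
      have e2 : μ * (b * μ⁻¹ ^ 2 * τ - a * μ⁻¹) = τ * (b * μ⁻¹) - a := by field_simp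
      have e3 : μ * (b * μ⁻¹ ^ 3 * τ ^ 2 - a * μ⁻¹ ^ 2 * τ) =
          τ * (b * μ⁻¹ ^ 2 * τ - a * μ⁻¹) := by field_simp
      rw [e1, e2, e3, sub_smul]
      abel
    have hξη : ξ = η := by
      have h2 : τ • A (ξ - η) = μ • (ξ - η) := by
        rw [map_sub, smul_sub, smul_sub]
        have h4 : μ • ξ - τ • A ξ = μ • η - τ • A η := by
          rw [hμη, ← hξ']; abel
        have : μ • ξ - μ • η = (μ • ξ - τ • A ξ) - (μ • η - τ • A η) + (τ • A ξ - τ • A η) := by
          abel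
        rw [this, h4]; abel
      exact sub_eq_zero.mp (inj_of_qn hA hμ h2)
    have hbe : b = b * μ⁻¹ ^ 3 * τ ^ 2 - a * μ⁻¹ ^ 2 * τ := by
      conv_lhs => rw [hb, hξη, hη]
      simp only [map_add, map_smul, hf0, hf1, hf2, smul_eq_mul]
      ring
    have hae : a = b * μ⁻¹ := by
      conv_lhs => rw [ha, hξη, hAη]
      simp only [map_add, map_smul, hf2, hA3, map_zero, smul_eq_mul]
      ring
    have hb0 : b = 0 := by
      rw [hae] at hbe
      have : b = b * μ⁻¹ ^ 3 * (τ * (τ - 1)) := by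
        linear_combination hbe
      rw [this, hτ, mul_zero]
    have ha0 : a = 0 := by rw [hae, hb0, zero_mul]
    rw [hξη, hη, hb0, ha0]
    simp
  refine ⟨V, ?_, ?_, ?_, 2, ?_⟩
  · rw [hV]
    refine Submodule.sub_mem _ (ten_mem_F0 hf0) (ten_mem_F0 ?_)
    show f (A (A (A x))) = 0
    rw [hA3, map_zero]
  · have := key 0 (by ring)
    simpa using this
  · have := key 1 (by ring)
    rw [one_smul, add_comm] at this
    exact this
  · have hx : x ≠ 0 := by
      rintro rfl
      apply hA2; simp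
    refine not_qn_of_pow_eigen (n := 3) hx (μ := 2) (by norm_num) (by norm_num) ?_
    set T : X →L[ℂ] X := V + (2 : ℂ) • A with hT
    have hTapp : ∀ ξ, T ξ = f ξ • x - f (A (A ξ)) • A x + (2 : ℂ) • A ξ := fun ξ => rfl
    have e1 : T x = A x := by
      rw [hTapp, hf0, hf2, zero_smul, one_smul, two_smul]; abel
    have e2 : T (A x) = (2 : ℂ) • A (A x) := by
      rw [hTapp, hf1, hA3, map_zero, zero_smul, zero_smul]; abel
    have e3 : T (A (A x)) = x := by
      rw [hTapp, hf2, hA3, map_zero, map_zero, zero_smul, one_smul, smul_zero]; abel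
    show T (T (T x)) = _
    rw [e1, e2, map_smul, e3]

end Pool.Agent.H.MP_bb4c62_an.helper6.Gadgets
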