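import Pool.Agent.H.MP_bb4c62_an.helper6.Gadgets

/-!
The three term gadget for quasinilpotent operators which are not nilpotent of small index.
-/

namespace Pool.Agent.H.MP_bb4c62_an.helper6.Gadgets

open Complex Metric Set Filter Topology
open Pool.Agent.H.MP_bb4c62_an.helper6.Perturb
open Pool.Agent.H.MP_bb4c62_an.helper6.Picard

variable {X : Type*} [NormedAddCommGroup X] [NormedSpace ℂ X]

theorem exists_cube_root : ∃ ω : ℂ, ω ^ 2 + ω + 1 = 0 := by
  obtain ⟨ω, hω⟩ := IsAlgClosed.exists_root (k := ℂ)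
    (Polynomial.X ^ 2 + Polynomial.X + 1 : Polynomial ℂ) (by
      have : (Polynomial.X ^ 2 + Polynomial.X + 1 : Polynomial ℂ).degree = 2 := by
        compute_degree!
      rw [this]; norm_num)
  refine ⟨ω, ?_⟩
  simpa [Polynomial.IsRoot.def] using hω

theorem gadget_big [CompleteSpace X] {A : X →L[ℂ] X} (hA : spectralRadius ℂ A = 0)
    (x : X) (f : X →L[ℂ] ℂ) (hf : ∀ k ≤ 8, f ((A ^ k) x) = if k = 5 then 1 else 0) :
    ∃ V : X →L[ℂ] X, spectralRadius ℂ V = 0 ∧ spectralRadius ℂ (V + A) = 0 ∧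
      spectralRadius ℂ (V - A) = 0 ∧ ∃ τ : ℂ, spectralRadius ℂ (V + τ • A) ≠ 0 := by
  obtain ⟨ω, hω⟩ := exists_cube_root
  have g0 : f ((A ^ 0) x) = 0 := by rw [hf 0 (by norm_num)]; simp
  have g1 : f ((A ^ 1) x) = 0 := by rw [hf 1 (by norm_num)]; simp
  have g2 : f ((A ^ 2) x) = 0 := by rw [hf 2 (by norm_num)]; simp
  have g3 : f ((A ^ 3) x) = 0 := by rw [hf 3 (by norm_num)]; simp
  have g4 : f ((A ^ 4) x) = 0 := by rw [hf 4 (by norm_num)]; simp
  have g5 : f ((A ^ 5) x) = 1 := by rw [hf 5 (by norm_num)]; simp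
  have g6 : f ((A ^ 6) x) = 0 := by rw [hf 6 (by norm_num)]; simp
  have g7 : f ((A ^ 7) x) = 0 := by rw [hf 7 (by norm_num)]; simp
  have g8 : f ((A ^ 8) x) = 0 := by rw [hf 8 (by norm_num)]; simp
  have gg0 : f x = 0 := by simpa using g0
  have pp : ∀ (i j : ℕ) (w : X), (A ^ i) ((A ^ j) w) = (A ^ (i + j)) w := by
    intro i j w
    rw [pow_add]; rfl
  have pA : ∀ (i : ℕ) (w : X), (A ^ i) (A w) = (A ^ (i + 1)) w := by
    intro i w
    rw [pow_succ]; rfl
  have pA' : ∀ (i : ℕ) (w : X), A ((A ^ i) w) = (A ^ (i + 1)) w := by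
    intro i w
    rw [pow_succ']; rfl
  set V : X →L[ℂ] X := ten x (f.comp (A ^ 4)) + ω • ten ((A ^ 2) x) (f.comp (A ^ 2))
    + ten (ω ^ 2 • (A ^ 4) x - x) f with hV
  have hVapp : ∀ ξ, V ξ = f ((A ^ 4) ξ) • x + ω • (f ((A ^ 2) ξ) • (A ^ 2) x)
      + f ξ • (ω ^ 2 • (A ^ 4) x - x) := fun ξ => rfl
  have hVapp' : ∀ ξ, V ξ = (f ((A ^ 4) ξ) - f ξ) • x + (ω * f ((A ^ 2) ξ)) • (A ^ 2) x
      + (ω ^ 2 * f ξ) • (A ^ 4) x := by
    intro ξ
    rw [hVapp, smul_sub, smul_smul, smul_smul, sub_smul, mul_comm (f ξ)]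
    abel
  have hcomp : IsCompactOperator V :=
    ((isCompact_ten _ _).add ((isCompact_ten _ _).smul _)).add (isCompact_ten _ _)
  have hVV : V * V = 0 := by
    ext ξ
    show V (V ξ) = 0
    have k0 : f (V ξ) = 0 := by
      rw [hVapp']
      simp only [map_add, map_smul, smul_eq_mul, gg0, g2, g4, mul_zero, add_zero]
    have k2 : f ((A ^ 2) (V ξ)) = 0 := by
      rw [hVapp']
      simp only [map_add, map_smul, smul_eq_mul, pp, g2, g4, g6, mul_zero, add_zero]
    have k4 : f ((A ^ 4) (V ξ)) = 0 := by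
      rw [hVapp']
      simp only [map_add, map_smul, smul_eq_mul, pp, g4, g6, g8, mul_zero, add_zero]
    rw [hVapp' (V ξ), k0, k2, k4]
    simp
  -- the resolvent vector
  have hres : ∀ z : ℂ, ∀ y : X, y - z • A y = x →
      ∀ k : ℕ, (A ^ k) y = (A ^ k) x + z • (A ^ (k + 1)) y := by
    intro z y hy k
    rw [← hy, map_sub, map_smul, pA]; abel
  have hrel : ∀ z : ℂ, ∀ y : X, y - z • A y = x →
      f y = z * f ((A ^ 1) y) ∧ f ((A ^ 1) y) = z * f ((A ^ 2) y) ∧
      f ((A ^ 2) y) = z * f ((A ^ 3) y) ∧ f ((A ^ 3) y) = z * f ((A ^ 4) y) ∧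
      f ((A ^ 4) y) = z * f ((A ^ 5) y) ∧ f ((A ^ 5) y) = 1 + z * f ((A ^ 6) y) ∧
      f ((A ^ 6) y) = z * f ((A ^ 7) y) ∧ f ((A ^ 7) y) = z * f ((A ^ 8) y) := by
    intro z y hy
    have h := hres z y hy
    refine ⟨?_, ?_, ?_, ?_, ?_, ?_, ?_, ?_⟩
    · have h0 := h 0
      have : f y = f ((A ^ 0) y) := by simp
      rw [this, h0, map_add, g0, map_smul, smul_eq_mul, zero_add]
    · conv_lhs => rw [h 1, map_add, g1, map_smul, smul_eq_mul, zero_add]
    · conv_lhs => rw [h 2, map_add, g2, map_smul, smul_eq_mul, zero_add]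
    · conv_lhs => rw [h 3, map_add, g3, map_smul, smul_eq_mul, zero_add]
    · conv_lhs => rw [h 4, map_add, g4, map_smul, smul_eq_mul, zero_add]
    · conv_lhs => rw [h 5, map_add, g5, map_smul, smul_eq_mul]
    · conv_lhs => rw [h 6, map_add, g6, map_smul, smul_eq_mul, zero_add]
    · conv_lhs => rw [h 7, map_add, g7, map_smul, smul_eq_mul, zero_add]
  have hyex : ∀ z : ℂ, ∃ y : X, y - z • A y = x ∧ y = Ring.inverse (1 - z • A) x := by
    intro z
    refine ⟨Ring.inverse (1 - z • A) x, ?_, rfl⟩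
    have hu := (qn_iff A).mp hA z
    have h3 : ((1 - z • A) * Ring.inverse (1 - z • A)) x = x := by
      rw [Ring.mul_inverse_cancel _ hu]; rfl
    exact h3
  have hid : ∀ (z μ τ : ℂ), μ ≠ 0 → z * μ = τ → ∀ y : X, y - z • A y = x → ∀ p q r : ℂ,
      μ • (μ⁻¹ • ((p - r) • y + (ω * q) • (A ^ 2) y + (ω ^ 2 * r) • (A ^ 4) y)) -
      τ • A (μ⁻¹ • ((p - r) • y + (ω * q) • (A ^ 2) y + (ω ^ 2 * r) • (A ^ 4) y)) =
      (p - r) • x + (ω * q) • (A ^ 2) x + (ω ^ 2 * r) • (A ^ 4) x := by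
    intro z μ τ hμ hzμ y hy p q r
    have hyk : ∀ k : ℕ, (A ^ k) y - z • A ((A ^ k) y) = (A ^ k) x := by
      intro k
      rw [pA', hres z y hy k]; abel
    simp only [map_add, map_smul, smul_add, smul_smul]
    have e0 : x = y - z • A y := hy.symm
    have e2 := (hyk 2).symm
    have e4 := (hyk 4).symm
    rw [e2, e4]
    conv_rhs => rw [e0]
    rw [← hzμ]
    have f1 : μ * (μ⁻¹ * (p - r)) = p - r := by field_simp
    have f2 : μ * (μ⁻¹ * (ω * q)) = ω * q := by field_simp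
    have f3 : μ * (μ⁻¹ * (ω ^ 2 * r)) = ω ^ 2 * r := by field_simp
    have f4 : z * μ * (μ⁻¹ * (p - r)) = (p - r) * z := by field_simp
    have f5 : z * μ * (μ⁻¹ * (ω * q)) = (ω * q) * z := by field_simp
    have f6 : z * μ * (μ⁻¹ * (ω ^ 2 * r)) = (ω ^ 2 * r) * z := by field_simp
    rw [f1, f2, f3, f4, f5, f6]
    simp only [smul_sub, smul_smul]
    abel
  have hω3 : ω ^ 3 = 1 := by linear_combination (ω - 1) * hω
  -- the two directions
  have key : ∀ τ : ℂ, τ ≠ 0 → τ ^ 2 = 1 → spectralRadius ℂ (τ • A + V) = 0 := by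
    intro τ hτ0 hτ
    apply qn_add_of_no_eigen (qn_smul hA τ) hcomp
    intro μ hμ ξ hξ
    have hξ' : τ • A ξ + V ξ = μ • ξ := hξ
    set z : ℂ := τ * μ⁻¹ with hz
    have hzμ : z * μ = τ := by rw [hz]; field_simp
    have hz0 : z ≠ 0 := by
      rintro h
      rw [h, zero_mul] at hzμ
      exact hτ0 hzμ.symm
    obtain ⟨y, hy, -⟩ := hyex z
    set p := f ((A ^ 4) ξ) with hp
    set q := f ((A ^ 2) ξ) with hq
    set r := f ξ with hr
    set η : X := μ⁻¹ • ((p - r) • y + (ω * q) • (A ^ 2) y + (ω ^ 2 * r) • (A ^ 4) y) with hη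
    have hμη : μ • η - τ • A η = V ξ := by
      rw [hVapp', hη]
      exact hid z μ τ hμ hzμ y hy p q r
    have hξη : ξ = η := by
      have h2 : τ • A (ξ - η) = μ • (ξ - η) := by
        rw [map_sub, smul_sub, smul_sub]
        have h4 : μ • ξ - τ • A ξ = μ • η - τ • A η := by
          rw [hμη, ← hξ']; abel
        have : μ • ξ - μ • η = (μ • ξ - τ • A ξ) - (μ • η - τ • A η) + (τ • A ξ - τ • A η) := by
          abel
        rw [this, h4]; abel
      exact sub_eq_zero.mp (inj_of_qn hA hμ h2)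
    obtain ⟨r0, r1, r2, r3, r4, r5, r6, r7⟩ := hrel z y hy
    have er : μ * r = (p - r) * f y + (ω * q) * f ((A ^ 2) y) + (ω ^ 2 * r) * f ((A ^ 4) y) := by
      have h1 : f ξ = f η := by rw [← hξη]
      rw [← hr, hη, map_smul, map_add, map_add, map_smul, map_smul, map_smul] at h1
      simp only [smul_eq_mul] at h1
      have h2 := congrArg (fun t => μ * t) h1
      simp only [mul_inv_cancel_left₀ hμ] at h2
      exact h2
    have eq : μ * q = (p - r) * f ((A ^ 2) y) + (ω * q) * f ((A ^ 4) y)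
        + (ω ^ 2 * r) * f ((A ^ 6) y) := by
      have h1 : f ((A ^ 2) ξ) = f ((A ^ 2) η) := by rw [← hξη]
      rw [← hq, hη] at h1
      simp only [map_smul, map_add, pp, smul_eq_mul] at h1
      have h2 := congrArg (fun t => μ * t) h1
      simp only [mul_inv_cancel_left₀ hμ] at h2
      exact h2
    have ep : μ * p = (p - r) * f ((A ^ 4) y) + (ω * q) * f ((A ^ 6) y)
        + (ω ^ 2 * r) * f ((A ^ 8) y) := by
      have h1 : f ((A ^ 4) ξ) = f ((A ^ 4) η) := by rw [← hξη]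
      rw [← hp, hη] at h1
      simp only [map_smul, map_add, pp, smul_eq_mul] at h1
      have h2 := congrArg (fun t => μ * t) h1
      simp only [mul_inv_cancel_left₀ hμ] at h2
      exact h2
    have hr0 : μ ^ 3 * z ^ 4 * r = 0 ∧ (μ - ω ^ 2 * z) * r = z ^ 2 * μ * q ∧
        (μ - ω * z) * q = z ^ 2 * μ * p := by
      have hz2 : z ^ 2 * μ ^ 2 = 1 := by rw [← hτ, ← hzμ]; ring
      clear_value η p q r z
      generalize f ((A ^ 8) y) = h8 at *
      generalize f ((A ^ 7) y) = h7 at *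
      generalize f ((A ^ 6) y) = h6 at *
      generalize f ((A ^ 5) y) = h5 at *
      generalize f ((A ^ 4) y) = h4 at *
      generalize f ((A ^ 3) y) = h3 at *
      generalize f ((A ^ 2) y) = h2 at *
      generalize f ((A ^ 1) y) = h1 at *
      generalize f y = h0 at *
      subst r7
      subst r6
      subst r5
      subst r4
      subst r3
      subst r2
      subst r1
      subst r0
      have E1 : (μ - ω ^ 2 * z) * r = z ^ 2 * μ * q := by
        linear_combination er - z ^ 2 * eq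
      have E2 : (μ - ω * z) * q = z ^ 2 * μ * p := by
        linear_combination eq - z ^ 2 * ep
      refine ⟨?_, E1, E2⟩
      linear_combination μ ^ 2 * z ^ 4 * er - (z ^ 5 + z ^ 8 * h8) * z ^ 2 * μ * E2
        - (z ^ 5 + z ^ 8 * h8) * (μ - ω * z) * E1 - (z ^ 5 + z ^ 8 * h8) * ω * μ * E1
        + (z ^ 5 + z ^ 8 * h8) * r * ((μ ^ 2 - z * μ) * hω + (z ^ 2 - z * μ) * hω3 - z ^ 2 * hz2)
    obtain ⟨hr0, E1, E2⟩ := hr0
    have hr00 : r = 0 := by
      rcases mul_eq_zero.mp hr0 with h | h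
      · exact absurd h (mul_ne_zero (pow_ne_zero _ hμ) (pow_ne_zero _ hz0))
      · exact h
    have hq0 : q = 0 := by
      rw [hr00, mul_zero] at E1
      rcases mul_eq_zero.mp E1.symm with h | h
      · exact absurd h (mul_ne_zero (pow_ne_zero _ hz0) hμ)
      · exact h
    have hp0 : p = 0 := by
      rw [hq0, mul_zero] at E2
      rcases mul_eq_zero.mp E2.symm with h | h
      · exact absurd h (mul_ne_zero (pow_ne_zero _ hz0) hμ)
      · exact h
    rw [hξη, hη, hr00, hq0, hp0]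
    simp
  refine ⟨V, qn_of_sq hVV, ?_, ?_, ?_⟩
  · have := key 1 one_ne_zero (by ring)
    rw [one_smul, add_comm] at this
    exact this
  · have := key (-1) (by norm_num) (by ring)
    rw [neg_one_smul, add_comm, ← sub_eq_add_neg] at this
    exact this
  · -- a point where the function does not vanish
    obtain ⟨z, hz0, hzf⟩ : ∃ z : ℂ, z ≠ 0 ∧ f (Ring.inverse (1 - z • A) x) ≠ 0 := by
      by_contra hcon
      push Not at hcon
      have hcts : Continuous (fun z : ℂ => (f.comp (A ^ 5)) (Ring.inverse (1 - z • A) x)) :=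
        (differentiable_resolvent hA x (f.comp (A ^ 5))).continuous
      have hzero : ∀ z ∈ ({0}ᶜ : Set ℂ),
          (fun z : ℂ => (f.comp (A ^ 5)) (Ring.inverse (1 - z • A) x)) z = (fun _ => (0 : ℂ)) z := by
        intro z hz
        have hz0 : z ≠ 0 := hz
        obtain ⟨y, hy, hy'⟩ := hyex z
        obtain ⟨r0, r1, r2, r3, r4, r5, r6, r7⟩ := hrel z y hy
        have h0 := hcon z hz0
        rw [← hy'] at h0
        show f ((A ^ 5) (Ring.inverse (1 - z • A) x)) = 0
        rw [← hy']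
        rw [r1, r2, r3, r4] at r0
        rw [h0] at r0
        have := r0.symm
        simpa [hz0] using this
      have heq := Continuous.ext_on (dense_compl_singleton (0 : ℂ)) hcts continuous_const hzero
      have h1 := congrFun heq 0
      have h2 : f ((A ^ 5) (Ring.inverse (1 - (0 : ℂ) • A) x)) = 0 := h1
      rw [zero_smul, sub_zero, Ring.inverse_one] at h2
      have h3 : f ((A ^ 5) x) = 0 := h2
      rw [g5] at h3
      exact one_ne_zero h3
    obtain ⟨y, hy, hy'⟩ := hyex z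
    rw [← hy'] at hzf
    set v : ℂ := z * f y with hv
    have hv0 : v ≠ 0 := mul_ne_zero hz0 hzf
    obtain ⟨τ, hτ⟩ : ∃ τ : ℂ, τ ^ 3 = v * (1 - τ ^ 2) := by
      obtain ⟨τ, hτ⟩ := IsAlgClosed.exists_root (k := ℂ)
        (Polynomial.X ^ 3 + Polynomial.C v * Polynomial.X ^ 2 - Polynomial.C v : Polynomial ℂ) (by
          have : (Polynomial.X ^ 3 + Polynomial.C v * Polynomial.X ^ 2 - Polynomial.C v :
              Polynomial ℂ).degree = 3 := by
            compute_degree!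
          rw [this]; norm_num)
      refine ⟨τ, ?_⟩
      have h1 : τ ^ 3 + v * τ ^ 2 - v = 0 := by simpa [Polynomial.IsRoot.def] using hτ
      linear_combination h1
    have hτ0 : τ ≠ 0 := by
      rintro rfl
      apply hv0
      linear_combination -hτ
    refine ⟨τ, ?_⟩
    set μ : ℂ := τ * z⁻¹ with hμd
    have hμ : μ ≠ 0 := mul_ne_zero hτ0 (inv_ne_zero hz0)
    have hzμ : z * μ = τ := by rw [hμd]; field_simp
    set q : ℂ := (μ - ω ^ 2 * z) / (μ * z ^ 2) with hqd
    set p : ℂ := (μ - ω * z) * q / (μ * z ^ 2) with hpd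
    have hq : (μ - ω ^ 2 * z) = z ^ 2 * μ * q := by rw [hqd]; field_simp
    have hp : (μ - ω * z) * q = z ^ 2 * μ * p := by rw [hpd]; field_simp
    have hμ3 : μ ^ 3 * z ^ 2 = f y * (1 - z ^ 2 * μ ^ 2) := by
      have h1 : (z * μ) ^ 3 = z * f y * (1 - (z * μ) ^ 2) := by rw [hzμ]; exact hτ
      have h2 : z * (μ ^ 3 * z ^ 2) = z * (f y * (1 - z ^ 2 * μ ^ 2)) := by
        linear_combination h1
      exact mul_left_cancel₀ hz0 h2
    obtain ⟨r0, r1, r2, r3, r4, r5, r6, r7⟩ := hrel z y hy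
    set ξ : X := μ⁻¹ • ((p - 1) • y + (ω * q) • (A ^ 2) y + (ω ^ 2 * 1) • (A ^ 4) y) with hξ
    have hsys : μ = (p - 1) * f y + (ω * q) * f ((A ^ 2) y) + (ω ^ 2 * 1) * f ((A ^ 4) y) ∧
        μ * q = (p - 1) * f ((A ^ 2) y) + (ω * q) * f ((A ^ 4) y)
          + (ω ^ 2 * 1) * f ((A ^ 6) y) ∧
        μ * p = (p - 1) * f ((A ^ 4) y) + (ω * q) * f ((A ^ 6) y)
          + (ω ^ 2 * 1) * f ((A ^ 8) y) := by
      clear_value ξ p q μ v
      generalize f ((A ^ 8) y) = h8 at *
      generalize f ((A ^ 7) y) = h7 at *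
      generalize f ((A ^ 6) y) = h6 at *
      generalize f ((A ^ 5) y) = h5 at *
      generalize f ((A ^ 4) y) = h4 at *
      generalize f ((A ^ 3) y) = h3 at *
      generalize f ((A ^ 2) y) = h2 at *
      generalize f ((A ^ 1) y) = h1 at *
      generalize f y = h0 at *
      subst r7
      subst r6
      subst r5
      subst r4
      subst r3
      subst r2
      subst r1
      subst r0
      have hA1 : μ ^ 2 * z ^ 4 * μ = μ ^ 2 * z ^ 4 * ((p - 1) *
          (z * (z * (z * (z * (z * (1 + z * (z * (z * h8)))))))) +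
          ω * q * (z * (z * (z * (1 + z * (z * (z * h8)))))) +
          ω ^ 2 * 1 * (z * (1 + z * (z * (z * h8))))) := by
        linear_combination z ^ 2 * hμ3 + (z ^ 5 + z ^ 8 * h8) * z ^ 2 * μ * hp
          + (z ^ 5 + z ^ 8 * h8) * (μ - ω * z) * hq + (z ^ 5 + z ^ 8 * h8) * ω * μ * hq
          - (z ^ 5 + z ^ 8 * h8) * ((μ ^ 2 - z * μ) * hω + (z ^ 2 - z * μ) * hω3)
      have hB1 := mul_left_cancel₀ (mul_ne_zero (pow_ne_zero 2 hμ) (pow_ne_zero 4 hz0)) hA1
      have hB2 : μ * q = (p - 1) * (z * (z * (z * (1 + z * (z * (z * h8)))))) +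
          ω * q * (z * (1 + z * (z * (z * h8)))) + ω ^ 2 * 1 * (z * (z * h8)) := by
        apply mul_left_cancel₀ (pow_ne_zero 2 hz0)
        linear_combination hB1 - hq
      refine ⟨hB1, hB2, ?_⟩
      apply mul_left_cancel₀ (pow_ne_zero 2 hz0)
      linear_combination hB2 - hp
    obtain ⟨s1, s2, s3⟩ := hsys
    have t1 : f ξ = 1 := by
      rw [hξ]
      simp only [map_smul, map_add, smul_eq_mul]
      rw [← s1, inv_mul_cancel₀ hμ]
    have t2 : f ((A ^ 2) ξ) = q := by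
      rw [hξ]
      simp only [map_smul, map_add, pp, smul_eq_mul]
      have : (p - 1) * f ((A ^ 2) y) + ω * q * f ((A ^ (2 + 2)) y)
          + ω ^ 2 * 1 * f ((A ^ (2 + 4)) y) = μ * q := s2.symm
      rw [this, inv_mul_cancel_left₀ hμ]
    have t3 : f ((A ^ 4) ξ) = p := by
      rw [hξ]
      simp only [map_smul, map_add, pp, smul_eq_mul]
      have : (p - 1) * f ((A ^ 4) y) + ω * q * f ((A ^ (4 + 2)) y)
          + ω ^ 2 * 1 * f ((A ^ (4 + 4)) y) = μ * p := s3.symm
      rw [this, inv_mul_cancel_left₀ hμ]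
    have hξ0 : ξ ≠ 0 := by
      intro h
      rw [h, map_zero] at t1
      exact zero_ne_one t1
    refine not_qn_of_eigen hξ0 hμ ?_
    show V ξ + τ • A ξ = μ • ξ
    have h1 := hid z μ τ hμ hzμ y hy p q 1
    rw [← hξ] at h1
    rw [hVapp', t1, t2, t3, ← h1]
    abel

end Pool.Agent.H.MP_bb4c62_an.helper6.Gadgets
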