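import Pool.Agent.H.MP_bb4c62_an.helper6.NDefs

/-!
Nonlinear data on isotropic pairs: the hypotheses under which the image of the rank one
nilpotents is analysed.
-/

namespace Pool.Agent.H.MP_bb4c62_an.helper6.NL

open Complex Metric Set Filter Topology
open Pool.Agent.H.MP_bb4c62_an.helper6.Perturb
open Pool.Agent.H.MP_bb4c62_an.helper6.Gadgets

variable {E E' : Type*} [AddCommGroup E] [Module ℂ E] [AddCommGroup E'] [Module ℂ E']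
variable {Y : Type*} [NormedAddCommGroup Y] [NormedSpace ℂ Y]

/-- a pairing `P` and a (nonlinear) operator valued map `B` on the isotropic pairs -/
structure NData (P : E →ₗ[ℂ] E' →ₗ[ℂ] ℂ) (B : E → E' → (Y →L[ℂ] Y)) : Prop where
  n1 : ∀ x f, P x f = 0 → N1 (B x f)
  ne : ∀ x f, P x f = 0 → x ≠ 0 → f ≠ 0 → B x f ≠ 0
  zl : ∀ f, B 0 f = 0
  zr : ∀ x, B x 0 = 0
  scal : ∀ x f (c : ℂ), P x f = 0 → B (c • x) f = B x (c • f)
  dl : ∀ x f f', P x f = 0 → P x f' = 0 → N1 (B x f - B x f')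
  dr : ∀ x x' f, P x f = 0 → P x' f = 0 → N1 (B x f - B x' f)
  r2 : ∀ x x' f f', P x f = 0 → P x' f' = 0 → x ≠ 0 → (¬ ∃ c : ℂ, x' = c • x) → f ≠ 0 →
    (¬ ∃ c : ℂ, f' = c • f) → ¬ N1 (B x f - B x' f')
  inj : ∀ x x' f f', P x f = 0 → P x' f' = 0 → x ≠ 0 → f ≠ 0 → B x f = B x' f' →
    (∃ c : ℂ, x' = c • x) ∧ (∃ c : ℂ, f' = c • f)
  surj : ∀ A, N1 A → ∃ x f, P x f = 0 ∧ B x f = A
  linel : ∀ x f h, P x f = 0 → P x h = 0 → x ≠ 0 → h ≠ 0 → ∃ N : Y →L[ℂ] Y, N ≠ 0 ∧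
    Set.range (fun t : ℂ => B x (f + t • h)) = Set.range (fun s : ℂ => B x f + s • N)
  liner : ∀ x w f, P x f = 0 → P w f = 0 → w ≠ 0 → f ≠ 0 → ∃ N : Y →L[ℂ] Y, N ≠ 0 ∧
    Set.range (fun t : ℂ => B (x + t • w) f) = Set.range (fun s : ℂ => B x f + s • N)
  sepE : ∀ x x' z, (∀ f, P x f = 0 → P x' f = 0 → P z f = 0) → z ∈ Submodule.span ℂ {x, x'}
  sepE' : ∀ f f' h, (∀ x, P x f = 0 → P x f' = 0 → P x h = 0) →
    h ∈ Submodule.span ℂ {f, f'}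
  d3 : ∀ x x', ∃ f, f ≠ 0 ∧ P x f = 0 ∧ P x' f = 0
  d3' : ∀ f f', ∃ x, x ≠ 0 ∧ P x f = 0 ∧ P x f' = 0
  dim : ∃ v : Fin 3 → E, LinearIndependent ℂ v
  dim' : ∃ v : Fin 3 → E', LinearIndependent ℂ v

/-- type one: common ranges for fixed vector and common kernels for fixed functional -/
def TypeI (P : E →ₗ[ℂ] E' →ₗ[ℂ] ℂ) (B : E → E' → (Y →L[ℂ] Y)) : Prop :=
  (∀ x, x ≠ 0 → ∃ y : Y, y ≠ 0 ∧ ∀ f, P x f = 0 → ∃ g : Y →L[ℂ] ℂ, B x f = ten y g) ∧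
  (∀ f, f ≠ 0 → ∃ g : Y →L[ℂ] ℂ, g ≠ 0 ∧ ∀ x, P x f = 0 → ∃ y : Y, B x f = ten y g)

variable {P : E →ₗ[ℂ] E' →ₗ[ℂ] ℂ} {B : E → E' → (Y →L[ℂ] Y)}

/-- the flipped data -/
theorem NData.flip (D : NData P B) : NData P.flip (fun f x => B x f) where
  n1 := fun f x h => D.n1 x f h
  ne := fun f x h hf hx => D.ne x f h hx hf
  zl := D.zr
  zr := D.zl
  scal := fun f x c h => (D.scal x f c h).symm
  dl := fun f x x' h h' => D.dr x x' f h h'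
  dr := fun f f' x h h' => D.dl x f f' h h'
  r2 := fun f f' x x' h h' hf hff hx hxx => D.r2 x x' f f' h h' hx hxx hf hff
  inj := fun f f' x x' h h' hf hx he => (D.inj x x' f f' h h' hx hf he).symm
  surj := fun A hA => by
    obtain ⟨x, f, h, h'⟩ := D.surj A hA
    exact ⟨f, x, h, h'⟩
  linel := fun f x w h h' hf hw => D.liner x w f h h' hw hf
  liner := fun f h x h1 h2 hh hx => D.linel x f h h1 h2 hx hh
  sepE := D.sepE'
  sepE' := D.sepE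
  d3 := D.d3'
  d3' := D.d3
  dim := D.dim'
  dim' := D.dim

end Pool.Agent.H.MP_bb4c62_an.helper6.NL
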