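import Pool.Agent.H.MP_bb4c62_an.helper6.Final

/-!
Nonlinear maps preserving quasinilpotent differences: definitions and trivialities.
-/

namespace Pool.Agent.H.MP_bb4c62_an.helper6.NL

open Complex Metric Set Filter Topology
open Pool.Agent.H.MP_bb4c62_an.helper6.Perturb
open Pool.Agent.H.MP_bb4c62_an.helper6.Gadgets

variable {X : Type*} [NormedAddCommGroup X] [NormedSpace ℂ X]
variable {Y : Type*} [NormedAddCommGroup Y] [NormedSpace ℂ Y]

/-- quasinilpotent operators -/
abbrev QN (T : X →L[ℂ] X) : Prop := spectralRadius ℂ T = 0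

/-- bijections which preserve quasinilpotent differences in both directions -/
def IsGIso (φ : (X →L[ℂ] X) → (Y →L[ℂ] Y)) : Prop :=
  Function.Bijective φ ∧ ∀ T S, QN (φ T - φ S) ↔ QN (T - S)

/-- the affine line through `R` in direction `A` -/
def rline (R A : X →L[ℂ] X) : Set (X →L[ℂ] X) := Set.range fun z : ℂ => R + z • A

/-- infinite closed cliques which are generated by any three of their points -/
structure IsLine (m : Set (X →L[ℂ] X)) : Prop where
  inf : m.Infinite
  clique : ∀ S ∈ m, ∀ T ∈ m, QN (S - T)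
  gen : ∀ T a b c, a ∈ m → b ∈ m → c ∈ m → a ≠ b → a ≠ c → b ≠ c →
    QN (T - a) → QN (T - b) → QN (T - c) → ∀ s ∈ m, QN (T - s)
  closed : ∀ V, (∀ T, (∀ s ∈ m, QN (T - s)) → QN (V - T)) → V ∈ m

theorem qn_neg {T : X →L[ℂ] X} (h : QN T) : QN (-T) := by
  have := qn_smul h (-1)
  rwa [neg_one_smul] at this

theorem qn_neg_iff {T : X →L[ℂ] X} : QN (-T) ↔ QN T :=
  ⟨fun h => by have := qn_neg h; rwa [neg_neg] at this, qn_neg⟩

theorem qn_sub_comm {T S : X →L[ℂ] X} : QN (T - S) ↔ QN (S - T) := by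
  rw [← qn_neg_iff, neg_sub]

theorem rline_mem {R A : X →L[ℂ] X} (z : ℂ) : R + z • A ∈ rline R A := ⟨z, rfl⟩

theorem base_mem_rline {R A : X →L[ℂ] X} : R ∈ rline R A := ⟨0, by simp⟩

end Pool.Agent.H.MP_bb4c62_an.helper6.NL
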