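import Mathlib

/-!
The definitions used in the description of the nonlinear maps `φ : B(X) → B(Y)` with
`r (φ T - φ S) = 0 ↔ r (T - S) = 0`.
-/

namespace Pool.Agent.H.MP_bb4c62_an.helper6.NL

/-- The linear span of the quasinilpotent operators. -/
def QSpan (X : Type*) [NormedAddCommGroup X] [NormedSpace ℂ X] :
    Submodule ℂ (X →L[ℂ] X) := Submodule.span ℂ {T | spectralRadius ℂ T = 0}

variable {X : Type*} [NormedAddCommGroup X] [NormedSpace ℂ X]
variable {Y : Type*} [NormedAddCommGroup Y] [NormedSpace ℂ Y]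

/-- Admissible pairs: the additive bijection `S` is semilinear with respect to the field
automorphism `τ` of `ℂ`; in infinite dimension `τ` is the identity or the complex conjugation
and `S` is a homeomorphism. -/
def Adm {Z : Type*} [NormedAddCommGroup Z] [NormedSpace ℂ Z] (τ : ℂ ≃+* ℂ) (S : Z ≃+ Y) :
    Prop :=
  (∀ (a : ℂ) (x : Z), S (a • x) = τ a • S x) ∧
  (¬ Module.Finite ℂ Z → ((∀ a : ℂ, τ a = a) ∨ (∀ a : ℂ, τ a = (starRingEnd ℂ) a)) ∧
    Continuous S ∧ Continuous S.symm)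

/-- On the coset of `R` modulo the span of the quasinilpotents, `φ (R + V) = φ R + c S V S⁻¹`. -/
def FormI (φ : (X →L[ℂ] X) → (Y →L[ℂ] Y)) (R : X →L[ℂ] X) : Prop :=
  ∃ (c : ℂ) (τ : ℂ ≃+* ℂ) (S : X ≃+ Y), c ≠ 0 ∧ Adm τ S ∧
    ∀ V ∈ QSpan X, ∀ x : X, (φ (R + V) - φ R) (S x) = c • S (V x)

/-- On the coset of `R` modulo the span of the quasinilpotents, `φ (R + V) = φ R + c S V* S⁻¹`,
where `V*` is the Banach space adjoint on the dual of `X`. -/
def FormII (φ : (X →L[ℂ] X) → (Y →L[ℂ] Y)) (R : X →L[ℂ] X) : Prop :=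
  ∃ (c : ℂ) (τ : ℂ ≃+* ℂ) (S : (X →L[ℂ] ℂ) ≃+ Y), c ≠ 0 ∧ Adm τ S ∧
    ∀ V ∈ QSpan X, ∀ f : X →L[ℂ] ℂ, (φ (R + V) - φ R) (S f) = c • S (f.comp V)

end Pool.Agent.H.MP_bb4c62_an.helper6.NL
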