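import Pool.Agent.H.MP_bb4c62_an.helper6.NGlue2
import Pool.Agent.H.MP_bb4c62_an.helper6.NForms

/-!
From rank one operators to `F0` and to the span of the quasinilpotents: generic part.
-/

namespace Pool.Agent.H.MP_bb4c62_an.helper6.NL

open Complex Metric Set Filter Topology
open Pool.Agent.H.MP_bb4c62_an.helper6.Perturb
open Pool.Agent.H.MP_bb4c62_an.helper6.Gadgets

variable {X : Type*} [NormedAddCommGroup X] [NormedSpace ℂ X]
variable {Y : Type*} [NormedAddCommGroup Y] [NormedSpace ℂ Y]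

theorem glue_chain [CompleteSpace X] [CompleteSpace Y] {v : Fin 3 → X}
    (hv3 : LinearIndependent ℂ v) {φ : (X →L[ℂ] X) → (Y →L[ℂ] Y)} (hφ : IsGIso φ)
    {D : X →L[ℂ] X} (hD : D ∈ F0 X) (R : X →L[ℂ] X) (x : X) (f : X →L[ℂ] ℂ)
    (hfx : f x = 0) : Bat φ (R + D) x f = Bat φ R x f := by
  have key : ∀ (c : ℂ) (R : X →L[ℂ] X) (x : X) (f : X →L[ℂ] ℂ), f x = 0 →
      Bat φ (R + c • D) x f = Bat φ R x f := by
    induction hD using Submodule.span_induction with
    | mem T hT =>
      obtain ⟨x0, f0, h0, rfl⟩ := hT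
      intro c R x f hfx
      rw [← ten_smul_left]
      exact glue_step hv3 hφ R (by rw [map_smul, h0, smul_zero]) x f hfx
    | zero => intro c R x f _; rw [smul_zero, add_zero]
    | add K L _ _ hK hL =>
      intro c R x f hfx
      rw [smul_add, ← add_assoc, hL c _ x f hfx, hK c _ x f hfx]
    | smul a K _ hK =>
      intro c R x f hfx
      rw [smul_smul]
      exact hK _ R x f hfx
  have := key 1 R x f hfx
  rwa [one_smul] at this

/-- additive relations between operators -/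
structure AddRel (Rel : (X →L[ℂ] X) → (Y →L[ℂ] Y) → Prop) : Prop where
  zero : Rel 0 0
  add : ∀ V V' U U', Rel V U → Rel V' U' → Rel (V + V') (U + U')
  sub : ∀ V V' U U', Rel V U → Rel V' U' → Rel (V - V') (U - U')

theorem ext_F0 [CompleteSpace X] [CompleteSpace Y] {v : Fin 3 → X}
    (hv3 : LinearIndependent ℂ v) {φ : (X →L[ℂ] X) → (Y →L[ℂ] Y)} (hφ : IsGIso φ)
    {Rel : (X →L[ℂ] X) → (Y →L[ℂ] Y) → Prop} (hR : AddRel Rel) (R : X →L[ℂ] X)
    (hten : ∀ (x : X) (f : X →L[ℂ] ℂ), f x = 0 → Rel (ten x f) (Bat φ R x f))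
    {K : X →L[ℂ] X} (hK : K ∈ F0 X) : Rel K (φ (R + K) - φ R) := by
  have key : ∀ (c : ℂ) (R' : X →L[ℂ] X),
      (∀ (x : X) (f : X →L[ℂ] ℂ), f x = 0 → Bat φ R' x f = Bat φ R x f) →
      Rel (c • K) (φ (R' + c • K) - φ R') := by
    induction hK using Submodule.span_induction with
    | mem T hT =>
      obtain ⟨x0, f0, h0, rfl⟩ := hT
      intro c R' hR'
      have h1 : f0 (c • x0) = 0 := by rw [map_smul, h0, smul_zero]
      rw [← ten_smul_left]
      have h2 := hten _ _ h1
      rw [← hR' _ _ h1] at h2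
      exact h2
    | zero => intro c R' _; rw [smul_zero, add_zero, sub_self]; exact hR.zero
    | add K L hK' hL' hK hL =>
      intro c R' hR'
      have e : φ (R' + c • (K + L)) - φ R' = (φ (R' + c • K) - φ R') +
          (φ ((R' + c • K) + c • L) - φ (R' + c • K)) := by
        rw [smul_add, add_assoc]; abel
      rw [e, smul_add]
      refine hR.add _ _ _ _ (hK c R' hR') (hL c _ ?_)
      intro x f hfx
      rw [glue_chain hv3 hφ (Submodule.smul_mem _ _ hK') R' x f hfx]
      exact hR' x f hfx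
    | smul a K _ hK =>
      intro c R' hR'
      rw [smul_smul]
      exact hK _ R' hR'
  have := key 1 R (fun _ _ _ => rfl)
  rwa [one_smul] at this

theorem ext_span {φ : (X →L[ℂ] X) → (Y →L[ℂ] Y)}
    {Rel : (X →L[ℂ] X) → (Y →L[ℂ] Y) → Prop} (hR : AddRel Rel)
    (hB : ∀ T : X →L[ℂ] X, (∀ K ∈ F0 X, Rel K (φ (T + K) - φ T)) →
      ∀ D, QN D → Rel D (φ (T + D) - φ T))
    (T : X →L[ℂ] X) (hT : ∀ K ∈ F0 X, Rel K (φ (T + K) - φ T))
    {V : X →L[ℂ] X} (hV : V ∈ QSpan X) : Rel V (φ (T + V) - φ T) := by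
  -- good base points are stable
  have hA : ∀ T : X →L[ℂ] X, (∀ K ∈ F0 X, Rel K (φ (T + K) - φ T)) → ∀ G ∈ F0 X,
      ∀ K ∈ F0 X, Rel K (φ (T + G + K) - φ (T + G)) := by
    intro T hT G hG K hK
    have h1 := hR.sub _ _ _ _ (hT _ ((F0 X).add_mem hG hK)) (hT _ hG)
    have e1 : G + K - G = K := by abel
    have e2 : φ (T + (G + K)) - φ T - (φ (T + G) - φ T) = φ (T + G + K) - φ (T + G) := by
      rw [add_assoc]; abel
    rwa [e1, e2] at h1
  have hC : ∀ T : X →L[ℂ] X, (∀ K ∈ F0 X, Rel K (φ (T + K) - φ T)) → ∀ D, QN D →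
      ∀ G ∈ F0 X, Rel G (φ (T + D + G) - φ (T + D)) := by
    intro T hT D hD G hG
    have h1 := hB (T + G) (hA T hT G hG) D hD
    have h2 := hR.add _ _ _ _ h1 (hT G hG)
    have h3 := hR.sub _ _ _ _ h2 (hB T hT D hD)
    have e1 : D + G - D = G := by abel
    have e2 : φ (T + G + D) - φ (T + G) + (φ (T + G) - φ T) - (φ (T + D) - φ T) =
        φ (T + D + G) - φ (T + D) := by
      have : T + G + D = T + D + G := by abel
      rw [this]; abel
    rwa [e1, e2] at h3
  have key : ∀ (c : ℂ) (T : X →L[ℂ] X), (∀ K ∈ F0 X, Rel K (φ (T + K) - φ T)) →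
      Rel (c • V) (φ (T + c • V) - φ T) ∧
      ∀ K ∈ F0 X, Rel K (φ (T + c • V + K) - φ (T + c • V)) := by
    unfold QSpan at hV
    induction hV using Submodule.span_induction with
    | mem D hD =>
      intro c T hT
      have hD' : QN (c • D) := qn_smul hD c
      exact ⟨hB T hT _ hD', hC T hT _ hD'⟩
    | zero =>
      intro c T hT
      rw [smul_zero, add_zero, sub_self]
      exact ⟨hR.zero, hT⟩
    | add V W _ _ hV hW =>
      intro c T hT
      obtain ⟨a1, a2⟩ := hV c T hT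
      obtain ⟨b1, b2⟩ := hW c _ a2
      rw [smul_add, ← add_assoc]
      refine ⟨?_, b2⟩
      have h1 := hR.add _ _ _ _ a1 b1
      have e : φ (T + c • V) - φ T + (φ (T + c • V + c • W) - φ (T + c • V)) =
          φ (T + c • V + c • W) - φ T := by abel
      rwa [e] at h1
    | smul a V _ hV =>
      intro c T hT
      rw [smul_smul]
      exact hV _ T hT
  have := (key 1 T hT).1
  rwa [one_smul] at this

end Pool.Agent.H.MP_bb4c62_an.helper6.NL
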