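import Pool.Agent.H.MP_bb4c62_an.helper6.NExt1
import Pool.Agent.H.MP_bb4c62_an.helper10.NSemi

/-!
Extension to quasinilpotent operators in infinite dimension.
-/

namespace Pool.Agent.H.MP_bb4c62_an.helper6.NL

open Complex Metric Set Filter Topology
open Pool.Agent.H.MP_bb4c62_an.helper6.Perturb
open Pool.Agent.H.MP_bb4c62_an.helper6.Gadgets

variable {X : Type*} [NormedAddCommGroup X] [NormedSpace ℂ X]
variable {Y : Type*} [NormedAddCommGroup Y] [NormedSpace ℂ Y]

/-- relation of the first kind -/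
def RelI (S : X ≃+ Y) (c : ℂ) (V : X →L[ℂ] X) (U : Y →L[ℂ] Y) : Prop :=
  ∀ x, U (S x) = c • S (V x)

/-- relation of the second kind -/
def RelII (S : (X →L[ℂ] ℂ) ≃+ Y) (c : ℂ) (V : X →L[ℂ] X) (U : Y →L[ℂ] Y) : Prop :=
  ∀ f, U (S f) = c • S (f.comp V)

theorem addRelI (S : X ≃+ Y) (c : ℂ) : AddRel (RelI S c) where
  zero := fun x => by
    show (0 : Y) = c • S 0
    rw [map_zero, smul_zero]
  add := fun V V' U U' h h' x => by
    show U (S x) + U' (S x) = c • S (V x + V' x)
    rw [h x, h' x, map_add, smul_add]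
  sub := fun V V' U U' h h' x => by
    show U (S x) - U' (S x) = c • S (V x - V' x)
    rw [h x, h' x, map_sub, smul_sub]

theorem addRelII (S : (X →L[ℂ] ℂ) ≃+ Y) (c : ℂ) : AddRel (RelII S c) where
  zero := fun f => by
    show (0 : Y) = c • S (f.comp 0)
    rw [ContinuousLinearMap.comp_zero, map_zero, smul_zero]
  add := fun V V' U U' h h' f => by
    show U (S f) + U' (S f) = c • S (f.comp (V + V'))
    rw [h f, h' f, ContinuousLinearMap.comp_add, map_add, smul_add]
  sub := fun V V' U U' h h' f => by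
    show U (S f) - U' (S f) = c • S (f.comp (V - V'))
    rw [h f, h' f, ContinuousLinearMap.comp_sub, map_sub, smul_sub]

/-- transport of an operator by a semilinear homeomorphism -/
theorem exists_conj_semi {Z : Type*} [NormedAddCommGroup Z] [NormedSpace ℂ Z]
    (S : Z ≃+ Y) (τ : ℂ ≃+* ℂ) (hS : ∀ (a : ℂ) x, S (a • x) = τ a • S x)
    (h1 : Continuous S) (h2 : Continuous S.symm) {c : ℂ} (hc : c ≠ 0) (U : Y →L[ℂ] Y) :
    ∃ M : Z →L[ℂ] Z, ∀ x, U (S x) = c • S (M x) := by
  refine ⟨{ toFun := fun x => S.symm (c⁻¹ • U (S x))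
            map_add' := fun x y => by
              rw [map_add, map_add, smul_add, map_add]
            map_smul' := fun a x => by
              apply S.injective
              rw [AddEquiv.apply_symm_apply, RingHom.id_apply, hS, hS, AddEquiv.apply_symm_apply,
                map_smul, smul_comm]
            cont := h2.comp ((U.continuous.comp h1).const_smul c⁻¹) }, fun x => ?_⟩
  show U (S x) = c • S (S.symm (c⁻¹ • U (S x)))
  rw [AddEquiv.apply_symm_apply, smul_smul, mul_inv_cancel₀ hc, one_smul]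

theorem qn_stepI [CompleteSpace X] (hinf : ¬ Module.Finite ℂ X)
    {φ : (X →L[ℂ] X) → (Y →L[ℂ] Y)} (hφ : IsGIso φ) (S : X ≃+ Y) (τ : ℂ ≃+* ℂ)
    (hS : ∀ (a : ℂ) x, S (a • x) = τ a • S x) (h1 : Continuous S) (h2 : Continuous S.symm)
    {c : ℂ} (hc : c ≠ 0) (T : X →L[ℂ] X) (hT : ∀ K ∈ F0 X, RelI S c K (φ (T + K) - φ T))
    (D : X →L[ℂ] X) (hD : QN D) : RelI S c D (φ (T + D) - φ T) := by
  by_cases hD0 : D = 0
  · rw [hD0, add_zero, sub_self]; exact (addRelI S c).zero
  obtain ⟨M, hM⟩ := exists_conj_semi S τ hS h1 h2 hc (φ (T + D) - φ T)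
  have hqn : ∀ {U : Y →L[ℂ] Y} {V : X →L[ℂ] X}, RelI S c V U → (QN U ↔ QN V) := by
    intro U V h
    exact conj_qn_semi S τ hS (Or.inr ⟨h1, h2⟩) hc h
  have hQM : QN M := by
    rw [← hqn hM, hφ.2, add_sub_cancel_left]; exact hD
  have hMD : M = D := by
    refine eq_of_moves hD hD0 hQM ?_
    intro x x' z z' hx hz
    obtain ⟨A, B, hAB, hBA, hA1, hAx, hAx'⟩ := exists_move hinf hx hz
    refine ⟨A, B, hAB, hBA, hAx, hAx', ?_⟩
    have hK : -(A * D * B - D) ∈ F0 X := Submodule.neg_mem _ (conj_sub_mem_F0 hBA hA1 D)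
    have h3 := hT _ hK
    have h4 := (addRelI S c).sub _ _ _ _ hM h3
    have h5 : φ (T + D) - φ T - (φ (T + -(A * D * B - D)) - φ T) =
        φ (T + D) - φ (T + -(A * D * B - D)) := by abel
    rw [h5] at h4
    have h6 : M - -(A * D * B - D) = M - D + A * D * B := by abel
    rw [h6] at h4
    refine (hqn h4).mp ?_
    rw [hφ.2]
    have h7 : T + D - (T + -(A * D * B - D)) = A * D * B := by abel
    rw [h7]
    exact qn_conj hD hAB hBA
  intro x
  have := hM x
  rwa [hMD] at this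

theorem qn_stepII [CompleteSpace X] (hinf : ¬ Module.Finite ℂ X)
    {φ : (X →L[ℂ] X) → (Y →L[ℂ] Y)} (hφ : IsGIso φ) (S : (X →L[ℂ] ℂ) ≃+ Y) (τ : ℂ ≃+* ℂ)
    (hS : ∀ (a : ℂ) x, S (a • x) = τ a • S x) (h1 : Continuous S) (h2 : Continuous S.symm)
    {c : ℂ} (hc : c ≠ 0) (T : X →L[ℂ] X) (hT : ∀ K ∈ F0 X, RelII S c K (φ (T + K) - φ T))
    (D : X →L[ℂ] X) (hD : QN D) : RelII S c D (φ (T + D) - φ T) := by
  by_cases hD0 : D = 0
  · rw [hD0, add_zero, sub_self]; exact (addRelII S c).zero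
  obtain ⟨M, hM⟩ := exists_conj_semi S τ hS h1 h2 hc (φ (T + D) - φ T)
  have hqn : ∀ {U : Y →L[ℂ] Y} {V : (X →L[ℂ] ℂ) →L[ℂ] (X →L[ℂ] ℂ)},
      (∀ f, U (S f) = c • S (V f)) → (QN U ↔ QN V) := by
    intro U V h
    exact conj_qn_semi S τ hS (Or.inr ⟨h1, h2⟩) hc h
  have hQM : QN M := by
    rw [← hqn hM, hφ.2, add_sub_cancel_left]; exact hD
  have hN0 : adj D ≠ 0 := by
    intro hN0
    apply hD0
    ext w
    apply (SeparatingDual.eq_iff_forall_dual_eq (R := ℂ)).mpr
    intro g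
    have h1 : adj D g w = 0 := by rw [hN0]; rfl
    have h2 : g (D w) = 0 := h1
    rw [h2]; simp
  have hMD : M = adj D := by
    refine eq_of_moves (qn_adj hD) hN0 hQM ?_
    intro f f' h h' hf hh
    obtain ⟨A, B, hAB, hBA, hA1, hfR, hf'R⟩ := exists_move_dual (infinite_dual hinf) hf hh
    refine ⟨adj B, adj A, ?_, ?_, ?_, ?_, ?_⟩
    · rw [← adj_mul, hAB, adj_one]
    · rw [← adj_mul, hBA, adj_one]
    · ext w; exact hfR w
    · ext w; exact hf'R w
    have hK : -(A * D * B - D) ∈ F0 X := Submodule.neg_mem _ (conj_sub_mem_F0 hBA hA1 D)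
    have h3 := hT _ hK
    have h4 : ∀ g, (φ (T + D) - φ (T + -(A * D * B - D))) (S g) =
        c • S ((M - adj (-(A * D * B - D))) g) := by
      intro g
      have e : φ (T + D) - φ (T + -(A * D * B - D)) =
          (φ (T + D) - φ T) - (φ (T + -(A * D * B - D)) - φ T) := by abel
      rw [e]
      show (φ (T + D) - φ T) (S g) - (φ (T + -(A * D * B - D)) - φ T) (S g) =
        c • S (M g - g.comp (-(A * D * B - D)))
      rw [hM g, h3 g, map_sub, smul_sub]
    have h5 : M - adj (-(A * D * B - D)) = M - adj D + adj B * adj D * adj A := by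
      have e : adj (A * D * B) = adj B * adj D * adj A := by
        rw [adj_mul, adj_mul, mul_assoc]
      have e2 : -(A * D * B - D) = D - A * D * B := by abel
      rw [e2, adj_sub, e]; abel
    rw [h5] at h4
    refine (hqn h4).mp ?_
    rw [hφ.2]
    have h7 : T + D - (T + -(A * D * B - D)) = A * D * B := by abel
    rw [h7]
    exact qn_conj hD hAB hBA
  intro f
  have := hM f
  rw [hMD] at this
  exact this

end Pool.Agent.H.MP_bb4c62_an.helper6.NL
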