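import Pool.Agent.H.MP_bb4c62_an.helper6.NSmall2

/-!
Final lemmas for the nonlinear theorem (minus sign).
-/

namespace Pool.Agent.H.MP_bb4c62_an.helper6.NL

open Complex Metric Set Filter Topology
open Pool.Agent.H.MP_bb4c62_an.helper6.Perturb
open Pool.Agent.H.MP_bb4c62_an.helper6.Gadgets

variable {X : Type*} [NormedAddCommGroup X] [NormedSpace ℂ X]
variable {Y : Type*} [NormedAddCommGroup Y] [NormedSpace ℂ Y]

theorem injective_of_qn {φ : (X →L[ℂ] X) → (Y →L[ℂ] Y)}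
    (h : ∀ T S, QN (φ T - φ S) ↔ QN (T - S)) : Function.Injective φ := by
  intro T S hTS
  apply sub_eq_zero.mp
  apply eq_zero_of_translates
  intro N hN
  have e : T - S + N = T - (S - N) := by abel
  rw [e]
  refine (h _ _).mp ?_
  rw [hTS]
  refine (h _ _).mpr ?_
  rw [sub_sub_cancel]
  exact hN

theorem fin_of_semi {Z : Type*} [NormedAddCommGroup Z] [NormedSpace ℂ Z] {τ : ℂ ≃+* ℂ}
    {S : Z ≃+ Y} (hS : ∀ (a : ℂ) (x : Z), S (a • x) = τ a • S x) (hZ : Module.Finite ℂ Z) :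
    Module.Finite ℂ Y := by
  let b := Module.finBasis ℂ Z
  refine ⟨?_⟩
  have h : (⊤ : Submodule ℂ Y) = Submodule.span ℂ (Set.range fun i => S (b i)) := by
    symm
    rw [eq_top_iff]
    intro y _
    obtain ⟨x, rfl⟩ := S.surjective y
    rw [← b.sum_repr x, map_sum]
    refine Submodule.sum_mem _ fun i _ => ?_
    rw [hS]
    exact Submodule.smul_mem _ _ (Submodule.subset_span ⟨i, rfl⟩)
  rw [h]
  exact Submodule.fg_span (Set.finite_range _)

theorem qn_of_adm {Z : Type*} [NormedAddCommGroup Z] [NormedSpace ℂ Z] {τ : ℂ ≃+* ℂ}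
    {S : Z ≃+ Y} (h : Adm τ S) {c : ℂ} (hc : c ≠ 0) {U : Y →L[ℂ] Y} {V : Z →L[ℂ] Z}
    (hUV : ∀ x, U (S x) = c • S (V x)) : QN U ↔ QN V := by
  refine conj_qn_semi S τ h.1 ?_ hc hUV
  by_cases hZ : Module.Finite ℂ Z
  · exact Or.inl ⟨hZ, fin_of_semi h.1 hZ⟩
  · exact Or.inr ⟨(h.2 hZ).2.1, (h.2 hZ).2.2⟩

theorem form_qn [CompleteSpace X] {φ : (X →L[ℂ] X) → (Y →L[ℂ] Y)} {R V : X →L[ℂ] X}
    (hV : V ∈ QSpan X) (h : FormI φ R ∨ FormII φ R) : QN (φ (R + V) - φ R) ↔ QN V := by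
  rcases h with ⟨c, τ, S, hc, hS, hform⟩ | ⟨c, τ, S, hc, hS, hform⟩
  · exact qn_of_adm hS hc (hform V hV)
  · exact (qn_of_adm hS hc (hform V hV)).trans qn_adj_iff

theorem main_minus [CompleteSpace X] [CompleteSpace Y] (φ : (X →L[ℂ] X) → (Y →L[ℂ] Y))
    (hsurj : Function.Surjective φ) :
    (∀ T S : X →L[ℂ] X, spectralRadius ℂ (φ T - φ S) = 0 ↔ spectralRadius ℂ (T - S) = 0) ↔
      ((∀ T S : X →L[ℂ] X, φ T - φ S ∈ QSpan Y ↔ T - S ∈ QSpan X) ∧
        ∀ R : X →L[ℂ] X, FormI φ R ∨ FormII φ R) := by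
  constructor
  · intro h
    have hφ : IsGIso φ := ⟨⟨injective_of_qn h, hsurj⟩, h⟩
    refine ⟨qspan_iff hφ, fun R => ?_⟩
    by_cases h3 : ∃ v : Fin 3 → X, LinearIndependent ℂ v
    · obtain ⟨v, hv⟩ := h3
      exact forward3 hv hφ R
    · push Not at h3
      exact Or.inl (form_small h3 hφ R)
  · rintro ⟨h1, h2⟩ T S
    have key : T - S ∈ QSpan X → (QN (φ T - φ S) ↔ QN (T - S)) := by
      intro hV
      have := form_qn hV (h2 S)
      rwa [add_sub_cancel] at this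
    constructor
    · intro hq
      have hm : φ T - φ S ∈ QSpan Y := Submodule.subset_span hq
      exact (key ((h1 T S).mp hm)).mp hq
    · intro hq
      exact (key (Submodule.subset_span hq)).mpr hq

end Pool.Agent.H.MP_bb4c62_an.helper6.NL
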