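import Pool.Agent.H.MP_bb4c62_an.helper6.NExt2
import Pool.Agent.H.MP_bb4c62_an.helper58.NBiorth

/-!
The forward direction in dimension at least three.
-/

namespace Pool.Agent.H.MP_bb4c62_an.helper6.NL

open Complex Metric Set Filter Topology
open Pool.Agent.H.MP_bb4c62_an.helper6.Perturb
open Pool.Agent.H.MP_bb4c62_an.helper6.Gadgets

variable {X : Type*} [NormedAddCommGroup X] [NormedSpace ℂ X]
variable {Y : Type*} [NormedAddCommGroup Y] [NormedSpace ℂ Y]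

theorem Std.duals {E E' : Type*} [AddCommGroup E] [Module ℂ E] [AddCommGroup E'] [Module ℂ E']
    {P : E →ₗ[ℂ] E' →ₗ[ℂ] ℂ} {B : E → E' → (Y →L[ℂ] Y)} {c : ℂ} {τ : ℂ ≃+* ℂ} {S : E ≃+ Y}
    {Q : E' → (Y →L[ℂ] ℂ)} (h : Std P B c τ S Q)
    (hsurj : ∀ A, N1 A → ∃ x f, P x f = 0 ∧ B x f = A)
    (hY : ∀ g : Y →L[ℂ] ℂ, ∃ y, y ≠ 0 ∧ g y = 0) (g : Y →L[ℂ] ℂ) :
    ∃ (κ : ℂ) (f : E'), ∀ u, g (S u) = κ * τ (P u f) := by
  obtain ⟨y, hy0, hy⟩ := hY g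
  obtain ⟨x, f, hxf, hB⟩ := hsurj _ ⟨y, g, hy, rfl⟩
  obtain ⟨η, hη⟩ := SeparatingDual.exists_eq_one (R := ℂ) hy0
  rw [h.form x f hxf] at hB
  refine ⟨c * η (S x), f, fun u => ?_⟩
  have h1 : η ((c • ten (S x) (Q f)) (S u)) = η (ten y g (S u)) := by rw [hB]
  have h2 : η (c • (Q f (S u) • S x)) = η (g (S u) • y) := h1
  rw [map_smul, map_smul, map_smul, hη, h.pair] at h2
  simp only [smul_eq_mul, mul_one] at h2
  rw [← h2]; ring

theorem bat_surj [CompleteSpace X] [CompleteSpace Y] {v : Fin 3 → X}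
    (hv3 : LinearIndependent ℂ v) {φ : (X →L[ℂ] X) → (Y →L[ℂ] Y)} (hφ : IsGIso φ)
    (R : X →L[ℂ] X) (A : Y →L[ℂ] Y) (hA : N1 A) :
    ∃ (x : X) (f : X →L[ℂ] ℂ), f x = 0 ∧ Bat φ R x f = A := by
  obtain ⟨T, hT⟩ := hφ.1.2 (φ R + A)
  have h1 : N1 (φ T - φ R) := by rw [hT, add_sub_cancel_left]; exact hA
  rw [n1_iff hv3 hφ] at h1
  obtain ⟨x, f, hfx, hxf⟩ := h1
  refine ⟨x, f, hfx, ?_⟩
  unfold Bat
  rw [← hxf, add_sub_cancel, hT, add_sub_cancel_left]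

theorem relI_ten {R : X →L[ℂ] X} {φ : (X →L[ℂ] X) → (Y →L[ℂ] Y)} {c : ℂ} {τ : ℂ ≃+* ℂ}
    {S : X ≃+ Y} {Q : (X →L[ℂ] ℂ) → (Y →L[ℂ] ℂ)} (h : Std (evalP X) (Bat φ R) c τ S Q)
    (x : X) (f : X →L[ℂ] ℂ) (hfx : f x = 0) : RelI S c (ten x f) (Bat φ R x f) := by
  intro z
  rw [h.form x f hfx]
  show c • (Q f (S z) • S x) = c • S (f z • x)
  rw [h.pair, h.semi]; rfl

theorem relII_ten {R : X →L[ℂ] X} {φ : (X →L[ℂ] X) → (Y →L[ℂ] Y)} {c : ℂ} {τ : ℂ ≃+* ℂ}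
    {S : (X →L[ℂ] ℂ) ≃+ Y} {Q : X → (Y →L[ℂ] ℂ)} (h : Std (evalP X).flip (Bfl φ R) c τ S Q)
    (x : X) (f : X →L[ℂ] ℂ) (hfx : f x = 0) : RelII S c (ten x f) (Bat φ R x f) := by
  intro g
  have h1 : Bat φ R x f = c • ten (S f) (Q x) := h.form f x hfx
  rw [h1]
  have h2 : g.comp (ten x f) = g x • f := by
    ext z
    show g (f z • x) = g x * f z
    rw [map_smul, smul_eq_mul, mul_comm]
  rw [h2, h.semi]
  show c • (Q x (S g) • S f) = c • (τ (g x) • S f)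
  rw [h.pair]; rfl

theorem qspan_le_of_finite (hX : Module.Finite ℂ X) {V : X →L[ℂ] X} (hV : V ∈ QSpan X) :
    V ∈ F0 X := by
  have : QSpan X ≤ F0 X := by
    unfold QSpan
    rw [Submodule.span_le]
    intro T hT
    exact qn_finite_rank_mem_F0 (IsNoetherian.noetherian _) hT
  exact this hV

theorem tau_cont {τ : ℂ ≃+* ℂ}
    (h : τ = RingEquiv.refl ℂ ∨ (∀ c : ℂ, τ c = (starRingEnd ℂ) c)) :
    Continuous τ ∧ ((∀ a : ℂ, τ a = a) ∨ (∀ a : ℂ, τ a = (starRingEnd ℂ) a)) := by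
  rcases h with h | h
  · refine ⟨?_, Or.inl fun a => by rw [h]; rfl⟩
    rw [h]; exact continuous_id
  · refine ⟨?_, Or.inr h⟩
    have : (τ : ℂ → ℂ) = fun a => (starRingEnd ℂ) a := funext h
    show Continuous (τ : ℂ → ℂ)
    rw [this]; exact Complex.continuous_conj

theorem forward3 [CompleteSpace X] [CompleteSpace Y] {v : Fin 3 → X}
    (hv3 : LinearIndependent ℂ v) {φ : (X →L[ℂ] X) → (Y →L[ℂ] Y)} (hφ : IsGIso φ)
    (R : X →L[ℂ] X) : FormI φ R ∨ FormII φ R := by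
  obtain ⟨w, hw⟩ := dim_transfer hv3 hφ
  have hY : ∀ g : Y →L[ℂ] ℂ, ∃ y, y ≠ 0 ∧ g y = 0 := by
    intro g
    obtain ⟨y, h1, h2, -⟩ := (d3 hw).2 g g
    exact ⟨y, h1, h2⟩
  by_cases hX : Module.Finite ℂ X
  · have hX' : Module.Finite ℂ (X →L[ℂ] ℂ) := inferInstance
    rcases exists_std hv3 hφ R with ⟨c, τ, S, Q, h⟩ | ⟨c, τ, S, Q, h⟩
    · left
      refine ⟨c, τ, S, h.c0, ⟨h.semi, fun hn => absurd hX hn⟩, fun V hV => ?_⟩
      exact ext_F0 hv3 hφ (addRelI S c) R (relI_ten h) (qspan_le_of_finite hX hV)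
    · right
      refine ⟨c, τ, S, h.c0, ⟨h.semi, fun hn => absurd hX' hn⟩, fun V hV => ?_⟩
      exact ext_F0 hv3 hφ (addRelII S c) R (relII_ten h) (qspan_le_of_finite hX hV)
  · obtain ⟨xs, fs, hxf⟩ := exists_biorthogonal hX
    rcases exists_std hv3 hφ R with ⟨c, τ, S, Q, h⟩ | ⟨c, τ, S, Q, h⟩
    · left
      obtain ⟨hτc, hτ⟩ := tau_cont (tau_continuous (E := X) (D := X →L[ℂ] ℂ)
        (ContinuousLinearMap.id ℂ (X →L[ℂ] ℂ)) xs fs hxf τ S (fun d => ⟨Q d, fun u => h.pair u d⟩))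
      obtain ⟨hc1, hc2⟩ := continuous_of_duals S τ hτc h.semi (fun g => by
        obtain ⟨κ, f, hg⟩ := h.duals (bat_surj hv3 hφ R) hY g
        have : (fun x => g (S x)) = fun x => κ * τ (f x) := funext hg
        rw [this]
        exact continuous_const.mul (hτc.comp f.continuous))
      refine ⟨c, τ, S, h.c0, ⟨h.semi, fun _ => ⟨hτ, hc1, hc2⟩⟩, fun V hV => ?_⟩
      exact ext_span (addRelI S c) (fun T hT D hD => qn_stepI hX hφ S τ h.semi hc1 hc2 h.c0 T hT D hD)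
        R (fun K hK => ext_F0 hv3 hφ (addRelI S c) R (relI_ten h) hK) hV
    · right
      obtain ⟨hτc, hτ⟩ := tau_cont (tau_continuous (E := X →L[ℂ] ℂ) (D := X)
        (ContinuousLinearMap.id ℂ (X →L[ℂ] ℂ)).flip fs xs (fun m n => by
          have := hxf n m
          show fs n (xs m) = _
          rw [this]
          simp only [eq_comm]) τ S (fun d => ⟨Q d, fun u => h.pair u d⟩))
      obtain ⟨hc1, hc2⟩ := continuous_of_duals S τ hτc h.semi (fun g => by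
        obtain ⟨κ, x, hg⟩ := h.duals (fun A hA => by
          obtain ⟨x, f, h1, h2⟩ := bat_surj hv3 hφ R A hA
          exact ⟨f, x, h1, h2⟩) hY g
        have : (fun f => g (S f)) = fun f : X →L[ℂ] ℂ => κ * τ (f x) := funext hg
        rw [this]
        exact continuous_const.mul (hτc.comp (ContinuousLinearMap.apply ℂ ℂ x).continuous))
      refine ⟨c, τ, S, h.c0, ⟨h.semi, fun _ => ⟨hτ, hc1, hc2⟩⟩, fun V hV => ?_⟩
      exact ext_span (addRelII S c)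
        (fun T hT D hD => qn_stepII hX hφ S τ h.semi hc1 hc2 h.c0 T hT D hD)
        R (fun K hK => ext_F0 hv3 hφ (addRelII S c) R (relII_ten h) hK) hV

end Pool.Agent.H.MP_bb4c62_an.helper6.NL
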