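import Pool.Agent.H.MP_bb4c62_an.helper6.NDefs

/-!
Rank one nilpotents: the two point version of the line property.
-/

namespace Pool.Agent.H.MP_bb4c62_an.helper6.NL

open Complex Metric Set Filter Topology
open Pool.Agent.H.MP_bb4c62_an.helper6.Perturb
open Pool.Agent.H.MP_bb4c62_an.helper6.Gadgets

variable {X : Type*} [NormedAddCommGroup X] [NormedSpace ℂ X]

theorem gadget_two' [CompleteSpace X] {A : X →L[ℂ] X} (hA : spectralRadius ℂ A = 0)
    (x : Fin 2 → X) (hA2 : ∀ j, A (A (x j)) = 0)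
    (hli : LinearIndependent ℂ (fun j => A (x j))) :
    ∃ V ∈ F0 X, spectralRadius ℂ V = 0 ∧ spectralRadius ℂ (V + A) = 0 ∧
      spectralRadius ℂ (V + (2 : ℂ) • A) ≠ 0 := by
  obtain ⟨f, h0, h1⟩ := exists_strand_functionals x hA2 hli
  have hcyc : ∀ j0 j : Fin 2, ∃ n : ℕ, ((finRotate 2) ^ n) j0 = j := by
    have : ∀ j0 j : Fin 2, ∃ n : Fin 2, ((finRotate 2) ^ (n : ℕ)) j0 = j := by decide
    intro j0 j
    obtain ⟨n, hn⟩ := this j0 j
    exact ⟨n, hn⟩
  refine ⟨strand A (finRotate 2) x f ![-1, 0], ?_, ?_, ?_, ?_⟩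
  · unfold strand
    refine Submodule.sum_mem _ fun j _ => ?_
    refine Submodule.add_mem _ (Submodule.smul_mem _ _ (ten_mem_F0 ?_)) (ten_mem_F0 (h0 _ _))
    show f j (A (A (x j))) = 0
    rw [hA2, map_zero]
  · have := strand_qn (finRotate 2) 1 (hcyc 1) hA x f ![-1, 0] hA2 h0 h1 (τ := 0) (by simp)
    simpa using this
  · have := strand_qn (finRotate 2) 0 (hcyc 0) hA x f ![-1, 0] hA2 h0 h1 (τ := 1) (by simp)
    rw [one_smul, add_comm] at this
    exact this
  · have hx : x 0 ≠ 0 := by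
      intro h
      have := hli.ne_zero 0
      apply this
      show A (x 0) = 0
      rw [h, map_zero]
    rw [add_comm]
    refine not_qn_of_pow_eigen (n := 4) hx (μ := 2) (by norm_num) (by norm_num) ?_
    have hs := strand_step (finRotate 2) x f ![-1, 0] hA2 h0 h1 2
    have h6 : ((2 : ℂ) • A + strand A (finRotate 2) x f ![-1, 0]) ^ 4 =
        ((2 : ℂ) • A + strand A (finRotate 2) x f ![-1, 0]) ^ 2 *
        (((2 : ℂ) • A + strand A (finRotate 2) x f ![-1, 0]) ^ 2) := by
      rw [← pow_add]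
    rw [h6]
    set S := ((2 : ℂ) • A + strand A (finRotate 2) x f ![-1, 0]) ^ 2
    show S (S (x 0)) = _
    have r0 : (finRotate 2) 0 = 1 := by decide
    have r1 : (finRotate 2) 1 = 0 := by decide
    rw [hs 0, r0, map_smul, hs 1, r1]
    simp only [smul_smul]
    congr 1
    simp
    norm_num

theorem gadget_one' [CompleteSpace X] {A : X →L[ℂ] X} (hA : spectralRadius ℂ A = 0)
    (x : X) (hA3 : A (A (A x)) = 0) (hA2 : A (A x) ≠ 0) :
    ∃ V ∈ F0 X, spectralRadius ℂ V = 0 ∧ spectralRadius ℂ (V + A) = 0 ∧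
      spectralRadius ℂ (V + (2 : ℂ) • A) ≠ 0 := by
  obtain ⟨g, hg⟩ := SeparatingDual.exists_eq_one (R := ℂ) hA2
  -- correct the functional
  obtain ⟨f, hf0, hf1, hf2⟩ : ∃ f : X →L[ℂ] ℂ, f x = 0 ∧ f (A x) = 0 ∧ f (A (A x)) = 1 := by
    refine ⟨g - g (A x) • g.comp A - (g x - g (A x) * g (A x)) • g.comp (A.comp A), ?_, ?_, ?_⟩
    · show g x - g (A x) * g (A x) - (g x - g (A x) * g (A x)) * g (A (A x)) = 0
      rw [hg]; ring
    · show g (A x) - g (A x) * g (A (A x)) - (g x - g (A x) * g (A x)) * g (A (A (A x))) = 0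
      rw [hg, hA3, map_zero]; ring
    · show g (A (A x)) - g (A x) * g (A (A (A x)))
        - (g x - g (A x) * g (A x)) * g (A (A (A (A x)))) = 1
      rw [hg, hA3, map_zero, map_zero, map_zero]; ring
  set V : X →L[ℂ] X := ten x f - ten (A x) (f.comp (A.comp A)) with hV
  have hVapp : ∀ ξ, V ξ = f ξ • x - f (A (A ξ)) • A x := fun ξ => rfl
  have hcomp : IsCompactOperator V := (isCompact_ten _ _).sub (isCompact_ten _ _)
  have key : ∀ τ : ℂ, τ * (τ - 1) = 0 → spectralRadius ℂ (τ • A + V) = 0 := by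
    intro τ hτ
    apply qn_add_of_no_eigen (qn_smul hA τ) hcomp
    intro μ hμ ξ hξ
    have hξ' : τ • A ξ + (f ξ • x - f (A (A ξ)) • A x) = μ • ξ := hξ
    set a := f (A (A ξ)) with ha
    set b := f ξ with hb
    set η : X := (b * μ⁻¹) • x + (b * μ⁻¹ ^ 2 * τ - a * μ⁻¹) • A x +
      (b * μ⁻¹ ^ 3 * τ ^ 2 - a * μ⁻¹ ^ 2 * τ) • A (A x) with hη
    have hAη : A η = (b * μ⁻¹) • A x + (b * μ⁻¹ ^ 2 * τ - a * μ⁻¹) • A (A x) := by
      rw [hη]
      simp only [map_add, map_smul, hA3, smul_zero, add_zero]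
    have hμη : μ • η - τ • A η = b • x - a • A x := by
      rw [hAη, hη]
      simp only [smul_add, smul_smul]
      have e1 : μ * (b * μ⁻¹) = b := by field_simp
      have e2 : μ * (b * μ⁻¹ ^ 2 * τ - a * μ⁻¹) = τ * (b * μ⁻¹) - a := by field_simp
      have e3 : μ * (b * μ⁻¹ ^ 3 * τ ^ 2 - a * μ⁻¹ ^ 2 * τ) =
          τ * (b * μ⁻¹ ^ 2 * τ - a * μ⁻¹) := by field_simp
      rw [e1, e2, e3, sub_smul]
      abel
    have hξη : ξ = η := by
      have h2 : τ • A (ξ - η) = μ • (ξ - η) := by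
        rw [map_sub, smul_sub, smul_sub]
        have h4 : μ • ξ - τ • A ξ = μ • η - τ • A η := by
          rw [hμη, ← hξ']; abel
        have : μ • ξ - μ • η = (μ • ξ - τ • A ξ) - (μ • η - τ • A η) + (τ • A ξ - τ • A η) := by
          abel
        rw [this, h4]; abel
      exact sub_eq_zero.mp (inj_of_qn hA hμ h2)
    have hbe : b = b * μ⁻¹ ^ 3 * τ ^ 2 - a * μ⁻¹ ^ 2 * τ := by
      conv_lhs => rw [hb, hξη, hη]
      simp only [map_add, map_smul, hf0, hf1, hf2, smul_eq_mul]
      ring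
    have hae : a = b * μ⁻¹ := by
      conv_lhs => rw [ha, hξη, hAη]
      simp only [map_add, map_smul, hf2, hA3, map_zero, smul_eq_mul]
      ring
    have hb0 : b = 0 := by
      rw [hae] at hbe
      have : b = b * μ⁻¹ ^ 3 * (τ * (τ - 1)) := by
        linear_combination hbe
      rw [this, hτ, mul_zero]
    have ha0 : a = 0 := by rw [hae, hb0, zero_mul]
    rw [hξη, hη, hb0, ha0]
    simp
  refine ⟨V, ?_, ?_, ?_, ?_⟩
  · rw [hV]
    refine Submodule.sub_mem _ (ten_mem_F0 hf0) (ten_mem_F0 ?_)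
    show f (A (A (A x))) = 0
    rw [hA3, map_zero]
  · have := key 0 (by ring)
    simpa using this
  · have := key 1 (by ring)
    rw [one_smul, add_comm] at this
    exact this
  · have hx : x ≠ 0 := by
      rintro rfl
      apply hA2; simp
    refine not_qn_of_pow_eigen (n := 3) hx (μ := 2) (by norm_num) (by norm_num) ?_
    set T : X →L[ℂ] X := V + (2 : ℂ) • A with hT
    have hTapp : ∀ ξ, T ξ = f ξ • x - f (A (A ξ)) • A x + (2 : ℂ) • A ξ := fun ξ => rfl
    have e1 : T x = A x := by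
      rw [hTapp, hf0, hf2, zero_smul, one_smul, two_smul]; abel
    have e2 : T (A x) = (2 : ℂ) • A (A x) := by
      rw [hTapp, hf1, hA3, map_zero, zero_smul, zero_smul]; abel
    have e3 : T (A (A x)) = x := by
      rw [hTapp, hf2, hA3, map_zero, map_zero, zero_smul, one_smul, smul_zero]; abel
    show T (T (T x)) = _
    rw [e1, e2, map_smul, e3]

theorem n1_of_two [CompleteSpace X] {A : X →L[ℂ] X} (hF : A ∈ F0 X) (hA : QN A)
    (hst : ∀ V ∈ F0 X, QN V → QN (V + A) → QN (V + (2 : ℂ) • A)) : N1 A := by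
  obtain ⟨n, hn⟩ := qn_finite_rank_nilpotent (fg_of_mem_F0 hF) hA
  by_cases h2 : A * A = 0
  · -- square zero
    have hAA : ∀ w, A (A w) = 0 := fun w => by
      have := congrArg (fun T : X →L[ℂ] X => T w) h2
      exact this
    by_cases hex : ∃ x : Fin 2 → X, LinearIndependent ℂ (fun j => A (x j))
    · exfalso
      obtain ⟨x, hx⟩ := hex
      obtain ⟨V, hVF, h1, h2, h4⟩ := gadget_two' hA x (fun j => hAA _) hx
      exact h4 (hst V hVF h1 h2)
    · push Not at hex
      by_cases hA0 : ∀ w, A w = 0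
      · refine ⟨0, 0, by simp, ?_⟩
        ext w
        rw [hA0 w]; simp
      · push Not at hA0
        obtain ⟨y, hy⟩ := hA0
        obtain ⟨g, hg⟩ := SeparatingDual.exists_eq_one (R := ℂ) hy
        refine ⟨A y, g.comp A, ?_, ?_⟩
        · show g (A (A y)) = 0
          rw [hAA, map_zero]
        · ext w
          show A w = g (A w) • A y
          have h3 := hex ![y, w]
          have h4 : (fun j => A (![y, w] j)) = ![A y, A w] := by
            ext j; fin_cases j <;> rfl
          rw [h4, LinearIndependent.pair_iff' hy] at h3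
          push Not at h3
          obtain ⟨a, ha⟩ := h3
          rw [← ha, map_smul, hg]; simp
  · exfalso
    -- the nilpotency index is at least three
    classical
    have hex : ∃ k, A ^ k = 0 := ⟨n, hn⟩
    set k := Nat.find hex with hk
    have hk0 : A ^ k = 0 := Nat.find_spec hex
    have hk3 : 3 ≤ k := by
      by_contra hlt
      push Not at hlt
      apply h2
      rw [← pow_two]
      have : A ^ 2 = A ^ (2 - k) * A ^ k := by rw [← pow_add]; congr 1; omega
      rw [this, hk0, mul_zero]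
    have hk1 : A ^ (k - 1) ≠ 0 := Nat.find_min hex (by omega)
    obtain ⟨y, hy⟩ : ∃ y, (A ^ (k - 1)) y ≠ 0 := by
      by_contra hcon
      push Not at hcon
      apply hk1
      ext w; exact hcon w
    set x := (A ^ (k - 3)) y with hx
    have e2 : A (A x) = (A ^ (k - 1)) y := by
      have : A ^ (k - 1) = A * (A * A ^ (k - 3)) := by
        rw [← pow_succ', ← pow_succ']; congr 1; omega
      rw [this]; rfl
    have e3 : A (A (A x)) = 0 := by
      rw [e2]
      have : A ^ k = A * A ^ (k - 1) := by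
        rw [← pow_succ']; congr 1; omega
      have h5 : (A * A ^ (k - 1)) y = 0 := by rw [← this, hk0]; rfl
      exact h5
    obtain ⟨V, hVF, h1, h2, h4⟩ := gadget_one' hA x e3 (by rw [e2]; exact hy)
    exact h4 (hst V hVF h1 h2)

end Pool.Agent.H.MP_bb4c62_an.helper6.NL
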