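import Pool.Agent.H.MP_bb4c62_an.helper6.NStub
import Pool.Agent.H.MP_bb4c62_an.helper28.NStd
import Pool.Agent.H.MP_bb4c62_an.helper2.NDich

/-!
The standard forms at neighbouring points agree.
-/

namespace Pool.Agent.H.MP_bb4c62_an.helper6.NL

open Complex Metric Set Filter Topology
open Pool.Agent.H.MP_bb4c62_an.helper6.Perturb
open Pool.Agent.H.MP_bb4c62_an.helper6.Gadgets

variable {X : Type*} [NormedAddCommGroup X] [NormedSpace ℂ X]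
variable {Y : Type*} [NormedAddCommGroup Y] [NormedSpace ℂ Y]

/-- standard form of rank one differences -/
structure Std {E E' : Type*} [AddCommGroup E] [Module ℂ E] [AddCommGroup E'] [Module ℂ E']
    (P : E →ₗ[ℂ] E' →ₗ[ℂ] ℂ) (B : E → E' → (Y →L[ℂ] Y)) (c : ℂ) (τ : ℂ ≃+* ℂ) (S : E ≃+ Y)
    (Q : E' → (Y →L[ℂ] ℂ)) : Prop where
  c0 : c ≠ 0
  semi : ∀ (a : ℂ) x, S (a • x) = τ a • S x
  pair : ∀ x f, Q f (S x) = τ (P x f)
  form : ∀ x f, P x f = 0 → B x f = c • ten (S x) (Q f)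

theorem Std.Qadd {E E' : Type*} [AddCommGroup E] [Module ℂ E] [AddCommGroup E'] [Module ℂ E']
    {P : E →ₗ[ℂ] E' →ₗ[ℂ] ℂ} {B : E → E' → (Y →L[ℂ] Y)} {c : ℂ} {τ : ℂ ≃+* ℂ} {S : E ≃+ Y}
    {Q : E' → (Y →L[ℂ] ℂ)} (h : Std P B c τ S Q) (f g : E') : Q (f + g) = Q f + Q g := by
  ext y
  obtain ⟨x, rfl⟩ := S.surjective y
  show Q (f + g) (S x) = Q f (S x) + Q g (S x)
  rw [h.pair, h.pair, h.pair, map_add, map_add]

theorem Std.addr {E E' : Type*} [AddCommGroup E] [Module ℂ E] [AddCommGroup E'] [Module ℂ E']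
    {P : E →ₗ[ℂ] E' →ₗ[ℂ] ℂ} {B : E → E' → (Y →L[ℂ] Y)} {c : ℂ} {τ : ℂ ≃+* ℂ} {S : E ≃+ Y}
    {Q : E' → (Y →L[ℂ] ℂ)} (h : Std P B c τ S Q) {x : E} {f g : E'} (hf : P x f = 0)
    (hg : P x g = 0) : B x (f + g) = B x f + B x g := by
  rw [h.form x f hf, h.form x g hg, h.form x (f + g) (by rw [map_add, hf, hg, add_zero]),
    h.Qadd, ten_add_right', smul_add]

theorem Std.addl {E E' : Type*} [AddCommGroup E] [Module ℂ E] [AddCommGroup E'] [Module ℂ E']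
    {P : E →ₗ[ℂ] E' →ₗ[ℂ] ℂ} {B : E → E' → (Y →L[ℂ] Y)} {c : ℂ} {τ : ℂ ≃+* ℂ} {S : E ≃+ Y}
    {Q : E' → (Y →L[ℂ] ℂ)} (h : Std P B c τ S Q) {x y : E} {f : E'} (hx : P x f = 0)
    (hy : P y f = 0) : B (x + y) f = B x f + B y f := by
  rw [h.form x f hx, h.form y f hy, h.form (x + y) f (by
    rw [map_add, LinearMap.add_apply, hx, hy, add_zero]), map_add, ten_add_right, smul_add]

/-- the rank one differences at `R` -/
noncomputable def Bat (φ : (X →L[ℂ] X) → (Y →L[ℂ] Y)) (R : X →L[ℂ] X) (x : X)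
    (f : X →L[ℂ] ℂ) : Y →L[ℂ] Y := φ (R + ten x f) - φ R

/-- the flipped differences -/
noncomputable def Bfl (φ : (X →L[ℂ] X) → (Y →L[ℂ] Y)) (R : X →L[ℂ] X) (f : X →L[ℂ] ℂ)
    (x : X) : Y →L[ℂ] Y := φ (R + ten x f) - φ R

theorem exists_std [CompleteSpace X] [CompleteSpace Y] {v : Fin 3 → X}
    (hv3 : LinearIndependent ℂ v) {φ : (X →L[ℂ] X) → (Y →L[ℂ] Y)} (hφ : IsGIso φ)
    (R : X →L[ℂ] X) :
    (∃ c τ S Q, Std (evalP X) (Bat φ R) c τ S Q) ∨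
    (∃ c τ S Q, Std (evalP X).flip (Bfl φ R) c τ S Q) := by
  have hα : IsGIso (fun K => φ (R + K) - φ R) := by
    have h1 : IsGIso (fun T : Y →L[ℂ] Y => -φ R + T) := isGIso_trans _
    have h2 : IsGIso (fun T : X →L[ℂ] X => R + T) := isGIso_trans _
    have h3 := h1.comp (hφ.comp h2)
    convert h3 using 1
    ext1 K
    show φ (R + K) - φ R = -φ R + φ (R + K)
    abel
  have D := ndata hv3 hα (by simp)
  rcases D.dichotomy with h | h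
  · left
    obtain ⟨c, τ, S, Q, hc, hS, hQ, hB⟩ := D.std h
    exact ⟨c, τ, S, Q, hc, hS, hQ, hB⟩
  · right
    obtain ⟨c, τ, S, Q, hc, hS, hQ, hB⟩ := D.flip.std h
    exact ⟨c, τ, S, Q, hc, hS, hQ, hB⟩

theorem bat_add [CompleteSpace X] [CompleteSpace Y] {v : Fin 3 → X}
    (hv3 : LinearIndependent ℂ v) {φ : (X →L[ℂ] X) → (Y →L[ℂ] Y)} (hφ : IsGIso φ)
    (R : X →L[ℂ] X) :
    (∀ (x : X) (f g : X →L[ℂ] ℂ), f x = 0 → g x = 0 →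
      Bat φ R x (f + g) = Bat φ R x f + Bat φ R x g) ∧
    (∀ (x y : X) (f : X →L[ℂ] ℂ), f x = 0 → f y = 0 →
      Bat φ R (x + y) f = Bat φ R x f + Bat φ R y f) := by
  rcases exists_std hv3 hφ R with ⟨c, τ, S, Q, h⟩ | ⟨c, τ, S, Q, h⟩
  · exact ⟨fun x f g hf hg => h.addr hf hg, fun x y f hx hy => h.addl hx hy⟩
  · exact ⟨fun x f g hf hg => h.addl (E := X →L[ℂ] ℂ) hf hg,
      fun x y f hx hy => h.addr (E' := X) hx hy⟩

theorem sep_data {v : Fin 3 → X} (hv3 : LinearIndependent ℂ v) {x0 : X} {f0 : X →L[ℂ] ℂ}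
    (hx0 : x0 ≠ 0) (hf0 : f0 ≠ 0) (h0 : f0 x0 = 0) :
    (∃ (u : X) (k : X →L[ℂ] ℂ), k u = 0 ∧ f0 u = 1 ∧ k x0 = 1) ∧
    (∃ (u : X) (h : X →L[ℂ] ℂ), f0 u = 0 ∧ h x0 = 0 ∧ h u = 1) := by
  constructor
  · obtain ⟨u, hu⟩ := exists_ap hf0
    have hu0 : u ≠ 0 := by rintro rfl; rw [map_zero] at hu; exact zero_ne_one hu
    have hn : ¬ ∃ c : ℂ, x0 = c • u := by
      rintro ⟨c, hc⟩
      rw [hc, map_smul, hu, smul_eq_mul, mul_one] at h0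
      rw [h0, zero_smul] at hc
      exact hx0 hc
    obtain ⟨k, hk1, hk2⟩ := (exists_sep' hu0 hn).1
    exact ⟨u, k, hk1, hu, hk2⟩
  · obtain ⟨η, hη⟩ := SeparatingDual.exists_eq_one (R := ℂ) hx0
    obtain ⟨u, hu0, hu1, hu2⟩ := (d3 hv3).2 f0 η
    have hn : ¬ ∃ c : ℂ, u = c • x0 := by
      rintro ⟨c, hc⟩
      have h2 : η u = 0 := hu2
      rw [hc, map_smul, hη, smul_eq_mul, mul_one] at h2
      rw [h2, zero_smul] at hc
      exact hu0 hc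
    obtain ⟨h, hh1, hh2⟩ := (exists_sep' hx0 hn).1
    exact ⟨u, h, hu1, hh1, hh2⟩

theorem two_dual {v : Fin 3 → X} (hv3 : LinearIndependent ℂ v) {x0 : X} (hx0 : x0 ≠ 0) :
    ∃ h1 h2 : X →L[ℂ] ℂ, h1 x0 = 0 ∧ h2 x0 = 0 ∧ LinearIndependent ℂ ![h1, h2] := by
  obtain ⟨h1, h1n, h1x, -⟩ := (d3 hv3).1 x0 x0
  obtain ⟨z, hz⟩ := exists_ap h1n
  obtain ⟨h2, h2n, h2x, h2z⟩ := (d3 hv3).1 x0 z
  refine ⟨h1, h2, h1x, h2x, ?_⟩
  rw [LinearIndependent.pair_iff' h1n]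
  intro a ha
  have e : (a • h1) z = h2 z := by rw [ha]
  have e2 : a * h1 z = 0 := by
    have h3 : h2 z = 0 := h2z
    rw [h3] at e; exact e
  rw [hz, mul_one] at e2
  rw [e2, dual_zero_smul] at ha
  exact h2n ha.symm

theorem two_vec {v : Fin 3 → X} (hv3 : LinearIndependent ℂ v) {f0 : X →L[ℂ] ℂ} (hf0 : f0 ≠ 0) :
    ∃ u1 u2 : X, f0 u1 = 0 ∧ f0 u2 = 0 ∧ LinearIndependent ℂ ![u1, u2] := by
  obtain ⟨u1, u1n, h1, -⟩ := (d3 hv3).2 f0 f0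
  obtain ⟨η, hη⟩ := SeparatingDual.exists_eq_one (R := ℂ) u1n
  obtain ⟨u2, u2n, h2, h2η⟩ := (d3 hv3).2 f0 η
  refine ⟨u1, u2, h1, h2, ?_⟩
  rw [LinearIndependent.pair_iff' u1n]
  intro a ha
  have h3 : η u2 = 0 := h2η
  rw [← ha, map_smul, hη, smul_eq_mul, mul_one] at h3
  rw [h3, zero_smul] at ha
  exact u2n ha.symm

theorem glue_step [CompleteSpace X] [CompleteSpace Y] {v : Fin 3 → X}
    (hv3 : LinearIndependent ℂ v) {φ : (X →L[ℂ] X) → (Y →L[ℂ] Y)} (hφ : IsGIso φ)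
    (R : X →L[ℂ] X) {x0 : X} {f0 : X →L[ℂ] ℂ} (h0 : f0 x0 = 0) (x : X) (f : X →L[ℂ] ℂ)
    (hfx : f x = 0) : Bat φ (R + ten x0 f0) x f = Bat φ R x f := by
  by_cases hD0 : ten x0 f0 = 0
  · rw [hD0, add_zero]
  obtain ⟨hx0, hf0⟩ : x0 ≠ 0 ∧ f0 ≠ 0 := by
    rw [ten_eq_zero_iff] at hD0; push Not at hD0; exact hD0
  have hL : ∀ h : X →L[ℂ] ℂ, h x0 = 0 → Bat φ (R + ten x0 f0) x0 h = Bat φ R x0 h := by
    intro h hh
    have h1 := (bat_add hv3 hφ R).1 x0 f0 h h0 hh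
    unfold Bat at h1 ⊢
    rw [ten_add_right', ← add_assoc] at h1
    have h2 : φ (R + ten x0 f0 + ten x0 h) - φ (R + ten x0 f0) =
        (φ (R + ten x0 f0 + ten x0 h) - φ R) - (φ (R + ten x0 f0) - φ R) := by abel
    rw [h2, h1, add_sub_cancel_left]
  have hR : ∀ u : X, f0 u = 0 → Bat φ (R + ten x0 f0) u f0 = Bat φ R u f0 := by
    intro u hu
    have h1 := (bat_add hv3 hφ R).2 x0 u f0 h0 hu
    unfold Bat at h1 ⊢
    rw [ten_add_right, ← add_assoc] at h1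
    have h2 : φ (R + ten x0 f0 + ten u f0) - φ (R + ten x0 f0) =
        (φ (R + ten x0 f0 + ten u f0) - φ R) - (φ (R + ten x0 f0) - φ R) := by abel
    rw [h2, h1, add_sub_cancel_left]
  have hq : ∀ (u : X) (k : X →L[ℂ] ℂ), QN (Bat φ R x0 f0 + Bat φ (R + ten x0 f0) u k -
      Bat φ R u k) := by
    intro u k
    have e : Bat φ R x0 f0 + Bat φ (R + ten x0 f0) u k - Bat φ R u k =
        φ (R + ten x0 f0 + ten u k) - φ (R + ten u k) := by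
      unfold Bat; abel
    rw [e, hφ.2]
    have e2 : R + ten x0 f0 + ten u k - (R + ten u k) = ten x0 f0 := by abel
    rw [e2]
    exact qn_of_sq (ten_sq h0)
  obtain ⟨⟨u1, k1, s1, s2, s3⟩, ⟨u2, k2, t1, t2, t3⟩⟩ := sep_data hv3 hx0 hf0 h0
  have sb : ∀ w : X, (∀ h : X →L[ℂ] ℂ, h x0 = 0 → h w = 0) → ∃ ν : ℂ, w = ν • x0 := by
    intro w hw
    by_contra hcon
    obtain ⟨η, hη, hη'⟩ := (exists_sep' hx0 hcon).1
    rw [hw η hη] at hη'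
    exact zero_ne_one hη'
  have sb' : ∀ g : X →L[ℂ] ℂ, (∀ u : X, f0 u = 0 → g u = 0) → ∃ ν : ℂ, g = ν • f0 := by
    intro g hg
    by_contra hcon
    obtain ⟨w, hw, hw'⟩ := (exists_sep hf0 hcon).1
    rw [hg w hw] at hw'
    exact zero_ne_one hw'
  have sa : ∀ g : X →L[ℂ] ℂ, g ≠ 0 → ∃ z, g z = 1 := fun g hg => exists_ap hg
  have sa' : ∀ z : X, z ≠ 0 → ∃ g : X →L[ℂ] ℂ, g z = 1 :=
    fun z hz => SeparatingDual.exists_eq_one (R := ℂ) hz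
  rcases exists_std hv3 hφ R with ⟨c, τ, S, Q, h⟩ | ⟨c, τ, S, Q, h⟩
  · rcases exists_std hv3 hφ (R + ten x0 f0) with ⟨c', τ', S', Q', h'⟩ | ⟨c', τ', S', Q', h'⟩
    · exact glue_abs (evalP X) (Bat φ R) (Bat φ (R + ten x0 f0)) c τ S Q h.c0 h.semi h.pair
        h.form c' τ' S' Q' h'.c0 h'.semi h'.pair h'.form x0 f0 hx0 hf0 h0 hL hR
        (fun u k _ => hq u k) sa sa' sb sb' ⟨u1, k1, s1, s2, s3⟩ ⟨u2, k2, t1, t2, t3⟩ x f hfx
    · exfalso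
      exact mixed_false (evalP X) (Bat φ R) (Bat φ (R + ten x0 f0)) c τ S Q h.c0 h.pair h.form
        c' τ' S' Q' h'.c0 h'.semi (fun x f hxf => h'.form f x hxf) x0 hx0 hL sa
        (two_dual hv3 hx0)
  · rcases exists_std hv3 hφ (R + ten x0 f0) with ⟨c', τ', S', Q', h'⟩ | ⟨c', τ', S', Q', h'⟩
    · exfalso
      exact mixed_false (evalP X).flip (Bfl φ R) (Bfl φ (R + ten x0 f0)) c τ S Q h.c0 h.pair
        h.form c' τ' S' Q' h'.c0 h'.semi (fun x f hxf => h'.form f x hxf) f0 hf0 hR sa'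
        (two_vec hv3 hf0)
    · exact glue_abs (evalP X).flip (Bfl φ R) (Bfl φ (R + ten x0 f0)) c τ S Q h.c0 h.semi h.pair
        h.form c' τ' S' Q' h'.c0 h'.semi h'.pair h'.form f0 x0 hf0 hx0 h0 hR hL
        (fun u k _ => hq k u) sa' sa sb' sb ⟨k1, u1, s1, s3, s2⟩ ⟨k2, u2, t2, t1, t3⟩ f x hfx

end Pool.Agent.H.MP_bb4c62_an.helper6.NL
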