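import Pool.Agent.H.MP_bb4c62_an.helper6.NRigid3
import Pool.Agent.H.MP_bb4c62_an.helper6.NData

/-!
The data attached to a normalized isomorphism.
-/

namespace Pool.Agent.H.MP_bb4c62_an.helper6.NL

open Complex Metric Set Filter Topology
open Pool.Agent.H.MP_bb4c62_an.helper6.Perturb
open Pool.Agent.H.MP_bb4c62_an.helper6.Gadgets

variable {X : Type*} [NormedAddCommGroup X] [NormedSpace ℂ X]
variable {Y : Type*} [NormedAddCommGroup Y] [NormedSpace ℂ Y]

theorem mem_span_dual {f f' h : X →L[ℂ] ℂ} (hh : ∀ x, f x = 0 → f' x = 0 → h x = 0) :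
    ∃ a b : ℂ, h = a • f + b • f' := by
  have h1 := mem_span_of_iInf_ker_le_ker (𝕜 := ℂ)
    (L := ![(f : X →ₗ[ℂ] ℂ), (f' : X →ₗ[ℂ] ℂ)]) (K := (h : X →ₗ[ℂ] ℂ)) (by
      intro x hx
      rw [Submodule.mem_iInf] at hx
      exact hh x (hx 0) (hx 1))
  have hr : Set.range ![(f : X →ₗ[ℂ] ℂ), (f' : X →ₗ[ℂ] ℂ)] =
      {(f : X →ₗ[ℂ] ℂ), (f' : X →ₗ[ℂ] ℂ)} := by
    simp only [Matrix.range_cons, Matrix.range_empty, Set.union_empty, Set.singleton_union]
  rw [hr] at h1
  obtain ⟨a, b, hab⟩ := Submodule.mem_span_pair.mp h1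
  refine ⟨a, b, ?_⟩
  ext x
  have := congrArg (fun l : X →ₗ[ℂ] ℂ => l x) hab
  exact this.symm

theorem ndata [CompleteSpace X] [CompleteSpace Y] {v : Fin 3 → X}
    (hv3 : LinearIndependent ℂ v) {α : (X →L[ℂ] X) → (Y →L[ℂ] Y)} (hα : IsGIso α)
    (h0 : α 0 = 0) : NData (evalP X) (fun x f => α (ten x f)) where
  n1 := fun x f h => by
    have := (n1_iff hv3 hα (ten x f) 0).mpr (by rw [sub_zero]; exact ⟨x, f, h, rfl⟩)
    rwa [h0, sub_zero] at this
  ne := fun x f h hx hf h1 => by
    rw [← h0] at h1
    have h2 := hα.1.1 h1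
    rcases ten_eq_zero_iff.mp h2 with h3 | h3
    · exact hx h3
    · exact hf h3
  zl := fun f => by
    show α (ten 0 f) = 0
    rw [ten_zero_left, h0]
  zr := fun x => by
    show α (ten x 0) = 0
    rw [ten_zero_right, h0]
  scal := fun x f c h => by
    show α (ten (c • x) f) = α (ten x (c • f))
    rw [ten_smul_left, ten_smul_right]
  dl := fun x f f' h h' => by
    rw [n1_iff hv3 hα]
    refine ⟨x, f - f', ?_, ?_⟩
    · show f x - f' x = 0
      rw [show f x = 0 from h, show f' x = 0 from h', sub_zero]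
    · ext u
      show f u • x - f' u • x = (f u - f' u) • x
      rw [sub_smul]
  dr := fun x x' f h h' => by
    rw [n1_iff hv3 hα]
    refine ⟨x - x', f, ?_, ?_⟩
    · rw [map_sub, show f x = 0 from h, show f x' = 0 from h', sub_zero]
    · ext u
      show f u • x - f u • x' = f u • (x - x')
      rw [smul_sub]
  r2 := fun x x' f f' h h' hx hxx hf hff hn => by
    rw [n1_iff hv3 hα] at hn
    obtain ⟨z, k, -, hz⟩ := hn
    have e : ten x f + ten (-x') f' = ten z k := by
      rw [← hz]
      ext u
      show f u • x + f' u • -x' = f u • x - f' u • x'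
      rw [smul_neg, sub_eq_add_neg]
    rcases rank_sum hx hf e with ⟨c, hc⟩ | h2
    · exact hxx ⟨-c, by rw [neg_smul, ← hc, neg_neg]⟩
    · exact hff h2
  inj := fun x x' f f' h h' hx hf he => by
    have h1 : ten x f = ten x' f' := hα.1.1 he
    constructor
    · by_contra hcon
      obtain ⟨⟨η, hη, hη'⟩, -⟩ := exists_sep' hx (y2 := x') hcon
      obtain ⟨u, hu⟩ := exists_ap hf
      have e1 : ∀ w, f w • x = f' w • x' := fun w => by
        have := congrArg (fun T : X →L[ℂ] X => T w) h1
        exact this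
      have e2 := e1 u
      rw [hu, one_smul] at e2
      have e3 : η x = f' u * η x' := by
        conv_lhs => rw [e2]
        rw [map_smul]; rfl
      rw [hη, hη', mul_one] at e3
      rw [← e3, zero_smul] at e2
      exact hx e2
    · obtain ⟨η, hη⟩ := SeparatingDual.exists_eq_one (R := ℂ) hx
      have e1 : ∀ w, f w = f' w * η x' := fun w => by
        have := congrArg (fun T : X →L[ℂ] X => η (T w)) h1
        have h3 : η (f w • x) = η (f' w • x') := this
        rw [map_smul, map_smul, hη, smul_eq_mul, smul_eq_mul, mul_one] at h3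
        exact h3
      have hne : η x' ≠ 0 := by
        intro h3
        apply hf
        ext w
        rw [e1 w, h3, mul_zero]; rfl
      refine ⟨(η x')⁻¹, ?_⟩
      ext w
      show f' w = (η x')⁻¹ * f w
      rw [e1 w]
      field_simp
  surj := fun A hA => by
    obtain ⟨T, rfl⟩ := hα.1.2 A
    have h1 : N1 (α T - α 0) := by rwa [h0, sub_zero]
    rw [n1_iff hv3 hα, sub_zero] at h1
    obtain ⟨x, f, h, rfl⟩ := h1
    exact ⟨x, f, h, rfl⟩
  linel := fun x f h hf hh hx hh0 => by
    have hli := line_image hv3 hα (x := x) (f := h) hh hx hh0 (ten x f)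
    refine ⟨α (ten x f + ten x h) - α (ten x f), ?_, ?_⟩
    · intro h1
      have h2 := hα.1.1 (sub_eq_zero.mp h1)
      have h3 : ten x h = 0 := by simpa using h2
      rcases ten_eq_zero_iff.mp h3 with h4 | h4
      · exact hx h4
      · exact hh0 h4
    · have e1 : (fun t : ℂ => α (ten x (f + t • h))) = fun t : ℂ => α (ten x f + t • ten x h) := by
        ext1 t
        rw [ten_add_right', ten_smul_right]
      show Set.range (fun t : ℂ => α (ten x (f + t • h))) = _
      rw [e1]
      have e2 : Set.range (fun t : ℂ => α (ten x f + t • ten x h)) =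
          α '' rline (ten x f) (ten x h) := by
        rw [rline, ← Set.range_comp]; rfl
      rw [e2, hli]; rfl
  liner := fun x w f hx hw hw0 hf0 => by
    have hli := line_image hv3 hα (x := w) (f := f) hw hw0 hf0 (ten x f)
    refine ⟨α (ten x f + ten w f) - α (ten x f), ?_, ?_⟩
    · intro h1
      have h2 := hα.1.1 (sub_eq_zero.mp h1)
      have h3 : ten w f = 0 := by simpa using h2
      rcases ten_eq_zero_iff.mp h3 with h4 | h4
      · exact hw0 h4
      · exact hf0 h4
    · have e1 : (fun t : ℂ => α (ten (x + t • w) f)) = fun t : ℂ => α (ten x f + t • ten w f) := by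
        ext1 t
        rw [ten_add_right, ten_smul_left]
      show Set.range (fun t : ℂ => α (ten (x + t • w) f)) = _
      rw [e1]
      have e2 : Set.range (fun t : ℂ => α (ten x f + t • ten w f)) =
          α '' rline (ten x f) (ten w f) := by
        rw [rline, ← Set.range_comp]; rfl
      rw [e2, hli]; rfl
  sepE := fun x x' z h => by
    by_contra hcon
    obtain ⟨k, hk, hk'⟩ := exists_sep_sub (Submodule.fg_span (Set.toFinite _)) hcon
    have := h k (hk x (Submodule.subset_span (by simp))) (hk x' (Submodule.subset_span (by simp)))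
    rw [evalP_apply, hk'] at this
    exact one_ne_zero this
  sepE' := fun f f' k h => by
    obtain ⟨a, b, hab⟩ := mem_span_dual h
    rw [hab]
    exact Submodule.mem_span_pair.mpr ⟨a, b, rfl⟩
  d3 := (d3 hv3).1
  d3' := (d3 hv3).2
  dim := ⟨v, hv3⟩
  dim' := by
    obtain ⟨f, hf⟩ := exists_dual_family hv3
    refine ⟨f, ?_⟩
    rw [Fintype.linearIndependent_iff]
    intro t ht
    by_contra hcon
    push Not at hcon
    obtain ⟨i, hi⟩ := hcon
    exact exists_comb_dual hf (t := t) (fun h => hi (by rw [h]; rfl)) ht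

end Pool.Agent.H.MP_bb4c62_an.helper6.NL
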