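import Pool.Agent.H.MP_bb4c62_an.helper6.NLine4

/-!
The form of the elements of the image of an affine line.
-/

namespace Pool.Agent.H.MP_bb4c62_an.helper6.NL

open Complex Metric Set Filter Topology
open Pool.Agent.H.MP_bb4c62_an.helper6.Perturb
open Pool.Agent.H.MP_bb4c62_an.helper6.Gadgets

variable {X : Type*} [NormedAddCommGroup X] [NormedSpace ℂ X]

theorem mem_span_pair_of_tests {V : X →L[ℂ] X} {x : X} {y : X}
    (h : ∀ (k : X →L[ℂ] ℂ), k x = 0 → k y = 0 → k (V y) = 0) :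
    V y ∈ Submodule.span ℂ ({x, y} : Set X) := by
  by_contra hcon
  obtain ⟨k, hk, hk'⟩ := exists_sep_sub (Submodule.fg_span (Set.toFinite _)) hcon
  rw [h k (hk x (Submodule.subset_span (by simp)))
    (hk y (Submodule.subset_span (by simp)))] at hk'
  exact zero_ne_one hk'

/-- a quasinilpotent operator `x ⊗ θ + q ⊗ f` with `f x = 0` -/
theorem form_eigen [CompleteSpace X] {x q : X} {f θ : X →L[ℂ] ℂ} (hx : x ≠ 0) (hf : f ≠ 0)
    (hfx : f x = 0) (hV : QN (ten x θ + ten q f)) : θ x = 0 ∧ f q = 0 := by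
  constructor
  · by_contra h
    refine not_qn_of_eigen hx h ?_ hV
    show θ x • x + f x • q = θ x • x
    rw [hfx, zero_smul, add_zero]
  · by_contra h
    obtain ⟨z, hz⟩ := exists_ap hf
    -- the adjoint has the eigenvector f
    have hadj := qn_adj hV
    refine not_qn_of_eigen hf h ?_ hadj
    ext v
    show f (θ v • x + f v • q) = f q * f v
    rw [map_add, map_smul, map_smul, hfx, smul_zero, zero_add, smul_eq_mul, mul_comm]

theorem rho_form [CompleteSpace X] (hX : ¬ Module.Finite ℂ X) {v : Fin 3 → X}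
    (hv3 : LinearIndependent ℂ v) {ρ : (X →L[ℂ] X) → (X →L[ℂ] X)} (hρ : IsGIso ρ)
    {x : X} {f : X →L[ℂ] ℂ} (hx : x ≠ 0) (hf : f ≠ 0) (hfx : f x = 0)
    (h0 : ρ 0 = ten x f) (h1 : ρ (ten x f) = 0) {V : X →L[ℂ] X}
    (hV : V ∈ ρ '' rline 0 (ten x f)) :
    ∃ (θ : X →L[ℂ] ℂ) (q : X), V = ten x θ + ten q f ∧ θ x = 0 ∧ f q = 0 := by
  set m := ρ '' rline 0 (ten x f) with hm
  have hline : IsLine m := IsLine.image hρ (isLine_rline hv3 hx hf hfx 0)
  have h0m : (0 : X →L[ℂ] X) ∈ m := ⟨ten x f, ⟨1, by simp⟩, h1⟩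
  have hAm : ten x f ∈ m := ⟨0, ⟨0, by simp⟩, h0⟩
  obtain ⟨ψ, hψ, hψρ, hρψ⟩ := hρ.exists_inv
  -- every line through 0 and A is adjacent to m
  have hadj : ∀ ℓ : Set (X →L[ℂ] X), IsLine ℓ → (0 : X →L[ℂ] X) ∈ ℓ → ten x f ∈ ℓ →
      ∀ w ∈ ℓ, ∀ u ∈ m, QN (w - u) := by
    rintro ℓ hℓ hl0 hlA w hw u ⟨T, ⟨z, rfl⟩, rfl⟩
    have hℓ' : IsLine (ψ '' ℓ) := IsLine.image hψ hℓ
    have e0 : ψ 0 = ten x f := by rw [← h1, hψρ]
    have eA : ψ (ten x f) = 0 := by rw [← h0, hψρ]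
    have a1 : (0 : X →L[ℂ] X) ∈ ψ '' ℓ := ⟨ten x f, hlA, eA⟩
    have a2 : ten x f ∈ ψ '' ℓ := ⟨0, hl0, e0⟩
    have := line_through hX hℓ' hx hf hfx a1 a2 (w := ψ w) ⟨w, hw, rfl⟩ z
    rw [← hρψ w, hρ.2]
    simpa using this
  have hQ : QN V := by simpa using hline.clique V hV 0 h0m
  -- conjugates
  have hk : ∀ (y : X) (k : X →L[ℂ] ℂ), f y = 0 → k x = 0 → k y = 0 → k (V y) = 0 := by
    intro y k hfy hkx hky
    by_cases hy : y = 0
    · rw [hy, map_zero, map_zero]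
    set L : X →L[ℂ] X := ten y k with hL
    have hLL : L * L = 0 := ten_sq hky
    obtain ⟨r1, r2, r3⟩ := conj_sq (w := V) hLL
    have hΦ := isGIso_conj r1 r2
    have hℓ : IsLine ((fun T => (1 + L) * T * (1 - L)) '' m) := IsLine.image hΦ hline
    have l0 : (0 : X →L[ℂ] X) ∈ (fun T => (1 + L) * T * (1 - L)) '' m := ⟨0, h0m, by simp⟩
    have lA : ten x f ∈ (fun T => (1 + L) * T * (1 - L)) '' m := by
      refine ⟨ten x f, hAm, ?_⟩
      have e1 : L * ten x f = 0 := by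
        rw [hL, mul_ten, ten_apply, hkx, zero_smul]
        ext v; simp
      have e2 : ten x f * L = 0 := by
        rw [hL, mul_ten, ten_apply, hfy, zero_smul]
        ext v; simp
      show (1 + L) * ten x f * (1 - L) = ten x f
      rw [add_mul, one_mul, e1, add_zero, mul_sub, mul_one, e2, sub_zero]
    have hq := hadj _ hℓ l0 lA _ ⟨V, hV, rfl⟩ V hV
    have hq' : QN ((1 + L) * V * (1 - L) - V) := hq
    by_contra hne
    refine not_qn_of_eigen hy hne ?_ hq'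
    rw [r3]
    show V y + (L (V y) - V (L y)) - L (V (L y)) - V y = _
    have hLy : L y = 0 := by rw [hL, ten_apply, hky, zero_smul]
    rw [hLy, map_zero, map_zero, hL, ten_apply]
    abel
  obtain ⟨c, θ, q, hVf⟩ := form_of_scalar_mod hx hf (big_ker hX f)
    (fun y hy => mem_span_pair_of_tests fun k => hk y k hy)
  have hF : ten x θ + ten q f ∈ FRk X := (FRk X).add_mem (ten_mem_FRk _ _) (ten_mem_FRk _ _)
  have hc : c = 0 := by
    refine nf_lemma (w := 0) (β := 0) hX qn_zero hQ hF ?_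
    rw [hVf, smul_zero, add_zero, add_assoc]
  rw [hc, zero_smul, zero_add] at hVf
  rw [hVf] at hQ
  obtain ⟨t1, t2⟩ := form_eigen hx hf hfx hQ
  exact ⟨θ, q, hVf, t1, t2⟩

end Pool.Agent.H.MP_bb4c62_an.helper6.NL
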