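import Pool.Agent.H.MP_bb4c62_an.helper6.NK1
import Pool.Agent.H.MP_bb4c62_an.helper6.NPlane

/-!
Normal forms and automorphisms for the second kind of elements.
-/

namespace Pool.Agent.H.MP_bb4c62_an.helper6.NL

open Complex Metric Set Filter Topology
open Pool.Agent.H.MP_bb4c62_an.helper6.Perturb
open Pool.Agent.H.MP_bb4c62_an.helper6.Gadgets

variable {X : Type*} [NormedAddCommGroup X] [NormedSpace ℂ X]

theorem ten_zero_left (f : X →L[ℂ] ℂ) : ten (0 : X) f = 0 := by ext v; simp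

theorem ten_zero_right (x : X) : ten x (0 : X →L[ℂ] ℂ) = 0 := by ext v; simp

theorem conj_ten (S R : X →L[ℂ] X) (x : X) (f : X →L[ℂ] ℂ) :
    S * ten x f * R = ten (S x) (f.comp R) := by
  rw [mul_ten, ten_mul]

theorem conj_lin (S R T1 T2 T3 : X →L[ℂ] X) (a e : ℂ) :
    S * (a • (T1 + T2) + e • T3) * R = a • (S * T1 * R + S * T2 * R) + e • (S * T3 * R) := by
  rw [mul_add, add_mul, mul_smul_comm, mul_smul_comm, smul_mul_assoc, smul_mul_assoc, mul_add,
    add_mul]

theorem normal_form {x q : X} {f θ : X →L[ℂ] ℂ} (hx : x ≠ 0) (hf : f ≠ 0) (hfx : f x = 0)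
    (hθx : θ x = 0) (hfq : f q = 0) {V : X →L[ℂ] X} (hV : V = ten x θ + ten q f)
    (hne : ∀ z : ℂ, V ≠ z • ten x f) :
    ∃ (θ' : X →L[ℂ] ℂ) (q' : X), V = ten x θ' + ten q' f ∧ θ' x = 0 ∧ f q' = 0 ∧
      (θ' = 0 ∨ ∀ c : ℂ, θ' ≠ c • f) ∧ (q' = 0 ∨ ∀ c : ℂ, q' ≠ c • x) ∧
      ¬ (θ' = 0 ∧ q' = 0) := by
  by_cases h1 : ∃ c : ℂ, θ = c • f
  · obtain ⟨c, hc⟩ := h1
    have hV' : V = ten x 0 + ten (q + c • x) f := by
      rw [hV, hc, ten_smul_right, ten_add_right, ten_smul_left, ten_zero_right, zero_add, add_comm]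
    refine ⟨0, q + c • x, hV', by simp, by rw [map_add, map_smul, hfq, hfx]; simp,
      Or.inl rfl, Or.inr ?_, ?_⟩
    · intro c' h
      apply hne c'
      rw [hV', h, ten_smul_left, ten_zero_right, zero_add]
    · rintro ⟨-, h⟩
      apply hne 0
      rw [hV', h, ten_zero_right, ten_zero_left, zero_smul, add_zero]
  · have h1' : ∀ c : ℂ, θ ≠ c • f := fun c hc => h1 ⟨c, hc⟩
    by_cases h2 : ∃ c : ℂ, q = c • x
    · obtain ⟨c, hc⟩ := h2
      have hV' : V = ten x (θ + c • f) + ten 0 f := by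
        rw [hV, hc, ten_add_right', ten_smul_right, ten_smul_left, ten_zero_left, add_zero]
      refine ⟨θ + c • f, 0, hV', ?_, map_zero f, Or.inr ?_, Or.inl rfl, ?_⟩
      · show θ x + c * f x = 0
        rw [hθx, hfx]; simp
      · intro c' h
        apply h1' (c' - c)
        ext v
        have := congrArg (fun g : X →L[ℂ] ℂ => g v) h
        have h3 : θ v + c * f v = c' * f v := this
        show θ v = (c' - c) * f v
        linear_combination h3
      · rintro ⟨h, -⟩
        apply h1' (-c)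
        ext v
        have := congrArg (fun g : X →L[ℂ] ℂ => g v) h
        have h3 : θ v + c * f v = 0 := this
        show θ v = (-c) * f v
        linear_combination h3
    · refine ⟨θ, q, hV, hθx, hfq, Or.inr h1', Or.inr fun c hc => h2 ⟨c, hc⟩, ?_⟩
      rintro ⟨h, -⟩
      apply h1' 0
      rw [h, dual_zero_smul]

/-- two dimensional diagonal operators -/
theorem diag_mul {x z : X} {g f : X →L[ℂ] ℂ} (hgx : g x = 1) (hgz : g z = 0) (hfx : f x = 0)
    (hfz : f z = 1) {l l' : ℂ} (h : l * l' = 1) :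
    (1 + (l - 1) • ten x g + (l' - 1) • ten z f) *
      (1 + (l' - 1) • ten x g + (l - 1) • ten z f) = 1 := by
  ext v
  show (v + (l' - 1) • g v • x + (l - 1) • f v • z) +
    (l - 1) • g (v + (l' - 1) • g v • x + (l - 1) • f v • z) • x +
    (l' - 1) • f (v + (l' - 1) • g v • x + (l - 1) • f v • z) • z = v
  have e1 : g (v + (l' - 1) • g v • x + (l - 1) • f v • z) = l' * g v := by
    simp only [map_add, map_smul, hgx, hgz, smul_eq_mul]; ring
  have e2 : f (v + (l' - 1) • g v • x + (l - 1) • f v • z) = l * f v := by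
    simp only [map_add, map_smul, hfx, hfz, smul_eq_mul]; ring
  rw [e1, e2]
  have e3 : (v + (l' - 1) • g v • x + (l - 1) • f v • z) + (l - 1) • (l' * g v) • x +
      (l' - 1) • (l * f v) • z = v + ((l' - 1) * g v + (l - 1) * (l' * g v)) • x +
      ((l - 1) * f v + (l' - 1) * (l * f v)) • z := by module
  rw [e3]
  have e4 : (l' - 1) * g v + (l - 1) * (l' * g v) = 0 := by linear_combination (g v) * h
  have e5 : (l - 1) * f v + (l' - 1) * (l * f v) = 0 := by linear_combination (f v) * h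
  rw [e4, e5]; simp

theorem autos_scale {x q : X} {f θ : X →L[ℂ] ℂ} (hx : x ≠ 0) (hf : f ≠ 0) (hfx : f x = 0)
    (hθx : θ x = 0) (hfq : f q = 0) (hθ : θ = 0 ∨ ∀ c : ℂ, θ ≠ c • f)
    (hq : q = 0 ∨ ∀ c : ℂ, q ≠ c • x) {l : ℂ} (hl : l ≠ 0) :
    ∃ Φ : (X →L[ℂ] X) → (X →L[ℂ] X), IsGIso Φ ∧ ∀ a e : ℂ,
      Φ (a • (ten x θ + ten q f) + e • ten x f) =
        a • (ten x θ + ten q f) + (l * e) • ten x f := by
  obtain ⟨z, hfz, hθz⟩ : ∃ z, f z = 1 ∧ θ z = 0 := by
    rcases hθ with h | h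
    · obtain ⟨z, hz⟩ := exists_ap hf
      exact ⟨z, hz, by rw [h]; rfl⟩
    · exact (exists_sep hf (by rintro ⟨c, hc⟩; exact h c hc)).2
  have hxM : x ∉ Submodule.span ℂ ({q, z} : Set X) := by
    intro hm
    obtain ⟨a, b, hab⟩ := Submodule.mem_span_pair.mp hm
    have h1 : f (a • q + b • z) = 0 := by rw [hab, hfx]
    rw [map_add, map_smul, map_smul, hfq, hfz] at h1
    have hb : b = 0 := by simpa using h1
    rw [hb, zero_smul, add_zero] at hab
    have ha : a ≠ 0 := by
      rintro rfl; rw [zero_smul] at hab; exact hx hab.symm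
    rcases hq with h | h
    · rw [h, smul_zero] at hab; exact hx hab.symm
    · apply h a⁻¹
      rw [← hab, smul_smul, inv_mul_cancel₀ ha, one_smul]
  obtain ⟨g, hg0, hgx⟩ := exists_sep_sub (Submodule.fg_span (Set.toFinite _)) hxM
  have hgq : g q = 0 := hg0 q (Submodule.subset_span (by simp))
  have hgz : g z = 0 := hg0 z (Submodule.subset_span (by simp))
  have s1 := diag_mul hgx hgz hfx hfz (l := l) (l' := l⁻¹) (mul_inv_cancel₀ hl)
  have s2 := diag_mul hgx hgz hfx hfz (l := l⁻¹) (l' := l) (inv_mul_cancel₀ hl)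
  set S : X →L[ℂ] X := 1 + (l - 1) • ten x g + (l⁻¹ - 1) • ten z f with hS
  set R : X →L[ℂ] X := 1 + (l⁻¹ - 1) • ten x g + (l - 1) • ten z f with hR
  refine ⟨_, isGIso_aff s1 s2 (c := l⁻¹) (inv_ne_zero hl) 0, ?_⟩
  have hSa : ∀ v, S v = v + (l - 1) • g v • x + (l⁻¹ - 1) • f v • z := fun v => rfl
  have hRa : ∀ v, R v = v + (l⁻¹ - 1) • g v • x + (l - 1) • f v • z := fun v => rfl
  have hSx : S x = l • x := by rw [hSa, hgx, hfx]; module
  have hSq : S q = q := by rw [hSa, hgq, hfq]; module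
  have hfR : f.comp R = l • f := by
    ext v
    show f (R v) = l * f v
    rw [hRa]
    simp only [map_add, map_smul, hfx, hfz, smul_eq_mul]; ring
  have hθR : θ.comp R = θ := by
    ext v
    show θ (R v) = θ v
    rw [hRa]
    simp only [map_add, map_smul, hθx, hθz, smul_eq_mul]; ring
  intro a e
  show 0 + l⁻¹ • (S * (a • (ten x θ + ten q f) + e • ten x f) * R) = _
  rw [conj_lin, conj_ten, conj_ten, conj_ten, hSx, hSq, hfR, hθR, ten_smul_left, ten_smul_right,
    ten_smul_left, ten_smul_right, zero_add]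
  have e2 : l⁻¹ • (a • (l • ten x θ + l • ten q f) + e • l • l • ten x f) =
      (l⁻¹ * l) • (a • (ten x θ + ten q f)) + (l⁻¹ * l) • ((l * e) • ten x f) := by
    module
  rw [e2, inv_mul_cancel₀ hl, one_smul, one_smul]

theorem autos_shear {x q : X} {f θ : X →L[ℂ] ℂ} (hx : x ≠ 0) (hf : f ≠ 0) (hfx : f x = 0)
    (hθx : θ x = 0) (hfq : f q = 0) (hθ : θ = 0 ∨ ∀ c : ℂ, θ ≠ c • f)
    (hq : q = 0 ∨ ∀ c : ℂ, q ≠ c • x) (hne : ¬ (θ = 0 ∧ q = 0)) (β : ℂ) :
    ∃ Φ : (X →L[ℂ] X) → (X →L[ℂ] X), IsGIso Φ ∧ ∀ a e : ℂ,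
      Φ (a • (ten x θ + ten q f) + e • ten x f) =
        a • (ten x θ + ten q f) + (e + β * a) • ten x f := by
  have gen : ∀ (y : X) (k : X →L[ℂ] ℂ), k y = 0 →
      (∀ T : X →L[ℂ] X, T = ten x θ + ten q f →
        (1 + ten y k) * T * (1 - ten y k) = T + β • ten x f) →
      ((1 + ten y k) * ten x f * (1 - ten y k) = ten x f) →
      ∃ Φ : (X →L[ℂ] X) → (X →L[ℂ] X), IsGIso Φ ∧ ∀ a e : ℂ,
      Φ (a • (ten x θ + ten q f) + e • ten x f) =
        a • (ten x θ + ten q f) + (e + β * a) • ten x f := by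
    intro y k hky h1 h2
    obtain ⟨r1, r2, -⟩ := conj_sq (w := (0 : X →L[ℂ] X)) (ten_sq hky)
    refine ⟨_, isGIso_conj r1 r2, ?_⟩
    intro a e
    show (1 + ten y k) * (a • (ten x θ + ten q f) + e • ten x f) * (1 - ten y k) = _
    rw [mul_add, add_mul, mul_smul_comm, mul_smul_comm, smul_mul_assoc, smul_mul_assoc,
      h1 _ rfl, h2]
    module
  rcases hθ with h | h
  · -- q is not a multiple of x
    have hq' : ∀ c : ℂ, q ≠ c • x := by
      rcases hq with h' | h'
      · exact absurd ⟨h, h'⟩ hne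
      · exact h'
    obtain ⟨g, hgx, hgq⟩ := (exists_sep' hx (by rintro ⟨c, hc⟩; exact hq' c hc)).1
    refine gen (β • x) g (by rw [map_smul, hgx, smul_zero]) ?_ ?_
    · rintro T rfl
      rw [h, ten_zero_right, zero_add, conj_ten]
      ext v
      show f (v - g v • β • x) • (q + g q • β • x) = f v • q + β • f v • x
      rw [hgq, map_sub, map_smul, map_smul, hfx]
      simp only [smul_zero, sub_zero, one_smul]
      module
    · rw [conj_ten]
      ext v
      show f (v - g v • β • x) • (x + g x • β • x) = f v • x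
      rw [hgx, map_sub, map_smul, map_smul, hfx]
      simp
  · obtain ⟨z, hfz, hθz⟩ := (exists_sep hf (by rintro ⟨c, hc⟩; exact h c hc)).1
    refine gen (-β • z) f (by rw [map_smul, hfz, smul_zero]) ?_ ?_
    · rintro T rfl
      rw [mul_add, add_mul, conj_ten, conj_ten]
      ext v
      show θ (v - f v • -β • z) • (x + f x • -β • z) + f (v - f v • -β • z) • (q + f q • -β • z)
        = θ v • x + f v • q + β • f v • x
      rw [hfx, hfq, map_sub, map_smul, map_smul, hθz, map_sub, map_smul, map_smul, hfz]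
      simp only [smul_zero, sub_zero, zero_smul, add_zero, smul_eq_mul, mul_one]
      module
    · rw [conj_ten]
      ext v
      show f (v - f v • -β • z) • (x + f x • -β • z) = f v • x
      rw [hfx, map_sub, map_smul, map_smul, hfz]
      simp

end Pool.Agent.H.MP_bb4c62_an.helper6.NL
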