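import Pool.Agent.H.MP_bb4c62_an.helper6.NK2

/-!
Automorphisms exchanging two points with rank one difference fix the affine line.
-/

namespace Pool.Agent.H.MP_bb4c62_an.helper6.NL

open Complex Metric Set Filter Topology
open Pool.Agent.H.MP_bb4c62_an.helper6.Perturb
open Pool.Agent.H.MP_bb4c62_an.helper6.Gadgets

variable {X : Type*} [NormedAddCommGroup X] [NormedSpace ℂ X]

/-- the elements of a line through `0`, `x ⊗ f` and `V` are controlled by `V` -/
theorem line_tests [CompleteSpace X] {m : Set (X →L[ℂ] X)} (hline : IsLine m)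
    {x q : X} {f θ : X →L[ℂ] ℂ} (hx : x ≠ 0) (hf : f ≠ 0) (hfx : f x = 0) (hθx : θ x = 0)
    (hfq : f q = 0) (h0m : (0 : X →L[ℂ] X) ∈ m) (hAm : ten x f ∈ m)
    (hVm : ten x θ + ten q f ∈ m) (hVA : ten x f ≠ ten x θ + ten q f)
    (hV0 : ten x θ + ten q f ≠ 0) {V' : X →L[ℂ] X} (hV' : V' ∈ m)
    (y : X) (k : X →L[ℂ] ℂ) (hky : k y = 0) (h : k x * f y = 0)
    (hkV : θ y * k x + f y * k q = 0) : k (V' y) = 0 := by
  have hQ : QN (ten x θ + ten q f) := by simpa using hline.clique _ hVm 0 h0m
  have hQ' : QN V' := by simpa using hline.clique _ hV' 0 h0m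
  have hA0 : ten x f ≠ 0 := by
    rw [Ne, ten_eq_zero_iff]; push Not; exact ⟨hx, hf⟩
  set V : X →L[ℂ] X := ten x θ + ten q f with hV
  have hVa : ∀ v, V v = θ v • x + f v • q := fun v => rfl
  have key : ∀ n : ℕ, k ((V ^ n) y) = 0 := by
    intro n
    match n with
    | 0 => simpa using hky
    | 1 =>
      rw [pow_one, hVa, map_add, map_smul, map_smul]; exact hkV
    | 2 =>
      have : (V ^ 2) y = V (V y) := by rw [pow_two]; rfl
      rw [this, hVa y, map_add, map_smul, map_smul, hVa x, hVa q, hθx, hfx, hfq]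
      simp only [zero_smul, add_zero, smul_zero, zero_add, map_smul, smul_eq_mul]
      linear_combination (θ q) * h
    | (n + 3) =>
      have h3 : V ^ 3 = 0 := by
        ext v
        have : (V ^ 3) v = V (V (V v)) := by
          rw [show (3 : ℕ) = 1 + 1 + 1 from rfl]
          simp only [pow_succ, pow_zero, one_mul]
          rfl
        rw [this, hVa v, map_add, map_smul, map_smul, hVa x, hVa q, hθx, hfx, hfq]
        simp only [zero_smul, add_zero, smul_zero, zero_add, map_smul]
        rw [hVa x, hθx, hfx]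
        simp
      rw [pow_add, h3, mul_zero]
      exact map_zero k
  have hall : ∀ t : ℂ, QN (V' + t • ten y k) := by
    intro t
    have t1 : QN (-t • ten y k - 0) := by
      rw [sub_zero]; exact qn_smul (qn_of_sq (ten_sq hky)) _
    have t2 : QN (-t • ten y k - ten x f) := by
      have := qn_test hfx hky (by
        rcases mul_eq_zero.mp h with h | h
        · exact Or.inr h
        · exact Or.inl h) (-t) 1
      rwa [one_smul] at this
    have t3 : QN (-t • ten y k - V) := by
      rw [qn_sub_comm]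
      have := qn_add_smul_ten_of_orth hQ key t
      have e : V - -t • ten y k = V + t • ten y k := by module
      rwa [e]
    have := hline.gen _ 0 (ten x f) V h0m hAm hVm hA0.symm hV0.symm hVA t1 t2 t3 V' hV'
    rw [qn_sub_comm] at this
    have e : V' - -t • ten y k = V' + t • ten y k := by module
    rwa [e] at this
  have := pencil_one hQ' hall 1
  rwa [pow_one] at this

theorem line_span [CompleteSpace X] {m : Set (X →L[ℂ] X)} (hline : IsLine m)
    {x q : X} {f θ : X →L[ℂ] ℂ} (hx : x ≠ 0) (hf : f ≠ 0) (hfx : f x = 0) (hθx : θ x = 0)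
    (hfq : f q = 0) (hθ : θ = 0 ∨ ∀ c : ℂ, θ ≠ c • f)
    (h0m : (0 : X →L[ℂ] X) ∈ m) (hAm : ten x f ∈ m)
    (hVm : ten x θ + ten q f ∈ m) (hVA : ten x f ≠ ten x θ + ten q f)
    (hV0 : ten x θ + ten q f ≠ 0) {q' : X} {θ' : X →L[ℂ] ℂ}
    (hV' : ten x θ' + ten q' f ∈ m) (hθ'x : θ' x = 0) (hfq' : f q' = 0) :
    ∃ a a' e : ℂ, ten x θ' + ten q' f = a • ten x θ + a' • ten q f + e • ten x f := by
  have T := fun y k => line_tests hline hx hf hfx hθx hfq h0m hAm hVm hVA hV0 hV' y k
  have Ta : ∀ (y : X) (k : X →L[ℂ] ℂ),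
      k ((ten x θ' + ten q' f) y) = θ' y * k x + f y * k q' := by
    intro y k
    show k (θ' y • x + f y • q') = _
    rw [map_add, map_smul, map_smul]; rfl
  -- the functional
  have h1 : ∀ y, f y = 0 → θ y = 0 → θ' y = 0 := by
    intro y hfy hθy
    by_cases hxy : x ∈ Submodule.span ℂ ({y} : Set X)
    · obtain ⟨c, hc⟩ := Submodule.mem_span_singleton.mp hxy
      have hc0 : c ≠ 0 := by
        rintro rfl; rw [zero_smul] at hc; exact hx hc.symm
      have : θ' (c • y) = 0 := by rw [hc]; exact hθ'x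
      rw [map_smul, smul_eq_mul] at this
      exact (mul_eq_zero.mp this).resolve_left hc0
    · obtain ⟨k, hk0, hkx⟩ := exists_sep_sub (Submodule.fg_span_singleton y) hxy
      have hky : k y = 0 := hk0 y (Submodule.mem_span_singleton_self y)
      have := T y k hky (by rw [hfy, mul_zero]) (by rw [hθy, hfy]; ring)
      rw [Ta, hfy, hkx] at this
      simpa using this
  have h1' : ∃ a e : ℂ, θ' = a • θ + e • f := by
    rcases hθ with h | h
    · obtain ⟨z, hz⟩ := exists_ap hf
      refine ⟨0, θ' z, ?_⟩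
      ext v
      have h2 := h1 (v - f v • z) (by rw [map_sub, map_smul, hz]; simp) (by rw [h]; rfl)
      rw [map_sub, map_smul, smul_eq_mul] at h2
      show θ' v = 0 * θ v + θ' z * f v
      linear_combination h2
    · obtain ⟨⟨z2, hz2, hz2'⟩, ⟨z1, hz1, hz1'⟩⟩ :=
        exists_sep hf (by rintro ⟨c, hc⟩; exact h c hc)
      refine ⟨θ' z2, θ' z1, ?_⟩
      ext v
      have h2 := h1 (v - f v • z1 - θ v • z2)
        (by simp only [map_sub, map_smul, hz1, hz2, smul_eq_mul]; ring)
        (by simp only [map_sub, map_smul, hz1', hz2', smul_eq_mul]; ring)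
      simp only [map_sub, map_smul, smul_eq_mul] at h2
      show θ' v = θ' z2 * θ v + θ' z1 * f v
      linear_combination h2
  -- the vector
  have h2 : ∀ k : X →L[ℂ] ℂ, k x = 0 → k q = 0 → k q' = 0 := by
    intro k hkx hkq
    by_cases hkf : k = 0 ∨ ∃ c : ℂ, f = c • k
    · rcases hkf with h | ⟨c, hc⟩
      · rw [h]; rfl
      · have hc0 : c ≠ 0 := by
          rintro rfl; rw [dual_zero_smul] at hc; exact hf hc
        have : c * k q' = 0 := by
          have h3 : (c • k) q' = 0 := by rw [← hc]; exact hfq'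
          exact h3
        exact (mul_eq_zero.mp this).resolve_left hc0
    · push Not at hkf
      obtain ⟨y, hky, hfy⟩ := (exists_sep hkf.1 (by rintro ⟨c, hc⟩; exact hkf.2 c hc)).1
      have := T y k hky (by rw [hkx, zero_mul]) (by rw [hkx, hkq]; ring)
      rw [Ta, hkx, hfy] at this
      simpa using this
  have h2' : q' ∈ Submodule.span ℂ ({x, q} : Set X) := by
    by_contra hcon
    obtain ⟨k, hk, hk'⟩ := exists_sep_sub (Submodule.fg_span (Set.toFinite _)) hcon
    rw [h2 k (hk x (Submodule.subset_span (by simp)))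
      (hk q (Submodule.subset_span (by simp)))] at hk'
    exact zero_ne_one hk'
  obtain ⟨a, e, hae⟩ := h1'
  obtain ⟨e', a', hae'⟩ := Submodule.mem_span_pair.mp h2'
  refine ⟨a, a', e + e', ?_⟩
  rw [hae, ← hae', ten_add_right', ten_smul_right, ten_smul_right, ten_add_right, ten_smul_left,
    ten_smul_left]
  module

end Pool.Agent.H.MP_bb4c62_an.helper6.NL
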