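import Pool.Agent.H.MP_bb4c62_an.helper6.NK3

/-!
Automorphisms exchanging two points with rank one difference fix the affine line.
-/

namespace Pool.Agent.H.MP_bb4c62_an.helper6.NL

open Complex Metric Set Filter Topology
open Pool.Agent.H.MP_bb4c62_an.helper6.Perturb
open Pool.Agent.H.MP_bb4c62_an.helper6.Gadgets

variable {X : Type*} [NormedAddCommGroup X] [NormedSpace ℂ X]

theorem conj_lin3 (S R T1 T2 T3 : X →L[ℂ] X) (a a' e : ℂ) :
    S * (a • T1 + a' • T2 + e • T3) * R =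
      a • (S * T1 * R) + a' • (S * T2 * R) + e • (S * T3 * R) := by
  rw [mul_add, mul_add, add_mul, add_mul, mul_smul_comm, mul_smul_comm, mul_smul_comm,
    smul_mul_assoc, smul_mul_assoc, smul_mul_assoc]

theorem autos_mixed {x q : X} {f θ : X →L[ℂ] ℂ} (hx : x ≠ 0) (hf : f ≠ 0) (hfx : f x = 0)
    (hθx : θ x = 0) (hfq : f q = 0) (hθ : ∀ c : ℂ, θ ≠ c • f)
    (hq : ∀ c : ℂ, q ≠ c • x) (μ : ℂ) :
    ∃ Φ : (X →L[ℂ] X) → (X →L[ℂ] X), IsGIso Φ ∧ ∀ a a' e : ℂ,
      Φ (a • ten x θ + a' • ten q f + e • ten x f) =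
        a • ten x θ + a' • ten q f + (e + μ * (a - a')) • ten x f := by
  obtain ⟨z, hfz, hθz⟩ := (exists_sep hf (by rintro ⟨c, hc⟩; exact hθ c hc)).1
  obtain ⟨g, hgx, hgq⟩ := (exists_sep' hx (by rintro ⟨c, hc⟩; exact hq c hc)).1
  obtain ⟨r1, r2, -⟩ := conj_sq (w := (0 : X →L[ℂ] X)) (L := ten (-μ • z) f)
    (ten_sq (by rw [map_smul, hfz, smul_zero]))
  obtain ⟨u1, u2, -⟩ := conj_sq (w := (0 : X →L[ℂ] X)) (L := ten (-μ • x) g)
    (ten_sq (by rw [map_smul, hgx, smul_zero]))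
  refine ⟨_, (isGIso_conj u1 u2).comp (isGIso_conj r1 r2), ?_⟩
  intro a a' e
  show (1 + ten (-μ • x) g) * ((1 + ten (-μ • z) f) * (a • ten x θ + a' • ten q f + e • ten x f) *
    (1 - ten (-μ • z) f)) * (1 - ten (-μ • x) g) = _
  have c1 : (1 + ten (-μ • z) f) * ten x θ * (1 - ten (-μ • z) f) = ten x θ + μ • ten x f := by
    rw [conj_ten]
    ext v
    show θ (v - f v • -μ • z) • (x + f x • -μ • z) = θ v • x + μ • f v • x
    rw [hfx, map_sub, map_smul, map_smul, hθz]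
    simp only [zero_smul, add_zero, smul_eq_mul, mul_one]
    module
  have c2 : (1 + ten (-μ • z) f) * ten q f * (1 - ten (-μ • z) f) = ten q f := by
    rw [conj_ten]
    ext v
    show f (v - f v • -μ • z) • (q + f q • -μ • z) = f v • q
    rw [hfq, map_sub, map_smul, map_smul, hfz]
    simp
  have c3 : (1 + ten (-μ • z) f) * ten x f * (1 - ten (-μ • z) f) = ten x f := by
    rw [conj_ten]
    ext v
    show f (v - f v • -μ • z) • (x + f x • -μ • z) = f v • x
    rw [hfx, map_sub, map_smul, map_smul, hfz]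
    simp
  have d1 : (1 + ten (-μ • x) g) * ten x θ * (1 - ten (-μ • x) g) = ten x θ := by
    rw [conj_ten]
    ext v
    show θ (v - g v • -μ • x) • (x + g x • -μ • x) = θ v • x
    rw [hgx, map_sub, map_smul, map_smul, hθx]
    simp
  have d2 : (1 + ten (-μ • x) g) * ten q f * (1 - ten (-μ • x) g) = ten q f - μ • ten x f := by
    rw [conj_ten]
    ext v
    show f (v - g v • -μ • x) • (q + g q • -μ • x) = f v • q - μ • f v • x
    rw [hgq, map_sub, map_smul, map_smul, hfx]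
    simp only [smul_zero, sub_zero, one_smul]
    module
  have d3 : (1 + ten (-μ • x) g) * ten x f * (1 - ten (-μ • x) g) = ten x f := by
    rw [conj_ten]
    ext v
    show f (v - g v • -μ • x) • (x + g x • -μ • x) = f v • x
    rw [hgx, map_sub, map_smul, map_smul, hfx]
    simp
  rw [conj_lin3, c1, c2, c3]
  have e1 : a • (ten x θ + μ • ten x f) + a' • ten q f + e • ten x f =
      a • ten x θ + a' • ten q f + (e + a * μ) • ten x f := by module
  rw [e1, conj_lin3, d1, d2, d3]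
  module

theorem line_fixed [CompleteSpace X] (hX : ¬ Module.Finite ℂ X) {v : Fin 3 → X}
    (hv3 : LinearIndependent ℂ v) {ρ : (X →L[ℂ] X) → (X →L[ℂ] X)} (hρ : IsGIso ρ)
    {x : X} {f : X →L[ℂ] ℂ} (hx : x ≠ 0) (hf : f ≠ 0) (hfx : f x = 0)
    (h0 : ρ 0 = ten x f) (h1 : ρ (ten x f) = 0) :
    ρ '' rline 0 (ten x f) = rline 0 (ten x f) := by
  have hform := fun V hV => rho_form hX hv3 hρ hx hf hfx h0 h1 (V := V) hV
  set m := ρ '' rline 0 (ten x f) with hm
  have hline : IsLine m := IsLine.image hρ (isLine_rline hv3 hx hf hfx 0)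
  have h0m : (0 : X →L[ℂ] X) ∈ m := ⟨ten x f, ⟨1, by simp⟩, h1⟩
  have hAm : ten x f ∈ m := ⟨0, ⟨0, by simp⟩, h0⟩
  have hA0 : ten x f ≠ 0 := by
    rw [Ne, ten_eq_zero_iff]; push Not; exact ⟨hx, hf⟩
  suffices hsub : m ⊆ rline 0 (ten x f) by
    obtain ⟨a, b, c, ha, hb, hc, hab, hac, hbc⟩ := exists_three hline.inf
    exact IsLine.eq_of_three hline (isLine_rline hv3 hx hf hfx 0) ha hb hc (hsub ha) (hsub hb)
      (hsub hc) hab hac hbc
  by_contra hnsub
  rw [Set.not_subset] at hnsub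
  obtain ⟨V, hVm, hVn⟩ := hnsub
  have hne : ∀ z : ℂ, V ≠ z • ten x f := by
    intro z hz
    exact hVn ⟨z, by simp [hz]⟩
  obtain ⟨θ0, q0, hV0f, hθ0x, hfq0⟩ := hform V hVm
  obtain ⟨θ, q, rfl, hθx, hfq, hθ, hq, hne2⟩ := normal_form hx hf hfx hθ0x hfq0 hV0f hne
  have hVA : ten x f ≠ ten x θ + ten q f := by
    intro h; exact hne 1 (by rw [one_smul, h])
  have hV0 : ten x θ + ten q f ≠ 0 := by
    intro h; exact hne 0 (by rw [zero_smul, h])
  -- three points on an affine line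
  have hthree : ∀ (B : X →L[ℂ] X) (e1 e2 e3 : ℂ), B + e1 • ten x f ∈ m → B + e2 • ten x f ∈ m →
      B + e3 • ten x f ∈ m → e1 ≠ e2 → e1 ≠ e3 → e2 ≠ e3 → False := by
    intro B e1 e2 e3 m1 m2 m3 n12 n13 n23
    have inj : ∀ s t : ℂ, s ≠ t → B + s • ten x f ≠ B + t • ten x f := by
      intro s t hst h
      have h2 : (s - t) • ten x f = 0 := by
        rw [sub_smul, sub_eq_zero]; exact add_left_cancel h
      rcases smul_eq_zero.mp h2 with h3 | h3
      · exact hst (sub_eq_zero.mp h3)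
      · exact hA0 h3
    have heq := IsLine.eq_of_three hline (isLine_rline hv3 hx hf hfx B) m1 m2 m3
      (rline_mem _) (rline_mem _) (rline_mem _) (inj _ _ n12) (inj _ _ n13) (inj _ _ n23)
    obtain ⟨z, hz⟩ : (0 : X →L[ℂ] X) ∈ rline B (ten x f) := by rw [← heq]; exact h0m
    obtain ⟨z', hz'⟩ : ten x θ + ten q f ∈ rline B (ten x f) := by rw [← heq]; exact hVm
    apply hne (z' - z)
    rw [← hz', sub_smul]
    have hB : B = - (z • ten x f) := eq_neg_of_add_eq_zero_left hz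
    show B + z' • ten x f = _
    rw [hB]; abel
  -- everything lies in the span
  have hspan : ∀ V' ∈ m, ∃ a e : ℂ, V' = a • (ten x θ + ten q f) + e • ten x f := by
    intro V' hV'
    obtain ⟨θ', q', hV'f, hθ'x, hfq'⟩ := hform V' hV'
    rw [hV'f] at hV'
    obtain ⟨a, a', e, hae⟩ := line_span hline hx hf hfx hθx hfq hθ h0m hAm hVm hVA hV0 hV' hθ'x
      hfq'
    rw [hV'f]
    by_cases hθ0 : θ = 0
    · exact ⟨a', e, by rw [hae, hθ0, ten_zero_right, zero_add, smul_zero, zero_add]⟩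
    by_cases hq0 : q = 0
    · exact ⟨a, e, by rw [hae, hq0, ten_zero_left, add_zero, smul_zero, add_zero]⟩
    have hθ' := hθ.resolve_left hθ0
    have hq' := hq.resolve_left hq0
    by_cases haa : a = a'
    · exact ⟨a, e, by rw [hae, ← haa]; module⟩
    exfalso
    rw [hae] at hV'
    have hmv : ∀ μ : ℂ, (a • ten x θ + a' • ten q f + e • ten x f) + μ • ten x f ∈ m := by
      intro μ
      obtain ⟨Φ, hΦ, hΦ'⟩ := autos_mixed hx hf hfx hθx hfq hθ' hq' (μ / (a - a'))
      have hl' : IsLine (Φ '' m) := IsLine.image hΦ hline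
      have p0 : (0 : X →L[ℂ] X) ∈ Φ '' m := ⟨0, h0m, by simpa using hΦ' 0 0 0⟩
      have pA : ten x f ∈ Φ '' m := ⟨ten x f, hAm, by simpa using hΦ' 0 0 1⟩
      have pV : ten x θ + ten q f ∈ Φ '' m := ⟨_, hVm, by simpa using hΦ' 1 1 0⟩
      have heq := IsLine.eq_of_three hl' hline p0 pA pV h0m hAm hVm hA0.symm hV0.symm hVA
      have := Set.mem_image_of_mem Φ hV'
      rw [heq, hΦ', div_mul_cancel₀ _ (sub_ne_zero.mpr haa)] at this
      convert this using 1
      module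
    exact hthree _ 0 1 2 (hmv 0) (hmv 1) (hmv 2) (by norm_num) (by norm_num) (by norm_num)
  have hinj : ∀ a e a' e' : ℂ, a • (ten x θ + ten q f) + e • ten x f =
      a' • (ten x θ + ten q f) + e' • ten x f → a = a' ∧ e = e' := by
    intro a e a' e' h
    have h2 : (a - a') • (ten x θ + ten q f) = (e' - e) • ten x f := by
      rw [sub_smul, sub_smul, sub_eq_sub_iff_add_eq_add, h]; abel
    by_cases haa : a = a'
    · refine ⟨haa, ?_⟩
      rw [haa, sub_self, zero_smul] at h2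
      rcases smul_eq_zero.mp h2.symm with h3 | h3
      · exact (sub_eq_zero.mp h3).symm
      · exact absurd h3 hA0
    · exfalso
      apply hne ((a - a')⁻¹ * (e' - e))
      rw [mul_smul, ← h2, smul_smul, inv_mul_cancel₀ (sub_ne_zero.mpr haa), one_smul]
  -- the plane lemma
  set P : ℂ × ℂ → (X →L[ℂ] X) := fun p => p.1 • (ten x θ + ten q f) + p.2 • ten x f with hP
  refine plane_lemma {p | P p ∈ m} ?_ ?_ ?_ ?_ ?_
  · apply Set.Infinite.of_image P
    convert hline.inf using 1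
    ext V'
    constructor
    · rintro ⟨p, hp, rfl⟩; exact hp
    · intro hV'
      obtain ⟨a, e, rfl⟩ := hspan V' hV'
      exact ⟨(a, e), hV', rfl⟩
  · show (0 : ℂ) • _ + (0 : ℂ) • _ ∈ m
    rw [zero_smul, zero_smul, add_zero]; exact h0m
  · show (0 : ℂ) • _ + (1 : ℂ) • _ ∈ m
    rw [zero_smul, one_smul, zero_add]; exact hAm
  · intro a e1 e2 e3 m1 m2 m3
    by_contra hcon
    push Not at hcon
    exact hthree _ e1 e2 e3 m1 m2 m3 hcon.1 hcon.2.1 hcon.2.2
  · intro α β γ l hl p1 p2 p3 m1 m2 m3 n12 n13 n23 g1 g2 g3 p hp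
    obtain ⟨Φ, hΦ, hΦ'⟩ := autos_scale hx hf hfx hθx hfq hθ hq hl
    obtain ⟨U, hU, hU'⟩ := autos_shear hx hf hfx hθx hfq hθ hq hne2 (β / l)
    have hΨ := (isGIso_trans (α • (ten x θ + ten q f) + γ • ten x f)).comp (hΦ.comp hU)
    have hΨ' : ∀ p : ℂ × ℂ, ((fun T => (α • (ten x θ + ten q f) + γ • ten x f) + T) ∘ (Φ ∘ U))
        (P p) = P (p.1 + α, l * p.2 + β * p.1 + γ) := by
      intro p
      show (α • (ten x θ + ten q f) + γ • ten x f) + Φ (U (p.1 • (ten x θ + ten q f) +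
        p.2 • ten x f)) = (p.1 + α) • (ten x θ + ten q f) + (l * p.2 + β * p.1 + γ) • ten x f
      rw [hU', hΦ']
      have : l * (p.2 + β / l * p.1) = l * p.2 + β * p.1 := by field_simp
      rw [this]
      module
    set Ψ := (fun T => (α • (ten x θ + ten q f) + γ • ten x f) + T) ∘ (Φ ∘ U) with hΨd
    have hPinj : ∀ p p' : ℂ × ℂ, p ≠ p' → P p ≠ P p' := by
      intro p p' hpp h
      obtain ⟨h1, h2⟩ := hinj _ _ _ _ h
      exact hpp (Prod.ext h1 h2)
    have hl' : IsLine (Ψ '' m) := IsLine.image hΨ hline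
    have heq := IsLine.eq_of_three hl' hline (Set.mem_image_of_mem Ψ m1)
      (Set.mem_image_of_mem Ψ m2) (Set.mem_image_of_mem Ψ m3) (by rw [hΨ']; exact g1)
      (by rw [hΨ']; exact g2) (by rw [hΨ']; exact g3)
      (fun h => hPinj _ _ n12 (hΨ.1.1 h)) (fun h => hPinj _ _ n13 (hΨ.1.1 h))
      (fun h => hPinj _ _ n23 (hΨ.1.1 h))
    have := Set.mem_image_of_mem Ψ (show P p ∈ m from hp)
    rw [heq, hΨ'] at this
    exact this

end Pool.Agent.H.MP_bb4c62_an.helper6.NL
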