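import Pool.Agent.H.MP_bb4c62_an.helper6.NLine1
import Pool.Agent.H.MP_bb4c62_an.helper6.NIndep

/-!
Lines through `0` and a rank one nilpotent: all their points are adjacent to the whole
rank one line.
-/

namespace Pool.Agent.H.MP_bb4c62_an.helper6.NL

open Complex Metric Set Filter Topology
open Pool.Agent.H.MP_bb4c62_an.helper6.Perturb
open Pool.Agent.H.MP_bb4c62_an.helper6.Gadgets

variable {X : Type*} [NormedAddCommGroup X] [NormedSpace ℂ X]

theorem qn_of_pow {T : X →L[ℂ] X} {n : ℕ} (h : T ^ n = 0) : QN T := by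
  refine (qn_iff T).mpr fun z => ?_
  have : IsNilpotent (z • T) := ⟨n, by rw [smul_pow, h, smul_zero]⟩
  exact this.isUnit_one_sub

/-- conjugation by a square zero perturbation of the identity -/
theorem conj_sq {L w : X →L[ℂ] X} (hL : L * L = 0) :
    (1 + L) * (1 - L) = 1 ∧ (1 - L) * (1 + L) = 1 ∧
    (1 + L) * w * (1 - L) = w + (L * w - w * L) - L * w * L := by
  refine ⟨?_, ?_, ?_⟩
  · have : (1 + L) * (1 - L) = 1 - L * L := by noncomm_ring
    rw [this, hL, sub_zero]
  · have : (1 - L) * (1 + L) = 1 - L * L := by noncomm_ring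
    rw [this, hL, sub_zero]
  · noncomm_ring

/-- the rank two operator occurring in a conjugation -/
theorem qn_comm {w : X →L[ℂ] X} {y : X} {k : X →L[ℂ] ℂ} (hky : k y = 0) (hkw : k (w y) = 0)
    (t : ℂ) : QN (t • (ten y (k.comp w) - ten (w y) k)) := by
  apply qn_smul
  apply qn_of_pow (n := 3)
  set N := ten y (k.comp w) - ten (w y) k with hN
  have h1 : ∀ v, N v = k (w v) • y - k v • w y := fun v => rfl
  have hNy : N y = 0 := by rw [h1, hkw, hky, zero_smul, zero_smul, sub_zero]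
  have hNw : N (w y) = k (w (w y)) • y := by rw [h1, hkw, zero_smul, sub_zero]
  ext v
  have e : (N ^ 3) v = N (N (N v)) := by
    rw [pow_succ, pow_two]; rfl
  rw [e, h1 v, map_sub, map_smul, map_smul, hNy, hNw, smul_zero, zero_sub, map_neg, map_smul,
    map_smul, hNy, smul_zero, smul_zero, neg_zero]
  rfl

/-- the conjugation tests -/
theorem conj_test {w : X →L[ℂ] X} (hw : QN w) {x : X} {f : X →L[ℂ] ℂ}
    (hwA : QN (w - ten x f)) {y : X} {k : X →L[ℂ] ℂ} (hfy : f y = 0) (hkx : k x = 0)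
    (hky : k y = 0) (hkw : k (w y) = 0) (t : ℂ) :
    QN (w + t • (ten y (k.comp w) - ten (w y) k)) ∧
    QN (w + t • (ten y (k.comp w) - ten (w y) k) - ten x f) ∧
    QN (w + t • (ten y (k.comp w) - ten (w y) k) - w) := by
  set L : X →L[ℂ] X := t • ten y k with hL
  have hLL : L * L = 0 := by
    rw [hL, smul_mul_smul_comm, ten_sq hky, smul_zero]
  obtain ⟨h1, h2, h3⟩ := conj_sq (w := w) hLL
  have hLwL : L * w * L = 0 := by
    rw [hL, smul_mul_assoc, ten_mul, smul_mul_smul_comm, mul_ten, ten_apply]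
    show (t * t) • ten (k (w y) • y) k = 0
    rw [hkw, zero_smul]
    ext v; simp
  have hLw : L * w - w * L = t • (ten y (k.comp w) - ten (w y) k) := by
    rw [hL, smul_mul_assoc, ten_mul, mul_smul_comm, mul_ten, smul_sub]
  have hconj : (1 + L) * w * (1 - L) = w + t • (ten y (k.comp w) - ten (w y) k) := by
    rw [h3, hLwL, sub_zero, hLw]
  have hA : (1 + L) * ten x f * (1 - L) = ten x f := by
    obtain ⟨-, -, h4⟩ := conj_sq (w := ten x f) hLL
    rw [h4]
    have e1 : L * ten x f = 0 := by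
      rw [hL, smul_mul_assoc, mul_ten, ten_apply, hkx, zero_smul]
      ext v; simp
    have e2 : ten x f * L = 0 := by
      rw [hL, mul_smul_comm, mul_ten, ten_apply, hfy, zero_smul]
      ext v; simp
    rw [e1, e2, zero_mul, sub_zero, sub_zero, add_zero]
  refine ⟨?_, ?_, ?_⟩
  · rw [← hconj]; exact qn_conj hw h1 h2
  · have : w + t • (ten y (k.comp w) - ten (w y) k) - ten x f =
        (1 + L) * (w - ten x f) * (1 - L) := by
      rw [mul_sub (1 + L), sub_mul _ _ (1 - L), hconj, hA]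
    rw [this]; exact qn_conj hwA h1 h2
  · rw [add_sub_cancel_left]
    exact qn_comm hky hkw t

/-- vectors with independent orbit modulo a subspace -/
def Gen (w : X →L[ℂ] X) (Z : Submodule ℂ X) (u : X) : Prop :=
  ∀ a b c : ℂ, a • u + b • w u + c • w (w u) ∈ Z → a = 0 ∧ b = 0 ∧ c = 0

theorem Gen.mono {w : X →L[ℂ] X} {Z Z' : Submodule ℂ X} (h : Z ≤ Z') {u : X}
    (hu : Gen w Z' u) : Gen w Z u := fun a b c hm => hu a b c (h hm)

theorem Gen.add {w : X →L[ℂ] X} {Z : Submodule ℂ X} {u y : X} (hu : Gen w Z u)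
    (h0 : y ∈ Z) (h1 : w y ∈ Z) (h2 : w (w y) ∈ Z) : Gen w Z (u + y) := by
  intro a b c h
  apply hu a b c
  have : a • u + b • w u + c • w (w u) = (a • (u + y) + b • w (u + y) + c • w (w (u + y))) -
      (a • y + b • w y + c • w (w y)) := by
    simp only [map_add, smul_add]; abel
  rw [this]
  exact Z.sub_mem h (Z.add_mem (Z.add_mem (Z.smul_mem _ h0) (Z.smul_mem _ h1)) (Z.smul_mem _ h2))

/-- local linear dependence -/
theorem lld {w D : X →L[ℂ] X} {x : X} {f : X →L[ℂ] ℂ} (hx : x ≠ 0) (hf : f ≠ 0)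
    (hgen : ∀ Z : Submodule ℂ X, Z.FG → ∃ u, f u = 0 ∧ Gen w Z u)
    (h : ∀ y, f y = 0 → Gen w (Submodule.span ℂ {x}) y → ∃ a b c : ℂ,
      D y = a • x + b • y + c • w y) :
    ∃ (b c : ℂ) (θ : X →L[ℂ] ℂ) (q : X),
      D = b • (1 : X →L[ℂ] X) + c • w + (ten x θ + ten q f) := by
  obtain ⟨y0, hy0f, hy0⟩ := hgen (Submodule.span ℂ {x}) (Submodule.fg_span_singleton x)
  obtain ⟨a0, b0, c0, h0⟩ := h y0 hy0f hy0
  have key : ∀ y, f y = 0 → ∃ a : ℂ, (D - b0 • (1 : X →L[ℂ] X) - c0 • w) y = a • x := by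
    intro y hyf
    set Z : Submodule ℂ X := Submodule.span ℂ {x, y0, w y0, w (w y0), y, w y, w (w y)} with hZ
    have hZfg : Z.FG := Submodule.fg_span (Set.toFinite _)
    have mx : x ∈ Z := Submodule.subset_span (by simp)
    have m1 : y0 ∈ Z := Submodule.subset_span (by simp)
    have m2 : w y0 ∈ Z := Submodule.subset_span (by simp)
    have m3 : w (w y0) ∈ Z := Submodule.subset_span (by simp)
    have m4 : y ∈ Z := Submodule.subset_span (by simp)
    have m5 : w y ∈ Z := Submodule.subset_span (by simp)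
    have m6 : w (w y) ∈ Z := Submodule.subset_span (by simp)
    have hle : Submodule.span ℂ {x} ≤ Z := by
      rw [Submodule.span_singleton_le_iff_mem]; exact mx
    obtain ⟨u', hu'f, hu'⟩ := hgen (Z ⊔ Submodule.span ℂ {D y}) (hZfg.sup
      (Submodule.fg_span_singleton _))
    have hZle : Z ≤ Z ⊔ Submodule.span ℂ {D y} := le_sup_left
    obtain ⟨a4, b4, c4, h4⟩ := h u' hu'f (hu'.mono (hle.trans hZle))
    obtain ⟨a5, b5, c5, h5⟩ := h (u' + y) (by rw [map_add, hu'f, hyf, add_zero])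
      (((hu'.mono hZle).add m4 m5 m6).mono hle)
    obtain ⟨a6, b6, c6, h6⟩ := h (u' + y0) (by rw [map_add, hu'f, hy0f, add_zero])
      (((hu'.mono hZle).add m1 m2 m3).mono hle)
    rw [map_add, h4] at h5
    rw [map_add, h4, h0] at h6
    have k5 : (b5 - b4) • u' + (c5 - c4) • w u' + (0 : ℂ) • w (w u') ∈
        Z ⊔ Submodule.span ℂ {D y} := by
      have : (b5 - b4) • u' + (c5 - c4) • w u' + (0 : ℂ) • w (w u') =
          ((a4 - a5) • x - b5 • y - c5 • w y) + D y := by
        have e : (b5 - b4) • u' + (c5 - c4) • w u' + (0 : ℂ) • w (w u') =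
            (a5 • x + b5 • (u' + y) + c5 • w (u' + y)) - a5 • x - b5 • y - c5 • w y
              - b4 • u' - c4 • w u' := by
          rw [map_add]; module
        rw [e, ← h5]; module
      rw [this]
      exact Submodule.add_mem_sup (Z.sub_mem (Z.sub_mem (Z.smul_mem _ mx) (Z.smul_mem _ m4))
        (Z.smul_mem _ m5)) (Submodule.mem_span_singleton_self _)
    obtain ⟨kb5, kc5, -⟩ := hu' _ _ _ k5
    have k6 : (b6 - b4) • u' + (c6 - c4) • w u' + (0 : ℂ) • w (w u') ∈
        Z ⊔ Submodule.span ℂ {D y} := by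
      have : (b6 - b4) • u' + (c6 - c4) • w u' + (0 : ℂ) • w (w u') =
          (a4 + a0 - a6) • x + (b0 - b6) • y0 + (c0 - c6) • w y0 := by
        have e : (b6 - b4) • u' + (c6 - c4) • w u' + (0 : ℂ) • w (w u') =
            (a6 • x + b6 • (u' + y0) + c6 • w (u' + y0)) - a6 • x - b6 • y0 - c6 • w y0
              - b4 • u' - c4 • w u' := by
          rw [map_add]; module
        rw [e, ← h6]; module
      rw [this]
      exact hZle (Z.add_mem (Z.add_mem (Z.smul_mem _ mx) (Z.smul_mem _ m1)) (Z.smul_mem _ m2))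
    obtain ⟨kb6, kc6, -⟩ := hu' _ _ _ k6
    have k7 : (b4 - b0) • y0 + (c4 - c0) • w y0 + (0 : ℂ) • w (w y0) ∈
        Submodule.span ℂ ({x} : Set X) := by
      have : (b4 - b0) • y0 + (c4 - c0) • w y0 + (0 : ℂ) • w (w y0) =
          (a4 + a0 - a6) • x := by
        have e : (b4 - b0) • y0 + (c4 - c0) • w y0 + (0 : ℂ) • w (w y0) =
            (a6 • x + b4 • (u' + y0) + c4 • w (u' + y0)) - a6 • x - b4 • u' - c4 • w u'
              - b0 • y0 - c0 • w y0 := by
          rw [map_add]; module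
        rw [e]
        rw [sub_eq_zero.mp kb6, sub_eq_zero.mp kc6] at h6
        rw [← h6]; module
      rw [this]
      exact Submodule.smul_mem _ _ (Submodule.mem_span_singleton_self x)
    obtain ⟨kb7, kc7, -⟩ := hy0 _ _ _ k7
    refine ⟨a5 - a4, ?_⟩
    show D y - b0 • y - c0 • w y = (a5 - a4) • x
    have e : D y = (a5 • x + b5 • (u' + y) + c5 • w (u' + y)) - (a4 • x + b4 • u' + c4 • w u') := by
      rw [← h5]; abel
    rw [e, sub_eq_zero.mp kb5, sub_eq_zero.mp kc5, sub_eq_zero.mp kb7, sub_eq_zero.mp kc7, map_add]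
    module
  obtain ⟨θ, q, hK⟩ := form_of_range hx hf key
  refine ⟨b0, c0, θ, q, ?_⟩
  rw [← hK]; abel

end Pool.Agent.H.MP_bb4c62_an.helper6.NL
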