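import Pool.Agent.H.MP_bb4c62_an.helper6.NLine2

/-!
The normal form of the points of a line through `0` and a rank one nilpotent which contains
a point not adjacent to the whole rank one line; such lines do not exist.
-/

namespace Pool.Agent.H.MP_bb4c62_an.helper6.NL

open Complex Metric Set Filter Topology
open Pool.Agent.H.MP_bb4c62_an.helper6.Perturb
open Pool.Agent.H.MP_bb4c62_an.helper6.Gadgets

variable {X : Type*} [NormedAddCommGroup X] [NormedSpace ℂ X]

theorem mem_span_of_tests [CompleteSpace X] {w D : X →L[ℂ] X} (hD : QN D) {x : X}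
    {f : X →L[ℂ] ℂ}
    (h : ∀ (y : X) (k : X →L[ℂ] ℂ), f y = 0 → k x = 0 → k y = 0 → k (w y) = 0 →
      ∀ t : ℂ, QN (D + t • (ten y (k.comp w) - ten (w y) k)))
    {y : X} (hfy : f y = 0) (hg : Gen w (Submodule.span ℂ {x}) y) :
    ∃ a b c : ℂ, D y = a • x + b • y + c • w y := by
  set M : Submodule ℂ X := Submodule.span ℂ {x, y, w y} with hM
  have hMfg : M.FG := Submodule.fg_span (Set.toFinite _)
  have mx : x ∈ M := Submodule.subset_span (by simp)
  have my : y ∈ M := Submodule.subset_span (by simp)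
  have mw : w y ∈ M := Submodule.subset_span (by simp)
  by_cases hDM : D y ∈ M
  · rw [hM, Submodule.mem_span_insert] at hDM
    obtain ⟨a, z, hz, hzz⟩ := hDM
    obtain ⟨b, c, hbc⟩ := Submodule.mem_span_pair.mp hz
    exact ⟨a, b, c, by rw [hzz, ← hbc]; abel⟩
  exfalso
  have hwM : w (w y) ∉ M := by
    intro hm
    rw [hM, Submodule.mem_span_insert] at hm
    obtain ⟨a, z, hz, hzz⟩ := hm
    obtain ⟨b, c, hbc⟩ := Submodule.mem_span_pair.mp hz
    obtain ⟨-, -, h1⟩ := hg (-b) (-c) 1 (by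
      have : (-b) • y + (-c) • w y + (1 : ℂ) • w (w y) = a • x := by
        rw [hzz, ← hbc]; module
      rw [this]
      exact Submodule.smul_mem _ _ (Submodule.mem_span_singleton_self x))
    exact one_ne_zero h1
  obtain ⟨k1, hk1, hk1'⟩ := exists_sep_sub hMfg hDM
  obtain ⟨k2, hk2, hk2'⟩ := exists_sep_sub hMfg hwM
  have key : ∀ k : X →L[ℂ] ℂ, (∀ m ∈ M, k m = 0) → k (D y) * k (w (w y)) = 0 := by
    intro k hk
    exact pencil_two (p := k.comp w) (k := k) (y := y) (z := w y) hD (hk y my) (hk _ mw)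
      (hk _ mw) (h y k hfy (hk x mx) (hk y my) (hk _ mw))
  have e1 := key k1 hk1
  rw [hk1', one_mul] at e1
  have e2 := key k2 hk2
  rw [hk2', mul_one] at e2
  have e3 := key (k1 + k2) (fun m hm => by
    show k1 m + k2 m = 0
    rw [hk1 m hm, hk2 m hm, add_zero])
  have e4 : (k1 (D y) + k2 (D y)) * (k1 (w (w y)) + k2 (w (w y))) = 0 := e3
  rw [hk1', hk2', e1, e2] at e4
  norm_num at e4

theorem FRk_mul_left {S : X →L[ℂ] X} (hS : S ∈ FRk X) (T : X →L[ℂ] X) : T * S ∈ FRk X := by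
  unfold FRk at hS
  induction hS using Submodule.span_induction with
  | mem R hR =>
    obtain ⟨x, f, rfl⟩ := hR
    rw [mul_ten]
    exact ten_mem_FRk _ _
  | zero => rw [mul_zero]; exact Submodule.zero_mem _
  | add S R _ _ hS hR => rw [mul_add]; exact Submodule.add_mem _ hS hR
  | smul a R _ hR => rw [mul_smul_comm]; exact Submodule.smul_mem _ _ hR

theorem fg_of_mem_FRk {T : X →L[ℂ] X} (hT : T ∈ FRk X) :
    (LinearMap.range (T : X →ₗ[ℂ] X)).FG := by
  unfold FRk at hT
  induction hT using Submodule.span_induction with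
  | mem T hT =>
    obtain ⟨x, f, rfl⟩ := hT
    refine Submodule.FG.of_le (Submodule.fg_span_singleton x) ?_
    rintro w ⟨u, hu⟩
    rw [← hu]
    exact Submodule.smul_mem _ _ (Submodule.mem_span_singleton_self x)
  | zero =>
    have : LinearMap.range ((0 : X →L[ℂ] X) : X →ₗ[ℂ] X) = ⊥ := by
      rw [LinearMap.range_eq_bot]; rfl
    rw [this]; exact Submodule.fg_bot
  | add S T _ _ hS hT =>
    refine Submodule.FG.of_le (hS.sup hT) ?_
    rintro w ⟨u, hu⟩
    rw [← hu]
    exact Submodule.add_mem_sup ⟨u, rfl⟩ ⟨u, rfl⟩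
  | smul c T _ hT =>
    refine Submodule.FG.of_le hT ?_
    rintro w ⟨u, hu⟩
    rw [← hu]
    exact Submodule.smul_mem _ _ ⟨u, rfl⟩

theorem qn_pow_small [CompleteSpace X] {v : X →L[ℂ] X} (hv : QN v) {c : ℝ} (hc : 0 < c) :
    ∀ᶠ n : ℕ in atTop, ‖v ^ n‖ < c ^ n := by
  have h1 := spectrum.pow_nnnorm_pow_one_div_tendsto_nhds_spectralRadius v
  rw [show spectralRadius ℂ v = 0 from hv] at h1
  have hc' : (0 : ENNReal) < ENNReal.ofReal c := ENNReal.ofReal_pos.mpr hc
  have h2 := h1.eventually_lt_const hc'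
  filter_upwards [h2, eventually_gt_atTop 0] with n hn hn0
  have h3 : ((‖v ^ n‖₊ : ENNReal) ^ (1 / n : ℝ)) ^ (n : ℝ) < (ENNReal.ofReal c) ^ (n : ℝ) :=
    ENNReal.rpow_lt_rpow hn (by exact_mod_cast hn0)
  rw [← ENNReal.rpow_mul, one_div_mul_cancel (by exact_mod_cast hn0.ne'), ENNReal.rpow_one,
    ENNReal.rpow_natCast, ← ENNReal.ofReal_pow hc.le] at h3
  have h4 : (‖v ^ n‖₊ : ENNReal) = ENNReal.ofReal ‖v ^ n‖ := by
    rw [ENNReal.ofReal, norm_toNNReal]
  rw [h4, ENNReal.ofReal_lt_ofReal_iff (by positivity)] at h3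
  exact h3

/-- no scalar part -/
theorem nf_lemma [CompleteSpace X] (hX : ¬ Module.Finite ℂ X) {w C F : X →L[ℂ] X} (hw : QN w)
    (hC : QN C) (hF : F ∈ FRk X) {b β : ℂ}
    (h : C = b • (1 : X →L[ℂ] X) + β • w + F) : b = 0 := by
  by_contra hb
  obtain ⟨u, hu⟩ := (qn_iff C).mp hC b⁻¹
  set v : X →L[ℂ] X := (-(b⁻¹ * β)) • w with hv
  have hvq : QN v := qn_smul hw _
  have hH : (u : X →L[ℂ] X) - v = (-b⁻¹) • F := by
    rw [hu, h, hv]
    have : b⁻¹ • (b • (1 : X →L[ℂ] X) + β • w + F) = (1 : X →L[ℂ] X) + (b⁻¹ * β) • w + b⁻¹ • F := by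
      rw [smul_add, smul_add, smul_smul, smul_smul, inv_mul_cancel₀ hb, one_smul]
    rw [this, neg_smul, neg_smul]
    abel
  have hHF : (u : X →L[ℂ] X) - v ∈ FRk X := by rw [hH]; exact Submodule.smul_mem _ _ hF
  have hpow : ∀ n : ℕ, (u : X →L[ℂ] X) ^ n - v ^ n ∈ FRk X := by
    intro n
    induction n with
    | zero => rw [pow_zero, pow_zero, sub_self]; exact Submodule.zero_mem _
    | succ n ih =>
      have : (u : X →L[ℂ] X) ^ (n + 1) - v ^ (n + 1) =
          (u : X →L[ℂ] X) ^ n * ((u : X →L[ℂ] X) - v) + ((u : X →L[ℂ] X) ^ n - v ^ n) * v := by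
        rw [pow_succ, pow_succ]; noncomm_ring
      rw [this]
      exact Submodule.add_mem _ (FRk_mul_left hHF _) (FRk_mul_right ih _)
  set r : ℝ := ‖(↑u⁻¹ : X →L[ℂ] X)‖ + 1 with hr
  have hr0 : 0 < r := by positivity
  obtain ⟨n, hn, hn0⟩ := ((qn_pow_small hvq (c := r⁻¹) (by positivity)).and
    (eventually_gt_atTop 0)).exists
  have hnorm : ‖(↑u⁻¹ : X →L[ℂ] X) ^ n * v ^ n‖ < 1 := by
    have h1 : ‖(↑u⁻¹ : X →L[ℂ] X) ^ n‖ ≤ r ^ n := by
      refine (norm_pow_le' _ hn0).trans ?_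
      gcongr
      rw [hr]; linarith
    calc ‖(↑u⁻¹ : X →L[ℂ] X) ^ n * v ^ n‖ ≤ ‖(↑u⁻¹ : X →L[ℂ] X) ^ n‖ * ‖v ^ n‖ :=
          norm_mul_le _ _
      _ ≤ r ^ n * ‖v ^ n‖ := by gcongr
      _ < r ^ n * r⁻¹ ^ n := by
          have : 0 < r ^ n := by positivity
          exact mul_lt_mul_of_pos_left hn this
      _ = 1 := by rw [← mul_pow, mul_inv_cancel₀ hr0.ne', one_pow]
  have hunit := isUnit_one_sub_of_norm_lt_one hnorm
  have heq : 1 - (↑u⁻¹ : X →L[ℂ] X) ^ n * v ^ n =
      (↑u⁻¹ : X →L[ℂ] X) ^ n * ((u : X →L[ℂ] X) ^ n - v ^ n) := by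
    have h1 : (↑u⁻¹ : X →L[ℂ] X) ^ n * (u : X →L[ℂ] X) ^ n = 1 := by
      rw [← Units.val_pow_eq_pow_val, ← Units.val_pow_eq_pow_val, ← Units.val_mul, inv_pow,
        inv_mul_cancel, Units.val_one]
    rw [mul_sub, h1]
  rw [heq] at hunit
  have hmem := FRk_mul_left (hpow n) ((↑u⁻¹ : X →L[ℂ] X) ^ n)
  obtain ⟨s, hs⟩ := hunit
  rw [← hs] at hmem
  have h1 : (1 : X →L[ℂ] X) ∈ FRk X := by
    have := FRk_mul_right hmem (↑s⁻¹ : X →L[ℂ] X)
    rwa [Units.mul_inv] at this
  apply hX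
  have h2 := fg_of_mem_FRk h1
  have h3 : LinearMap.range ((1 : X →L[ℂ] X) : X →ₗ[ℂ] X) = ⊤ := by
    rw [LinearMap.range_eq_top]
    exact fun x => ⟨x, rfl⟩
  rw [h3] at h2
  exact ⟨h2⟩

/-- the rank two conjugation test: the coefficient of `w` is zero or one -/
theorem beta_zero_one [CompleteSpace X] {w C : X →L[ℂ] X} (hw : QN w)
    (hnil : ∀ n : ℕ, w ^ n ≠ 0) (hCw : QN (C - w)) {x q : X} {f θ : X →L[ℂ] ℂ} {β : ℂ}
    (hC : C = β • w + (ten x θ + ten q f)) (hwA : QN (w - ten x f))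
    (h : ∀ T, QN T → QN (T - ten x f) → QN (T - w) → QN (T - C)) : β = 0 ∨ β = 1 := by
  by_contra hcon
  push Not at hcon
  obtain ⟨hβ0, hβ1⟩ := hcon
  have he0 : β - 1 ≠ 0 := sub_ne_zero.mpr hβ1
  -- the vectors
  obtain ⟨u1, hfu1, hθu1, hg1⟩ := exists_indep3 hw hnil (Submodule.span ℂ {x, q})
    (Submodule.fg_span (Set.toFinite _)) f θ
  set Z2 : Submodule ℂ X := Submodule.span ℂ {x, q, u1, w u1, w (w u1)} with hZ2
  obtain ⟨u2, hfu2, hθu2, hg2⟩ := exists_indep3 hw hnil Z2
    (Submodule.fg_span (Set.toFinite _)) f θ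
  have mx : x ∈ Z2 := Submodule.subset_span (by simp)
  have mq : q ∈ Z2 := Submodule.subset_span (by simp)
  have m1 : u1 ∈ Z2 := Submodule.subset_span (by simp)
  have m2 : w u1 ∈ Z2 := Submodule.subset_span (by simp)
  have m3 : w (w u1) ∈ Z2 := Submodule.subset_span (by simp)
  -- the functional `v1`
  have hv1ex : w u2 ∉ Z2 ⊔ Submodule.span ℂ {u2, w (w u2)} := by
    intro hm
    obtain ⟨s, hs, t, ht, hst⟩ := Submodule.mem_sup.mp hm
    obtain ⟨a, b, hab⟩ := Submodule.mem_span_pair.mp ht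
    obtain ⟨-, h1, -⟩ := hg2 (-a) 1 (-b) (by
      have hs' : s = w u2 - t := by rw [← hst]; abel
      have : (-a) • u2 + (1 : ℂ) • w u2 + (-b) • w (w u2) = s := by
        rw [hs', ← hab]; module
      rw [this]; exact hs)
    exact one_ne_zero h1
  obtain ⟨v1, hv1, hv1'⟩ := exists_sep_sub ((Submodule.fg_span (Set.toFinite _)).sup
    (Submodule.fg_span (Set.toFinite _))) hv1ex
  have hv1z : ∀ m ∈ Z2, v1 m = 0 := fun m hm => hv1 m (le_sup_left (a := Z2) hm)
  have hv1u2 : v1 u2 = 0 := hv1 _ (le_sup_right (a := Z2) (Submodule.subset_span (by simp)))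
  have hv1w2 : v1 (w (w u2)) = 0 :=
    hv1 _ (le_sup_right (a := Z2) (Submodule.subset_span (by simp)))
  -- the functional `v2`
  set Z3 : Submodule ℂ X := Submodule.span ℂ {x, q, u1, w u1} ⊔
    Submodule.span ℂ {u2, w u2, w (w u2)} with hZ3
  have hZle : Submodule.span ℂ {x, q, u1, w u1} ≤ Z2 := by
    rw [Submodule.span_le]
    intro z hz
    simp only [Set.mem_insert_iff, Set.mem_singleton_iff] at hz
    rcases hz with rfl | rfl | rfl | rfl
    · exact mx
    · exact mq
    · exact m1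
    · exact m2
  have hv2ex : w (w u1) ∉ Z3 := by
    intro hm
    obtain ⟨s, hs, t, ht, hst⟩ := Submodule.mem_sup.mp hm
    rw [Submodule.mem_span_insert] at ht
    obtain ⟨a, t', ht', htt⟩ := ht
    obtain ⟨b, c, hbc⟩ := Submodule.mem_span_pair.mp ht'
    obtain ⟨ea, eb, ec⟩ := hg2 a b c (by
      have : a • u2 + b • w u2 + c • w (w u2) = w (w u1) - s := by
        rw [← hst, htt, ← hbc]; abel
      rw [this]
      exact Z2.sub_mem m3 (hZle hs))
    rw [← hbc, ea, eb, ec, zero_smul, zero_smul, zero_smul, add_zero, add_zero] at htt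
    rw [htt, add_zero] at hst
    -- now `w (w u1)` lies in the span of `x, q, u1, w u1`
    rw [hst] at hs
    have e : Submodule.span ℂ {x, q, u1, w u1} =
        Submodule.span ℂ {x, q} ⊔ Submodule.span ℂ {u1, w u1} := by
      rw [← Submodule.span_union]
      congr 1
      ext z
      simp only [Set.mem_insert_iff, Set.mem_singleton_iff, Set.mem_union]
      tauto
    rw [e] at hs
    obtain ⟨p, hp, r, hr, hpr⟩ := Submodule.mem_sup.mp hs
    obtain ⟨a', b', hab'⟩ := Submodule.mem_span_pair.mp hr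
    obtain ⟨-, -, h1⟩ := hg1 (-a') (-b') 1 (by
      have : (-a') • u1 + (-b') • w u1 + (1 : ℂ) • w (w u1) = p := by
        rw [← hpr, ← hab']; module
      rw [this]; exact hp)
    exact one_ne_zero h1
  obtain ⟨v2, hv2, hv2'⟩ := exists_sep_sub ((Submodule.fg_span (Set.toFinite _)).sup
    (Submodule.fg_span (Set.toFinite _))) hv2ex
  have hv2a : ∀ m ∈ Submodule.span ℂ ({x, q, u1, w u1} : Set X), v2 m = 0 :=
    fun m hm => hv2 m (le_sup_left (a := Submodule.span ℂ {x, q, u1, w u1}) hm)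
  have hv2b : ∀ m ∈ Submodule.span ℂ ({u2, w u2, w (w u2)} : Set X), v2 m = 0 :=
    fun m hm => hv2 m (le_sup_right (a := Submodule.span ℂ {x, q, u1, w u1}) hm)
  have v2x : v2 x = 0 := hv2a _ (Submodule.subset_span (by simp))
  have v2q : v2 q = 0 := hv2a _ (Submodule.subset_span (by simp))
  have v2u1 : v2 u1 = 0 := hv2a _ (Submodule.subset_span (by simp))
  have v2wu1 : v2 (w u1) = 0 := hv2a _ (Submodule.subset_span (by simp))
  have v2u2 : v2 u2 = 0 := hv2b _ (Submodule.subset_span (by simp))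
  have v2wu2 : v2 (w u2) = 0 := hv2b _ (Submodule.subset_span (by simp))
  have v2ww2 : v2 (w (w u2)) = 0 := hv2b _ (Submodule.subset_span (by simp))
  have v1x : v1 x = 0 := hv1z _ mx
  have v1q : v1 q = 0 := hv1z _ mq
  have v1u1 : v1 u1 = 0 := hv1z _ m1
  have v1wu1 : v1 (w u1) = 0 := hv1z _ m2
  have v1ww1 : v1 (w (w u1)) = 0 := hv1z _ m3
  -- the operator `L`
  set L : X →L[ℂ] X := ten u1 v1 + ten u2 v2 with hL
  have hLa : ∀ v, L v = v1 v • u1 + v2 v • u2 := fun v => rfl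
  have hLL : L * L = 0 := by
    ext v
    show L (L v) = 0
    rw [hLa v, map_add, map_smul, map_smul, hLa u1, hLa u2, v1u1, v2u1, hv1u2, v2u2]
    simp
  have hLwL : L * w * L = ten u1 v2 := by
    ext v
    show L (w (L v)) = v2 v • u1
    rw [hLa v, map_add, map_smul, map_smul, map_add, map_smul, map_smul, hLa (w u1), hLa (w u2),
      v1wu1, v2wu1, hv1', v2wu2]
    simp
  have hLx : L x = 0 := by rw [hLa, v1x, v2x]; simp
  have hLq : L q = 0 := by rw [hLa, v1q, v2q]; simp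
  have hfL : ∀ v, f (L v) = 0 := by
    intro v; rw [hLa, map_add, map_smul, map_smul, hfu1, hfu2]; simp
  have hθL : ∀ v, θ (L v) = 0 := by
    intro v; rw [hLa, map_add, map_smul, map_smul, hθu1, hθu2]; simp
  -- for every scalar `μ`
  have key : ∀ μ : ℂ, QN ((C - w) + ((β - 1) * β * μ ^ 2) • ten u1 v2) := by
    intro μ
    obtain ⟨e, he⟩ : ∃ e : ℂ, e = β - 1 := ⟨_, rfl⟩
    rw [← he]
    have hs1 : (e * μ) • L * ((e * μ) • L) = 0 := by
      rw [smul_mul_smul_comm, hLL, smul_zero]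
    obtain ⟨g1, g2, g3⟩ := conj_sq (w := w) hs1
    have hT : (1 + (e * μ) • L) * w * (1 - (e * μ) • L) =
        w + (e * μ) • (L * w - w * L) - ((e * μ) * (e * μ)) • ten u1 v2 := by
      rw [g3, ← hLwL]
      simp only [smul_mul_assoc, mul_smul_comm, smul_sub, smul_smul]
    have hTA : (1 + (e * μ) • L) * ten x f * (1 - (e * μ) • L) = ten x f := by
      obtain ⟨-, -, g4⟩ := conj_sq (w := ten x f) hs1
      rw [g4]
      have e1 : L * ten x f = 0 := by
        rw [mul_ten, hLx]; ext v; simp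
      have e2 : ten x f * L = 0 := by
        ext v
        show f (L v) • x = 0
        rw [hfL, zero_smul]
      rw [smul_mul_assoc, mul_smul_comm, e1, e2, smul_zero, zero_mul, sub_zero, sub_zero, add_zero]
    have q1 : QN ((1 + (e * μ) • L) * w * (1 - (e * μ) • L)) := qn_conj hw g1 g2
    have q2 : QN ((1 + (e * μ) • L) * w * (1 - (e * μ) • L) - ten x f) := by
      have : (1 + (e * μ) • L) * w * (1 - (e * μ) • L) - ten x f =
          (1 + (e * μ) • L) * (w - ten x f) * (1 - (e * μ) • L) := by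
        rw [mul_sub (1 + (e * μ) • L), sub_mul _ _ (1 - (e * μ) • L), hTA]
      rw [this]; exact qn_conj hwA g1 g2
    have q3 : QN ((1 + (e * μ) • L) * w * (1 - (e * μ) • L) - w) := by
      rw [hT]
      set P : X →L[ℂ] X := w + (e * μ) • (L * w - w * L) - ((e * μ) * (e * μ)) • ten u1 v2 - w
        with hP
      have hPa : ∀ v, P v = (e * μ) • ((v1 (w v) • u1 + v2 (w v) • u2) -
          (v1 v • w u1 + v2 v • w u2)) - ((e * μ) * (e * μ)) • (v2 v • u1) := by
        intro v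
        have e1 : P v = w v + (e * μ) • (L (w v) - w (L v)) - ((e * μ) * (e * μ)) • (v2 v • u1)
            - w v := rfl
        rw [e1, hLa (w v), hLa v, map_add, map_smul, map_smul]
        abel
      have P1 : P u1 = 0 := by rw [hPa, v1wu1, v2wu1, v1u1, v2u1]; simp
      have P2 : P u2 = (e * μ) • u1 := by rw [hPa, hv1', v2wu2, hv1u2, v2u2]; simp
      have P3 : P (w u1) = (e * μ) • u2 := by rw [hPa, v1ww1, hv2', v1wu1, v2wu1]; simp
      have P4 : P (w u2) = (e * μ) • (-(w u1)) := by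
        rw [hPa, hv1w2, v2ww2, hv1', v2wu2]; simp
      apply qn_of_pow (n := 5)
      ext v
      have e5 : (P ^ 5) v = P (P (P (P (P v)))) := by
        rw [show (5 : ℕ) = 1 + 1 + 1 + 1 + 1 from rfl]
        simp only [pow_succ, pow_zero, one_mul]
        rfl
      rw [e5, hPa v]
      simp only [map_sub, map_smul, map_add, map_neg, P1, P2, P3, P4, smul_zero, add_zero,
        zero_add, sub_zero, zero_sub, neg_zero, smul_neg]
      simp
    have q4 := h _ q1 q2 q3
    rw [qn_sub_comm] at q4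
    -- conjugate back
    have hs2 : μ • L * (μ • L) = 0 := by
      rw [smul_mul_smul_comm, hLL, smul_zero]
    obtain ⟨r1, r2, r3⟩ := conj_sq (w := C - (1 + (e * μ) • L) * w * (1 - (e * μ) • L)) hs2
    have q5 := qn_conj q4 r1 r2
    rw [r3] at q5
    have hLF : L * (ten x θ + ten q f) = 0 := by
      rw [mul_add, mul_ten, mul_ten, hLx, hLq]
      ext v; simp
    have hFL : (ten x θ + ten q f) * L = 0 := by
      ext v
      show θ (L v) • x + f (L v) • q = 0
      rw [hθL, hfL]; simp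
    have hN : ten u1 v2 = L * w * L := hLwL.symm
    have fin : C - (1 + (e * μ) • L) * w * (1 - (e * μ) • L) +
        (μ • L * (C - (1 + (e * μ) • L) * w * (1 - (e * μ) • L)) -
          (C - (1 + (e * μ) • L) * w * (1 - (e * μ) • L)) * (μ • L)) -
        μ • L * (C - (1 + (e * μ) • L) * w * (1 - (e * μ) • L)) * (μ • L) =
        (C - w) + (e * β * μ ^ 2) • ten u1 v2 := by
      have hβ : β = e + 1 := by rw [he]; ring
      set F := ten x θ + ten q f with hF
      have hC' : C - (1 + (e * μ) • L) * w * (1 - (e * μ) • L) =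
          F + e • w - (e * μ) • (L * w - w * L) + ((e * μ) * (e * μ)) • (L * w * L) := by
        rw [hT, hC, hN, hβ]
        module
      rw [hC', hN, hC, hβ]
      -- products
      have p1 : L * (F + e • w - (e * μ) • (L * w - w * L) +
          ((e * μ) * (e * μ)) • (L * w * L)) = e • (L * w) + (e * μ) • (L * w * L) := by
        have a1 : L * (L * w) = 0 := by rw [← mul_assoc, hLL, zero_mul]
        have a2 : L * (L * w * L) = 0 := by rw [← mul_assoc, ← mul_assoc, hLL, zero_mul, zero_mul]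
        rw [mul_add, mul_sub, mul_add, mul_smul_comm, mul_smul_comm, mul_smul_comm, mul_sub,
          hLF, a1, a2, ← mul_assoc L w L]
        simp
      have p2 : (F + e • w - (e * μ) • (L * w - w * L) +
          ((e * μ) * (e * μ)) • (L * w * L)) * L = e • (w * L) - (e * μ) • (L * w * L) := by
        have a1 : w * L * L = 0 := by rw [mul_assoc, hLL, mul_zero]
        have a2 : L * w * L * L = 0 := by rw [mul_assoc, hLL, mul_zero]
        rw [add_mul, sub_mul, add_mul, smul_mul_assoc, smul_mul_assoc, smul_mul_assoc, sub_mul,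
          hFL, a1, a2]
        simp
      have p3 : L * (F + e • w - (e * μ) • (L * w - w * L) +
          ((e * μ) * (e * μ)) • (L * w * L)) * L = e • (L * w * L) := by
        have a2 : L * w * L * L = 0 := by rw [mul_assoc, hLL, mul_zero]
        rw [p1, add_mul, smul_mul_assoc, smul_mul_assoc, a2, smul_zero, add_zero]
      rw [smul_mul_assoc μ L, mul_smul_comm μ, smul_mul_assoc μ, mul_smul_comm μ, p3, p1, p2]
      module
    rw [fin] at q5
    exact q5
  -- the pencil
  have hpen : ∀ t : ℂ, QN ((C - w) + t • ten u1 v2) := by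
    intro t
    have hne : (β - 1) * β ≠ 0 := mul_ne_zero he0 hβ0
    obtain ⟨μ, hμ⟩ := IsAlgClosed.exists_pow_nat_eq (t / ((β - 1) * β)) (n := 2) (by norm_num)
    have := key μ
    rw [hμ, mul_div_cancel₀ _ hne] at this
    exact this
  have h2 := pencil_one hCw hpen 2
  have e1 : (C - w) u1 = (β - 1) • w u1 := by
    rw [hC]
    show β • w u1 + (θ u1 • x + f u1 • q) - w u1 = _
    rw [hθu1, hfu1]; module
  have e2 : v2 ((C - w) (w u1)) = (β - 1) := by
    rw [hC]
    show v2 (β • w (w u1) + (θ (w u1) • x + f (w u1) • q) - w (w u1)) = _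
    simp only [map_sub, map_add, map_smul, v2x, v2q, hv2', smul_eq_mul]
    ring
  have e3 : ((C - w) ^ 2) u1 = (C - w) ((C - w) u1) := by rw [pow_two]; rfl
  rw [e3, e1, map_smul, map_smul, e2, smul_eq_mul] at h2
  exact mul_ne_zero he0 he0 h2

end Pool.Agent.H.MP_bb4c62_an.helper6.NL
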