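import Pool.Agent.H.MP_bb4c62_an.helper6.NLine3

/-!
A line through two points with rank one difference stays adjacent to the whole affine line
through these points.
-/

namespace Pool.Agent.H.MP_bb4c62_an.helper6.NL

open Complex Metric Set Filter Topology
open Pool.Agent.H.MP_bb4c62_an.helper6.Perturb
open Pool.Agent.H.MP_bb4c62_an.helper6.Gadgets

variable {X : Type*} [NormedAddCommGroup X] [NormedSpace ℂ X]

theorem exists_three {α : Type*} {s : Set α} (hs : s.Infinite) :
    ∃ a b c, a ∈ s ∧ b ∈ s ∧ c ∈ s ∧ a ≠ b ∧ a ≠ c ∧ b ≠ c := by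
  obtain ⟨a, ha⟩ := hs.nonempty
  obtain ⟨b, hb⟩ := (hs.diff (Set.finite_singleton a)).nonempty
  obtain ⟨c, hc⟩ := (hs.diff (Set.toFinite {a, b})).nonempty
  refine ⟨a, b, c, ha, hb.1, hc.1, ?_, ?_, ?_⟩
  · rintro rfl; exact hb.2 rfl
  · rintro rfl; exact hc.2 (by simp)
  · rintro rfl; exact hc.2 (by simp)

theorem exists_gen [CompleteSpace X] {w : X →L[ℂ] X} (hw : QN w)
    (hnil : ∀ n : ℕ, w ^ n ≠ 0) (f : X →L[ℂ] ℂ) (Z : Submodule ℂ X) (hZ : Z.FG) :
    ∃ u, f u = 0 ∧ Gen w Z u := by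
  obtain ⟨u, h1, -, h2⟩ := exists_indep3 hw hnil Z hZ f f
  exact ⟨u, h1, h2⟩

theorem line_form [CompleteSpace X] (hX : ¬ Module.Finite ℂ X) {m : Set (X →L[ℂ] X)}
    (hm : IsLine m) {x : X} {f : X →L[ℂ] ℂ} (hx : x ≠ 0) (hf : f ≠ 0) (hfx : f x = 0)
    (h0 : 0 ∈ m) (hA : ten x f ∈ m) {w : X →L[ℂ] X} (hwm : w ∈ m) (hnil : ∀ n : ℕ, w ^ n ≠ 0)
    {C : X →L[ℂ] X} (hCm : C ∈ m) :
    ∃ (β : ℂ) (θ : X →L[ℂ] ℂ) (q : X), C = β • w + (ten x θ + ten q f) ∧ (β = 0 ∨ β = 1) := by
  have hw : QN w := by simpa using hm.clique w hwm 0 h0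
  have hC : QN C := by simpa using hm.clique C hCm 0 h0
  have hwA : QN (w - ten x f) := hm.clique w hwm _ hA
  have hD : QN (C - w) := hm.clique C hCm w hwm
  have hA0 : ten x f ≠ 0 := by
    rw [Ne, ten_eq_zero_iff]; push Not; exact ⟨hx, hf⟩
  have hw0 : w ≠ 0 := by
    intro h; exact hnil 1 (by rw [pow_one]; exact h)
  have hwneA : ten x f ≠ w := by
    intro h
    exact hnil 2 (by rw [pow_two, ← h, ten_sq hfx])
  have gen : ∀ T, QN T → QN (T - ten x f) → QN (T - w) → QN (T - C) := by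
    intro T h1 h2 h3
    exact hm.gen T 0 (ten x f) w h0 hA hwm hA0.symm hw0.symm hwneA (by rwa [sub_zero]) h2 h3 C hCm
  obtain ⟨b, c, θ, q, hD'⟩ := lld (w := w) (D := C - w) hx hf (exists_gen hw hnil f) (by
    intro y hfy hg
    apply mem_span_of_tests hD _ hfy hg
    intro y k hfy hkx hky hkw t
    obtain ⟨t1, t2, t3⟩ := conj_test hw hwA hfy hkx hky hkw (-t)
    have := gen _ t1 t2 t3
    rw [qn_sub_comm] at this
    have e : C - (w + -t • (ten y (k.comp w) - ten (w y) k)) =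
        C - w + t • (ten y (k.comp w) - ten (w y) k) := by module
    rwa [e] at this)
  have hF : ten x θ + ten q f ∈ FRk X := (FRk X).add_mem (ten_mem_FRk _ _) (ten_mem_FRk _ _)
  have hC' : C = b • (1 : X →L[ℂ] X) + (c + 1) • w + (ten x θ + ten q f) := by
    have : C = (C - w) + w := by abel
    rw [this, hD']; module
  have hb := nf_lemma hX hw hC hF hC'
  rw [hb, zero_smul, zero_add] at hC'
  exact ⟨c + 1, θ, q, hC', beta_zero_one hw hnil hD hC' hwA gen⟩

/-- powers of `x ⊗ θ + q ⊗ f` tested on the kernel of `f` -/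
theorem qn_form_test [CompleteSpace X] {x q y : X} {f θ k : X →L[ℂ] ℂ} (hfx : f x = 0)
    (hF : QN (ten x θ + ten q f)) (hfy : f y = 0) (hkx : k x = 0) (hky : k y = 0) (t : ℂ) :
    QN (ten x θ + ten q f + t • ten y k) := by
  have hv : ∀ v, (ten x θ + ten q f) v = θ v • x + f v • q := fun v => rfl
  have key : ∀ (n : ℕ), ∃ a b : ℂ, ((ten x θ + ten q f) ^ n) y = a • x + b • y := by
    intro n
    induction n with
    | zero => exact ⟨0, 1, by simp⟩
    | succ n ih =>
      obtain ⟨a, b, h⟩ := ih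
      refine ⟨a * θ x + b * θ y, 0, ?_⟩
      rw [pow_succ']
      show (ten x θ + ten q f) (((ten x θ + ten q f) ^ n) y) = _
      rw [h, hv, map_add, map_smul, map_smul, map_add, map_smul, map_smul, hfx, hfy]
      simp
  apply qn_add_smul_ten_of_orth hF
  intro n
  obtain ⟨a, b, h⟩ := key n
  rw [h, map_add, map_smul, map_smul, hkx, hky]
  simp

theorem line_through [CompleteSpace X] (hX : ¬ Module.Finite ℂ X) {m : Set (X →L[ℂ] X)}
    (hm : IsLine m) {x : X} {f : X →L[ℂ] ℂ} (hx : x ≠ 0) (hf : f ≠ 0) (hfx : f x = 0)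
    (h0 : 0 ∈ m) (hA : ten x f ∈ m) {w : X →L[ℂ] X} (hwm : w ∈ m) (z : ℂ) :
    QN (w - z • ten x f) := by
  have hw : QN w := by simpa using hm.clique w hwm 0 h0
  have hwA : QN (w - ten x f) := hm.clique w hwm _ hA
  by_cases hnil : ∃ n : ℕ, w ^ n = 0
  · have := rank_one_two_of_nilpotent hw hnil (x := x) (f := f) (a := -1) (by norm_num)
      (by rwa [neg_one_smul, ← sub_eq_add_neg]) (-z)
    rwa [neg_smul, ← sub_eq_add_neg] at this
  exfalso
  push Not at hnil
  -- it suffices to show that w maps y into span (x, y)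
  have fin : ¬ ∀ (y : X) (k : X →L[ℂ] ℂ), f y = 0 → k x = 0 → k y = 0 → k (w y) = 0 := by
    intro h
    obtain ⟨u, hfu, hu⟩ := exists_gen hw hnil f (Submodule.span ℂ {x})
      (Submodule.fg_span_singleton x)
    have hmem : w u ∈ Submodule.span ℂ ({x, u} : Set X) := by
      by_contra hcon
      obtain ⟨k, hk, hk'⟩ := exists_sep_sub (Submodule.fg_span (Set.toFinite _)) hcon
      rw [h u k hfu (hk x (Submodule.subset_span (by simp)))
        (hk u (Submodule.subset_span (by simp)))] at hk'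
      exact zero_ne_one hk'
    obtain ⟨a, b, hab⟩ := Submodule.mem_span_pair.mp hmem
    obtain ⟨-, h2, -⟩ := hu b (-1) 0 (by
      have : b • u + (-1 : ℂ) • w u + (0 : ℂ) • w (w u) = (-a) • x := by
        rw [zero_smul, ← hab]; module
      rw [this]
      exact Submodule.smul_mem _ _ (Submodule.mem_span_singleton_self x))
    norm_num at h2
  have hcov : m = {C | C ∈ m ∧ ∃ (θ : X →L[ℂ] ℂ) (q : X), C = ten x θ + ten q f} ∪
      {C | C ∈ m ∧ ∃ (θ : X →L[ℂ] ℂ) (q : X), C = w + (ten x θ + ten q f)} := by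
    ext C
    constructor
    · intro hC
      obtain ⟨β, θ, q, h1, h2⟩ := line_form hX hm hx hf hfx h0 hA hwm hnil hC
      rcases h2 with h2 | h2
      · left; exact ⟨hC, θ, q, by rw [h1, h2, zero_smul, zero_add]⟩
      · right; exact ⟨hC, θ, q, by rw [h1, h2, one_smul]⟩
    · rintro (h | h) <;> exact h.1
  have hinf := hm.inf
  rw [hcov, Set.infinite_union] at hinf
  rcases hinf with hinf | hinf
  · obtain ⟨C1, C2, C3, ⟨m1, θ1, q1, e1⟩, ⟨m2, θ2, q2, e2⟩, ⟨m3, θ3, q3, e3⟩, n12, n13, n23⟩ :=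
      exists_three hinf
    apply fin
    intro y k hfy hkx hky
    have tst : ∀ (C : X →L[ℂ] X) (θ : X →L[ℂ] ℂ) (q : X), C ∈ m → C = ten x θ + ten q f →
        ∀ t : ℂ, QN (t • ten y k - C) := by
      intro C θ q hC he t
      have hF : QN (ten x θ + ten q f) := by
        rw [← he]; simpa using hm.clique C hC 0 h0
      have := qn_form_test hfx hF hfy hkx hky (-t)
      rw [qn_sub_comm, he]
      have e : ten x θ + ten q f - t • ten y k = ten x θ + ten q f + -t • ten y k := by module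
      rwa [e]
    have hall : ∀ t : ℂ, QN (w + t • ten y k) := by
      intro t
      have := hm.gen _ C1 C2 C3 m1 m2 m3 n12 n13 n23 (tst C1 θ1 q1 m1 e1 (-t))
        (tst C2 θ2 q2 m2 e2 (-t)) (tst C3 θ3 q3 m3 e3 (-t)) w hwm
      rw [qn_sub_comm] at this
      have e : w - -t • ten y k = w + t • ten y k := by module
      rwa [e] at this
    have := pencil_one hw hall 1
    rwa [pow_one] at this
  · obtain ⟨C1, C2, C3, ⟨m1, θ1, q1, e1⟩, ⟨m2, θ2, q2, e2⟩, ⟨m3, θ3, q3, e3⟩, n12, n13, n23⟩ :=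
      exists_three hinf
    apply fin
    intro y k hfy hkx hky
    have tst : ∀ (C : X →L[ℂ] X) (θ : X →L[ℂ] ℂ) (q : X), C ∈ m →
        C = w + (ten x θ + ten q f) → ∀ t : ℂ, QN (w + t • ten y k - C) := by
      intro C θ q hC he t
      have hF : QN (ten x θ + ten q f) := by
        have := hm.clique C hC w hwm
        rwa [he, add_sub_cancel_left] at this
      have := qn_form_test hfx hF hfy hkx hky (-t)
      rw [qn_sub_comm, he]
      have e : w + (ten x θ + ten q f) - (w + t • ten y k) =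
        ten x θ + ten q f + -t • ten y k := by module
      rwa [e]
    have hall : ∀ t : ℂ, QN (w + t • ten y k) := by
      intro t
      have := hm.gen _ C1 C2 C3 m1 m2 m3 n12 n13 n23 (tst C1 θ1 q1 m1 e1 t)
        (tst C2 θ2 q2 m2 e2 t) (tst C3 θ3 q3 m3 e3 t) 0 h0
      rwa [sub_zero] at this
    have := pencil_one hw hall 1
    rwa [pow_one] at this

end Pool.Agent.H.MP_bb4c62_an.helper6.NL
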