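import Pool.Agent.H.MP_bb4c62_an.helper6.NDefs

/-!
Pencils of finite rank perturbations of quasinilpotent operators.
-/

namespace Pool.Agent.H.MP_bb4c62_an.helper6.NL

open Complex Metric Set Filter Topology
open Pool.Agent.H.MP_bb4c62_an.helper6.Perturb
open Pool.Agent.H.MP_bb4c62_an.helper6.Gadgets
open Pool.Agent.H.MP_bb4c62_an.helper6.Picard

variable {X : Type*} [NormedAddCommGroup X] [NormedSpace ℂ X]

theorem res_expand {D : X →L[ℂ] X} (hD : QN D) (z : ℂ) (y : X) :
    Ring.inverse (1 - z • D) y = y + z • Ring.inverse (1 - z • D) (D y) := by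
  have hu := (qn_iff D).mp hD z
  have h3 : (Ring.inverse (1 - z • D) * (1 - z • D)) y = y := by
    rw [Ring.inverse_mul_cancel _ hu]; rfl
  have h4 : Ring.inverse (1 - z • D) (y - z • D y) = y := h3
  rw [map_sub, map_smul] at h4
  conv_rhs => rw [← h4]
  rw [h4]
  rw [sub_eq_iff_eq_add] at h4
  exact h4

theorem res_zero {D : X →L[ℂ] X} (y : X) : Ring.inverse (1 - (0 : ℂ) • D) y = y := by
  rw [zero_smul, sub_zero, Ring.inverse_one]; rfl

theorem eq_zero_of_off_zero {h : ℂ → ℂ} (hc : Continuous h) (h0 : ∀ z, z ≠ 0 → h z = 0) (z : ℂ) :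
    h z = 0 := by
  have := Continuous.ext_on (dense_compl_singleton (0 : ℂ)) hc continuous_const
    (fun z hz => h0 z hz)
  exact congrFun this z

theorem orth_of_res [CompleteSpace X] {D : X →L[ℂ] X} (hD : QN D) {k : X →L[ℂ] ℂ} (n : ℕ) :
    ∀ y : X, (∀ z : ℂ, k (Ring.inverse (1 - z • D) y) = 0) → k ((D ^ n) y) = 0 := by
  induction n with
  | zero =>
    intro y h
    have := h 0
    rwa [res_zero] at this
  | succ n ih =>
    intro y h
    rw [pow_succ]
    show k ((D ^ n) (D y)) = 0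
    apply ih
    apply eq_zero_of_off_zero (differentiable_resolvent hD (D y) k).continuous
    intro z hz
    have h1 := h z
    rw [res_expand hD z y, map_add, map_smul, smul_eq_mul] at h1
    have h2 := h 0
    rw [res_zero] at h2
    rw [h2, zero_add] at h1
    exact (mul_eq_zero.mp h1).resolve_left hz

theorem norm_pow_apply_le (D : X →L[ℂ] X) (n : ℕ) (y : X) : ‖(D ^ n) y‖ ≤ ‖D‖ ^ n * ‖y‖ := by
  induction n with
  | zero => simp
  | succ n ih =>
    rw [pow_succ', pow_succ', mul_assoc]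
    show ‖D ((D ^ n) y)‖ ≤ _
    refine (ContinuousLinearMap.le_opNorm _ _).trans ?_
    gcongr

theorem res_of_orth [CompleteSpace X] {D : X →L[ℂ] X} (hD : QN D) {y : X} {k : X →L[ℂ] ℂ}
    (h : ∀ n : ℕ, k ((D ^ n) y) = 0) (z : ℂ) : k (Ring.inverse (1 - z • D) y) = 0 := by
  -- expansions
  have hexp : ∀ (z : ℂ) (n : ℕ), k (Ring.inverse (1 - z • D) y) =
      z ^ n * k (Ring.inverse (1 - z • D) ((D ^ n) y)) := by
    intro z n
    induction n with
    | zero => simp
    | succ n ih =>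
      rw [ih, res_expand hD z ((D ^ n) y), map_add, h n, zero_add, map_smul, smul_eq_mul,
        pow_succ, mul_assoc, pow_succ']
      rfl
  have hd := differentiable_resolvent hD y k
  have han : AnalyticOnNhd ℂ (fun z : ℂ => k (Ring.inverse (1 - z • D) y)) Set.univ :=
    fun z _ => hd.analyticAt z
  have hcont : Continuous (fun z : ℂ => Ring.inverse (1 - z • D : X →L[ℂ] X)) := by
    rw [continuous_iff_continuousAt]
    intro z
    have h1 : DifferentiableAt ℂ (fun z : ℂ => (1 - z • D : X →L[ℂ] X)) z := by fun_prop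
    exact (h1.inverse ((qn_iff D).mp hD z)).continuousAt
  have hev : (fun z : ℂ => k (Ring.inverse (1 - z • D) y)) =ᶠ[𝓝 0] 0 := by
    -- near zero the resolvent is bounded
    have hb : ∀ᶠ z : ℂ in 𝓝 0, ‖Ring.inverse (1 - z • D : X →L[ℂ] X)‖ <
        ‖Ring.inverse (1 - (0 : ℂ) • D : X →L[ℂ] X)‖ + 1 :=
      (hcont.norm.tendsto 0).eventually_lt_const (by linarith)
    have hs : ∀ᶠ z : ℂ in 𝓝 0, ‖z‖ * ‖D‖ < 1 := by
      have : Continuous (fun z : ℂ => ‖z‖ * ‖D‖) := by fun_prop
      have h2 := this.tendsto 0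
      simp only [norm_zero, zero_mul] at h2
      exact h2.eventually_lt_const one_pos
    filter_upwards [hb, hs] with z hz1 hz2
    show k (Ring.inverse (1 - z • D) y) = 0
    set C : ℝ := ‖k‖ * ((‖Ring.inverse (1 - (0 : ℂ) • D : X →L[ℂ] X)‖ + 1) * ‖y‖) with hC
    have hle : ∀ n : ℕ, ‖k (Ring.inverse (1 - z • D) y)‖ ≤ C * (‖z‖ * ‖D‖) ^ n := by
      intro n
      rw [hexp z n, norm_mul, norm_pow]
      have e1 : ‖k (Ring.inverse (1 - z • D) ((D ^ n) y))‖ ≤
          ‖k‖ * (‖Ring.inverse (1 - z • D : X →L[ℂ] X)‖ * (‖D‖ ^ n * ‖y‖)) := by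
        refine (k.le_opNorm _).trans ?_
        gcongr
        refine (ContinuousLinearMap.le_opNorm _ _).trans ?_
        gcongr
        exact norm_pow_apply_le D n y
      calc ‖z‖ ^ n * ‖k (Ring.inverse (1 - z • D) ((D ^ n) y))‖
          ≤ ‖z‖ ^ n * (‖k‖ * (‖Ring.inverse (1 - z • D : X →L[ℂ] X)‖ * (‖D‖ ^ n * ‖y‖))) := by
            gcongr
        _ ≤ ‖z‖ ^ n * (‖k‖ * ((‖Ring.inverse (1 - (0 : ℂ) • D : X →L[ℂ] X)‖ + 1) *
            (‖D‖ ^ n * ‖y‖))) := by gcongr
        _ = C * (‖z‖ * ‖D‖) ^ n := by rw [hC, mul_pow]; ring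
    have hlim : Tendsto (fun n : ℕ => C * (‖z‖ * ‖D‖) ^ n) atTop (𝓝 (C * 0)) :=
      (tendsto_pow_atTop_nhds_zero_of_lt_one (by positivity) hz2).const_mul C
    rw [mul_zero] at hlim
    have := ge_of_tendsto' hlim hle
    exact norm_le_zero_iff.mp this
  exact han.eqOn_zero_of_preconnected_of_eventuallyEq_zero isPreconnected_univ (mem_univ 0)
    hev (mem_univ z)

theorem res_zero_of_pencil [CompleteSpace X] {D : X →L[ℂ] X} (hD : QN D) {y : X}
    {k : X →L[ℂ] ℂ} (h : ∀ t : ℂ, QN (D + t • ten y k)) (z : ℂ) :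
    k (Ring.inverse (1 - z • D) y) = 0 := by
  apply eq_zero_of_off_zero (differentiable_resolvent hD y k).continuous
  intro z hz
  by_contra hne
  have h1 := h (z * k (Ring.inverse (1 - z • D) y))⁻¹
  rw [← ten_smul_left, QN, qn_add_ten_iff hD] at h1
  apply h1 z
  rw [map_smul, map_smul, smul_eq_mul]
  field_simp

theorem pencil_one [CompleteSpace X] {D : X →L[ℂ] X} (hD : QN D) {y : X} {k : X →L[ℂ] ℂ}
    (h : ∀ t : ℂ, QN (D + t • ten y k)) (n : ℕ) : k ((D ^ n) y) = 0 :=
  orth_of_res hD n y (res_zero_of_pencil hD h)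

theorem qn_add_ten_of_orth [CompleteSpace X] {D : X →L[ℂ] X} (hD : QN D) {y : X}
    {k : X →L[ℂ] ℂ} (h : ∀ n : ℕ, k ((D ^ n) y) = 0) : QN (D + ten y k) := by
  rw [QN, qn_add_ten_iff hD]
  intro z
  rw [res_of_orth hD h, mul_zero]
  exact zero_ne_one

theorem qn_add_smul_ten_of_orth [CompleteSpace X] {D : X →L[ℂ] X} (hD : QN D) {y : X}
    {k : X →L[ℂ] ℂ} (h : ∀ n : ℕ, k ((D ^ n) y) = 0) (t : ℂ) : QN (D + t • ten y k) := by
  rw [← ten_smul_left]
  apply qn_add_ten_of_orth hD
  intro n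
  rw [map_smul, map_smul, h n, smul_zero]

/-- three points of a rank one line -/
theorem rank_one_three [CompleteSpace X] {V : X →L[ℂ] X} (hV : QN V) {x : X} {f : X →L[ℂ] ℂ}
    {a b : ℂ} (ha : a ≠ 0) (hb : b ≠ 0) (hab : a ≠ b) (h1 : QN (V + a • ten x f))
    (h2 : QN (V + b • ten x f)) (τ : ℂ) : QN (V + τ • ten x f) := by
  set G : ℂ → ℂ := fun z => z * f (Ring.inverse (1 - z • V) x) with hG
  have hGd : Differentiable ℂ G := differentiable_id.mul (differentiable_resolvent hV x f)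
  have h1' : ∀ z, G z ≠ a⁻¹ := by
    intro z hz
    rw [← ten_smul_left, QN, qn_add_ten_iff hV] at h1
    apply h1 z
    rw [map_smul, map_smul, smul_eq_mul]
    have : z * f (Ring.inverse (1 - z • V) x) = a⁻¹ := hz
    rw [mul_left_comm, this, mul_inv_cancel₀ ha]
  have h2' : ∀ z, G z ≠ b⁻¹ := by
    intro z hz
    rw [← ten_smul_left, QN, qn_add_ten_iff hV] at h2
    apply h2 z
    rw [map_smul, map_smul, smul_eq_mul]
    have : z * f (Ring.inverse (1 - z • V) x) = b⁻¹ := hz
    rw [mul_left_comm, this, mul_inv_cancel₀ hb]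
  -- affine normalisation
  have hd0 : (a⁻¹ - b⁻¹) ≠ 0 := sub_ne_zero.mpr (fun h => hab (inv_injective h))
  set H : ℂ → ℂ := fun z => (2 * G z - (a⁻¹ + b⁻¹)) / (a⁻¹ - b⁻¹) with hH
  have hHd : Differentiable ℂ H := by
    apply Differentiable.div_const
    exact (hGd.const_mul 2).sub_const _
  have hH1 : ∀ z, H z ≠ 1 := by
    intro z hz
    apply h1' z
    have : 2 * G z - (a⁻¹ + b⁻¹) = a⁻¹ - b⁻¹ := by
      have h3 : (2 * G z - (a⁻¹ + b⁻¹)) / (a⁻¹ - b⁻¹) = 1 := hz
      rwa [div_eq_one_iff_eq hd0] at h3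
    linear_combination (1 / 2 : ℂ) * this
  have hH2 : ∀ z, H z ≠ -1 := by
    intro z hz
    apply h2' z
    have : 2 * G z - (a⁻¹ + b⁻¹) = -(a⁻¹ - b⁻¹) := by
      have h3 : (2 * G z - (a⁻¹ + b⁻¹)) / (a⁻¹ - b⁻¹) = -1 := hz
      rw [div_eq_iff hd0] at h3
      rw [h3]; ring
    linear_combination (1 / 2 : ℂ) * this
  have hconst : ∀ z, G z = 0 := by
    intro z
    have h3 := picard hHd hH1 hH2 z 0
    have h4 : (2 * G z - (a⁻¹ + b⁻¹)) = (2 * G 0 - (a⁻¹ + b⁻¹)) := by
      have h5 : (2 * G z - (a⁻¹ + b⁻¹)) / (a⁻¹ - b⁻¹) =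
        (2 * G 0 - (a⁻¹ + b⁻¹)) / (a⁻¹ - b⁻¹) := h3
      exact (div_left_inj' hd0).mp h5
    have h6 : G 0 = 0 := by simp [hG]
    rw [h6] at h4
    linear_combination (1 / 2 : ℂ) * h4
  rw [← ten_smul_left, QN, qn_add_ten_iff hV]
  intro z
  rw [map_smul, map_smul, smul_eq_mul]
  have h4 : z * f (Ring.inverse (1 - z • V) x) = 0 := hconst z
  rw [mul_left_comm, h4, mul_zero]
  exact zero_ne_one

theorem quad_const {u v : ℂ} (h : ∀ s : ℂ, 1 + s * u + s ^ 2 * v ≠ 0) : u = 0 ∧ v = 0 := by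
  have hv : v = 0 := by
    by_contra hv
    obtain ⟨r, hr⟩ := IsAlgClosed.exists_pow_nat_eq (discrim v u 1) (n := 2) (by norm_num)
    obtain ⟨x, hx⟩ := exists_quadratic_eq_zero hv ⟨r, by rw [← hr, pow_two]⟩
    apply h x
    linear_combination hx
  refine ⟨?_, hv⟩
  by_contra hu
  apply h (-u⁻¹)
  rw [hv]
  field_simp
  ring

/-- rank two pencils -/
theorem pencil_two_res [CompleteSpace X] {D : X →L[ℂ] X} (hD : QN D) {y z : X}
    {p k : X →L[ℂ] ℂ} (h : ∀ t : ℂ, QN (D + t • (ten y p - ten z k))) {ζ : ℂ} (hζ : ζ ≠ 0) :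
    p (Ring.inverse (1 - ζ • D) y) = k (Ring.inverse (1 - ζ • D) z) ∧
    p (Ring.inverse (1 - ζ • D) z) * k (Ring.inverse (1 - ζ • D) y) =
      p (Ring.inverse (1 - ζ • D) y) * k (Ring.inverse (1 - ζ • D) z) := by
  set R := Ring.inverse (1 - ζ • D) with hR
  set a := p (R y) with ha
  set b := p (R z) with hb
  set c := k (R y) with hc
  set d := k (R z) with hd
  have hu := (qn_iff D).mp hD ζ
  have hRinv : (1 - ζ • D) * R = 1 := Ring.mul_inverse_cancel _ hu
  have key : ∀ s : ℂ, 1 + s * (d - a) + s ^ 2 * (b * c - a * d) ≠ 0 := by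
    intro s hs
    have hdet : (!![1 - s * a, -(s * b); s * c, 1 + s * d] : Matrix (Fin 2) (Fin 2) ℂ).det = 0 := by
      rw [Matrix.det_fin_two_of]
      linear_combination hs
    obtain ⟨w, hw0, hw⟩ := Matrix.exists_mulVec_eq_zero_iff.mpr hdet
    have e1 : (1 - s * a) * w 0 + -(s * b) * w 1 = 0 := by
      have := congrFun hw 0
      simpa [Matrix.mulVec, dotProduct, Fin.sum_univ_two] using this
    have e2 : s * c * w 0 + (1 + s * d) * w 1 = 0 := by
      have := congrFun hw 1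
      simpa [Matrix.mulVec, dotProduct, Fin.sum_univ_two] using this
    set v : X := w 0 • R y + w 1 • R z with hv
    have hpv : p v = w 0 * a + w 1 * b := by
      rw [hv, map_add, map_smul, map_smul]; rfl
    have hkv : k v = w 0 * c + w 1 * d := by
      rw [hv, map_add, map_smul, map_smul]; rfl
    have hv0 : v ≠ 0 := by
      intro h0
      rw [h0, map_zero] at hpv hkv
      apply hw0
      ext i
      fin_cases i
      · show w 0 = 0
        linear_combination e1 - s * hpv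
      · show w 1 = 0
        linear_combination e2 + s * hkv
    have hq := h (s / ζ)
    refine not_qn_of_eigen (x := v) (μ := ζ⁻¹) hv0 (inv_ne_zero hζ) ?_ hq
    -- `(1 - ζ D) v = s N v`
    have h1 : (1 - ζ • D) v = w 0 • y + w 1 • z := by
      have ey : (1 - ζ • D) (R y) = y := by
        have : ((1 - ζ • D) * R) y = y := by rw [hRinv]; rfl
        exact this
      have ez : (1 - ζ • D) (R z) = z := by
        have : ((1 - ζ • D) * R) z = z := by rw [hRinv]; rfl
        exact this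
      rw [hv, map_add, map_smul, map_smul, ey, ez]
    have h2 : v - ζ • D v = w 0 • y + w 1 • z := h1
    have h3 : D v = ζ⁻¹ • (v - (w 0 • y + w 1 • z)) := by
      rw [← h2, sub_sub_cancel, smul_smul, inv_mul_cancel₀ hζ, one_smul]
    have h4 : (D + (s / ζ) • (ten y p - ten z k)) v =
        D v + (s / ζ) • (p v • y - k v • z) := rfl
    rw [h4, h3, hpv, hkv]
    have e1' : w 0 = s * (w 0 * a + w 1 * b) := by linear_combination e1
    have e2' : w 1 = -(s * (w 0 * c + w 1 * d)) := by linear_combination e2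
    have e3 : (s / ζ) • ((w 0 * a + w 1 * b) • y - (w 0 * c + w 1 * d) • z) =
        ζ⁻¹ • (w 0 • y + w 1 • z) := by
      rw [smul_sub, smul_smul, smul_smul, smul_add, smul_smul, smul_smul]
      have f1 : s / ζ * (w 0 * a + w 1 * b) = ζ⁻¹ * w 0 := by
        rw [div_eq_mul_inv, mul_comm s, mul_assoc, ← e1']
      have f2 : s / ζ * (w 0 * c + w 1 * d) = -(ζ⁻¹ * w 1) := by
        rw [div_eq_mul_inv, mul_comm s, mul_assoc, ← mul_neg]
        congr 1
        rw [e2', neg_neg]
        rw [← e2']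
      rw [f1, f2, neg_smul, sub_neg_eq_add]
    rw [e3, ← smul_add, sub_add_cancel]
  obtain ⟨h1, h2⟩ := quad_const key
  exact ⟨(sub_eq_zero.mp h1).symm, sub_eq_zero.mp h2⟩

theorem pencil_two [CompleteSpace X] {D : X →L[ℂ] X} (hD : QN D) {y z : X}
    {p k : X →L[ℂ] ℂ} (hky : k y = 0) (hpy : p y = 0) (hkz : k z = 0)
    (h : ∀ t : ℂ, QN (D + t • (ten y p - ten z k))) : k (D y) * p z = 0 := by
  set F : ℂ → ℂ := fun ζ => p (Ring.inverse (1 - ζ • D) z) *
    k (Ring.inverse (1 - ζ • D) (D y)) - ζ * (p (Ring.inverse (1 - ζ • D) (D y)) *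
    k (Ring.inverse (1 - ζ • D) (D z))) with hF
  have hFc : Continuous F := by
    have h1 := (differentiable_resolvent hD z p).continuous
    have h2 := (differentiable_resolvent hD (D y) k).continuous
    have h3 := (differentiable_resolvent hD (D y) p).continuous
    have h4 := (differentiable_resolvent hD (D z) k).continuous
    exact (h1.mul h2).sub (continuous_id.mul (h3.mul h4))
  have h0 : F 0 = 0 := by
    apply eq_zero_of_off_zero hFc
    intro ζ hζ
    obtain ⟨-, h2⟩ := pencil_two_res hD h hζ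
    have e1 : k (Ring.inverse (1 - ζ • D) y) = ζ * k (Ring.inverse (1 - ζ • D) (D y)) := by
      rw [res_expand hD ζ y, map_add, hky, zero_add, map_smul, smul_eq_mul]
    have e2 : p (Ring.inverse (1 - ζ • D) y) = ζ * p (Ring.inverse (1 - ζ • D) (D y)) := by
      rw [res_expand hD ζ y, map_add, hpy, zero_add, map_smul, smul_eq_mul]
    have e3 : k (Ring.inverse (1 - ζ • D) z) = ζ * k (Ring.inverse (1 - ζ • D) (D z)) := by
      rw [res_expand hD ζ z, map_add, hkz, zero_add, map_smul, smul_eq_mul]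
    rw [e1, e2, e3] at h2
    apply mul_left_cancel₀ hζ
    show ζ * (p (Ring.inverse (1 - ζ • D) z) *
      k (Ring.inverse (1 - ζ • D) (D y)) - ζ * (p (Ring.inverse (1 - ζ • D) (D y)) *
      k (Ring.inverse (1 - ζ • D) (D z)))) = ζ * 0
    linear_combination h2
  have h1 : F 0 = p z * k (D y) := by
    rw [hF]
    simp only [res_zero, zero_mul, sub_zero]
  rw [h1] at h0
  rw [mul_comm]; exact h0

/-- nilpotent operators: two points of a rank one line suffice -/
theorem rank_one_two_of_nilpotent [CompleteSpace X] {V : X →L[ℂ] X} (hV : QN V)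
    (hnil : ∃ n : ℕ, V ^ n = 0) {x : X} {f : X →L[ℂ] ℂ}
    {a : ℂ} (ha : a ≠ 0) (h1 : QN (V + a • ten x f)) (τ : ℂ) : QN (V + τ • ten x f) := by
  obtain ⟨n, hn⟩ := hnil
  rw [← ten_smul_left, QN, qn_add_ten_iff hV] at h1
  obtain ⟨x', hx'⟩ : ∃ x' : X, x' = a • x := ⟨_, rfl⟩
  rw [← hx'] at h1
  set p : Polynomial ℂ := ∑ k ∈ Finset.range n, Polynomial.C (f ((V ^ k) x')) *
    Polynomial.X ^ (k + 1) with hp
  have heval : ∀ z : ℂ, z * f (Ring.inverse (1 - z • V) x') = p.eval z := by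
    intro z
    set y : X := ∑ k ∈ Finset.range n, z ^ k • (V ^ k) x' with hy
    have hyx : (1 - z • V) y = x' := by
      have h2 : ∀ m : ℕ, (1 - z • V) (∑ k ∈ Finset.range m, z ^ k • (V ^ k) x') =
          x' - z ^ m • (V ^ m) x' := by
        intro m
        induction m with
        | zero => simp
        | succ m ih =>
          rw [Finset.sum_range_succ, map_add, ih, map_smul]
          show x' - z ^ m • (V ^ m) x' + z ^ m • ((V ^ m) x' - z • V ((V ^ m) x')) = _
          have h3 : V ((V ^ m) x') = (V ^ (m + 1)) x' := by rw [pow_succ']; rfl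
          rw [h3, smul_sub, smul_smul, ← pow_succ]
          abel
      rw [hy, h2 n, hn]
      simp
    have hinv : Ring.inverse (1 - z • V) x' = y := by
      have hu := (qn_iff V).mp hV z
      have h3 : (Ring.inverse (1 - z • V) * (1 - z • V)) y = y := by
        rw [Ring.inverse_mul_cancel _ hu]; rfl
      have h4 : Ring.inverse (1 - z • V) ((1 - z • V) y) = y := h3
      rwa [hyx] at h4
    rw [hinv, hy, map_sum, hp, Polynomial.eval_finsetSum, Finset.mul_sum]
    refine Finset.sum_congr rfl fun k _ => ?_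
    rw [map_smul, smul_eq_mul]
    simp only [Polynomial.eval_mul, Polynomial.eval_C, Polynomial.eval_pow, Polynomial.eval_X]
    ring
  have hp0 : p.eval 0 = 0 := by
    rw [← heval 0, zero_mul]
  have hdeg : (p - Polynomial.C 1).degree ≤ 0 := by
    by_contra hd
    have hd' : (p - Polynomial.C 1).degree ≠ 0 := by
      intro h'; apply hd; rw [h']
    obtain ⟨z, hz⟩ := IsAlgClosed.exists_root (k := ℂ) (p - Polynomial.C 1) hd'
    apply h1 z
    rw [heval z]
    have h2 : (p - Polynomial.C 1).eval z = 0 := hz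
    rw [Polynomial.eval_sub, Polynomial.eval_C] at h2
    exact sub_eq_zero.mp h2
  have hconst : ∀ z, p.eval z = 0 := by
    intro z
    have h2 := Polynomial.eq_C_of_degree_le_zero hdeg
    have h3 : (p - Polynomial.C 1).eval z = (p - Polynomial.C 1).eval 0 := by
      rw [h2]; simp
    rw [Polynomial.eval_sub, Polynomial.eval_sub, hp0] at h3
    simpa using h3
  rw [← ten_smul_left, QN, qn_add_ten_iff hV]
  intro z
  have hx : τ • x = (τ * a⁻¹) • x' := by
    rw [hx', smul_smul, inv_mul_cancel_right₀ ha]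
  rw [hx, map_smul, map_smul, smul_eq_mul]
  have h4 : z * ((τ * a⁻¹) * f (Ring.inverse (1 - z • V) x')) = 0 := by
    rw [mul_left_comm, heval z, hconst z, mul_zero]
  rw [h4]
  exact zero_ne_one

end Pool.Agent.H.MP_bb4c62_an.helper6.NL
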