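import Pool.Agent.H.MP_bb4c62_an.helper6.NFinal

/-!
The plus sign in finite dimension: pairs of bijections `φ, ψ` with
`r (φ T - ψ S) = 0 ↔ r (T - S) = 0` satisfy `φ = ψ`.
-/

namespace Pool.Agent.H.MP_bb4c62_an.helper6.NL

open Complex Metric Set Filter Topology
open Pool.Agent.H.MP_bb4c62_an.helper6.Perturb
open Pool.Agent.H.MP_bb4c62_an.helper6.Gadgets

variable {X : Type*} [NormedAddCommGroup X] [NormedSpace ℂ X]
variable {Y : Type*} [NormedAddCommGroup Y] [NormedSpace ℂ Y]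

/-- pairs of bijections preserving the relation `T - S` quasinilpotent -/
structure IsPair (φ ψ : (X →L[ℂ] X) → (Y →L[ℂ] Y)) : Prop where
  bij : Function.Bijective φ
  bij' : Function.Bijective ψ
  qn : ∀ T S, QN (φ T - ψ S) ↔ QN (T - S)

theorem IsPair.exists_inv {φ ψ : (X →L[ℂ] X) → (Y →L[ℂ] Y)} (h : IsPair φ ψ) :
    ∃ φ' ψ' : (Y →L[ℂ] Y) → (X →L[ℂ] X), IsPair φ' ψ' ∧ (∀ T, φ' (φ T) = T) ∧
      (∀ U, φ (φ' U) = U) ∧ (∀ T, ψ' (ψ T) = T) ∧ (∀ U, ψ (ψ' U) = U) := by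
  obtain ⟨e, he⟩ : ∃ e : (X →L[ℂ] X) ≃ (Y →L[ℂ] Y), ∀ T, e T = φ T :=
    ⟨Equiv.ofBijective φ h.bij, fun _ => rfl⟩
  obtain ⟨e', he'⟩ : ∃ e' : (X →L[ℂ] X) ≃ (Y →L[ℂ] Y), ∀ T, e' T = ψ T :=
    ⟨Equiv.ofBijective ψ h.bij', fun _ => rfl⟩
  refine ⟨e.symm, e'.symm, ⟨e.symm.bijective, e'.symm.bijective, fun T S => ?_⟩,
    fun T => by rw [← he, e.symm_apply_apply], fun U => by rw [← he, e.apply_symm_apply],
    fun T => by rw [← he', e'.symm_apply_apply], fun U => by rw [← he', e'.apply_symm_apply]⟩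
  rw [← h.qn, ← he, ← he', e.apply_symm_apply, e'.apply_symm_apply]

theorem eq_zero_of_n1_translates {A : X →L[ℂ] X}
    (h : ∀ N : X →L[ℂ] X, N1 N → QN (A + N)) : A = 0 := by
  have hA : QN A := by
    have := h 0 ⟨0, 0, by simp, by rw [ten_zero_left]⟩
    rwa [add_zero] at this
  by_contra hA0
  obtain ⟨x, hx0, hx⟩ := exists_indep_of_qn hA hA0
  have hli : LinearIndependent ℂ ![x, A x] := by
    rw [LinearIndependent.pair_iff' hx0]
    intro a ha
    exact hx ⟨a, ha.symm⟩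
  obtain ⟨f, hf⟩ := exists_dual hli ![1, 1]
  have f1 : f x = 1 := by simpa using hf 0
  have f2 : f (A x) = 1 := by simpa using hf 1
  have h1 := h _ ⟨x - A x, f, by rw [map_sub, f1, f2, sub_self], rfl⟩
  refine not_qn_of_eigen (x := x) (μ := 1) hx0 one_ne_zero ?_ h1
  show A x + f x • (x - A x) = (1 : ℂ) • x
  rw [f1, one_smul, one_smul]; abel

/-- rank one lines are closed -/
theorem line_closed [CompleteSpace X] {x : X} {f : X →L[ℂ] ℂ} (hx : x ≠ 0) (hf : f ≠ 0)
    (hfx : f x = 0) (R V : X →L[ℂ] X)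
    (h : ∀ S, (∀ z : ℂ, QN (R + z • ten x f - S)) → QN (V - S)) :
    V ∈ rline R (ten x f) := by
  by_cases h3 : ∃ v : Fin 3 → X, LinearIndependent ℂ v
  · obtain ⟨v, hv⟩ := h3
    apply (isLine_rline hv hx hf hfx R).closed
    intro T hT
    apply h
    intro z
    rw [qn_sub_comm]
    exact hT _ (rline_mem z)
  · push Not at h3
    have hq : QN (ten x f) := qn_of_sq (ten_sq hfx)
    have hA0 : ten x f ≠ 0 := by
      rw [Ne, ten_eq_zero_iff]; push Not; exact ⟨hx, hf⟩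
    have hV : ∀ w : ℂ, QN (V - (R + w • ten x f)) := by
      intro w
      apply h
      intro z
      have e : R + z • ten x f - (R + w • ten x f) = (z - w) • ten x f := by module
      rw [e]; exact qn_smul hq _
    obtain ⟨c, hc⟩ := small_dim h3 hA0 hq (T := V - R) (by
        have := hV 0
        rwa [zero_smul, add_zero] at this) (by
        have := hV 1
        rwa [one_smul, ← sub_sub] at this)
    exact ⟨c, by show R + c • ten x f = V; rw [← hc]; abel⟩

theorem pow_finrank_zero [CompleteSpace Y] [Module.Finite ℂ Y] {T : Y →L[ℂ] Y} (hT : QN T) :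
    T ^ (Module.finrank ℂ Y) = 0 := by
  ext y
  by_contra hne
  have hli := li_pow hT (x := y) (n := Module.finrank ℂ Y) hne
  have := hli.fintype_card_le_finrank
  rw [Fintype.card_fin] at this
  omega

theorem qn_of_translates [CompleteSpace Y] [Module.Finite ℂ Y] {V D : Y →L[ℂ] Y}
    (h : ∀ n : ℕ, QN (V - (n : ℂ) • D)) : QN D := by
  apply qn_of_pow (n := Module.finrank ℂ Y)
  set N := Module.finrank ℂ Y
  have h1 : ∀ n : ℕ, 0 < n → (D - (n : ℂ)⁻¹ • V) ^ N = 0 := by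
    intro n hn
    have hn0 : (n : ℂ) ≠ 0 := by exact_mod_cast hn.ne'
    have e : D - (n : ℂ)⁻¹ • V = (-(n : ℂ)⁻¹) • (V - (n : ℂ) • D) := by
      rw [smul_sub, smul_smul, neg_mul, inv_mul_cancel₀ hn0]; module
    rw [e, smul_pow, pow_finrank_zero (h n), smul_zero]
  have h2 : Tendsto (fun n : ℕ => (D - (n : ℂ)⁻¹ • V) ^ N) atTop (𝓝 (D ^ N)) := by
    have h3 : Tendsto (fun n : ℕ => (n : ℂ)⁻¹) atTop (𝓝 0) := by
      have := tendsto_inv_atTop_nhds_zero_nat (𝕜 := ℂ)
      exact this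
    have h4 : Tendsto (fun n : ℕ => D - (n : ℂ)⁻¹ • V) atTop (𝓝 (D - (0 : ℂ) • V)) :=
      tendsto_const_nhds.sub (h3.smul_const V)
    rw [zero_smul, sub_zero] at h4
    exact h4.pow N
  have h5 : Tendsto (fun n : ℕ => (D - (n : ℂ)⁻¹ • V) ^ N) atTop (𝓝 0) := by
    refine tendsto_const_nhds.congr' ?_
    filter_upwards [eventually_gt_atTop 0] with n hn
    exact (h1 n hn).symm
  exact tendsto_nhds_unique h2 h5

theorem pair_n1 [CompleteSpace X] [CompleteSpace Y] [Module.Finite ℂ X] [Module.Finite ℂ Y]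
    {φ ψ : (X →L[ℂ] X) → (Y →L[ℂ] Y)} (h : IsPair φ ψ) {x : X} {f : X →L[ℂ] ℂ}
    (hfx : f x = 0) (R : X →L[ℂ] X) : N1 (φ (R + ten x f) - φ R) := by
  by_cases hA0 : ten x f = 0
  · rw [hA0, add_zero, sub_self]; exact ⟨0, 0, by simp, by rw [ten_zero_left]⟩
  obtain ⟨hx, hf⟩ : x ≠ 0 ∧ f ≠ 0 := by
    rw [ten_eq_zero_iff] at hA0; push Not at hA0; exact hA0
  obtain ⟨φ', ψ', h', hφ1, hφ2, hψ1, hψ2⟩ := h.exists_inv
  set m := φ '' rline R (ten x f) with hm
  -- two points generate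
  have gen : ∀ p ∈ m, ∀ q ∈ m, p ≠ q → ∀ U, QN (p - U) → QN (q - U) → ∀ r ∈ m, QN (r - U) := by
    rintro _ ⟨_, ⟨s, rfl⟩, rfl⟩ _ ⟨_, ⟨t, rfl⟩, rfl⟩ hpq U h1 h2 _ ⟨_, ⟨u, rfl⟩, rfl⟩
    have hst : t - s ≠ 0 := by
      intro h0
      apply hpq
      rw [sub_eq_zero.mp h0]
    rw [← hψ2 U, h.qn] at h1 h2 ⊢
    simp only at h1 h2 ⊢
    have h4 : QN (R + s • ten x f - ψ' U + (t - s) • ten x f) := by
      have : R + s • ten x f - ψ' U + (t - s) • ten x f = R + t • ten x f - ψ' U := by module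
      rw [this]; exact h2
    have h5 := rank_one_two_of_nilpotent h1 (fin_nilp inferInstance h1) hst h4 (u - s)
    have : R + s • ten x f - ψ' U + (u - s) • ten x f = R + u • ten x f - ψ' U := by module
    rwa [this] at h5
  have closed : ∀ V, (∀ U, (∀ q ∈ m, QN (q - U)) → QN (V - U)) → V ∈ m := by
    intro V hV
    refine ⟨φ' V, ?_, hφ2 V⟩
    apply line_closed hx hf hfx
    intro S hS
    rw [← h.qn, hφ2]
    apply hV
    rintro _ ⟨_, ⟨z, rfl⟩, rfl⟩
    rw [h.qn]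
    exact hS z
  have refl : ∀ p ∈ m, ∀ q ∈ m, ∀ r ∈ m, p ≠ q → p + q - r ∈ m := by
    intro p hp q hq r hr hpq
    apply closed
    intro U hU
    have h1 : QN (p - (p + q - U)) := by
      have e : p - (p + q - U) = U - q := by abel
      rw [e, qn_sub_comm]; exact hU q hq
    have h2 : QN (q - (p + q - U)) := by
      have e : q - (p + q - U) = U - p := by abel
      rw [e, qn_sub_comm]; exact hU p hp
    have h3 := gen p hp q hq hpq _ h1 h2 r hr
    rw [qn_sub_comm] at h3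
    have e : p + q - r - U = p + q - U - r := by abel
    rw [e]; exact h3
  have hinf : m.Infinite := by
    apply Set.Infinite.image h.bij.1.injOn
    intro hfin
    have : (Set.univ : Set ℂ).Finite := by
      refine Set.Finite.of_finite_image (f := fun z : ℂ => R + z • ten x f) ?_ ?_
      · rw [Set.image_univ]; exact hfin
      · intro a _ b _ hab
        have h2 : (a - b) • ten x f = 0 := by
          rw [sub_smul, sub_eq_zero]; exact add_left_cancel hab
        rcases smul_eq_zero.mp h2 with h3 | h3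
        · exact sub_eq_zero.mp h3
        · exact absurd h3 hA0
    exact Set.infinite_univ this
  have m0 : φ R ∈ m := ⟨R, base_mem_rline, rfl⟩
  obtain ⟨gadd, gneg⟩ := group_of_refl (G := {U : Y →L[ℂ] Y | φ R + U ∈ m}) (by
      apply Set.Infinite.of_image (fun U => φ R + U)
      convert hinf using 1
      ext W
      constructor
      · rintro ⟨U, hU, rfl⟩; exact hU
      · intro hW
        exact ⟨W - φ R, by show φ R + (W - φ R) ∈ m; rwa [add_sub_cancel],
          add_sub_cancel _ _⟩) (by show φ R + 0 ∈ m; rw [add_zero]; exact m0) (by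
      intro a ha b hb c hc hab
      have := refl _ ha _ hb _ hc (fun h => hab (add_left_cancel h))
      have e : φ R + a + (φ R + b) - (φ R + c) = φ R + (a + b - c) := by abel
      rw [e] at this
      exact this)
  have m1 : φ R + (φ (R + ten x f) - φ R) ∈ m := by
    rw [add_sub_cancel]; exact ⟨R + ten x f, ⟨1, by simp⟩, rfl⟩
  set D := φ (R + ten x f) - φ R with hD
  have hD0 : D ≠ 0 := by
    intro h0
    have := h.bij.1 (sub_eq_zero.mp h0)
    exact hA0 (by simpa using this)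
  have hmul : ∀ n : ℕ, φ R + (n : ℂ) • D ∈ m := by
    intro n
    induction n with
    | zero => rw [Nat.cast_zero, zero_smul, add_zero]; exact m0
    | succ n ih =>
      have := gadd _ ih _ m1
      have e : ((n + 1 : ℕ) : ℂ) • D = (n : ℂ) • D + D := by push_cast; module
      rw [e]; exact this
  have hp : φ R ≠ φ R + D := by
    intro h0; exact hD0 (by simpa using h0)
  have hQ : QN D := by
    apply qn_of_translates (V := ψ R - φ R)
    intro n
    have h1 : QN (φ R - ψ R) := by rw [h.qn, sub_self]; exact qn_zero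
    have h2 : QN (φ R + D - ψ R) := by
      rw [hD, add_sub_cancel, h.qn, add_sub_cancel_left]; exact qn_of_sq (ten_sq hfx)
    have h3 := gen _ m0 _ m1 hp _ h1 h2 _ (hmul n)
    rw [qn_sub_comm] at h3
    have e : ψ R - φ R - (n : ℂ) • D = ψ R - (φ R + (n : ℂ) • D) := by abel
    rw [e]; exact h3
  apply n1_of_two (qn_finite_rank_mem_F0 (IsNoetherian.noetherian _) hQ) hQ
  intro V _ hV hVD
  have h3 := gen _ m0 _ m1 hp (φ R - V) (by rw [sub_sub_cancel]; exact hV) (by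
    have e : φ R + D - (φ R - V) = V + D := by abel
    rw [e]; exact hVD) _ (hmul 2)
  have e : φ R + ((2 : ℕ) : ℂ) • D - (φ R - V) = V + (2 : ℂ) • D := by push_cast; abel
  rwa [e] at h3

theorem pair_eq [CompleteSpace X] [CompleteSpace Y] [Module.Finite ℂ X] [Module.Finite ℂ Y]
    {φ ψ : (X →L[ℂ] X) → (Y →L[ℂ] Y)} (h : IsPair φ ψ) : φ = ψ := by
  ext1 R
  obtain ⟨φ', ψ', h', hφ1, hφ2, hψ1, hψ2⟩ := h.exists_inv
  apply sub_eq_zero.mp
  apply eq_zero_of_n1_translates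
  rintro N ⟨y, g, hgy, rfl⟩
  have h1 := pair_n1 h' hgy (φ R)
  rw [hφ1] at h1
  obtain ⟨x, f, hfx, hxf⟩ := h1
  have h2 : QN (φ' (φ R + ten y g) - R) := by
    rw [hxf]; exact qn_of_sq (ten_sq hfx)
  rw [← h.qn, hφ2] at h2
  have e : φ R - ψ R + ten y g = φ R + ten y g - ψ R := by abel
  rw [e]; exact h2

theorem injective_of_qn_plus {φ : (X →L[ℂ] X) → (Y →L[ℂ] Y)}
    (h : ∀ T S, QN (φ T + φ S) ↔ QN (T + S)) : Function.Injective φ := by
  intro T S hTS
  apply sub_eq_zero.mp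
  apply eq_zero_of_translates
  intro N hN
  have e : T - S + N = T + (N - S) := by abel
  rw [e]
  refine (h _ _).mp ?_
  rw [hTS]
  refine (h _ _).mpr ?_
  rw [add_sub_cancel]
  exact hN

theorem odd_of_plus [CompleteSpace X] [CompleteSpace Y] [Module.Finite ℂ X]
    [Module.Finite ℂ Y] {φ : (X →L[ℂ] X) → (Y →L[ℂ] Y)} (hsurj : Function.Surjective φ)
    (h : ∀ T S, QN (φ T + φ S) ↔ QN (T + S)) (T : X →L[ℂ] X) : φ (-T) = -φ T := by
  have hinj := injective_of_qn_plus h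
  have hp : IsPair φ (fun S => -φ (-S)) := by
    refine ⟨⟨hinj, hsurj⟩, ⟨?_, ?_⟩, ?_⟩
    · intro a b hab
      have := hinj (neg_injective hab)
      exact neg_injective this
    · intro U
      obtain ⟨S, hS⟩ := hsurj (-U)
      exact ⟨-S, by show -φ (- -S) = U; rw [neg_neg, hS, neg_neg]⟩
    · intro T S
      show QN (φ T - -φ (-S)) ↔ QN (T - S)
      rw [sub_neg_eq_add, h, ← sub_eq_add_neg]
  have := congrFun (pair_eq hp) T
  have h2 : φ T = -φ (-T) := this
  rw [h2, neg_neg]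

theorem main_plus [CompleteSpace X] [CompleteSpace Y] (φ : (X →L[ℂ] X) → (Y →L[ℂ] Y))
    (hsurj : Function.Surjective φ)
    (hyp : (Module.Finite ℂ X ∧ Module.Finite ℂ Y) ∨ ∀ T, φ (-T) = -φ T) :
    (∀ T S : X →L[ℂ] X, spectralRadius ℂ (φ T + φ S) = 0 ↔ spectralRadius ℂ (T + S) = 0) ↔
      ((∀ T, φ (-T) = -φ T) ∧
      (∀ T S : X →L[ℂ] X, φ T - φ S ∈ QSpan Y ↔ T - S ∈ QSpan X) ∧
        ∀ R : X →L[ℂ] X, FormI φ R ∨ FormII φ R) := by
  constructor
  · intro h
    have hodd : ∀ T, φ (-T) = -φ T := by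
      rcases hyp with ⟨h1, h2⟩ | h1
      · exact odd_of_plus hsurj h
      · exact h1
    refine ⟨hodd, (main_minus φ hsurj).mp fun T S => ?_⟩
    have := h T (-S)
    rwa [hodd, ← sub_eq_add_neg, ← sub_eq_add_neg] at this
  · rintro ⟨hodd, h⟩ T S
    have := (main_minus φ hsurj).mpr h T (-S)
    rwa [hodd, sub_neg_eq_add, sub_neg_eq_add] at this

end Pool.Agent.H.MP_bb4c62_an.helper6.NL
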