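import Pool.Agent.H.MP_bb4c62_an.helper6.NK4
import Pool.Agent.H.MP_bb4c62_an.helper6.NGadget
import Pool.Agent.H.MP_bb4c62_an.helper28.NStar

/-!
Images of affine lines are invariant under reflections; finite rank differences.
-/

namespace Pool.Agent.H.MP_bb4c62_an.helper6.NL

open Complex Metric Set Filter Topology
open Pool.Agent.H.MP_bb4c62_an.helper6.Perturb
open Pool.Agent.H.MP_bb4c62_an.helper6.Gadgets

variable {X : Type*} [NormedAddCommGroup X] [NormedSpace ℂ X]
variable {Y : Type*} [NormedAddCommGroup Y] [NormedSpace ℂ Y]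

theorem fin_nilp (hX : Module.Finite ℂ X) {T : X →L[ℂ] X} (hT : QN T) : ∃ n : ℕ, T ^ n = 0 := by
  refine qn_finite_rank_nilpotent ?_ hT
  exact IsNoetherian.noetherian _

theorem smul_solve {k z : ℂ} (hk : k ≠ 0) {A B Z : X →L[ℂ] X}
    (h : z • A = -(k⁻¹ • B) + k⁻¹ • Z) : Z = B + (k * z) • A := by
  rw [mul_smul, h, smul_add, smul_neg, smul_smul, smul_smul, mul_inv_cancel₀ hk, one_smul,
    one_smul]
  abel

theorem refl_line [CompleteSpace X] {v : Fin 3 → X} (hv3 : LinearIndependent ℂ v)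
    {φ : (X →L[ℂ] X) → (Y →L[ℂ] Y)} (hφ : IsGIso φ) {x : X} {f : X →L[ℂ] ℂ} (hx : x ≠ 0)
    (hf : f ≠ 0) (hfx : f x = 0) (R : X →L[ℂ] X) {a b c : Y →L[ℂ] Y}
    (ha : a ∈ φ '' rline R (ten x f)) (hb : b ∈ φ '' rline R (ten x f))
    (hc : c ∈ φ '' rline R (ten x f)) (hab : a ≠ b) : a + b - c ∈ φ '' rline R (ten x f) := by
  have hline := IsLine.image hφ (isLine_rline hv3 hx hf hfx R)
  obtain ⟨_, ⟨s, rfl⟩, rfl⟩ := ha
  obtain ⟨_, ⟨t, rfl⟩, rfl⟩ := hb
  obtain ⟨_, ⟨u, rfl⟩, rfl⟩ := hc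
  have hst : t - s ≠ 0 := by
    intro h
    apply hab
    rw [sub_eq_zero.mp h]
  obtain ⟨ψ, hψ, hψφ, hφψ⟩ := hφ.exists_inv
  by_cases hX : Module.Finite ℂ X
  · apply hline.closed
    intro T hT
    have hTs := hT _ ⟨_, ⟨s, rfl⟩, rfl⟩
    have hTt := hT _ ⟨_, ⟨t, rfl⟩, rfl⟩
    simp only at hTs hTt ⊢
    set T' : Y →L[ℂ] Y := φ (R + s • ten x f) + φ (R + t • ten x f) - T with hT'
    have h1 : QN (T' - φ (R + s • ten x f)) := by
      have : T' - φ (R + s • ten x f) = φ (R + t • ten x f) - T := by rw [hT']; abel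
      rw [this, qn_sub_comm]; exact hTt
    have h2 : QN (T' - φ (R + t • ten x f)) := by
      have : T' - φ (R + t • ten x f) = φ (R + s • ten x f) - T := by rw [hT']; abel
      rw [this, qn_sub_comm]; exact hTs
    have h3 : QN (T' - φ (R + u • ten x f)) := by
      rw [← hφψ T', hφ.2] at h1 h2 ⊢
      have h4 : QN (ψ T' - (R + s • ten x f) + (-(t - s)) • ten x f) := by
        have : ψ T' - (R + s • ten x f) + (-(t - s)) • ten x f = ψ T' - (R + t • ten x f) := by
          module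
        rw [this]; exact h2
      have h5 := rank_one_two_of_nilpotent h1 (fin_nilp hX h1) (neg_ne_zero.mpr hst) h4
        (-(u - s))
      have : ψ T' - (R + s • ten x f) + (-(u - s)) • ten x f = ψ T' - (R + u • ten x f) := by
        module
      rwa [this] at h5
    have : φ (R + s • ten x f) + φ (R + t • ten x f) - φ (R + u • ten x f) - T =
        T' - φ (R + u • ten x f) := by rw [hT']; abel
    rw [this]; exact h3
  · have one1 : (1 : X →L[ℂ] X) * 1 = 1 := one_mul 1
    have hρ : IsGIso ((fun T : X →L[ℂ] X => -((t - s)⁻¹ • (R + s • ten x f)) +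
        (t - s)⁻¹ • (1 * T * 1)) ∘ (ψ ∘ ((fun T : Y →L[ℂ] Y =>
        (φ (R + s • ten x f) + φ (R + t • ten x f)) - T) ∘ (φ ∘
        (fun T : X →L[ℂ] X => (R + s • ten x f) + (t - s) • (1 * T * 1)))))) :=
      (isGIso_aff one1 one1 (inv_ne_zero hst) _).comp (hψ.comp ((isGIso_refl _).comp
        (hφ.comp (isGIso_aff one1 one1 hst _))))
    set ρ := ((fun T : X →L[ℂ] X => -((t - s)⁻¹ • (R + s • ten x f)) +
        (t - s)⁻¹ • (1 * T * 1)) ∘ (ψ ∘ ((fun T : Y →L[ℂ] Y =>
        (φ (R + s • ten x f) + φ (R + t • ten x f)) - T) ∘ (φ ∘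
        (fun T : X →L[ℂ] X => (R + s • ten x f) + (t - s) • (1 * T * 1)))))) with hρd
    have hρa : ∀ T, ρ T = -((t - s)⁻¹ • (R + s • ten x f)) + (t - s)⁻¹ •
        (ψ ((φ (R + s • ten x f) + φ (R + t • ten x f)) - φ ((R + s • ten x f) + (t - s) • T))) := by
      intro T
      rw [hρd]
      simp only [Function.comp, one_mul, mul_one]
    have r0 : ρ 0 = ten x f := by
      rw [hρa, smul_zero, add_zero, add_sub_cancel_left, hψφ, ← smul_neg, ← smul_add]
      have : -(R + s • ten x f) + (R + t • ten x f) = (t - s) • ten x f := by module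
      rw [this, smul_smul, inv_mul_cancel₀ hst, one_smul]
    have r1 : ρ (ten x f) = 0 := by
      have e : (R + s • ten x f) + (t - s) • ten x f = R + t • ten x f := by module
      rw [hρa, e, add_sub_cancel_right, hψφ, neg_add_cancel]
    have hfix := line_fixed hX hv3 hρ hx hf hfx r0 r1
    have hmem : ρ (((u - s) / (t - s)) • ten x f) ∈ rline 0 (ten x f) := by
      rw [← hfix]
      exact ⟨_, ⟨_, zero_add _⟩, rfl⟩
    obtain ⟨z, hz⟩ := hmem
    simp only [zero_add] at hz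
    have e : (R + s • ten x f) + (t - s) • (((u - s) / (t - s)) • ten x f) = R + u • ten x f := by
      rw [smul_smul, mul_div_cancel₀ _ hst]; module
    rw [hρa, e] at hz
    refine ⟨R + (s + (t - s) * z) • ten x f, ⟨_, rfl⟩, ?_⟩
    rw [← hφψ (φ (R + s • ten x f) + φ (R + t • ten x f) - φ (R + u • ten x f))]
    congr 1
    have h7 : ψ (φ (R + s • ten x f) + φ (R + t • ten x f) - φ (R + u • ten x f)) =
        (R + s • ten x f) + ((t - s) * z) • ten x f := smul_solve hst hz
    rw [h7]; module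

end Pool.Agent.H.MP_bb4c62_an.helper6.NL
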