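import Pool.Agent.H.MP_bb4c62_an.helper6.NRigid1

/-!
Finite rank differences, cosets of `F0`, dimension.
-/

namespace Pool.Agent.H.MP_bb4c62_an.helper6.NL

open Complex Metric Set Filter Topology
open Pool.Agent.H.MP_bb4c62_an.helper6.Perturb
open Pool.Agent.H.MP_bb4c62_an.helper6.Gadgets

variable {X : Type*} [NormedAddCommGroup X] [NormedSpace ℂ X]
variable {Y : Type*} [NormedAddCommGroup Y] [NormedSpace ℂ Y]

theorem group_of_refl {V : Type*} [AddCommGroup V] {G : Set V} (hinf : G.Infinite)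
    (h0 : (0 : V) ∈ G) (h : ∀ a ∈ G, ∀ b ∈ G, ∀ c ∈ G, a ≠ b → a + b - c ∈ G) :
    (∀ a ∈ G, ∀ b ∈ G, a + b ∈ G) ∧ ∀ a ∈ G, -a ∈ G := by
  have hadd : ∀ a ∈ G, ∀ b ∈ G, a + b ∈ G := by
    intro a ha b hb
    by_cases hab : a = b
    · subst hab
      by_cases ha0 : a = 0
      · rw [ha0, add_zero]; exact h0
      obtain ⟨b', hb', hb'n⟩ := (hinf.sdiff (Set.toFinite {0, a})).nonempty
      have n0 : b' ≠ 0 := by rintro rfl; exact hb'n (by simp)
      have na : a ≠ b' := by rintro rfl; exact hb'n (by simp)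
      have h1 := h a ha b' hb' 0 h0 na
      rw [sub_zero] at h1
      have h2 := h (a + b') h1 a ha b' hb' (by
        intro h3; exact n0 (by simpa using h3))
      have : a + b' + a - b' = a + a := by abel
      rwa [this] at h2
    · have := h a ha b hb 0 h0 hab
      rwa [sub_zero] at this
  refine ⟨hadd, ?_⟩
  intro a ha
  obtain ⟨b, hb, hbn⟩ := (hinf.sdiff (Set.finite_singleton 0)).nonempty
  have := h 0 h0 b hb (a + b) (hadd a ha b hb) (fun h => hbn h.symm)
  have e : 0 + b - (a + b) = -a := by abel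
  rwa [e] at this

theorem line_group [CompleteSpace X] {v : Fin 3 → X} (hv3 : LinearIndependent ℂ v)
    {φ : (X →L[ℂ] X) → (Y →L[ℂ] Y)} (hφ : IsGIso φ) {x : X} {f : X →L[ℂ] ℂ} (hx : x ≠ 0)
    (hf : f ≠ 0) (hfx : f x = 0) (R : X →L[ℂ] X) :
    (∀ U V : Y →L[ℂ] Y, φ R + U ∈ φ '' rline R (ten x f) → φ R + V ∈ φ '' rline R (ten x f) →
      φ R + (U + V) ∈ φ '' rline R (ten x f)) ∧
    (∀ U : Y →L[ℂ] Y, φ R + U ∈ φ '' rline R (ten x f) →
      φ R + -U ∈ φ '' rline R (ten x f)) := by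
  have hline := IsLine.image hφ (isLine_rline hv3 hx hf hfx R)
  have := group_of_refl (G := {U : Y →L[ℂ] Y | φ R + U ∈ φ '' rline R (ten x f)}) ?_ ?_ ?_
  · exact ⟨fun U V hU hV => this.1 U hU V hV, fun U hU => this.2 U hU⟩
  · apply Set.Infinite.of_image (fun U => φ R + U)
    convert hline.inf using 1
    ext W
    constructor
    · rintro ⟨U, hU, rfl⟩; exact hU
    · intro hW
      exact ⟨W - φ R, by show φ R + (W - φ R) ∈ φ '' rline R (ten x f); rwa [add_sub_cancel], add_sub_cancel _ _⟩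
  · show φ R + 0 ∈ φ '' rline R (ten x f)
    rw [add_zero]
    exact ⟨R, base_mem_rline, rfl⟩
  · intro a ha b hb c hc hab
    have := refl_line hv3 hφ hx hf hfx R ha hb hc (fun h => hab (add_left_cancel h))
    have e : φ R + a + (φ R + b) - (φ R + c) = φ R + (a + b - c) := by abel
    rw [e] at this
    exact this

theorem diff_ten [CompleteSpace X] [CompleteSpace Y] {v : Fin 3 → X}
    (hv3 : LinearIndependent ℂ v) {φ : (X →L[ℂ] X) → (Y →L[ℂ] Y)} (hφ : IsGIso φ) {x : X}
    {f : X →L[ℂ] ℂ} (hfx : f x = 0) (R : X →L[ℂ] X) :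
    φ (R + ten x f) - φ R ∈ F0 Y := by
  by_cases hA0 : ten x f = 0
  · rw [hA0, add_zero, sub_self]; exact Submodule.zero_mem _
  obtain ⟨hx, hf⟩ : x ≠ 0 ∧ f ≠ 0 := by
    rw [ten_eq_zero_iff] at hA0; push Not at hA0; exact hA0
  have hline := IsLine.image hφ (isLine_rline hv3 hx hf hfx R)
  obtain ⟨gadd, gneg⟩ := line_group hv3 hφ hx hf hfx R
  set Δ := φ (R + ten x f) - φ R with hΔ
  set m := φ '' rline R (ten x f) with hm
  have m1 : φ R + Δ ∈ m := by
    rw [hΔ, add_sub_cancel]; exact ⟨R + ten x f, ⟨1, by simp⟩, rfl⟩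
  have m0 : φ R ∈ m := ⟨R, base_mem_rline, rfl⟩
  have hΔ0 : Δ ≠ 0 := by
    intro h
    have := hφ.1.1 (sub_eq_zero.mp h)
    exact hA0 (by simpa using this)
  have hQ : QN Δ := by
    rw [hΔ, hφ.2, add_sub_cancel_left]
    exact qn_of_sq (ten_sq hfx)
  have mn1 := gneg _ m1
  have mn2 : φ R + -((2 : ℂ) • Δ) ∈ m := by
    have := gadd _ _ mn1 mn1
    have e : -Δ + -Δ = -((2 : ℂ) • Δ) := by module
    rwa [e] at this
  have mn3 : φ R + -((3 : ℂ) • Δ) ∈ m := by
    have := gadd _ _ mn2 mn1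
    have e : -((2 : ℂ) • Δ) + -Δ = -((3 : ℂ) • Δ) := by module
    rwa [e] at this
  have hfg : (LinearMap.range (Δ : Y →ₗ[ℂ] Y)).FG := by
    apply fg_of_star_int hQ
    intro V hV hV1 hV2
    have all : ∀ W ∈ m, QN (φ R + V - W) := by
      refine hline.gen (φ R + V) (φ R) (φ R + Δ) (φ R + -Δ) m0 m1 mn1 ?_ ?_ ?_ ?_ ?_ ?_
      · intro h; exact hΔ0 (by simpa using h)
      · intro h; exact hΔ0 (by simpa using h)
      · intro h
        have h1 : Δ = -Δ := add_left_cancel h
        have h2 : (2 : ℂ) • Δ = 0 := by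
          rw [two_smul]; nth_rewrite 2 [h1]; exact add_neg_cancel Δ
        exact hΔ0 ((smul_eq_zero.mp h2).resolve_left two_ne_zero)
      · rw [add_sub_cancel_left]; exact hV
      · have e : φ R + V - (φ R + Δ) = V - Δ := by abel
        rw [e]; exact hV2
      · have e : φ R + V - (φ R + -Δ) = V + Δ := by abel
        rw [e]; exact hV1
    constructor
    · have := all _ mn2
      have e : φ R + V - (φ R + -((2 : ℂ) • Δ)) = V + (2 : ℂ) • Δ := by abel
      rwa [e] at this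
    · have := all _ mn3
      have e : φ R + V - (φ R + -((3 : ℂ) • Δ)) = V + (3 : ℂ) • Δ := by abel
      rwa [e] at this
  exact qn_finite_rank_mem_F0 hfg hQ

theorem diff_F0 [CompleteSpace X] [CompleteSpace Y] {v : Fin 3 → X}
    (hv3 : LinearIndependent ℂ v) {φ : (X →L[ℂ] X) → (Y →L[ℂ] Y)} (hφ : IsGIso φ)
    {K : X →L[ℂ] X} (hK : K ∈ F0 X) (R : X →L[ℂ] X) : φ (R + K) - φ R ∈ F0 Y := by
  have key : ∀ (c : ℂ) (R : X →L[ℂ] X), φ (R + c • K) - φ R ∈ F0 Y := by
    induction hK using Submodule.span_induction with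
    | mem T hT =>
      obtain ⟨x, f, hfx, rfl⟩ := hT
      intro c R
      rw [← ten_smul_left]
      exact diff_ten hv3 hφ (by rw [map_smul, hfx, smul_zero]) R
    | zero => intro c R; rw [smul_zero, add_zero, sub_self]; exact Submodule.zero_mem _
    | add K L _ _ hK hL =>
      intro c R
      have e : φ (R + c • (K + L)) - φ R = (φ ((R + c • K) + c • L) - φ (R + c • K)) +
          (φ (R + c • K) - φ R) := by
        rw [smul_add, add_assoc]; abel
      rw [e]
      exact Submodule.add_mem _ (hL c _) (hK c _)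
    | smul a K _ hK =>
      intro c R
      rw [smul_smul]
      exact hK _ R
  have := key 1 R
  rwa [one_smul] at this

end Pool.Agent.H.MP_bb4c62_an.helper6.NL
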