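import Pool.Agent.H.MP_bb4c62_an.helper6.NRigid2

/-!
Dimension three is preserved; rank one differences and affine lines are preserved.
-/

namespace Pool.Agent.H.MP_bb4c62_an.helper6.NL

open Complex Metric Set Filter Topology
open Pool.Agent.H.MP_bb4c62_an.helper6.Perturb
open Pool.Agent.H.MP_bb4c62_an.helper6.Gadgets

variable {X : Type*} [NormedAddCommGroup X] [NormedSpace ℂ X]
variable {Y : Type*} [NormedAddCommGroup Y] [NormedSpace ℂ Y]

theorem small_sq [CompleteSpace Y] (h : ∀ w : Fin 3 → Y, ¬ LinearIndependent ℂ w)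
    {D : Y →L[ℂ] Y} (hD : QN D) (u : Y) : D (D u) = 0 := by
  by_contra hne
  exact h _ (li_pow (n := 2) hD (x := u) (by rw [pow_two]; exact hne))

theorem small_dim [CompleteSpace Y] (h : ∀ w : Fin 3 → Y, ¬ LinearIndependent ℂ w)
    {D T : Y →L[ℂ] Y} (hD0 : D ≠ 0) (hD : QN D) (hT : QN T) (hTD : QN (T - D)) :
    ∃ c : ℂ, T = c • D := by
  have dd := fun u => small_sq h hD u
  have tt := fun u => small_sq h hT u
  have td : ∀ u, T (D u) = - D (T u) := by
    intro u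
    have h1 := small_sq h hTD u
    have h2 : T (T u - D u) - D (T u - D u) = 0 := h1
    rw [map_sub, map_sub, tt, dd, sub_zero, zero_sub] at h2
    have h3 : T (D u) + D (T u) = 0 := by
      have := congrArg (fun w => -w) h2
      simpa [add_comm] using this
    exact eq_neg_of_add_eq_zero_left h3
  obtain ⟨z, hz⟩ : ∃ z, D z ≠ 0 := by
    by_contra hcon
    push Not at hcon
    exact hD0 (by ext u; exact hcon u)
  have hli : LinearIndependent ℂ ![z, D z] := by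
    have hz0 : z ≠ 0 := by rintro rfl; exact hz (map_zero D)
    rw [LinearIndependent.pair_iff' hz0]
    intro a ha
    have h1 : D (a • z) = 0 := by rw [ha]; exact dd z
    rw [map_smul] at h1
    rcases smul_eq_zero.mp h1 with h2 | h2
    · rw [h2, zero_smul] at ha; exact hz ha.symm
    · exact hz h2
  have hspan : ∀ u, ∃ a b : ℂ, u = a • z + b • D z := by
    intro u
    by_contra hcon
    apply h (Fin.cons u ![z, D z])
    rw [linearIndependent_finCons]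
    refine ⟨hli, ?_⟩
    intro hm
    apply hcon
    have hr : Set.range ![z, D z] = {z, D z} := by
      simp only [Matrix.range_cons, Matrix.range_empty, Set.union_empty, Set.singleton_union]
    rw [hr] at hm
    obtain ⟨a, b, hab⟩ := Submodule.mem_span_pair.mp hm
    exact ⟨a, b, hab.symm⟩
  obtain ⟨α, β, hαβ⟩ := hspan (T z)
  have hTy : T (D z) = -α • D z := by
    rw [td, hαβ, map_add, map_smul, map_smul, dd]
    module
  have hα : α = 0 := by
    by_contra hα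
    exact not_qn_of_eigen hz (neg_ne_zero.mpr hα) hTy hT
  refine ⟨β, ?_⟩
  ext u
  obtain ⟨a, b, rfl⟩ := hspan u
  show T (a • z + b • D z) = β • D (a • z + b • D z)
  rw [map_add, map_add, map_smul, map_smul, map_smul, map_smul, hTy, hαβ, hα, dd]
  module

theorem dim_transfer [CompleteSpace X] [CompleteSpace Y] {v : Fin 3 → X}
    (hv3 : LinearIndependent ℂ v) {φ : (X →L[ℂ] X) → (Y →L[ℂ] Y)} (hφ : IsGIso φ) :
    ∃ w : Fin 3 → Y, LinearIndependent ℂ w := by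
  by_contra hcon
  push Not at hcon
  obtain ⟨f, hf⟩ := exists_dual_family hv3
  have f01 : f 0 (v 1) = 0 := by rw [hf]; simp
  have f10 : f 1 (v 0) = 0 := by rw [hf]; simp
  have f20 : f 2 (v 0) = 0 := by rw [hf]; simp
  have f21 : f 2 (v 1) = 0 := by rw [hf]; simp
  have f00 : f 0 (v 0) = 1 := by rw [hf]; simp
  have f11 : f 1 (v 1) = 1 := by rw [hf]; simp
  have f22 : f 2 (v 2) = 1 := by rw [hf]; simp
  have qA : QN (ten (v 0) (f 2) - 0) := by rw [sub_zero]; exact qn_of_sq (ten_sq f20)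
  have q1 : QN (ten (v 0) (f 1) - 0) := by rw [sub_zero]; exact qn_of_sq (ten_sq f10)
  have q2 : QN (ten (v 1) (f 0) - 0) := by rw [sub_zero]; exact qn_of_sq (ten_sq f01)
  have q1A : QN (ten (v 0) (f 1) - ten (v 0) (f 2)) := by
    have := qn_test f20 f10 (Or.inl f20) 1 1
    rwa [one_smul, one_smul] at this
  have q2A : QN (ten (v 1) (f 0) - ten (v 0) (f 2)) := by
    have := qn_test f20 f01 (Or.inl f21) 1 1
    rwa [one_smul, one_smul] at this
  have hA0 : ten (v 0) (f 2) ≠ 0 := by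
    rw [Ne, ten_eq_zero_iff]; push Not
    exact ⟨hv3.ne_zero 0, fun h => by rw [h] at f22; exact zero_ne_one f22⟩
  rw [← hφ.2] at qA q1 q2 q1A q2A
  have hD0 : φ (ten (v 0) (f 2)) - φ 0 ≠ 0 := by
    intro h
    exact hA0 (hφ.1.1 (sub_eq_zero.mp h))
  obtain ⟨c1, h1⟩ := small_dim hcon hD0 qA q1 (by
    rw [sub_sub_sub_cancel_right]; exact q1A)
  obtain ⟨c2, h2⟩ := small_dim hcon hD0 qA q2 (by
    rw [sub_sub_sub_cancel_right]; exact q2A)
  have h3 : QN (φ (ten (v 0) (f 1)) - φ (ten (v 1) (f 0))) := by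
    have : φ (ten (v 0) (f 1)) - φ (ten (v 1) (f 0)) =
        (c1 - c2) • (φ (ten (v 0) (f 2)) - φ 0) := by
      rw [sub_smul, ← h1, ← h2]; abel
    rw [this]; exact qn_smul qA _
  rw [hφ.2] at h3
  refine not_qn_of_pow_eigen (n := 2) (hv3.ne_zero 0) (μ := -1) (by norm_num) (by norm_num) ?_ h3
  have h4 : ∀ u, (ten (v 0) (f 1) - ten (v 1) (f 0)) u = f 1 u • v 0 - f 0 u • v 1 := fun u => rfl
  rw [pow_two]
  show (ten (v 0) (f 1) - ten (v 1) (f 0)) ((ten (v 0) (f 1) - ten (v 1) (f 0)) (v 0)) = _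
  rw [h4 (v 0), f10, f00, zero_smul, zero_sub, one_smul, map_neg, h4, f11, f01]
  simp

theorem n1_image [CompleteSpace X] [CompleteSpace Y] {v : Fin 3 → X}
    (hv3 : LinearIndependent ℂ v) {φ : (X →L[ℂ] X) → (Y →L[ℂ] Y)} (hφ : IsGIso φ) {x : X}
    {f : X →L[ℂ] ℂ} (hfx : f x = 0) (R : X →L[ℂ] X) : N1 (φ (R + ten x f) - φ R) := by
  by_cases hA0 : ten x f = 0
  · rw [hA0, add_zero, sub_self]; exact ⟨0, 0, by simp, by rw [ten_zero_left]⟩
  obtain ⟨hx, hf⟩ : x ≠ 0 ∧ f ≠ 0 := by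
    rw [ten_eq_zero_iff] at hA0; push Not at hA0; exact hA0
  obtain ⟨gadd, gneg⟩ := line_group hv3 hφ hx hf hfx R
  have hF := diff_ten hv3 hφ hfx R
  have m1 : φ R + (φ (R + ten x f) - φ R) ∈ φ '' rline R (ten x f) := by
    rw [add_sub_cancel]; exact ⟨R + ten x f, ⟨1, by simp⟩, rfl⟩
  set Δ := φ (R + ten x f) - φ R with hΔ
  have hQ : QN Δ := by
    rw [hΔ, hφ.2, add_sub_cancel_left]
    exact qn_of_sq (ten_sq hfx)
  obtain ⟨w, hw⟩ := dim_transfer hv3 hφ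
  obtain ⟨ψ, hψ, hψφ, hφψ⟩ := hφ.exists_inv
  apply n1_of_two hF hQ
  intro V hVF hV hVA
  -- U = φ R - V
  have hWF : ψ (φ R + -V) - R ∈ F0 X := by
    have := diff_F0 hw hψ (K := -V) (Submodule.neg_mem _ hVF) (φ R)
    rwa [hψφ] at this
  have hW : QN (ψ (φ R + -V) - R) := by
    rw [← hφ.2, hφψ, add_sub_cancel_left]; exact qn_neg hV
  have hWA : QN (ψ (φ R + -V) - R + (-1 : ℂ) • ten x f) := by
    have e : ψ (φ R + -V) - R + (-1 : ℂ) • ten x f = ψ (φ R + -V) - (R + ten x f) := by module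
    rw [e, ← hφ.2, hφψ]
    have e2 : φ R + -V - φ (R + ten x f) = -(V + Δ) := by rw [hΔ]; abel
    rw [e2]; exact qn_neg hVA
  have hnil := qn_finite_rank_nilpotent (fg_of_mem_F0 hWF) hW
  have hall := rank_one_two_of_nilpotent hW hnil (by norm_num) hWA
  have m2 := gadd _ _ m1 m1
  obtain ⟨_, ⟨z, rfl⟩, hz⟩ := m2
  have h1 := hall (-z)
  have e : ψ (φ R + -V) - R + (-z) • ten x f = ψ (φ R + -V) - (R + z • ten x f) := by module
  rw [e, ← hφ.2, hφψ] at h1
  have hz' : φ (R + z • ten x f) = φ R + (Δ + Δ) := hz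
  rw [hz'] at h1
  have e2 : φ R + -V - (φ R + (Δ + Δ)) = -(V + (2 : ℂ) • Δ) := by rw [two_smul]; abel
  rw [e2] at h1
  exact qn_neg_iff.mp h1

theorem n1_iff [CompleteSpace X] [CompleteSpace Y] {v : Fin 3 → X}
    (hv3 : LinearIndependent ℂ v) {φ : (X →L[ℂ] X) → (Y →L[ℂ] Y)} (hφ : IsGIso φ)
    (T S : X →L[ℂ] X) : N1 (φ T - φ S) ↔ N1 (T - S) := by
  constructor
  · intro h
    obtain ⟨y, g, hgy, hyg⟩ := h
    obtain ⟨w, hw⟩ := dim_transfer hv3 hφ
    obtain ⟨ψ, hψ, hψφ, hφψ⟩ := hφ.exists_inv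
    have := n1_image hw hψ hgy (φ S)
    rwa [← hyg, add_sub_cancel, hψφ, hψφ] at this
  · rintro ⟨x, f, hfx, hxf⟩
    have := n1_image hv3 hφ hfx S
    rwa [← hxf, add_sub_cancel] at this

theorem f0_iff [CompleteSpace X] [CompleteSpace Y] {v : Fin 3 → X}
    (hv3 : LinearIndependent ℂ v) {φ : (X →L[ℂ] X) → (Y →L[ℂ] Y)} (hφ : IsGIso φ)
    (T S : X →L[ℂ] X) : φ T - φ S ∈ F0 Y ↔ T - S ∈ F0 X := by
  constructor
  · intro h
    obtain ⟨w, hw⟩ := dim_transfer hv3 hφ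
    obtain ⟨ψ, hψ, hψφ, hφψ⟩ := hφ.exists_inv
    have := diff_F0 hw hψ h (φ S)
    rwa [add_sub_cancel, hψφ, hψφ] at this
  · intro h
    have := diff_F0 hv3 hφ h S
    rwa [add_sub_cancel] at this

theorem line_image [CompleteSpace X] [CompleteSpace Y] {v : Fin 3 → X}
    (hv3 : LinearIndependent ℂ v) {φ : (X →L[ℂ] X) → (Y →L[ℂ] Y)} (hφ : IsGIso φ) {x : X}
    {f : X →L[ℂ] ℂ} (hfx : f x = 0) (hx : x ≠ 0) (hf : f ≠ 0) (R : X →L[ℂ] X) :
    φ '' rline R (ten x f) = rline (φ R) (φ (R + ten x f) - φ R) := by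
  have hA0 : ten x f ≠ 0 := by
    rw [Ne, ten_eq_zero_iff]; push Not; exact ⟨hx, hf⟩
  have hline := IsLine.image hφ (isLine_rline hv3 hx hf hfx R)
  obtain ⟨gadd, gneg⟩ := line_group hv3 hφ hx hf hfx R
  obtain ⟨w, hw⟩ := dim_transfer hv3 hφ
  obtain ⟨y, g, hgy, hyg⟩ := n1_image hv3 hφ hfx R
  have m0 : φ R ∈ φ '' rline R (ten x f) := ⟨R, base_mem_rline, rfl⟩
  have m1 : φ R + (φ (R + ten x f) - φ R) ∈ φ '' rline R (ten x f) := by
    rw [add_sub_cancel]; exact ⟨R + ten x f, ⟨1, by simp⟩, rfl⟩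
  have hΔ0 : φ (R + ten x f) - φ R ≠ 0 := by
    intro h
    have := hφ.1.1 (sub_eq_zero.mp h)
    exact hA0 (by simpa using this)
  rw [hyg] at m1 hΔ0 ⊢
  obtain ⟨hy, hg⟩ : y ≠ 0 ∧ g ≠ 0 := by
    rw [Ne, ten_eq_zero_iff] at hΔ0; push Not at hΔ0; exact hΔ0
  have m2 := gadd _ _ m1 m1
  refine IsLine.eq_of_three hline (isLine_rline hw hy hg hgy (φ R)) m0 m1 m2
    ⟨0, by simp⟩ ⟨1, by simp⟩ ⟨2, by simp [two_smul]⟩ ?_ ?_ ?_
  · intro h; exact hΔ0 (by simpa using h)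
  · intro h
    have h1 : ten y g + ten y g = 0 := by simpa using h
    rw [← two_smul ℂ] at h1
    exact hΔ0 ((smul_eq_zero.mp h1).resolve_left two_ne_zero)
  · intro h; exact hΔ0 (by simpa using h)

end Pool.Agent.H.MP_bb4c62_an.helper6.NL
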