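import Pool.Agent.H.MP_bb4c62_an.helper6.NForward

/-!
Dimension two: coordinates on the trace zero operators.
-/

namespace Pool.Agent.H.MP_bb4c62_an.helper6.NL

open Complex Metric Set Filter Topology
open Pool.Agent.H.MP_bb4c62_an.helper6.Perturb
open Pool.Agent.H.MP_bb4c62_an.helper6.Gadgets

variable {X : Type*} [NormedAddCommGroup X] [NormedSpace ℂ X]
variable {Y : Type*} [NormedAddCommGroup Y] [NormedSpace ℂ Y]

/-- a basis of a two dimensional space with its dual basis -/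
structure Two (e0 e1 : X) (f0 f1 : X →L[ℂ] ℂ) : Prop where
  h00 : f0 e0 = 1
  h01 : f0 e1 = 0
  h10 : f1 e0 = 0
  h11 : f1 e1 = 1
  span : ∀ x, x = f0 x • e0 + f1 x • e1

theorem exists_two (hX : Module.finrank ℂ X = 2) :
    ∃ (e0 e1 : X) (f0 f1 : X →L[ℂ] ℂ), Two e0 e1 f0 f1 := by
  have hfin : Module.Finite ℂ X := Module.finite_of_finrank_pos (by omega)
  let b := Module.finBasisOfFinrankEq ℂ X hX
  obtain ⟨f, hf⟩ := exists_dual_family b.linearIndependent
  refine ⟨b 0, b 1, f 0, f 1, by rw [hf]; simp, by rw [hf]; simp, by rw [hf]; simp,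
    by rw [hf]; simp, fun x => ?_⟩
  have h1 := b.sum_repr x
  rw [Fin.sum_univ_two] at h1
  have e0 : f 0 x = b.repr x 0 := by
    conv_lhs => rw [← h1]
    rw [map_add, map_smul, map_smul, hf, hf]; simp
  have e1 : f 1 x = b.repr x 1 := by
    conv_lhs => rw [← h1]
    rw [map_add, map_smul, map_smul, hf, hf]; simp
  rw [e0, e1, h1]

/-- trace zero operators in coordinates -/
noncomputable def op (e0 e1 : X) (f0 f1 : X →L[ℂ] ℂ) (p : Fin 3 → ℂ) : X →L[ℂ] X :=
  p 0 • ten e0 f1 + p 1 • ten e1 f0 + p 2 • (ten e0 f0 - ten e1 f1)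

section

variable {e0 e1 : X} {f0 f1 : X →L[ℂ] ℂ} (h : Two e0 e1 f0 f1)

theorem op_apply (p : Fin 3 → ℂ) (x : X) : op e0 e1 f0 f1 p x =
    p 0 • f1 x • e0 + p 1 • f0 x • e1 + p 2 • (f0 x • e0 - f1 x • e1) := rfl

include h

theorem op_e0 (p : Fin 3 → ℂ) : op e0 e1 f0 f1 p e0 = p 2 • e0 + p 1 • e1 := by
  rw [op_apply, h.h00, h.h10]
  simp only [zero_smul, one_smul, smul_zero, sub_zero, zero_add]
  abel

theorem op_e1 (p : Fin 3 → ℂ) : op e0 e1 f0 f1 p e1 = p 0 • e0 - p 2 • e1 := by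
  rw [op_apply, h.h01, h.h11]
  simp only [zero_smul, one_smul, smul_zero, zero_sub, add_zero, smul_neg]
  abel

theorem op_inj {p q : Fin 3 → ℂ} (hpq : op e0 e1 f0 f1 p = op e0 e1 f0 f1 q) : p = q := by
  have a0 : op e0 e1 f0 f1 p e0 = op e0 e1 f0 f1 q e0 := by rw [hpq]
  have a1 : op e0 e1 f0 f1 p e1 = op e0 e1 f0 f1 q e1 := by rw [hpq]
  rw [op_e0 h, op_e0 h] at a0
  rw [op_e1 h, op_e1 h] at a1
  have b1 := congrArg f0 a0
  have b2 := congrArg f1 a0
  have b3 := congrArg f0 a1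
  simp only [map_add, map_sub, map_smul, h.h00, h.h01, h.h10, h.h11, smul_eq_mul, mul_one,
    mul_zero, add_zero, zero_add, sub_zero] at b1 b2 b3
  ext i
  fin_cases i
  · exact b3
  · exact b2
  · exact b1

theorem op_mem (p : Fin 3 → ℂ) : op e0 e1 f0 f1 p ∈ F0 X := by
  have e : ten e0 f0 - ten e1 f1 = ten (e0 + e1) (f0 - f1) + ten e0 f1 - ten e1 f0 := by
    ext x
    show f0 x • e0 - f1 x • e1 = (f0 x - f1 x) • (e0 + e1) + f1 x • e0 - f0 x • e1
    module
  unfold op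
  refine Submodule.add_mem _ (Submodule.add_mem _ (Submodule.smul_mem _ _ (ten_mem_F0 h.h10))
    (Submodule.smul_mem _ _ (ten_mem_F0 h.h01))) (Submodule.smul_mem _ _ ?_)
  rw [e]
  refine Submodule.sub_mem _ (Submodule.add_mem _ (ten_mem_F0 ?_) (ten_mem_F0 h.h10))
    (ten_mem_F0 h.h01)
  show f0 (e0 + e1) - f1 (e0 + e1) = 0
  rw [map_add, map_add, h.h00, h.h01, h.h10, h.h11]; ring

theorem op_surj {K : X →L[ℂ] X} (hK : K ∈ F0 X) : ∃ p, K = op e0 e1 f0 f1 p := by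
  induction hK using Submodule.span_induction with
  | mem T hT =>
    obtain ⟨x, g, hgx, rfl⟩ := hT
    refine ⟨![f0 x * g e1, f1 x * g e0, f0 x * g e0], ?_⟩
    have h1 : f0 x * g e0 + f1 x * g e1 = 0 := by
      have : g (f0 x • e0 + f1 x • e1) = 0 := by rw [← h.span x]; exact hgx
      rw [map_add, map_smul, map_smul] at this
      exact this
    ext z
    have hgz : g z = f0 z * g e0 + f1 z * g e1 := by
      conv_lhs => rw [h.span z]
      rw [map_add, map_smul, map_smul]; rfl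
    rw [op_apply]
    show g z • x = (f0 x * g e1) • f1 z • e0 + (f1 x * g e0) • f0 z • e1 +
      (f0 x * g e0) • (f0 z • e0 - f1 z • e1)
    conv_lhs => rw [h.span x, hgz]
    have h2 : f0 x * g e0 = -(f1 x * g e1) := eq_neg_of_add_eq_zero_left h1
    have e1' : (f0 z * g e0 + f1 z * g e1) • (f0 x • e0 + f1 x • e1) =
        (f0 z * (f0 x * g e0) + f1 z * (f0 x * g e1)) • e0 +
        (f0 z * (f1 x * g e0) + f1 z * (f1 x * g e1)) • e1 := by module
    have e2' : f1 x * g e1 = -(f0 x * g e0) := by rw [h2, neg_neg]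
    rw [e1', e2']
    module
  | zero => exact ⟨0, by unfold op; simp⟩
  | add K L _ _ hK hL =>
    obtain ⟨p, rfl⟩ := hK
    obtain ⟨q, rfl⟩ := hL
    refine ⟨p + q, ?_⟩
    unfold op
    simp only [Pi.add_apply]
    module
  | smul a K _ hK =>
    obtain ⟨p, rfl⟩ := hK
    refine ⟨a • p, ?_⟩
    unfold op
    simp only [Pi.smul_apply, smul_eq_mul]
    module

theorem op_sq (p : Fin 3 → ℂ) (x : X) : op e0 e1 f0 f1 p (op e0 e1 f0 f1 p x) =
    (p 0 * p 1 + p 2 * p 2) • x := by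
  have hx : ∀ a b : ℂ, op e0 e1 f0 f1 p (a • e0 + b • e1) =
      (a * p 2 + b * p 0) • e0 + (a * p 1 - b * p 2) • e1 := by
    intro a b
    rw [map_add, map_smul, map_smul, op_e0 h, op_e1 h]
    module
  conv_lhs => rw [h.span x, hx, hx]
  conv_rhs => rw [h.span x]
  module

theorem op_qn [CompleteSpace X] (p : Fin 3 → ℂ) :
    QN (op e0 e1 f0 f1 p) ↔ p 0 * p 1 + p 2 * p 2 = 0 := by
  constructor
  · intro hq
    by_contra hne
    have he : e0 ≠ 0 := by
      intro h0; have := h.h00; rw [h0, map_zero] at this; exact zero_ne_one this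
    refine not_qn_of_pow_eigen (n := 2) he hne (by norm_num) ?_ hq
    rw [pow_two]
    exact op_sq h p e0
  · intro hz
    apply qn_of_sq
    ext x
    show op e0 e1 f0 f1 p (op e0 e1 f0 f1 p x) = 0
    rw [op_sq h, hz, zero_smul]

end

theorem op_add (e0 e1 : X) (f0 f1 : X →L[ℂ] ℂ) (p q : Fin 3 → ℂ) :
    op e0 e1 f0 f1 (p + q) = op e0 e1 f0 f1 p + op e0 e1 f0 f1 q := by
  unfold op
  simp only [Pi.add_apply]
  module

theorem op_smul (e0 e1 : X) (f0 f1 : X →L[ℂ] ℂ) (a : ℂ) (p : Fin 3 → ℂ) :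
    op e0 e1 f0 f1 (a • p) = a • op e0 e1 f0 f1 p := by
  unfold op
  simp only [Pi.smul_apply, smul_eq_mul]
  module

/-- the quadratic form -/
noncomputable def qB : (Fin 3 → ℂ) →ₗ[ℂ] (Fin 3 → ℂ) →ₗ[ℂ] ℂ :=
  LinearMap.mk₂ ℂ (fun p q => (p 0 * q 1 + p 1 * q 0) + 2 * (p 2 * q 2))
    (fun p p' q => by simp only [Pi.add_apply]; ring)
    (fun c p q => by simp only [Pi.smul_apply, smul_eq_mul]; ring)
    (fun p q q' => by simp only [Pi.add_apply]; ring)
    (fun c p q => by simp only [Pi.smul_apply, smul_eq_mul]; ring)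

theorem qB_apply (p q : Fin 3 → ℂ) :
    qB p q = (p 0 * q 1 + p 1 * q 0) + 2 * (p 2 * q 2) := rfl

theorem qB_nondeg (p : Fin 3 → ℂ) (hp : ∀ q, qB p q = 0) : p = 0 := by
  have h1 := hp ![1, 0, 0]
  have h2 := hp ![0, 1, 0]
  have h3 := hp ![0, 0, 1]
  rw [qB_apply] at h1 h2 h3
  simp at h1 h2 h3
  ext i
  fin_cases i
  · exact h2
  · exact h1
  · exact h3

end Pool.Agent.H.MP_bb4c62_an.helper6.NL
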