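import Pool.Agent.H.MP_bb4c62_an.helper6.NSmall1
import Pool.Agent.H.MP_bb4c62_an.helper28.NFtag

/-!
Dimension at most two.
-/

namespace Pool.Agent.H.MP_bb4c62_an.helper6.NL

open Complex Metric Set Filter Topology
open Pool.Agent.H.MP_bb4c62_an.helper6.Perturb
open Pool.Agent.H.MP_bb4c62_an.helper6.Gadgets

variable {X : Type*} [NormedAddCommGroup X] [NormedSpace ℂ X]
variable {Y : Type*} [NormedAddCommGroup Y] [NormedSpace ℂ Y]

theorem qspan_diff {φ : (X →L[ℂ] X) → (Y →L[ℂ] Y)} (hφ : IsGIso φ) {V : X →L[ℂ] X}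
    (hV : V ∈ QSpan X) (R : X →L[ℂ] X) : φ (R + V) - φ R ∈ QSpan Y := by
  have key : ∀ (c : ℂ) (R : X →L[ℂ] X), φ (R + c • V) - φ R ∈ QSpan Y := by
    unfold QSpan at hV
    induction hV using Submodule.span_induction with
    | mem T hT =>
      intro c R
      apply Submodule.subset_span
      show QN (φ (R + c • T) - φ R)
      rw [hφ.2, add_sub_cancel_left]
      exact qn_smul hT c
    | zero => intro c R; rw [smul_zero, add_zero, sub_self]; exact Submodule.zero_mem _
    | add K L _ _ hK hL =>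
      intro c R
      have e : φ (R + c • (K + L)) - φ R = (φ ((R + c • K) + c • L) - φ (R + c • K)) +
          (φ (R + c • K) - φ R) := by
        rw [smul_add, add_assoc]; abel
      rw [e]
      exact Submodule.add_mem _ (hL c _) (hK c _)
    | smul a K _ hK =>
      intro c R
      rw [smul_smul]
      exact hK _ R
  have := key 1 R
  rwa [one_smul] at this

theorem qspan_iff {φ : (X →L[ℂ] X) → (Y →L[ℂ] Y)} (hφ : IsGIso φ) (T S : X →L[ℂ] X) :
    φ T - φ S ∈ QSpan Y ↔ T - S ∈ QSpan X := by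
  constructor
  · intro h
    obtain ⟨ψ, hψ, hψφ, hφψ⟩ := hφ.exists_inv
    have := qspan_diff hψ h (φ S)
    rwa [add_sub_cancel, hψφ, hψφ] at this
  · intro h
    have := qspan_diff hφ h S
    rwa [add_sub_cancel] at this

theorem F0_le_qspan {K : X →L[ℂ] X} (hK : K ∈ F0 X) : K ∈ QSpan X := by
  have : F0 X ≤ QSpan X := by
    unfold F0 QSpan
    rw [Submodule.span_le]
    rintro _ ⟨x, f, hfx, rfl⟩
    exact Submodule.subset_span (qn_of_sq (ten_sq hfx))
  exact this hK

theorem finrank_le_two (h3 : ∀ w : Fin 3 → X, ¬ LinearIndependent ℂ w) :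
    Module.Finite ℂ X ∧ Module.finrank ℂ X ≤ 2 := by
  have h1 : ¬ ((3 : ℕ) : Cardinal) ≤ Module.rank ℂ X := by
    intro h
    obtain ⟨s, hs, hli⟩ := le_rank_iff_exists_linearIndependent_finset.mp h
    have e : Fin 3 ≃ s := (Fintype.equivFinOfCardEq (by rw [Fintype.card_coe, hs])).symm
    exact h3 _ (hli.comp e e.injective)
  rw [not_le] at h1
  have hfin : Module.Finite ℂ X := by
    rw [← Module.rank_lt_aleph0_iff]
    exact h1.trans (Cardinal.natCast_lt_aleph0)
  refine ⟨hfin, ?_⟩
  have h2 : Module.finrank ℂ X < 3 := Module.finrank_lt_of_rank_lt h1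
  omega

theorem qn_small_one (hY : Module.finrank ℂ Y ≤ 1) [Module.Finite ℂ Y] {T : Y →L[ℂ] Y}
    (hT : QN T) : T = 0 := by
  obtain ⟨v, hv⟩ := finrank_le_one_iff.mp hY
  obtain ⟨t, ht⟩ := hv (T v)
  by_cases h0 : T v = 0
  · ext w
    obtain ⟨c, rfl⟩ := hv w
    rw [map_smul, h0, smul_zero]; rfl
  · exfalso
    have hv0 : v ≠ 0 := by rintro rfl; exact h0 (map_zero T)
    have ht0 : t ≠ 0 := by rintro rfl; rw [zero_smul] at ht; exact h0 ht.symm
    exact not_qn_of_eigen hv0 ht0 ht.symm hT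

theorem two_le_of_two [CompleteSpace X] {φ : (X →L[ℂ] X) → (Y →L[ℂ] Y)} (hφ : IsGIso φ)
    (hX : Module.finrank ℂ X = 2) [Module.Finite ℂ Y] : ¬ Module.finrank ℂ Y ≤ 1 := by
  intro hY
  obtain ⟨e0, e1, f0, f1, h⟩ := exists_two hX
  have hq : QN (op e0 e1 f0 f1 ![1, 0, 0] - 0) := by
    rw [sub_zero, op_qn h]; simp
  have hne : op e0 e1 f0 f1 ![1, 0, 0] ≠ 0 := by
    intro h0
    have h1 : op e0 e1 f0 f1 0 = 0 := by unfold op; simp
    rw [← h1] at h0
    have := congrFun (op_inj h h0) 0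
    simp at this
  rw [← hφ.2] at hq
  have := qn_small_one hY hq
  exact hne (hφ.1.1 (sub_eq_zero.mp this))

theorem form_two [CompleteSpace X] [CompleteSpace Y] (hX : Module.finrank ℂ X = 2)
    (hY : Module.finrank ℂ Y = 2) {φ : (X →L[ℂ] X) → (Y →L[ℂ] Y)} (hφ : IsGIso φ)
    (R : X →L[ℂ] X) : FormI φ R := by
  have hfX : Module.Finite ℂ X := Module.finite_of_finrank_pos (by omega)
  have hfY : Module.Finite ℂ Y := Module.finite_of_finrank_pos (by omega)
  obtain ⟨e0, e1, f0, f1, h⟩ := exists_two hX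
  obtain ⟨y0, y1, g0, g1, h'⟩ := exists_two hY
  have hmap : ∀ K ∈ F0 X, φ (R + K) - φ R ∈ F0 Y := fun K hK =>
    qspan_le_of_finite hfY (qspan_diff hφ (F0_le_qspan hK) R)
  choose α hα using fun p => op_surj h' (hmap _ (op_mem h p))
  have hαd : ∀ p q, op y0 y1 g0 g1 (α p - α q) =
      φ (R + op e0 e1 f0 f1 p) - φ (R + op e0 e1 f0 f1 q) := by
    intro p q
    have e : α p - α q = α p + (-1 : ℂ) • α q := by module
    rw [e, op_add, op_smul, ← hα, ← hα]
    module
  have hαinj : Function.Injective α := by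
    intro p q hpq
    have h1 := hαd p q
    rw [hpq, sub_self] at h1
    have h2 : op y0 y1 g0 g1 0 = 0 := by unfold op; simp
    rw [h2] at h1
    have h3 := hφ.1.1 (sub_eq_zero.mp h1.symm)
    exact op_inj h (add_left_cancel h3)
  have hαsurj : Function.Surjective α := by
    intro q
    obtain ⟨T, hT⟩ := hφ.1.2 (φ R + op y0 y1 g0 g1 q)
    have h1 : φ T - φ R ∈ QSpan Y := by
      rw [hT, add_sub_cancel_left]; exact F0_le_qspan (op_mem h' q)
    rw [qspan_iff hφ] at h1
    obtain ⟨p, hp⟩ := op_surj h (qspan_le_of_finite hfX h1)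
    refine ⟨p, op_inj h' ?_⟩
    rw [← hα, ← hp, add_sub_cancel, hT, add_sub_cancel_left]
  have hα0 : α 0 = 0 := by
    apply op_inj h'
    rw [← hα]
    have h2 : op y0 y1 g0 g1 0 = 0 := by unfold op; simp
    have h1 : op e0 e1 f0 f1 0 = 0 := by unfold op; simp
    rw [h1, h2, add_zero, sub_self]
  have hqB : ∀ r : Fin 3 → ℂ, qB r r = 0 ↔ r 0 * r 1 + r 2 * r 2 = 0 := by
    intro r
    rw [qB_apply]
    constructor
    · intro h; linear_combination h / 2
    · intro h; linear_combination 2 * h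
  have hline := lester3 qB qB (fun x y => by rw [qB_apply, qB_apply]; ring)
    (fun x y => by rw [qB_apply, qB_apply]; ring) (by simp) (by simp) qB_nondeg qB_nondeg α
    ⟨hαinj, hαsurj⟩ (fun p q => by
      rw [hqB, hqB, ← op_qn h', ← op_qn h, hαd, hφ.2]
      have e : R + op e0 e1 f0 f1 p - (R + op e0 e1 f0 f1 q) = op e0 e1 f0 f1 (p - q) := by
        have e2 : p - q = p + (-1 : ℂ) • q := by module
        rw [e2, op_add, op_smul]; module
      rw [e])
  obtain ⟨τ, hadd, hsmul⟩ := ftag ⟨![1, 0, 0], ![0, 1, 0], by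
      rw [LinearIndependent.pair_iff]
      intro s t hst
      have h0 := congrFun hst 0
      have h1 := congrFun hst 1
      simp at h0 h1
      exact ⟨h0, h1⟩⟩ α hαinj hα0 hline
  obtain ⟨c, S, hc, hS, hform⟩ := sl2_std hX hY τ (fun K => φ (R + K) - φ R) hmap
    (by
      intro K hK L hL
      obtain ⟨p, rfl⟩ := op_surj h hK
      obtain ⟨q, rfl⟩ := op_surj h hL
      show φ (R + (op e0 e1 f0 f1 p + op e0 e1 f0 f1 q)) - φ R =
        (φ (R + op e0 e1 f0 f1 p) - φ R) + (φ (R + op e0 e1 f0 f1 q) - φ R)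
      rw [← op_add, hα, hα, hα, hadd, op_add])
    (by
      intro a K hK
      obtain ⟨p, rfl⟩ := op_surj h hK
      show φ (R + a • op e0 e1 f0 f1 p) - φ R = τ a • (φ (R + op e0 e1 f0 f1 p) - φ R)
      rw [← op_smul, hα, hα, hsmul, op_smul])
    (by
      intro K hK h0
      have h1 := hφ.1.1 (sub_eq_zero.mp h0)
      simpa using h1)
    (by
      intro K hK h0
      obtain ⟨p, rfl⟩ := op_surj h hK
      have h1 : QN (φ (R + op e0 e1 f0 f1 p) - φ R) := by
        rw [hφ.2, add_sub_cancel_left]; exact qn_of_sq h0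
      show (φ (R + op e0 e1 f0 f1 p) - φ R) * (φ (R + op e0 e1 f0 f1 p) - φ R) = 0
      rw [hα] at h1 ⊢
      rw [op_qn h'] at h1
      ext y
      show op y0 y1 g0 g1 (α p) (op y0 y1 g0 g1 (α p) y) = 0
      rw [op_sq h', h1, zero_smul])
  exact ⟨c, τ, S, hc, ⟨hS, fun hn => absurd hfX hn⟩,
    fun V hV => hform V (qspan_le_of_finite hfX hV)⟩

theorem form_small [CompleteSpace X] [CompleteSpace Y]
    (h3 : ∀ w : Fin 3 → X, ¬ LinearIndependent ℂ w) {φ : (X →L[ℂ] X) → (Y →L[ℂ] Y)}
    (hφ : IsGIso φ) (R : X →L[ℂ] X) : FormI φ R := by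
  obtain ⟨ψ, hψ, hψφ, hφψ⟩ := hφ.exists_inv
  have h3' : ∀ w : Fin 3 → Y, ¬ LinearIndependent ℂ w := by
    intro w hw
    obtain ⟨w', hw'⟩ := dim_transfer hw hψ
    exact h3 w' hw'
  obtain ⟨hfX, hX2⟩ := finrank_le_two h3
  obtain ⟨hfY, hY2⟩ := finrank_le_two h3'
  by_cases hX : Module.finrank ℂ X = 2
  · have hY : Module.finrank ℂ Y = 2 := by
      have := two_le_of_two hφ hX
      omega
    exact form_two hX hY hφ R
  · have hX1 : Module.finrank ℂ X ≤ 1 := by omega
    have hY1 : Module.finrank ℂ Y ≤ 1 := by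
      by_contra hcon
      exact two_le_of_two hψ (by omega) hX1
    have hXY : Module.finrank ℂ X = Module.finrank ℂ Y := by
      have h1 : Module.finrank ℂ X = 0 ↔ Module.finrank ℂ Y = 0 := by
        constructor
        · intro h0
          have := Module.finrank_zero_iff.mp h0
          have hs : Subsingleton (Y →L[ℂ] Y) := by
            refine ⟨fun a b => ?_⟩
            obtain ⟨a', rfl⟩ := hφ.1.2 a
            obtain ⟨b', rfl⟩ := hφ.1.2 b
            rw [Subsingleton.elim a' b']
          have : Subsingleton Y := by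
            refine ⟨fun a b => ?_⟩
            have e : (1 : Y →L[ℂ] Y) = 0 := Subsingleton.elim _ _
            have h1 : ∀ y : Y, y = 0 := fun y => by
              have : (1 : Y →L[ℂ] Y) y = (0 : Y →L[ℂ] Y) y := by rw [e]
              exact this
            rw [h1 a, h1 b]
          exact Module.finrank_zero_of_subsingleton
        · intro h0
          have := Module.finrank_zero_iff.mp h0
          have hs : Subsingleton (X →L[ℂ] X) := by
            refine ⟨fun a b => hφ.1.1 (Subsingleton.elim _ _)⟩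
          have : Subsingleton X := by
            refine ⟨fun a b => ?_⟩
            have e : (1 : X →L[ℂ] X) = 0 := Subsingleton.elim _ _
            have h1 : ∀ y : X, y = 0 := fun y => by
              have : (1 : X →L[ℂ] X) y = (0 : X →L[ℂ] X) y := by rw [e]
              exact this
            rw [h1 a, h1 b]
          exact Module.finrank_zero_of_subsingleton
      omega
    refine ⟨1, RingEquiv.refl ℂ, (LinearEquiv.ofFinrankEq X Y hXY).toAddEquiv, one_ne_zero,
      ⟨fun a x => ?_, fun hn => absurd hfX hn⟩, fun V hV x => ?_⟩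
    · exact map_smul (LinearEquiv.ofFinrankEq X Y hXY) a x
    · have hV0 : V = 0 := by
        have : QSpan X ≤ ⊥ := by
          unfold QSpan
          rw [Submodule.span_le]
          intro T hT
          exact qn_small_one hX1 hT
        exact (Submodule.mem_bot ℂ).mp (this hV)
      rw [hV0, add_zero, sub_self]
      show (0 : Y) = (1 : ℂ) • (LinearEquiv.ofFinrankEq X Y hXY) 0
      rw [map_zero, smul_zero]

end Pool.Agent.H.MP_bb4c62_an.helper6.NL
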