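import Pool.Agent.H.MP_bb4c62_an.helper5.NLester
import Pool.Agent.H.MP_bb4c62_an.helper39.NSl2
import Pool.Agent.H.MP_bb4c62_an.helper73.NGlue
import Pool.Agent.H.MP_bb4c62_an.helper85.NMixed
import Pool.Agent.H.MP_bb4c62_an.helper6.NInst
import Pool.Agent.H.MP_bb4c62_an.helper6.NData
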