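import Pool.Agent.H.MP_bb4c62_an.helper5.P10

/-!
The plus sign: the explicit form on the span of the quasinilpotents, for all Banach spaces.
-/

namespace Pool.Agent.H.MP_bb4c62_an.helper6.PF

open Pool.Agent.H.MP_bb4c62_an.helper6.NL
open Pool.Agent.H.MP_bb4c62_an.helper6.Perturb
open Pool.Agent.H.MP_bb4c62_an.helper6.Gadgets
open Pool.Agent.H.MP_bb4c62_an.helper5.PL

variable {X : Type*} [NormedAddCommGroup X] [NormedSpace ℂ X]
variable {Y : Type*} [NormedAddCommGroup Y] [NormedSpace ℂ Y]

theorem plus_diff {φ : (X →L[ℂ] X) → (Y →L[ℂ] Y)} (h : IsPlus φ) {V : X →L[ℂ] X}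
    (hV : V ∈ QSpan X) (R : X →L[ℂ] X) : φ (R + V) - φ R ∈ QSpan Y := by
  have key : ∀ (c : ℂ) (R : X →L[ℂ] X), φ (R + c • V) - φ R ∈ QSpan Y := by
    unfold QSpan at hV
    induction hV using Submodule.span_induction with
    | mem D hD =>
      intro c R
      have hp := h.pair
      have hD' : QN (c • D) := qn_smul hD c
      have h1 : QN (φ (R + c • D) - (fun S => -φ (-S)) R) := by
        rw [hp.qn, add_sub_cancel_left]; exact hD'
      have h2 : QN (φ R - (fun S => -φ (-S)) R) := by
        rw [hp.qn, sub_self]; exact qn_zero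
      have e : φ (R + c • D) - φ R = (φ (R + c • D) - (fun S => -φ (-S)) R) -
          (φ R - (fun S => -φ (-S)) R) := by abel
      rw [e]
      exact Submodule.sub_mem _ (Submodule.subset_span h1) (Submodule.subset_span h2)
    | zero => intro c R; rw [smul_zero, add_zero, sub_self]; exact Submodule.zero_mem _
    | add K L _ _ hK hL =>
      intro c R
      have e : φ (R + c • (K + L)) - φ R =
          (φ ((R + c • K) + c • L) - φ (R + c • K)) + (φ (R + c • K) - φ R) := by
        rw [smul_add, add_assoc]; abel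
      rw [e]
      exact Submodule.add_mem _ (hL c _) (hK c R)
    | smul a K _ hK =>
      intro c R
      rw [smul_smul]
      exact hK _ R
  have := key 1 R
  rwa [one_smul] at this

theorem plus_iff {φ : (X →L[ℂ] X) → (Y →L[ℂ] Y)} (h : IsPlus φ) (T S : X →L[ℂ] X) :
    φ T - φ S ∈ QSpan Y ↔ T - S ∈ QSpan X := by
  constructor
  · intro hq
    obtain ⟨ψ, hψ, h1, h2⟩ := h.exists_inv
    have := plus_diff hψ hq (φ S)
    rwa [add_sub_cancel, h1, h1] at this
  · intro hq
    have := plus_diff h hq S
    rwa [add_sub_cancel] at this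

/-- If `φ` is odd on the span of the quasinilpotents then it has the explicit form there. -/
theorem form_of_odd [CompleteSpace X] [CompleteSpace Y] {v : Fin 3 → X}
    (hv : LinearIndependent ℂ v) {φ : (X →L[ℂ] X) → (Y →L[ℂ] Y)} (h : IsPlus φ)
    (hodd : ∀ V ∈ QSpan X, φ (-V) = -φ V) : FormI φ 0 ∨ FormII φ 0 := by
  classical
  -- representatives of the cosets
  obtain ⟨r, hr, hr0, hrr⟩ : ∃ r : (X →L[ℂ] X) → (X →L[ℂ] X),
      (∀ T, T - r T ∈ QSpan X) ∧ (∀ T ∈ QSpan X, r T = 0) ∧
      (∀ T S, T - S ∈ QSpan X → r T = r S) := by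
    refine ⟨fun T => if T ∈ QSpan X then 0 else
      (Quotient.out (Submodule.Quotient.mk (p := QSpan X) T)), ?_, ?_, ?_⟩
    · intro T
      by_cases hT : T ∈ QSpan X
      · simp only [hT, if_true, sub_zero]
      · simp only [hT, if_false]
        have : Submodule.Quotient.mk (p := QSpan X)
            (Quotient.out (Submodule.Quotient.mk (p := QSpan X) T)) =
            Submodule.Quotient.mk T := Quotient.out_eq _
        exact (Submodule.Quotient.eq _).mp this.symm
    · intro T hT
      simp only [hT, if_true]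
    · intro T S hTS
      have e : T ∈ QSpan X ↔ S ∈ QSpan X := by
        constructor
        · intro hT
          have := Submodule.sub_mem _ hT hTS
          rwa [sub_sub_cancel] at this
        · intro hS
          have := Submodule.add_mem _ hTS hS
          rwa [sub_add_cancel] at this
      have e2 : Submodule.Quotient.mk (p := QSpan X) T = Submodule.Quotient.mk S :=
        (Submodule.Quotient.eq _).mpr hTS
      simp only [e, e2]
  have h0 : φ 0 = 0 := h.zero
  have hmem : ∀ V ∈ QSpan X, φ V ∈ QSpan Y := by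
    intro V hV
    have := plus_diff h hV 0
    rwa [zero_add, h0, sub_zero] at this
  have hmem' : ∀ V, φ V ∈ QSpan Y → V ∈ QSpan X := by
    intro V hV
    have := (plus_iff h V 0).mp (by rwa [h0, sub_zero])
    rwa [sub_zero] at this
  have hqn : ∀ V ∈ QSpan X, ∀ W ∈ QSpan X, (QN (φ V - φ W) ↔ QN (V - W)) := by
    intro V _ W hW
    have e : φ V - φ W = φ V + φ (-W) := by rw [hodd W hW, ← sub_eq_add_neg]
    rw [e, h.qn, ← sub_eq_add_neg]
  set Φ : (X →L[ℂ] X) → (Y →L[ℂ] Y) := fun T => φ (r T) + φ (T - r T) with hΦ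
  have hrep : ∀ T S, Φ T - Φ S ∈ QSpan Y → T - S ∈ QSpan X := by
    intro T S hTS
    have h1 : φ (r T) - φ (r S) ∈ QSpan Y := by
      have e : φ (r T) - φ (r S) = (Φ T - Φ S) - φ (T - r T) + φ (S - r S) := by
        simp only [hΦ]; abel
      rw [e]
      exact Submodule.add_mem _ (Submodule.sub_mem _ hTS (hmem _ (hr T))) (hmem _ (hr S))
    have h2 := (plus_iff h _ _).mp h1
    have e : T - S = (T - r T) + (r T - r S) - (S - r S) := by abel
    rw [e]
    exact Submodule.sub_mem _ (Submodule.add_mem _ (hr T) h2) (hr S)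
  have hinj : Function.Injective Φ := by
    intro T S hTS
    have h1 : T - S ∈ QSpan X := hrep T S (by rw [hTS, sub_self]; exact Submodule.zero_mem _)
    have h2 := hrr T S h1
    have h3 : φ (r T) + φ (T - r T) = φ (r S) + φ (S - r S) := hTS
    rw [h2] at h3
    have h4 := h.bij.1 (add_left_cancel h3)
    exact sub_left_inj.mp h4
  have hsurj : Function.Surjective Φ := by
    intro U
    obtain ⟨T, rfl⟩ := h.bij.2 U
    obtain ⟨V, hV⟩ := h.bij.2 (φ T - φ (r T))
    have hVQ : V ∈ QSpan X := hmem' V (by rw [hV]; exact (plus_iff h _ _).mpr (hr T))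
    refine ⟨r T + V, ?_⟩
    have e : r (r T + V) = r T := by
      have h1 : r (r T + V) = r (r T) := hrr _ _ (by rwa [add_sub_cancel_left])
      have h2 : r (r T) = r T := hrr _ _ (by
        have := Submodule.neg_mem _ (hr T)
        rwa [neg_sub] at this)
      rw [h1, h2]
    show φ (r (r T + V)) + φ (r T + V - r (r T + V)) = φ T
    rw [e, add_sub_cancel_left, hV, add_sub_cancel]
  have hG : IsGIso Φ := by
    refine ⟨⟨hinj, hsurj⟩, fun T S => ?_⟩
    by_cases hTS : T - S ∈ QSpan X
    · have h2 := hrr T S hTS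
      have e : Φ T - Φ S = φ (T - r S) - φ (S - r S) := by
        simp only [hΦ, h2]; abel
      have h3 : T - r S ∈ QSpan X := by rw [← h2]; exact hr T
      rw [e, hqn _ h3 _ (hr S)]
      have e2 : T - r S - (S - r S) = T - S := by abel
      rw [e2]
    · constructor
      · intro hq
        exact absurd (hrep T S (Submodule.subset_span hq)) hTS
      · intro hq
        have hm : T - S ∈ QSpan X := Submodule.subset_span hq
        exact absurd hm hTS
  have hV : ∀ V ∈ QSpan X, Φ V = φ V := by
    intro V hV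
    simp only [hΦ, hr0 V hV, h0, zero_add, sub_zero]
  rcases forward3 hv hG 0 with ⟨c, τ, S, hc, hS, hform⟩ | ⟨c, τ, S, hc, hS, hform⟩
  · left
    refine ⟨c, τ, S, hc, hS, fun V hVQ x => ?_⟩
    have := hform V hVQ x
    rw [hV 0 (Submodule.zero_mem _)] at this
    rwa [hV (0 + V) (by rwa [zero_add])] at this
  · right
    refine ⟨c, τ, S, hc, hS, fun V hVQ x => ?_⟩
    have := hform V hVQ x
    rw [hV 0 (Submodule.zero_mem _)] at this
    rwa [hV (0 + V) (by rwa [zero_add])] at this

/-- Plus-maps are odd on the span of the quasinilpotents and have the explicit form there. -/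
theorem plus_qspan [CompleteSpace X] [CompleteSpace Y] {φ : (X →L[ℂ] X) → (Y →L[ℂ] Y)}
    (h : IsPlus φ) : (∀ V ∈ QSpan X, φ (-V) = -φ V) ∧ (FormI φ 0 ∨ FormII φ 0) := by
  by_cases hX : Module.Finite ℂ X
  · by_cases hY : Module.Finite ℂ Y
    · have := (main_plus φ h.bij.2 (Or.inl ⟨hX, hY⟩)).mp h.qn
      exact ⟨fun V _ => this.1 V, this.2.2 0⟩
    · exfalso
      obtain ⟨ψ, hψ, h1, h2⟩ := h.exists_inv
      obtain ⟨v, hv⟩ := exists_li3 hY
      rcases form_of_odd hv hψ (fun V hV => odd_on_qspan hY hψ hV) with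
        ⟨c, τ, S, hc, hS, -⟩ | ⟨c, τ, S, hc, hS, -⟩
      · apply hY
        refine fin_of_semi (τ := τ.symm) (S := S.symm) (fun a x => ?_) hX
        apply S.injective
        rw [hS.1, S.apply_symm_apply, S.apply_symm_apply, τ.apply_symm_apply]
      · apply infinite_dual hY
        refine fin_of_semi (τ := τ.symm) (S := S.symm) (fun a x => ?_) hX
        apply S.injective
        rw [hS.1, S.apply_symm_apply, S.apply_symm_apply, τ.apply_symm_apply]
  · obtain ⟨v, hv⟩ := exists_li3 hX
    have hodd : ∀ V ∈ QSpan X, φ (-V) = -φ V := fun V hV => odd_on_qspan hX h hV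
    exact ⟨hodd, form_of_odd hv h hodd⟩

end Pool.Agent.H.MP_bb4c62_an.helper6.PF
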