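import Mathlib

/-!
Little Picard theorem for entire functions omitting the values 1 and -1,
through a weak form of the theorem of Bloch.
-/

namespace Pool.Agent.H.MP_bb4c62_an.helper6.Picard

open Complex Metric Set Filter Topology

/-- Entire logarithm of a zero free entire function. -/
theorem exists_entire_log {g : ℂ → ℂ} (hg : Differentiable ℂ g) (h0 : ∀ z, g z ≠ 0) :
    ∃ h : ℂ → ℂ, Differentiable ℂ h ∧ ∀ z, exp (h z) = g z := by
  have hq : Differentiable ℂ (fun z => deriv g z / g z) := by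
    intro z
    exact ((hg.analyticAt z).deriv.differentiableAt).div (hg z) (h0 z)
  obtain ⟨F, hF⟩ := hq.isExactOn_univ
  have hF' : ∀ z, HasDerivAt F (deriv g z / g z) z := fun z => hF z (mem_univ z)
  have hk : ∀ z, HasDerivAt (fun z => g z * exp (-F z)) 0 z := by
    intro z
    have h1 := (hg z).hasDerivAt.mul ((hF' z).neg.cexp)
    convert! h1 using 1
    field_simp [h0 z]
    ring
  have hconst : ∀ z, g z * exp (-F z) = g 0 * exp (-F 0) := by
    intro z
    exact is_const_of_deriv_eq_zero (f := fun z => g z * exp (-F z))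
      (fun w => (hk w).differentiableAt) (fun w => (hk w).deriv) z 0
  refine ⟨fun z => F z - F 0 + log (g 0), ?_, ?_⟩
  · intro z
    exact (((hF' z).differentiableAt).sub_const _).add_const _
  · intro z
    have h2 := hconst z
    show exp (F z - F 0 + log (g 0)) = g z
    rw [exp_add, exp_log (h0 0), exp_sub]
    have h3 : g z = g 0 * exp (-F 0) * exp (F z) := by
      rw [← h2, mul_assoc, ← exp_add]; simp
    rw [h3, exp_neg]
    field_simp

/-- A holomorphic function with slowly varying derivative covers a disc. -/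
theorem ball_subset_range_of_deriv_le {g : ℂ → ℂ} (hg : Differentiable ℂ g) {a : ℂ} {r : ℝ}
    (hr : 0 < r) (ha : deriv g a ≠ 0) (hle : ∀ z ∈ ball a r, ‖deriv g z‖ ≤ 2 * ‖deriv g a‖) :
    ball (g a) (‖deriv g a‖ * r / 12 / 2) ⊆ range g := by
  have hpos : 0 < ‖deriv g a‖ := norm_pos_iff.mpr ha
  have hdd : Differentiable ℂ (deriv g) := fun z => (hg.analyticAt z).deriv.differentiableAt
  have hmaps : MapsTo (deriv g) (ball a r) (closedBall (deriv g a) (3 * ‖deriv g a‖)) := by
    intro z hz
    rw [mem_closedBall, dist_eq_norm]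
    have := hle z hz
    have h2 := norm_sub_le (deriv g z) (deriv g a)
    linarith
  have hschw : ∀ z ∈ ball a r, ‖deriv g z - deriv g a‖ ≤ 3 * ‖deriv g a‖ / r * ‖z - a‖ := by
    intro z hz
    have := dist_le_div_mul_dist_of_mapsTo_ball (hdd.differentiableOn) hmaps hz
    simpa [dist_eq_norm] using this
  set ρ : ℝ := r / 6 with hρ
  have hρ0 : 0 < ρ := by positivity
  have hsub : closedBall a ρ ⊆ ball a r := closedBall_subset_ball (by rw [hρ]; linarith)
  have hA : ∀ z ∈ sphere a ρ, ‖g z - g a - deriv g a * (z - a)‖ ≤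
      3 * ‖deriv g a‖ / r * ρ * ρ := by
    intro z hz
    have hcv : Convex ℝ (closedBall a ρ) := convex_closedBall a ρ
    have hder : ∀ w ∈ closedBall a ρ,
        HasDerivWithinAt (fun w => g w - deriv g a * w) (deriv g w - deriv g a)
          (closedBall a ρ) w := by
      intro w _
      have := ((hg w).hasDerivAt.sub ((hasDerivAt_id w).const_mul (deriv g a)))
      simpa using! this.hasDerivWithinAt
    have hbd : ∀ w ∈ closedBall a ρ, ‖deriv g w - deriv g a‖ ≤ 3 * ‖deriv g a‖ / r * ρ := by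
      intro w hw
      refine (hschw w (hsub hw)).trans ?_
      have : ‖w - a‖ ≤ ρ := by simpa [dist_eq_norm] using hw
      gcongr
    have h3 := hcv.norm_image_sub_le_of_norm_hasDerivWithin_le hder hbd
      (mem_closedBall_self hρ0.le) (sphere_subset_closedBall hz)
    have h4 : ‖z - a‖ = ρ := by simpa [dist_eq_norm] using hz
    rw [h4] at h3
    have h5 : g z - deriv g a * z - (g a - deriv g a * a) = g z - g a - deriv g a * (z - a) := by
      ring
    rwa [h5] at h3
  have hlow : ∀ z ∈ sphere a ρ, ‖deriv g a‖ * r / 12 ≤ ‖g z - g a‖ := by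
    intro z hz
    have h4 : ‖z - a‖ = ρ := by simpa [dist_eq_norm] using hz
    have h1 := hA z hz
    have h2 : ‖deriv g a * (z - a)‖ ≤ ‖g z - g a‖ + ‖g z - g a - deriv g a * (z - a)‖ := by
      have := norm_sub_le (g z - g a) (g z - g a - deriv g a * (z - a))
      have h6 : g z - g a - (g z - g a - deriv g a * (z - a)) = deriv g a * (z - a) := by ring
      rwa [h6] at this
    rw [norm_mul, h4] at h2
    have h7 : 3 * ‖deriv g a‖ / r * ρ * ρ = ‖deriv g a‖ * r / 12 := by
      rw [hρ]; field_simp; ring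
    rw [h7] at h1
    have h8 : ‖deriv g a‖ * ρ = ‖deriv g a‖ * r / 6 := by rw [hρ]; ring
    rw [h8] at h2
    linarith
  have hfreq : ∃ᶠ z in 𝓝 a, g z ≠ g a := by
    intro hcon
    have hev : ∀ᶠ z in 𝓝 a, g z = g a := by
      filter_upwards [hcon] with z hz
      simpa using hz
    have : deriv g a = 0 := by
      have h9 : g =ᶠ[𝓝 a] fun _ => g a := hev
      rw [h9.deriv_eq]; simp
    exact ha this
  have hdc : DiffContOnCl ℂ g (ball a ρ) := hg.diffContOnCl
  have := hdc.ball_subset_image_closedBall hρ0 hlow hfreq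
  exact this.trans (image_subset_range _ _)

/-- Weak theorem of Bloch for entire functions: the image contains discs of any radius. -/
theorem exists_ball_subset_range {f : ℂ → ℂ} (hf : Differentiable ℂ f) {c : ℂ}
    (hc : deriv f c ≠ 0) {ρ : ℝ} (hρ : 0 < ρ) : ∃ w, ball w ρ ⊆ range f := by
  have hpos : 0 < ‖deriv f c‖ := norm_pos_iff.mpr hc
  set R : ℝ := 48 * ρ / ‖deriv f c‖ with hR
  have hR0 : 0 < R := by positivity
  have hdd : Differentiable ℂ (deriv f) := fun z => (hf.analyticAt z).deriv.differentiableAt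
  have hcont : ContinuousOn (fun z => ‖deriv f z‖ * (R - ‖z - c‖)) (closedBall c R) := by
    have := hdd.continuous
    fun_prop
  obtain ⟨p, hp, hpmax⟩ := (isCompact_closedBall c R).exists_isMaxOn
    ⟨c, mem_closedBall_self hR0.le⟩ hcont
  have hM : ‖deriv f c‖ * R ≤ ‖deriv f p‖ * (R - ‖p - c‖) := by
    have := hpmax (mem_closedBall_self (x := c) hR0.le)
    simpa using this
  have hpc : ‖p - c‖ ≤ R := by simpa [dist_eq_norm] using hp
  have hpos2 : 0 < ‖deriv f p‖ * (R - ‖p - c‖) := lt_of_lt_of_le (by positivity) hM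
  have hpR : 0 < R - ‖p - c‖ := by
    rcases (sub_nonneg.mpr hpc).lt_or_eq with h | h
    · exact h
    · rw [← h] at hpos2; simp at hpos2
  have hdp : 0 < ‖deriv f p‖ := by
    rcases (norm_nonneg (deriv f p)).lt_or_eq with h | h
    · exact h
    · rw [← h] at hpos2; simp at hpos2
  set t : ℝ := (R - ‖p - c‖) / 2 with ht
  have ht0 : 0 < t := by positivity
  have hle : ∀ z ∈ ball p t, ‖deriv f z‖ ≤ 2 * ‖deriv f p‖ := by
    intro z hz
    have hzp : ‖z - p‖ < t := by simpa [dist_eq_norm] using hz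
    have hzc : ‖z - c‖ ≤ ‖z - p‖ + ‖p - c‖ := by
      have := norm_add_le (z - p) (p - c)
      simpa using this
    have h1 : t ≤ R - ‖z - c‖ := by
      have : R - ‖p - c‖ = 2 * t := by rw [ht]; ring
      linarith
    have hzmem : z ∈ closedBall c R := by
      rw [mem_closedBall, dist_eq_norm]; linarith
    have h2 : ‖deriv f z‖ * (R - ‖z - c‖) ≤ ‖deriv f p‖ * (R - ‖p - c‖) := hpmax hzmem
    have h3 : ‖deriv f z‖ * t ≤ ‖deriv f p‖ * (2 * t) := by
      calc ‖deriv f z‖ * t ≤ ‖deriv f z‖ * (R - ‖z - c‖) := by gcongr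
        _ ≤ _ := h2
        _ = ‖deriv f p‖ * (2 * t) := by rw [ht]; ring
    have h4 : ‖deriv f z‖ * t ≤ (2 * ‖deriv f p‖) * t := by linarith
    exact le_of_mul_le_mul_right h4 ht0
  refine ⟨f p, ?_⟩
  have h5 := ball_subset_range_of_deriv_le hf ht0 (norm_pos_iff.mp hdp) hle
  refine (ball_subset_ball ?_).trans h5
  have h6 : ‖deriv f p‖ * t / 12 / 2 = ‖deriv f p‖ * (R - ‖p - c‖) / 48 := by rw [ht]; ring
  rw [h6]
  have h7 : ‖deriv f c‖ * R = 48 * ρ := by rw [hR]; field_simp
  rw [h7] at hM
  linarith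

/-- An entire function omitting 1 and -1 is a cosine. -/
theorem exists_cos {F : ℂ → ℂ} (hF : Differentiable ℂ F) (h1 : ∀ z, F z ≠ 1)
    (h2 : ∀ z, F z ≠ -1) : ∃ u : ℂ → ℂ, Differentiable ℂ u ∧ ∀ z, cos (u z) = F z := by
  obtain ⟨L, hL, hLe⟩ := exists_entire_log (g := fun z => 1 - F z ^ 2)
    ((differentiable_const 1).sub (hF.pow 2)) (by
      intro z hz
      have : (F z - 1) * (F z + 1) = 0 := by linear_combination -hz
      rcases mul_eq_zero.mp this with h | h
      · exact h1 z (sub_eq_zero.mp h)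
      · exact h2 z (eq_neg_of_add_eq_zero_left h))
  have hH : ∀ z, exp (L z / 2) ^ 2 = 1 - F z ^ 2 := by
    intro z
    rw [← hLe z, ← exp_nat_mul]
    congr 1
    push_cast
    ring
  have hprod : ∀ z, (F z + I * exp (L z / 2)) * (F z - I * exp (L z / 2)) = 1 := by
    intro z
    linear_combination (hH z) - (exp (L z / 2)) ^ 2 * I_sq
  obtain ⟨v, hv, hve⟩ := exists_entire_log (g := fun z => F z + I * exp (L z / 2))
    (by
      have : Differentiable ℂ (fun z => exp (L z / 2)) := (hL.div_const 2).cexp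
      exact hF.add (this.const_mul I))
    (by
      intro z hz
      have := hprod z
      rw [hz, zero_mul] at this
      exact zero_ne_one this)
  refine ⟨fun z => -I * v z, hv.const_mul (-I), ?_⟩
  intro z
  have e1 : exp (-I * v z * I) = F z + I * exp (L z / 2) := by
    rw [← hve z]; congr 1; linear_combination -(v z) * I_sq
  have e2 : exp (-(-I * v z) * I) = F z - I * exp (L z / 2) := by
    have h3 : exp (-(-I * v z) * I) * exp (-I * v z * I) = 1 := by
      rw [← exp_add]; simp
    have hp := hprod z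
    rw [← e1] at hp
    have hne : exp (-I * v z * I) ≠ 0 := exp_ne_zero _
    have : exp (-(-I * v z) * I) * exp (-I * v z * I) =
        (F z - I * exp (L z / 2)) * exp (-I * v z * I) := by
      rw [h3, mul_comm, hp]
    exact mul_right_cancel₀ hne this
  show cos (-I * v z) = F z
  unfold Complex.cos
  rw [e1, e2]
  ring

/-- Every disc of radius 4 contains a point whose cosine is an integer. -/
theorem exists_cos_int (w : ℂ) : ∃ w' ∈ ball w 4, ∃ n : ℤ, cos w' = n := by
  -- choose the real part in pi times integers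
  set m : ℤ := round (w.re / Real.pi) with hm
  have hpi := Real.pi_pos
  have hpi4 : Real.pi < 3.15 := Real.pi_lt_d2
  have hre : |w.re - m * Real.pi| ≤ Real.pi / 2 := by
    have h := abs_sub_round (w.re / Real.pi)
    have h2 : w.re - m * Real.pi = (w.re / Real.pi - m) * Real.pi := by
      field_simp
    rw [h2, abs_mul, abs_of_pos hpi]
    nlinarith
  -- imaginary part
  have key : ∀ b : ℝ, 0 ≤ b → ∃ y : ℝ, b ≤ y ∧ y ≤ b + 2 ∧ ∃ n : ℤ, Real.cosh y = n := by
    intro b hb
    have hcont : ContinuousOn Real.cosh (Icc b (b + 2)) := Real.continuous_cosh.continuousOn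
    have hsurj := intermediate_value_Icc (by linarith : b ≤ b + 2) hcont
    have hgap : Real.cosh b + 1 ≤ Real.cosh (b + 2) := by
      rw [Real.cosh_add]
      have h1 : 1 ≤ Real.cosh b := Real.one_le_cosh b
      have h2 : 0 ≤ Real.sinh b := Real.sinh_nonneg_iff.mpr hb
      have h3 : 0 ≤ Real.sinh 2 := Real.sinh_nonneg_iff.mpr (by norm_num)
      have h4 : (2 : ℝ) ≤ Real.cosh 2 := by
        rw [Real.cosh_eq]
        have h5 : (2 : ℝ) + 1 ≤ Real.exp 2 := Real.add_one_le_exp 2
        have h6 : 4 ≤ Real.exp 2 := by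
          have h7 : (1 : ℝ) + 1 ≤ Real.exp 1 := Real.add_one_le_exp 1
          have h8 : Real.exp 2 = Real.exp 1 * Real.exp 1 := by rw [← Real.exp_add]; norm_num
          rw [h8]; nlinarith
        have h9 := Real.exp_pos (-2)
        linarith
      nlinarith [mul_nonneg h2 h3]
    obtain ⟨y, hy, hyn⟩ := hsurj ⟨(Int.le_ceil (Real.cosh b)), by
      have := Int.ceil_lt_add_one (Real.cosh b)
      linarith⟩
    exact ⟨y, hy.1, hy.2, ⌈Real.cosh b⌉, hyn⟩
  obtain ⟨y, hy, n, hn⟩ : ∃ y : ℝ, |w.im - y| ≤ 2 ∧ ∃ n : ℤ, Real.cosh y = n := by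
    rcases le_total 0 w.im with h | h
    · obtain ⟨y, h1, h2, n, hn⟩ := key w.im h
      exact ⟨y, by rw [abs_le]; constructor <;> linarith, n, hn⟩
    · obtain ⟨y, h1, h2, n, hn⟩ := key (-w.im) (by linarith)
      exact ⟨-y, by rw [abs_le]; constructor <;> linarith, n, by rw [Real.cosh_neg]; exact hn⟩
  refine ⟨(m * Real.pi : ℝ) + (y : ℂ) * I, ?_, ?_⟩
  · rw [mem_ball, dist_comm, dist_eq_norm]
    refine lt_of_le_of_lt (norm_le_abs_re_add_abs_im _) ?_
    simp only [sub_re, add_re, ofReal_re, mul_re, I_re, mul_zero, ofReal_im, I_im, mul_one,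
      sub_self, add_zero, sub_im, add_im, mul_im, zero_add]
    have : |w.re - m * Real.pi| + |w.im - y| ≤ Real.pi / 2 + 2 := add_le_add hre hy
    calc |w.re - m * Real.pi| + |w.im - y| ≤ Real.pi / 2 + 2 := this
      _ < 4 := by linarith
  · rcases Int.even_or_odd m with ⟨k, hk⟩ | ⟨k, hk⟩
    · refine ⟨n, ?_⟩
      have h1 : ((m * Real.pi : ℝ) : ℂ) + (y : ℂ) * I = (y : ℂ) * I + k * (2 * Real.pi) := by
        rw [hk]; push_cast; ring
      rw [h1, Complex.cos_add_int_mul_two_pi, Complex.cos_mul_I, ← Complex.ofReal_cosh, hn]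
      simp
    · refine ⟨-n, ?_⟩
      have h1 : ((m * Real.pi : ℝ) : ℂ) + (y : ℂ) * I =
          ((y : ℂ) * I + Real.pi) + k * (2 * Real.pi) := by
        rw [hk]; push_cast; ring
      rw [h1, Complex.cos_add_int_mul_two_pi, Complex.cos_add_pi, Complex.cos_mul_I,
        ← Complex.ofReal_cosh, hn]
      simp

/-- **Little Picard** for the two omitted values 1 and -1. -/
theorem picard {F : ℂ → ℂ} (hF : Differentiable ℂ F) (h1 : ∀ z, F z ≠ 1)
    (h2 : ∀ z, F z ≠ -1) (z w : ℂ) : F z = F w := by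
  obtain ⟨u, hu, hue⟩ := exists_cos hF h1 h2
  have hint : ∀ z (n : ℤ), u z ≠ n * Real.pi := by
    intro z n hz
    have h3 := hue z
    rw [hz] at h3
    rcases Int.even_or_odd n with ⟨k, hk⟩ | ⟨k, hk⟩
    · apply h1 z
      rw [← h3, hk]
      have : (((k + k : ℤ) : ℂ)) * (Real.pi : ℂ) = 0 + k * (2 * Real.pi) := by push_cast; ring
      rw [this, Complex.cos_add_int_mul_two_pi, Complex.cos_zero]
    · apply h2 z
      rw [← h3, hk]
      have : (((2 * k + 1 : ℤ) : ℂ)) * (Real.pi : ℂ) = Real.pi + k * (2 * Real.pi) := by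
        push_cast; ring
      rw [this, Complex.cos_add_int_mul_two_pi, Complex.cos_pi]
  have hpi : (Real.pi : ℂ) ≠ 0 := by exact_mod_cast Real.pi_ne_zero
  have hq : Differentiable ℂ (fun z => u z / Real.pi) := hu.div_const _
  obtain ⟨v, hv, hve⟩ := exists_cos hq
    (by
      intro z hz
      apply hint z 1
      rw [div_eq_one_iff_eq hpi] at hz
      rw [hz]; simp)
    (by
      intro z hz
      apply hint z (-1)
      rw [div_eq_iff hpi] at hz
      rw [hz]; simp)
  have hvi : ∀ z (n : ℤ), cos (v z) ≠ n := by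
    intro z n hz
    apply hint z n
    rw [hve z, div_eq_iff hpi] at hz
    exact hz
  have hder : ∀ c, deriv v c = 0 := by
    intro c
    by_contra hc
    obtain ⟨w, hw⟩ := exists_ball_subset_range hv hc (by norm_num : (0 : ℝ) < 4)
    obtain ⟨w', hw', n, hn⟩ := exists_cos_int w
    obtain ⟨z, hz⟩ := hw hw'
    apply hvi z n
    rw [hz]; exact hn
  have hvc : v z = v w := is_const_of_deriv_eq_zero hv hder z w
  have huz : u z = u w := by
    have e1 := hve z
    have e2 := hve w
    rw [hvc] at e1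
    rw [e1] at e2
    field_simp at e2
    exact e2
  rw [← hue z, ← hue w, huz]

end Pool.Agent.H.MP_bb4c62_an.helper6.Picard
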