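import Pool.Agent.H.MP_bb4c62_an.helper6.Perturb
import Pool.Agent.H.MP_bb4c62_an.helper6.NForms

/-!
Banach spaces on which every operator is a sum of quasinilpotent operators.
-/

namespace Pool.Agent.H.MP_bb4c62_an.helper6.QT

open Pool.Agent.H.MP_bb4c62_an.helper6.NL
open Pool.Agent.H.MP_bb4c62_an.helper6.Perturb
open scoped ENNReal

variable {X : Type*} [NormedAddCommGroup X] [NormedSpace ℂ X]

theorem sq_mem {T : X →L[ℂ] X} (h : T * T = 0) : T ∈ QSpan X :=
  Submodule.subset_span (qn_of_sq h)

/-- an operator commuting with two anticommuting involutions -/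
theorem mul_invol_mem {e J A : X →L[ℂ] X} (he : e * e = 1) (hJ : J * J = 1)
    (heJ : J * e = -(e * J)) (hAe : e * A = A * e) (hAJ : J * A = A * J) :
    A * e ∈ QSpan X := by
  have h1 : (e + e * J) * (e + e * J) = 0 := by
    have a1 : e * (e * J) = J := by rw [← mul_assoc, he, one_mul]
    have a2 : e * J * e = -J := by rw [mul_assoc, heJ, mul_neg, a1]
    have a3 : e * J * (e * J) = -1 := by
      rw [← mul_assoc, a2, neg_mul, hJ]
    rw [mul_add, add_mul, add_mul, he, a1, a2, a3]; abel
  have h2 : (e - e * J) * (e - e * J) = 0 := by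
    have a1 : e * (e * J) = J := by rw [← mul_assoc, he, one_mul]
    have a2 : e * J * e = -J := by rw [mul_assoc, heJ, mul_neg, a1]
    have a3 : e * J * (e * J) = -1 := by
      rw [← mul_assoc, a2, neg_mul, hJ]
    rw [mul_sub, sub_mul, sub_mul, he, a1, a2, a3]; abel
  have c1 : (e + e * J) * A = A * (e + e * J) := by
    rw [add_mul, mul_add, hAe, mul_assoc, hAJ, ← mul_assoc, hAe, mul_assoc]
  have c2 : (e - e * J) * A = A * (e - e * J) := by
    rw [sub_mul, mul_sub, hAe, mul_assoc, hAJ, ← mul_assoc, hAe, mul_assoc]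
  have m1 : A * (e + e * J) ∈ QSpan X := sq_mem (by
    rw [mul_assoc, ← mul_assoc (e + e * J), c1, mul_assoc A, h1, mul_zero, mul_zero])
  have m2 : A * (e - e * J) ∈ QSpan X := sq_mem (by
    rw [mul_assoc, ← mul_assoc (e - e * J), c2, mul_assoc A, h2, mul_zero, mul_zero])
  have e1 : A * e = (2 : ℂ)⁻¹ • (A * (e + e * J) + A * (e - e * J)) := by
    rw [← mul_add]
    have : e + e * J + (e - e * J) = (2 : ℂ) • e := by module
    rw [this, mul_smul_comm, smul_smul, inv_mul_cancel₀ two_ne_zero, one_smul]
  rw [e1]
  exact Submodule.smul_mem _ _ (Submodule.add_mem _ m1 m2)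

theorem conj_mem {s t : X →L[ℂ] X} (hts : t * s = 1) {N : X →L[ℂ] X} (hN : N ∈ QSpan X) :
    s * N * t ∈ QSpan X := by
  unfold QSpan at hN
  induction hN using Submodule.span_induction with
  | mem D hD =>
    refine Submodule.subset_span ?_
    show spectralRadius ℂ (s * D * t) = 0
    have hD' : spectralRadius ℂ D = 0 := hD
    rw [qn_iff] at hD' ⊢
    intro z
    obtain ⟨u, hu⟩ := hD' z
    have hu1 : (1 - z • D) * (↑u⁻¹ : X →L[ℂ] X) = 1 := by rw [← hu, u.mul_inv]
    have hu2 : (↑u⁻¹ : X →L[ℂ] X) * (1 - z • D) = 1 := by rw [← hu, u.inv_mul]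
    set M : X →L[ℂ] X := ↑u⁻¹ with hM
    have k1 : z • (D * M) = M - 1 := by
      have : M - z • (D * M) = 1 := by rw [← hu1, sub_mul, one_mul, smul_mul_assoc]
      rw [← this]; abel
    have k2 : z • (M * D) = M - 1 := by
      have : M - z • (M * D) = 1 := by rw [← hu2, mul_sub, mul_one, mul_smul_comm]
      rw [← this]; abel
    refine ⟨⟨1 - z • (s * D * t), 1 + z • (s * (D * M) * t), ?_, ?_⟩, rfl⟩
    · have e1 : (s * D * t) * (s * (D * M) * t) = s * (D * (D * M)) * t := by
        rw [mul_assoc (s * D), mul_assoc s (D * M), ← mul_assoc t s, hts, one_mul, mul_assoc,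
          ← mul_assoc D, ← mul_assoc s]
      have e2 : z • (s * (D * (z • (D * M))) * t) = z • (s * (D * M) * t) - z • (s * D * t) := by
        rw [k1, mul_sub, mul_one, mul_sub, sub_mul, smul_sub]
      have e3 : (z • (s * D * t)) * (z • (s * (D * M) * t)) =
          z • (s * (D * (z • (D * M))) * t) := by
        rw [smul_mul_smul_comm, e1, mul_smul_comm, mul_smul_comm, smul_mul_assoc, smul_smul]
      rw [sub_mul, one_mul, mul_add, mul_one, e3, e2]
      abel
    · have e1 : (s * (D * M) * t) * (s * D * t) = s * (D * (M * D)) * t := by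
        rw [mul_assoc (s * (D * M)), mul_assoc s D, ← mul_assoc t s, hts, one_mul]
        simp only [mul_assoc]
      have e2 : z • (s * (D * (z • (M * D))) * t) = z • (s * (D * M) * t) - z • (s * D * t) := by
        rw [k2, mul_sub, mul_one, mul_sub, sub_mul, smul_sub]
      have e3 : (z • (s * (D * M) * t)) * (z • (s * D * t)) =
          z • (s * (D * (z • (M * D))) * t) := by
        rw [smul_mul_smul_comm, e1, mul_smul_comm, mul_smul_comm, smul_mul_assoc, smul_smul]
      rw [add_mul, one_mul, mul_sub, mul_one, e3, e2]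
      abel
  | zero => rw [mul_zero, zero_mul]; exact Submodule.zero_mem _
  | add K L _ _ hK hL => rw [mul_add, add_mul]; exact Submodule.add_mem _ hK hL
  | smul a K _ hK =>
    rw [mul_smul_comm, smul_mul_assoc]; exact Submodule.smul_mem _ _ hK

/-- The swindle: `X = X ⊕ X ⊕ ...` in the sense of operators. -/
theorem qspan_top_of_ops {i q s t e J : X →L[ℂ] X} (hqi : q * i = 1) (hts : t * s = 1)
    (hqs : q * s = 0) (hti : t * i = 0) (h1 : i * q + s * t = 1)
    (he : e * e = 1) (hJ : J * J = 1) (heJ : J * e = -(e * J))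
    (hes : e = i * q - s * e * t)
    (hamp : ∀ a : X →L[ℂ] X, ∃ A : X →L[ℂ] X, A = i * a * q + s * A * t ∧ e * A = A * e ∧
      J * A = A * J) : QSpan X = ⊤ := by
  have hi : ∀ a : X →L[ℂ] X, i * a * q ∈ QSpan X := by
    intro a
    obtain ⟨A, hA, hAe, hAJ⟩ := hamp a
    have m1 : A * e ∈ QSpan X := mul_invol_mem he hJ heJ hAe hAJ
    have m2 : s * (A * e) * t ∈ QSpan X := conj_mem hts m1
    have key : A * e = i * a * q - s * (A * e) * t := by
      conv_lhs => rw [hA, hes]
      have a1 : i * a * q * (i * q) = i * a * q := by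
        rw [← mul_assoc, mul_assoc (i * a), hqi, mul_one]
      have a2 : i * a * q * (s * e * t) = 0 := by
        rw [mul_assoc s, ← mul_assoc, mul_assoc (i * a), hqs, mul_zero, zero_mul]
      have a3 : s * A * t * (i * q) = 0 := by
        rw [← mul_assoc, mul_assoc (s * A), hti, mul_zero, zero_mul]
      have a4 : s * A * t * (s * e * t) = s * (A * e) * t := by
        rw [mul_assoc (s * A), ← mul_assoc t, ← mul_assoc t, hts, one_mul]
        simp only [mul_assoc]
      rw [add_mul, mul_sub, mul_sub, a1, a2, a3, a4]; abel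
    have : i * a * q = A * e + s * (A * e) * t := (eq_sub_iff_add_eq.mp key).symm
    rw [this]
    exact Submodule.add_mem _ m1 m2
  have hs : ∀ b : X →L[ℂ] X, s * b * t ∈ QSpan X := by
    intro b
    have E1 : (i * q - s * t) * (i * q - s * t) = 1 := by
      have a1 : i * q * (i * q) = i * q := by rw [← mul_assoc, mul_assoc i, hqi, mul_one]
      have a2 : i * q * (s * t) = 0 := by
        rw [← mul_assoc, mul_assoc i, hqs, mul_zero, zero_mul]
      have a3 : s * t * (i * q) = 0 := by
        rw [← mul_assoc, mul_assoc s, hti, mul_zero, zero_mul]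
      have a4 : s * t * (s * t) = s * t := by rw [← mul_assoc, mul_assoc s, hts, mul_one]
      rw [mul_sub, sub_mul, sub_mul, a1, a2, a3, a4, ← h1]; abel
    have E2 : (i * t + s * q) * (i * t + s * q) = 1 := by
      have a1 : i * t * (i * t) = 0 := by
        rw [← mul_assoc, mul_assoc i, hti, mul_zero, zero_mul]
      have a2 : i * t * (s * q) = i * q := by rw [← mul_assoc, mul_assoc i, hts, mul_one]
      have a3 : s * q * (i * t) = s * t := by rw [← mul_assoc, mul_assoc s, hqi, mul_one]
      have a4 : s * q * (s * q) = 0 := by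
        rw [← mul_assoc, mul_assoc s, hqs, mul_zero, zero_mul]
      rw [mul_add, add_mul, add_mul, a1, a2, a3, a4, ← h1]; abel
    have b1 : (i * q - s * t) * (i * t + s * q) = i * t - s * q := by
      have a1 : i * q * (i * t) = i * t := by rw [← mul_assoc, mul_assoc i, hqi, mul_one]
      have a2 : i * q * (s * q) = 0 := by
        rw [← mul_assoc, mul_assoc i, hqs, mul_zero, zero_mul]
      have a3 : s * t * (i * t) = 0 := by
        rw [← mul_assoc, mul_assoc s, hti, mul_zero, zero_mul]
      have a4 : s * t * (s * q) = s * q := by rw [← mul_assoc, mul_assoc s, hts, mul_one]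
      rw [mul_add, sub_mul, sub_mul, a1, a2, a3, a4]; abel
    have b2 : (i * t + s * q) * (i * q - s * t) = -(i * t - s * q) := by
      have a1 : i * t * (i * q) = 0 := by
        rw [← mul_assoc, mul_assoc i, hti, mul_zero, zero_mul]
      have a2 : i * t * (s * t) = i * t := by rw [← mul_assoc, mul_assoc i, hts, mul_one]
      have a3 : s * q * (i * q) = s * q := by rw [← mul_assoc, mul_assoc s, hqi, mul_one]
      have a4 : s * q * (s * t) = 0 := by
        rw [← mul_assoc, mul_assoc s, hqs, mul_zero, zero_mul]
      rw [mul_sub, add_mul, add_mul, a1, a2, a3, a4]; abel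
    have c1 : (i * q) * (i * b * q + s * b * t) = i * b * q := by
      have a1 : i * q * (i * b * q) = i * b * q := by
        rw [mul_assoc i b, ← mul_assoc (i * q), mul_assoc i q, hqi, mul_one]
      have a2 : i * q * (s * b * t) = 0 := by
        rw [mul_assoc s b, ← mul_assoc (i * q), mul_assoc i q, hqs, mul_zero, zero_mul]
      rw [mul_add, a1, a2, add_zero]
    have c2 : (s * t) * (i * b * q + s * b * t) = s * b * t := by
      have a1 : s * t * (i * b * q) = 0 := by
        rw [mul_assoc i b, ← mul_assoc (s * t), mul_assoc s t, hti, mul_zero, zero_mul]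
      have a2 : s * t * (s * b * t) = s * b * t := by
        rw [mul_assoc s b, ← mul_assoc (s * t), mul_assoc s t, hts, mul_one]
      rw [mul_add, a1, a2, zero_add]
    have c3 : (i * b * q + s * b * t) * (i * q) = i * b * q := by
      have a1 : i * b * q * (i * q) = i * b * q := by
        rw [← mul_assoc, mul_assoc (i * b), hqi, mul_one]
      have a2 : s * b * t * (i * q) = 0 := by
        rw [← mul_assoc, mul_assoc (s * b), hti, mul_zero, zero_mul]
      rw [add_mul, a1, a2, add_zero]
    have c4 : (i * b * q + s * b * t) * (s * t) = s * b * t := by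
      have a1 : i * b * q * (s * t) = 0 := by
        rw [← mul_assoc, mul_assoc (i * b), hqs, mul_zero, zero_mul]
      have a2 : s * b * t * (s * t) = s * b * t := by
        rw [← mul_assoc, mul_assoc (s * b), hts, mul_one]
      rw [add_mul, a1, a2, zero_add]
    have d1 : (i * t + s * q) * (i * b * q + s * b * t) = i * b * t + s * b * q := by
      have a1 : i * t * (i * b * q) = 0 := by
        rw [mul_assoc i b, ← mul_assoc (i * t), mul_assoc i t, hti, mul_zero, zero_mul]
      have a2 : i * t * (s * b * t) = i * b * t := by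
        rw [mul_assoc s b, ← mul_assoc (i * t), mul_assoc i t, hts, mul_one, mul_assoc]
      have a3 : s * q * (i * b * q) = s * b * q := by
        rw [mul_assoc i b, ← mul_assoc (s * q), mul_assoc s q, hqi, mul_one, mul_assoc]
      have a4 : s * q * (s * b * t) = 0 := by
        rw [mul_assoc s b, ← mul_assoc (s * q), mul_assoc s q, hqs, mul_zero, zero_mul]
      rw [mul_add, add_mul, add_mul, a1, a2, a3, a4]; abel
    have d2 : (i * b * q + s * b * t) * (i * t + s * q) = i * b * t + s * b * q := by
      have a1 : i * b * q * (i * t) = i * b * t := by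
        rw [← mul_assoc, mul_assoc (i * b), hqi, mul_one]
      have a2 : i * b * q * (s * q) = 0 := by
        rw [← mul_assoc, mul_assoc (i * b), hqs, mul_zero, zero_mul]
      have a3 : s * b * t * (i * t) = 0 := by
        rw [← mul_assoc, mul_assoc (s * b), hti, mul_zero, zero_mul]
      have a4 : s * b * t * (s * q) = s * b * q := by
        rw [← mul_assoc, mul_assoc (s * b), hts, mul_one]
      rw [mul_add, add_mul, add_mul, a1, a2, a3, a4]; abel
    have m1 : (i * b * q + s * b * t) * (i * q - s * t) ∈ QSpan X :=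
      mul_invol_mem E1 E2 (by rw [b1, b2]) (by rw [sub_mul, mul_sub, c1, c2, c3, c4])
        (by rw [d1, d2])
    have e1 : s * b * t = i * b * q - (i * b * q + s * b * t) * (i * q - s * t) := by
      rw [mul_sub, c3, c4]; abel
    rw [e1]
    exact Submodule.sub_mem _ (hi b) m1
  rw [eq_top_iff]
  intro T _
  have hT : T = i * (q * T * i) * q + s * (t * T * s) * t + (i * q * T * (s * t)) +
      (s * t * T * (i * q)) := by
    have : T = (i * q + s * t) * T * (i * q + s * t) := by rw [h1, one_mul, mul_one]
    conv_lhs => rw [this]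
    rw [mul_add, add_mul, add_mul, add_mul]
    simp only [mul_assoc]
    abel
  rw [hT]
  refine Submodule.add_mem _ (Submodule.add_mem _ (Submodule.add_mem _ (hi _) (hs _)) ?_) ?_
  · apply sq_mem
    have : i * q * T * (s * t) * (i * q * T * (s * t)) =
        i * q * T * s * (t * i) * (q * T * (s * t)) := by simp only [mul_assoc]
    rw [this, hti, mul_zero, zero_mul]
  · apply sq_mem
    have : s * t * T * (i * q) * (s * t * T * (i * q)) =
        s * t * T * i * (q * s) * (t * T * (i * q)) := by simp only [mul_assoc]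
    rw [this, hqs, mul_zero, zero_mul]

end Pool.Agent.H.MP_bb4c62_an.helper6.QT
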