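import Pool.Agent.H.MP_bb4c62_an.helper6.QTop

/-!
If `X` is isomorphic to `ℓᵖ(ℕ; X)` then every operator on `X` is a sum of quasinilpotents.
-/

namespace Pool.Agent.H.MP_bb4c62_an.helper6.QT

open Pool.Agent.H.MP_bb4c62_an.helper6.NL
open Pool.Agent.H.MP_bb4c62_an.helper6.Perturb
open scoped ENNReal

variable {X : Type*} [NormedAddCommGroup X] [NormedSpace ℂ X]

theorem exists_op {p : ℝ≥0∞} [hp1 : Fact (1 ≤ p)] (σ : ℕ → ℕ) (c : ℕ → (X →L[ℂ] X)) (C : ℝ)
    (hC : 0 ≤ C) (hc : ∀ n, ‖c n‖ ≤ C)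
    (hσ : ∀ m n, c m ≠ 0 → c n ≠ 0 → σ m = σ n → m = n) :
    ∃ T : lp (fun _ : ℕ => X) p →L[ℂ] lp (fun _ : ℕ => X) p, ∀ x n, T x n = c n (x (σ n)) := by
  classical
  have hp0 : p ≠ 0 := (zero_lt_one.trans_le hp1.out).ne'
  have hle : ∀ (x : lp (fun _ : ℕ => X) p) (n : ℕ), ‖c n (x (σ n))‖ ≤ C * ‖x (σ n)‖ :=
    fun x n => ((c n).le_opNorm _).trans (mul_le_mul_of_nonneg_right (hc n) (norm_nonneg _))
  have hsum : 0 < p.toReal → ∀ (x : lp (fun _ : ℕ => X) p) (s : Finset ℕ),
      ∑ n ∈ s, ‖c n (x (σ n))‖ ^ p.toReal ≤ (C * ‖x‖) ^ p.toReal := by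
    intro hp x s
    have h1 : ∑ n ∈ s, ‖c n (x (σ n))‖ ^ p.toReal =
        ∑ n ∈ s with c n ≠ 0, ‖c n (x (σ n))‖ ^ p.toReal := by
      symm
      apply Finset.sum_filter_of_ne
      intro n _ hn h0
      apply hn
      rw [h0]
      simp [Real.zero_rpow hp.ne']
    rw [h1]
    calc ∑ n ∈ s with c n ≠ 0, ‖c n (x (σ n))‖ ^ p.toReal
        ≤ ∑ n ∈ s with c n ≠ 0, (C * ‖x (σ n)‖) ^ p.toReal := by
          gcongr with n _
          exact hle x n
      _ = C ^ p.toReal * ∑ n ∈ s with c n ≠ 0, ‖x (σ n)‖ ^ p.toReal := by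
          rw [Finset.mul_sum]
          refine Finset.sum_congr rfl fun n _ => ?_
          rw [Real.mul_rpow hC (norm_nonneg _)]
      _ = C ^ p.toReal * ∑ m ∈ (s.filter fun n => c n ≠ 0).image σ, ‖x m‖ ^ p.toReal := by
          rw [Finset.sum_image]
          intro m hm n hn hmn
          simp only [Finset.coe_filter, Set.mem_setOf_eq] at hm hn
          exact hσ m n hm.2 hn.2 hmn
      _ ≤ C ^ p.toReal * ‖x‖ ^ p.toReal := by
          gcongr
          exact lp.sum_rpow_le_norm_rpow hp x _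
      _ = (C * ‖x‖) ^ p.toReal := by rw [Real.mul_rpow hC (norm_nonneg _)]
  have hmem : ∀ x : lp (fun _ : ℕ => X) p, Memℓp (fun n => c n (x (σ n))) p := by
    intro x
    obtain (rfl | rfl | hp) := p.trichotomy
    · exact absurd rfl hp0
    · rw [memℓp_infty_iff]
      refine ⟨C * ‖x‖, ?_⟩
      rintro _ ⟨n, rfl⟩
      exact (hle x n).trans (mul_le_mul_of_nonneg_left (lp.norm_apply_le_norm hp0 x _) hC)
    · exact memℓp_gen' (hsum hp x)
  refine ⟨LinearMap.mkContinuous
    { toFun := fun x => ⟨fun n => c n (x (σ n)), hmem x⟩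
      map_add' := fun x y => by
        ext n
        show c n ((x + y) (σ n)) = c n (x (σ n)) + c n (y (σ n))
        rw [lp.coeFn_add, Pi.add_apply, map_add]
      map_smul' := fun a x => by
        ext n
        show c n ((a • x) (σ n)) = a • c n (x (σ n))
        rw [lp.coeFn_smul, Pi.smul_apply, map_smul] } C ?_, fun x n => rfl⟩
  intro x
  obtain (rfl | rfl | hp) := p.trichotomy
  · exact absurd rfl hp0
  · refine lp.norm_le_of_forall_le (by positivity) fun n => ?_
    exact (hle x n).trans (mul_le_mul_of_nonneg_left (lp.norm_apply_le_norm hp0 x _) hC)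
  · exact lp.norm_le_of_forall_sum_le hp (by positivity) (hsum hp x)

theorem qspan_top_of_lp {p : ℝ≥0∞} [hp1 : Fact (1 ≤ p)]
    (E : X ≃L[ℂ] lp (fun _ : ℕ => X) p) : QSpan X = ⊤ := by
  -- the swap
  obtain ⟨w, hw, hw2, hwinj⟩ : ∃ w : ℕ → ℕ, (∀ n, w (w n) = n) ∧
      (∀ n, (-1 : ℂ) ^ (w n) = -(-1) ^ n) ∧ (∀ m n, w m = w n → m = n) := by
    refine ⟨fun n => if n % 2 = 0 then n + 1 else n - 1, ?_, ?_, ?_⟩
    · intro n
      dsimp only
      split_ifs <;> omega
    · intro n
      dsimp only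
      split_ifs with h
      · rw [pow_succ]; ring
      · obtain ⟨k, hk⟩ : ∃ k, n = k + 1 := ⟨n - 1, by omega⟩
        rw [hk, Nat.add_sub_cancel, pow_succ]; ring
    · intro m n h
      dsimp only at h
      split_ifs at h <;> omega
  have hid : ∀ n : ℕ, ‖(1 : X →L[ℂ] X)‖ ≤ 1 := fun _ => ContinuousLinearMap.norm_id_le
  obtain ⟨J, hJ⟩ := exists_op (X := X) (p := p) w (fun _ => 1) 1 zero_le_one hid
    (fun m n _ _ h => hwinj m n h)
  obtain ⟨e, he⟩ := exists_op (X := X) (p := p) (fun n => n) (fun n => ((-1 : ℂ) ^ n) • 1) 1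
    zero_le_one (fun n => by
      rw [norm_smul, norm_pow, norm_neg, norm_one, one_pow, one_mul]
      exact hid n) (fun m n _ _ h => h)
  obtain ⟨t, ht⟩ := exists_op (X := X) (p := p) (fun n => n + 1) (fun _ => 1) 1 zero_le_one hid
    (fun m n _ _ h => by omega)
  obtain ⟨s, hs⟩ := exists_op (X := X) (p := p) (fun n => n - 1)
    (fun n => if n = 0 then 0 else 1) 1 zero_le_one (fun n => by
      split_ifs
      · rw [norm_zero]; exact zero_le_one
      · exact hid n) (fun m n hm hn h => by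
      have hm' : m ≠ 0 := by rintro rfl; simp at hm
      have hn' : n ≠ 0 := by rintro rfl; simp at hn
      omega)
  have hs0 : ∀ x, s x 0 = 0 := fun x => by rw [hs]; simp
  have hs1 : ∀ x n, s x (n + 1) = x n := fun x n => by rw [hs]; simp
  have ht' : ∀ x n, t x n = x (n + 1) := fun x n => by rw [ht]; rfl
  have hJ' : ∀ x n, J x n = x (w n) := fun x n => by rw [hJ]; rfl
  have he' : ∀ x n, e x n = ((-1 : ℂ) ^ n) • x n := fun x n => by rw [he]; rfl
  set F : lp (fun _ : ℕ => X) p →L[ℂ] X := E.symm.toContinuousLinearMap with hF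
  set G : X →L[ℂ] lp (fun _ : ℕ => X) p := E.toContinuousLinearMap with hG
  have hGF : ∀ y, G (F y) = y := fun y => E.apply_symm_apply y
  have hFG : ∀ y, F (G y) = y := fun y => E.symm_apply_apply y
  set i0 := lp.singleContinuousLinearMap ℂ (fun _ : ℕ => X) p 0 with hi0
  set q0 := lp.evalCLM ℂ (fun _ : ℕ => X) p 0 with hq0
  have hi0a : ∀ x n, i0 x n = if n = 0 then x else 0 := by
    intro x n
    show (lp.single (E := fun _ : ℕ => X) p 0 x : ∀ _ : ℕ, X) n = _
    rw [lp.single_apply, Pi.single_apply]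
  have hq0a : ∀ y : lp (fun _ : ℕ => X) p, q0 y = y 0 := fun y => rfl
  have key : ∀ (x : X) (y : lp (fun _ : ℕ => X) p), (∀ n, y n = G x n) → F y = x := by
    intro x y h
    have : y = G x := by ext n; exact h n
    rw [this, hFG]
  refine qspan_top_of_ops (i := F.comp i0) (q := q0.comp G) (s := F.comp (s.comp G))
    (t := F.comp (t.comp G)) (e := F.comp (e.comp G)) (J := F.comp (J.comp G))
    ?_ ?_ ?_ ?_ ?_ ?_ ?_ ?_ ?_ ?_
  · ext x
    show q0 (G (F (i0 x))) = x
    rw [hGF, hq0a, hi0a, if_pos rfl]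
  · ext x
    show F (t (G (F (s (G x))))) = x
    apply key
    intro n
    rw [hGF, ht', hs1]
  · ext x
    show q0 (G (F (s (G x)))) = 0
    rw [hGF, hq0a, hs0]
  · ext x
    show F (t (G (F (i0 x)))) = 0
    apply key
    intro n
    rw [hGF, ht', hi0a, if_neg (Nat.succ_ne_zero n), map_zero]
    rfl
  · ext x
    show F (i0 (q0 (G x))) + F (s (G (F (t (G x))))) = x
    rw [← map_add]
    apply key
    intro n
    rw [lp.coeFn_add, Pi.add_apply, hGF, hi0a, hq0a]
    cases n with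
    | zero => rw [if_pos rfl, hs0, add_zero]
    | succ n => rw [if_neg (Nat.succ_ne_zero n), hs1, ht', zero_add]
  · ext x
    show F (e (G (F (e (G x))))) = x
    apply key
    intro n
    rw [hGF, he', he', smul_smul, ← mul_pow, neg_mul_neg, one_mul, one_pow, one_smul]
  · ext x
    show F (J (G (F (J (G x))))) = x
    apply key
    intro n
    rw [hGF, hJ', hJ', hw]
  · ext x
    show F (J (G (F (e (G x))))) = -F (e (G (F (J (G x)))))
    rw [← map_neg]
    congr 1
    ext n
    rw [hGF, hGF, lp.coeFn_neg, Pi.neg_apply, hJ', he', he', hJ', hw2, neg_smul]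
  · ext x
    show F (e (G x)) = F (i0 (q0 (G x))) - F (s (G (F (e (G (F (t (G x))))))))
    rw [← map_sub]
    congr 1
    ext n
    rw [lp.coeFn_sub, Pi.sub_apply, hGF, hGF, hi0a, hq0a, he']
    cases n with
    | zero => rw [if_pos rfl, hs0, sub_zero, pow_zero, one_smul]
    | succ n =>
      rw [if_neg (Nat.succ_ne_zero n), hs1, he', ht', zero_sub, pow_succ, mul_neg, mul_one,
        neg_smul]
  · intro a
    obtain ⟨A, hA⟩ := exists_op (X := X) (p := p) (fun n => n) (fun _ => a) ‖a‖ (norm_nonneg _)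
      (fun _ => le_rfl) (fun m n _ _ h => h)
    refine ⟨F.comp (A.comp G), ?_, ?_, ?_⟩
    · ext x
      show F (A (G x)) = F (i0 (a (q0 (G x)))) + F (s (G (F (A (G (F (t (G x))))))))
      rw [← map_add]
      congr 1
      ext n
      rw [lp.coeFn_add, Pi.add_apply, hGF, hGF, hi0a, hq0a, hA]
      cases n with
      | zero => rw [if_pos rfl, hs0, add_zero]
      | succ n => rw [if_neg (Nat.succ_ne_zero n), hs1, hA, ht', zero_add]
    · ext x
      show F (e (G (F (A (G x))))) = F (A (G (F (e (G x)))))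
      congr 1
      ext n
      rw [hGF, hGF, he', hA, hA, he', map_smul]
    · ext x
      show F (J (G (F (A (G x))))) = F (A (G (F (J (G x)))))
      congr 1
      ext n
      rw [hGF, hGF, hJ', hA, hA, hJ']

end Pool.Agent.H.MP_bb4c62_an.helper6.QT
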