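import Pool.Agent.H.MP_bb4c62_an.helper6.QTop2

/-!
Every operator on an infinite dimensional Hilbert space is a sum of quasinilpotent operators.
-/

namespace Pool.Agent.H.MP_bb4c62_an.helper6.QT

open Pool.Agent.H.MP_bb4c62_an.helper6.NL
open Pool.Agent.H.MP_bb4c62_an.helper6.Perturb
open scoped ENNReal InnerProductSpace

variable {H : Type*} [NormedAddCommGroup H] [InnerProductSpace ℂ H] [CompleteSpace H]

/-- an isometry with prescribed values on a Hilbert basis -/
theorem exists_isometry {ι : Type*} (b : HilbertBasis ι ℂ H) {v : ι → H}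
    (hv : Orthonormal ℂ v) : ∃ V : H →ₗᵢ[ℂ] H, ∀ j, V (b j) = v j := by
  classical
  refine ⟨hv.orthogonalFamily.linearIsometry.comp b.repr.toLinearIsometry, fun j => ?_⟩
  show hv.orthogonalFamily.linearIsometry (b.repr (b j)) = v j
  rw [b.repr_self, hv.orthogonalFamily.linearIsometry_apply_single]
  simp

theorem inner_zero_of_basis {ι : Type*} (b : HilbertBasis ι ℂ H) (V : H →ₗᵢ[ℂ] H) {z : H}
    (h : ∀ j, ⟪z, V (b j)⟫_ℂ = 0) (x : H) : ⟪z, V x⟫_ℂ = 0 := by
  have h1 := b.hasSum_repr x
  have h2 := h1.mapL ((innerSL ℂ z).comp V.toContinuousLinearMap)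
  have h3 : (fun j => ((innerSL ℂ z).comp V.toContinuousLinearMap) (b.repr x j • b j)) =
      fun _ => 0 := by
    funext j
    rw [map_smul]
    show b.repr x j • ⟪z, V (b j)⟫_ℂ = 0
    rw [h, smul_zero]
  rw [h3] at h2
  exact h2.unique hasSum_zero

theorem exists_lp_equiv (hH : ¬ Module.Finite ℂ H) :
    Nonempty (H ≃L[ℂ] lp (fun _ : ℕ => H) 2) := by
  classical
  obtain ⟨w, b, hb⟩ := exists_hilbertBasis ℂ H
  have hinf : Infinite w := by
    by_contra hfin
    rw [not_infinite_iff_finite] at hfin
    apply hH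
    have hd := b.dense_span
    have hfg : (Submodule.span ℂ (Set.range b)).FG := Submodule.fg_span (Set.finite_range b)
    have : FiniteDimensional ℂ (Submodule.span ℂ (Set.range b)) :=
      Module.Finite.of_fg hfg
    have hcl : IsClosed ((Submodule.span ℂ (Set.range b) : Submodule ℂ H) : Set H) :=
      Submodule.closed_of_finiteDimensional _
    rw [hcl.submodule_topologicalClosure_eq] at hd
    exact ⟨hd ▸ hfg⟩
  obtain ⟨g⟩ : Nonempty (ℕ × w ≃ w) := by
    rw [← Cardinal.eq, Cardinal.mk_prod, Cardinal.mk_nat, Cardinal.lift_aleph0,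
      Cardinal.lift_uzero, Cardinal.aleph0_mul_mk_eq]
  have hv : ∀ n : ℕ, Orthonormal ℂ (fun j : w => b (g (n, j))) := by
    intro n
    refine b.orthonormal.comp _ (fun i j hij => ?_)
    have := g.injective hij
    exact (Prod.mk.inj this).2
  choose V hV using fun n : ℕ => exists_isometry b (hv n)
  have horth : OrthogonalFamily ℂ (fun _ : ℕ => H) V := by
    intro n m hnm x y
    show ⟪V n x, V m y⟫_ℂ = 0
    apply inner_zero_of_basis b
    intro j
    rw [hV, ← inner_conj_symm]
    rw [inner_zero_of_basis b (V n) (z := b (g (m, j))) (fun i => ?_) x, map_zero]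
    rw [hV]
    apply b.orthonormal.2
    intro h
    have := g.injective h
    exact hnm (Prod.mk.inj this).1.symm
  have htot : ⊤ ≤ (⨆ n, LinearMap.range (V n).toLinearMap).topologicalClosure := by
    rw [← b.dense_span]
    apply Submodule.topologicalClosure_mono
    rw [Submodule.span_le]
    rintro _ ⟨k, rfl⟩
    have h1 : b k ∈ LinearMap.range (V (g.symm k).1).toLinearMap := by
      refine ⟨b (g.symm k).2, ?_⟩
      show V (g.symm k).1 (b (g.symm k).2) = b k
      rw [hV, Prod.mk.eta, g.apply_symm_apply]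
    exact Submodule.mem_iSup_of_mem _ h1
  exact ⟨(IsHilbertSum.mk horth htot).linearIsometryEquiv.toContinuousLinearEquiv⟩

/-- On an infinite dimensional Hilbert space every operator is a sum of quasinilpotents. -/
theorem qspan_top_hilbert (hH : ¬ Module.Finite ℂ H) : QSpan H = ⊤ := by
  obtain ⟨E⟩ := exists_lp_equiv hH
  exact qspan_top_of_lp E

end Pool.Agent.H.MP_bb4c62_an.helper6.QT
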