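import Pool.Agent.H.MP_bb4c62_an.helper6.QTop2

/-!
`ℓᵖ(ℕ; E)` is isomorphic to `ℓᵖ(ℕ; ℓᵖ(ℕ; E))`.
-/

namespace Pool.Agent.H.MP_bb4c62_an.helper6.QT

open Pool.Agent.H.MP_bb4c62_an.helper6.NL
open scoped ENNReal

variable {E : Type*} [NormedAddCommGroup E] [NormedSpace ℂ E]

omit [NormedSpace ℂ E] in
theorem q4_fwd_sum {p : ℝ≥0∞} [hp1 : Fact (1 ≤ p)] (hp : 0 < p.toReal)
    (x : lp (fun _ : ℕ => lp (fun _ : ℕ => E) p) p) (s : Finset ℕ) :
    ∑ n ∈ s, ‖x (Nat.unpair n).1 (Nat.unpair n).2‖ ^ p.toReal ≤ ‖x‖ ^ p.toReal := by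
  classical
  set a : ℕ × ℕ → ℝ := fun q => ‖x q.1 q.2‖ ^ p.toReal with ha
  have h0 : ∀ q, 0 ≤ a q := fun q => by positivity
  have h1 : ∑ n ∈ s, ‖x (Nat.unpair n).1 (Nat.unpair n).2‖ ^ p.toReal =
      ∑ q ∈ s.image Nat.unpair, a q := by
    rw [Finset.sum_image]
    intro m _ n _ hmn
    have := congrArg (fun q : ℕ × ℕ => Nat.pair q.1 q.2) hmn
    simpa using this
  rw [h1]
  have h2 : s.image Nat.unpair ⊆ (s.image (fun n => (Nat.unpair n).1)) ×ˢ
      (s.image (fun n => (Nat.unpair n).2)) := by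
    intro q hq
    obtain ⟨n, hn, rfl⟩ := Finset.mem_image.mp hq
    exact Finset.mem_product.mpr ⟨Finset.mem_image.mpr ⟨n, hn, rfl⟩,
      Finset.mem_image.mpr ⟨n, hn, rfl⟩⟩
  refine (Finset.sum_le_sum_of_subset_of_nonneg h2 (fun q _ _ => h0 q)).trans ?_
  rw [Finset.sum_product]
  refine le_trans (Finset.sum_le_sum fun i _ => ?_) (lp.sum_rpow_le_norm_rpow hp x _)
  exact lp.sum_rpow_le_norm_rpow hp (x i) _

theorem q4_fwd {p : ℝ≥0∞} [hp1 : Fact (1 ≤ p)]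
    (x : lp (fun _ : ℕ => lp (fun _ : ℕ => E) p) p) :
    ∃ y : lp (fun _ : ℕ => E) p, (∀ n, y n = x (Nat.unpair n).1 (Nat.unpair n).2) ∧
      ‖y‖ ≤ ‖x‖ := by
  have hp0 : p ≠ 0 := (zero_lt_one.trans_le hp1.out).ne'
  by_cases hpt : p = ∞
  · subst hpt
    have hb : ∀ n, ‖x (Nat.unpair n).1 (Nat.unpair n).2‖ ≤ ‖x‖ := fun n =>
      (lp.norm_apply_le_norm hp0 _ _).trans (lp.norm_apply_le_norm hp0 _ _)
    refine ⟨⟨fun n => x (Nat.unpair n).1 (Nat.unpair n).2, ?_⟩, fun n => rfl, ?_⟩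
    · exact memℓp_infty ⟨‖x‖, by rintro _ ⟨n, rfl⟩; exact hb n⟩
    · exact lp.norm_le_of_forall_le (norm_nonneg _) hb
  · have hpos : 0 < p.toReal := ENNReal.toReal_pos hp0 hpt
    refine ⟨⟨fun n => x (Nat.unpair n).1 (Nat.unpair n).2, ?_⟩, fun n => rfl, ?_⟩
    · exact memℓp_gen' (C := ‖x‖ ^ p.toReal) (fun s => q4_fwd_sum hpos x s)
    · exact lp.norm_le_of_forall_sum_le hpos (norm_nonneg _) (fun s => q4_fwd_sum hpos x s)

omit [NormedSpace ℂ E] in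
theorem q4_bwd_row {p : ℝ≥0∞} (hp : 0 < p.toReal)
    (y : lp (fun _ : ℕ => E) p) (A B : Finset ℕ) :
    ∑ i ∈ A, ∑ j ∈ B, ‖y (Nat.pair i j)‖ ^ p.toReal ≤ ‖y‖ ^ p.toReal := by
  classical
  rw [← Finset.sum_product']
  have h1 : ∑ q ∈ A ×ˢ B, ‖y (Nat.pair q.1 q.2)‖ ^ p.toReal =
      ∑ n ∈ (A ×ˢ B).image (fun q : ℕ × ℕ => Nat.pair q.1 q.2), ‖y n‖ ^ p.toReal := by
    rw [Finset.sum_image]
    intro q _ q' _ h
    have := congrArg Nat.unpair h
    simpa using this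
  rw [h1]
  exact lp.sum_rpow_le_norm_rpow hp y _

theorem q4_bwd {p : ℝ≥0∞} [hp1 : Fact (1 ≤ p)] (y : lp (fun _ : ℕ => E) p) :
    ∃ x : lp (fun _ : ℕ => lp (fun _ : ℕ => E) p) p, (∀ i j, x i j = y (Nat.pair i j)) ∧
      ‖x‖ ≤ ‖y‖ := by
  have hp0 : p ≠ 0 := (zero_lt_one.trans_le hp1.out).ne'
  by_cases hpt : p = ∞
  · subst hpt
    have hb : ∀ n, ‖y n‖ ≤ ‖y‖ := fun n => lp.norm_apply_le_norm hp0 _ _
    set r : ℕ → lp (fun _ : ℕ => E) ∞ := fun i => ⟨fun j => y (Nat.pair i j),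
      memℓp_infty ⟨‖y‖, by rintro _ ⟨n, rfl⟩; exact hb _⟩⟩ with hr
    have hrn : ∀ i, ‖r i‖ ≤ ‖y‖ := fun i =>
      lp.norm_le_of_forall_le (norm_nonneg _) (fun j => hb _)
    refine ⟨⟨r, memℓp_infty ⟨‖y‖, by rintro _ ⟨n, rfl⟩; exact hrn n⟩⟩, fun i j => rfl, ?_⟩
    exact lp.norm_le_of_forall_le (norm_nonneg _) hrn
  · have hpos : 0 < p.toReal := ENNReal.toReal_pos hp0 hpt
    set r : ℕ → lp (fun _ : ℕ => E) p := fun i => ⟨fun j => y (Nat.pair i j),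
      memℓp_gen' (C := ‖y‖ ^ p.toReal) (fun B => by
        have := q4_bwd_row hpos y {i} B
        simpa using this)⟩ with hr
    have hsum : ∀ A : Finset ℕ, ∑ i ∈ A, ‖r i‖ ^ p.toReal ≤ ‖y‖ ^ p.toReal := by
      intro A
      have h1 : ∀ i, ‖r i‖ ^ p.toReal = ∑' j, ‖y (Nat.pair i j)‖ ^ p.toReal := fun i =>
        lp.norm_rpow_eq_tsum hpos (r i)
      have h2 : ∀ i, Summable fun j => ‖y (Nat.pair i j)‖ ^ p.toReal := fun i =>
        (lp.memℓp (r i)).summable hpos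
      calc ∑ i ∈ A, ‖r i‖ ^ p.toReal = ∑ i ∈ A, ∑' j, ‖y (Nat.pair i j)‖ ^ p.toReal :=
            Finset.sum_congr rfl fun i _ => h1 i
        _ = ∑' j, ∑ i ∈ A, ‖y (Nat.pair i j)‖ ^ p.toReal :=
            (Summable.tsum_finsetSum (fun i _ => h2 i)).symm
        _ ≤ ‖y‖ ^ p.toReal := by
            refine Summable.tsum_le_of_sum_le (summable_sum fun i _ => h2 i) ?_
            intro B
            rw [Finset.sum_comm]
            exact q4_bwd_row hpos y A B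
    refine ⟨⟨r, memℓp_gen' (C := ‖y‖ ^ p.toReal) hsum⟩, fun i j => rfl, ?_⟩
    exact lp.norm_le_of_forall_sum_le hpos (norm_nonneg _) hsum

theorem exists_lp_lp_equiv (E : Type*) [NormedAddCommGroup E] [NormedSpace ℂ E] (p : ℝ≥0∞)
    [hp1 : Fact (1 ≤ p)] :
    Nonempty (lp (fun _ : ℕ => E) p ≃L[ℂ] lp (fun _ : ℕ => lp (fun _ : ℕ => E) p) p) := by
  choose f hf hfn using fun x => q4_fwd (E := E) (p := p) x
  choose g hg hgn using fun y => q4_bwd (E := E) (p := p) y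
  let e : lp (fun _ : ℕ => E) p ≃ₗ[ℂ] lp (fun _ : ℕ => lp (fun _ : ℕ => E) p) p :=
    { toFun := g
      invFun := f
      map_add' := by
        intro y z
        apply lp.ext
        funext i
        apply lp.ext
        funext j
        rw [hg, lp.coeFn_add, Pi.add_apply, lp.coeFn_add, Pi.add_apply, lp.coeFn_add,
          Pi.add_apply, hg, hg]
      map_smul' := by
        intro c y
        apply lp.ext
        funext i
        apply lp.ext
        funext j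
        rw [hg, lp.coeFn_smul, Pi.smul_apply, RingHom.id_apply, lp.coeFn_smul, Pi.smul_apply,
          lp.coeFn_smul, Pi.smul_apply, hg]
      left_inv := by
        intro y
        apply lp.ext
        funext n
        rw [hf, hg, Nat.pair_unpair]
      right_inv := by
        intro x
        apply lp.ext
        funext i
        apply lp.ext
        funext j
        rw [hg, hf, Nat.unpair_pair] }
  refine ⟨e.toContinuousLinearEquivOfBounds 1 1 ?_ ?_⟩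
  · intro y
    rw [one_mul]; exact hgn y
  · intro x
    rw [one_mul]; exact hfn x

/-- On `ℓᵖ(ℕ; E)`, for every Banach space `E`, every operator is a sum of quasinilpotents. -/
theorem qspan_top_lp_sum (E : Type*) [NormedAddCommGroup E] [NormedSpace ℂ E] [CompleteSpace E]
    (p : ℝ≥0∞) [hp1 : Fact (1 ≤ p)] : QSpan (lp (fun _ : ℕ => E) p) = ⊤ := by
  obtain ⟨e⟩ := exists_lp_lp_equiv E p
  exact qspan_top_of_lp e

end Pool.Agent.H.MP_bb4c62_an.helper6.QT
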