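import Pool.Agent.H.MP_bb4c62_an.helper6.FiniteRank

/-!
Line properties which detect the trace zero finite rank operators and, among them,
the rank one nilpotents.
-/

namespace Pool.Agent.H.MP_bb4c62_an.helper6.Gadgets

open Complex Metric Set Filter Topology
open Pool.Agent.H.MP_bb4c62_an.helper6.Perturb
open Pool.Agent.H.MP_bb4c62_an.helper6.Picard

variable {X : Type*} [NormedAddCommGroup X] [NormedSpace ℂ X]

/-- the two sided line property -/
def Star (A : X →L[ℂ] X) : Prop :=
  spectralRadius ℂ A = 0 ∧ ∀ V : X →L[ℂ] X, spectralRadius ℂ V = 0 →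
    spectralRadius ℂ (V + A) = 0 → spectralRadius ℂ (V - A) = 0 →
    ∀ τ : ℂ, spectralRadius ℂ (V + τ • A) = 0

/-- rank one nilpotent or zero -/
def N1 (A : X →L[ℂ] X) : Prop := ∃ (x : X) (f : X →L[ℂ] ℂ), f x = 0 ∧ A = ten x f

/-- the line property inside the trace zero finite rank operators -/
def Star2 (A : X →L[ℂ] X) : Prop :=
  A ∈ F0 X ∧ spectralRadius ℂ A = 0 ∧ ∀ V ∈ F0 X, spectralRadius ℂ V = 0 →
    spectralRadius ℂ (V + A) = 0 → ∀ τ : ℂ, spectralRadius ℂ (V + τ • A) = 0

theorem exists_li_of_not_fg {K : Submodule ℂ X} (h : ¬ K.FG) (n : ℕ) :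
    ∃ v : Fin n → X, LinearIndependent ℂ v ∧ ∀ i, v i ∈ K := by
  have h1 : ¬ Module.Finite ℂ K := fun h' => h (Module.Finite.iff_fg.mp h')
  rw [← Module.rank_lt_aleph0_iff] at h1
  push Not at h1
  have h2 : (n : Cardinal) ≤ Module.rank ℂ K := (Cardinal.natCast_lt_aleph0).le.trans h1
  obtain ⟨f, hf⟩ := exists_linearIndependent_of_le_rank h2
  exact ⟨fun i => (f i : X), hf.map' K.subtype (Submodule.ker_subtype K), fun i => (f i).2⟩

theorem star_ten [CompleteSpace X] {x : X} {f : X →L[ℂ] ℂ} (h : f x = 0) : Star (ten x f) :=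
  ⟨qn_of_sq (ten_sq h), fun _ hV h1 h2 τ => rank_one_star hV h1 h2 τ⟩

theorem star_fg [CompleteSpace X] {A : X →L[ℂ] X} (h : Star A) :
    (LinearMap.range (A : X →ₗ[ℂ] X)).FG := by
  by_contra hcon
  by_cases h8 : ∀ x, (A ^ 8) x = 0
  · -- nilpotent case
    set K : Submodule ℂ X := LinearMap.range (A : X →ₗ[ℂ] X) ⊓ LinearMap.ker (A : X →ₗ[ℂ] X)
      with hK
    by_cases hfg : K.FG
    · apply hcon
      -- downward induction
      have hstep : ∀ j : ℕ, 1 ≤ j → (LinearMap.range ((A ^ (j + 1) : X →L[ℂ] X) :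
          X →ₗ[ℂ] X)).FG → (LinearMap.range ((A ^ j : X →L[ℂ] X) : X →ₗ[ℂ] X)).FG := by
        intro j hj hj1
        apply Submodule.fg_of_fg_map_of_fg_inf_ker (A : X →ₗ[ℂ] X)
        · have : (LinearMap.range ((A ^ j : X →L[ℂ] X) : X →ₗ[ℂ] X)).map (A : X →ₗ[ℂ] X) =
              LinearMap.range ((A ^ (j + 1) : X →L[ℂ] X) : X →ₗ[ℂ] X) := by
            ext w
            constructor
            · rintro ⟨v, ⟨u, hu⟩, hv⟩
              refine ⟨u, ?_⟩
              rw [← hv, ← hu, pow_succ']
              rfl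
            · rintro ⟨u, hu⟩
              refine ⟨(A ^ j) u, ⟨u, rfl⟩, ?_⟩
              rw [← hu, pow_succ']
              rfl
          rw [this]; exact hj1
        · refine Submodule.FG.of_le hfg ?_
          rintro w ⟨⟨u, hu⟩, hw⟩
          refine ⟨⟨(A ^ (j - 1)) u, ?_⟩, hw⟩
          rw [← hu]
          show A ((A ^ (j - 1)) u) = (A ^ j) u
          have : A ^ j = A * A ^ (j - 1) := by
            rw [← pow_succ']; congr 1; omega
          rw [this]; rfl
      have h80 : (LinearMap.range ((A ^ 8 : X →L[ℂ] X) : X →ₗ[ℂ] X)).FG := by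
        have : LinearMap.range ((A ^ 8 : X →L[ℂ] X) : X →ₗ[ℂ] X) = ⊥ := by
          rw [LinearMap.range_eq_bot]
          ext w; exact h8 w
        rw [this]; exact Submodule.fg_bot
      have h7 := hstep 7 (by norm_num) h80
      have h6 := hstep 6 (by norm_num) h7
      have h5 := hstep 5 (by norm_num) h6
      have h4 := hstep 4 (by norm_num) h5
      have h3 := hstep 3 (by norm_num) h4
      have h2 := hstep 2 (by norm_num) h3
      have h1 := hstep 1 (by norm_num) h2
      rw [pow_one] at h1
      exact h1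
    · obtain ⟨v, hv, hvK⟩ := exists_li_of_not_fg hfg 3
      choose x hx using fun i => (hvK i).1
      have hxv : ∀ i, A (x i) = v i := hx
      have hA2 : ∀ i, A (A (x i)) = 0 := by
        intro i
        rw [hxv]
        exact (hvK i).2
      have hli : LinearIndependent ℂ (fun j => A (x j)) := by
        have : (fun j => A (x j)) = v := funext hxv
        rw [this]; exact hv
      obtain ⟨V, h1, h2, h3, τ, h4⟩ := gadget_three h.1 x hA2 hli
      exact h4 (h.2 V h1 h2 h3 τ)
  · push Not at h8
    obtain ⟨x, hx⟩ := h8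
    obtain ⟨f, hf⟩ := exists_dual (li_pow h.1 hx) (fun k => if (k : ℕ) = 5 then (1 : ℂ) else 0)
    have hf' : ∀ k ≤ 8, f ((A ^ k) x) = if k = 5 then 1 else 0 := by
      intro k hk
      exact hf ⟨k, by omega⟩
    obtain ⟨V, h1, h2, h3, τ, h4⟩ := gadget_big h.1 x f hf'
    exact h4 (h.2 V h1 h2 h3 τ)

/-- the span of the operators with the line property -/
theorem span_star [CompleteSpace X] : Submodule.span ℂ {A : X →L[ℂ] X | Star A} = F0 X := by
  apply le_antisymm
  · rw [Submodule.span_le]
    intro A hA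
    exact qn_finite_rank_mem_F0 (star_fg hA) hA.1
  · unfold F0
    rw [Submodule.span_le]
    rintro T ⟨x, f, h, rfl⟩
    exact Submodule.subset_span (star_ten h)

theorem fg_of_mem_F0 {T : X →L[ℂ] X} (hT : T ∈ F0 X) :
    (LinearMap.range (T : X →ₗ[ℂ] X)).FG := by
  unfold F0 at hT
  induction hT using Submodule.span_induction with
  | mem T hT =>
    obtain ⟨x, f, h, rfl⟩ := hT
    refine Submodule.FG.of_le (Submodule.fg_span_singleton x) ?_
    rintro w ⟨u, hu⟩
    rw [← hu]
    exact Submodule.smul_mem _ _ (Submodule.mem_span_singleton_self x)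
  | zero =>
    have : LinearMap.range ((0 : X →L[ℂ] X) : X →ₗ[ℂ] X) = ⊥ := by
      rw [LinearMap.range_eq_bot]; rfl
    rw [this]; exact Submodule.fg_bot
  | add S T _ _ hS hT =>
    refine Submodule.FG.of_le (hS.sup hT) ?_
    rintro w ⟨u, hu⟩
    rw [← hu]
    exact Submodule.add_mem_sup ⟨u, rfl⟩ ⟨u, rfl⟩
  | smul c T _ hT =>
    refine Submodule.FG.of_le hT ?_
    rintro w ⟨u, hu⟩
    rw [← hu]
    exact Submodule.smul_mem _ _ ⟨u, rfl⟩

theorem star2_ten [CompleteSpace X] {x : X} {f : X →L[ℂ] ℂ} (h : f x = 0) :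
    Star2 (ten x f) := by
  refine ⟨ten_mem_F0 h, qn_of_sq (ten_sq h), ?_⟩
  intro V hVF hV h1 τ
  obtain ⟨n, hn⟩ := qn_finite_rank_nilpotent (fg_of_mem_F0 hVF) hV
  rw [qn_add_ten_iff hV] at h1
  -- the polynomial
  set p : Polynomial ℂ := ∑ k ∈ Finset.range n, Polynomial.C (f ((V ^ k) x)) *
    Polynomial.X ^ (k + 1) with hp
  have heval : ∀ z : ℂ, z * f (Ring.inverse (1 - z • V) x) = p.eval z := by
    intro z
    set y : X := ∑ k ∈ Finset.range n, z ^ k • (V ^ k) x with hy
    have hyx : (1 - z • V) y = x := by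
      have h2 : ∀ m : ℕ, (1 - z • V) (∑ k ∈ Finset.range m, z ^ k • (V ^ k) x) =
          x - z ^ m • (V ^ m) x := by
        intro m
        induction m with
        | zero => simp
        | succ m ih =>
          rw [Finset.sum_range_succ, map_add, ih, map_smul]
          show x - z ^ m • (V ^ m) x + z ^ m • ((V ^ m) x - z • V ((V ^ m) x)) = _
          have h3 : V ((V ^ m) x) = (V ^ (m + 1)) x := by rw [pow_succ']; rfl
          rw [h3, smul_sub, smul_smul, ← pow_succ]
          abel
      rw [hy, h2 n, hn]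
      simp
    have hinv : Ring.inverse (1 - z • V) x = y := by
      have hu := (qn_iff V).mp hV z
      have h3 : (Ring.inverse (1 - z • V) * (1 - z • V)) y = y := by
        rw [Ring.inverse_mul_cancel _ hu]; rfl
      have h4 : Ring.inverse (1 - z • V) ((1 - z • V) y) = y := h3
      rwa [hyx] at h4
    rw [hinv, hy, map_sum, hp, Polynomial.eval_finsetSum, Finset.mul_sum]
    refine Finset.sum_congr rfl fun k _ => ?_
    rw [map_smul, smul_eq_mul]
    simp only [Polynomial.eval_mul, Polynomial.eval_C, Polynomial.eval_pow, Polynomial.eval_X]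
    ring
  have hp0 : p.eval 0 = 0 := by
    rw [← heval 0, zero_mul]
  have hdeg : (p - Polynomial.C 1).degree ≤ 0 := by
    by_contra hd
    have hd' : (p - Polynomial.C 1).degree ≠ 0 := by
      intro h'; apply hd; rw [h']
    obtain ⟨z, hz⟩ := IsAlgClosed.exists_root (k := ℂ) (p - Polynomial.C 1) hd'
    apply h1 z
    rw [heval z]
    have h2 : (p - Polynomial.C 1).eval z = 0 := hz
    rw [Polynomial.eval_sub, Polynomial.eval_C] at h2
    exact sub_eq_zero.mp h2
  have hconst : ∀ z, p.eval z = 0 := by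
    intro z
    have h2 := Polynomial.eq_C_of_degree_le_zero hdeg
    have h3 : (p - Polynomial.C 1).eval z = (p - Polynomial.C 1).eval 0 := by
      rw [h2]; simp
    rw [Polynomial.eval_sub, Polynomial.eval_sub, hp0] at h3
    simpa using h3
  rw [← ten_smul_left, qn_add_ten_iff hV]
  intro z
  rw [map_smul, map_smul, smul_eq_mul]
  have h4 : z * (τ * f (Ring.inverse (1 - z • V) x)) = 0 := by
    rw [mul_left_comm, heval z, hconst z, mul_zero]
  rw [h4]
  exact zero_ne_one

theorem n1_of_star2 [CompleteSpace X] {A : X →L[ℂ] X} (h : Star2 A) : N1 A := by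
  obtain ⟨hF, hA, hst⟩ := h
  obtain ⟨n, hn⟩ := qn_finite_rank_nilpotent (fg_of_mem_F0 hF) hA
  by_cases h2 : A * A = 0
  · -- square zero
    have hAA : ∀ w, A (A w) = 0 := fun w => by
      have := congrArg (fun T : X →L[ℂ] X => T w) h2
      exact this
    by_cases hex : ∃ x : Fin 2 → X, LinearIndependent ℂ (fun j => A (x j))
    · exfalso
      obtain ⟨x, hx⟩ := hex
      obtain ⟨V, hVF, h1, h2, τ, h4⟩ := gadget_two hA x (fun j => hAA _) hx
      exact h4 (hst V hVF h1 h2 τ)
    · push Not at hex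
      by_cases hA0 : ∀ w, A w = 0
      · refine ⟨0, 0, by simp, ?_⟩
        ext w
        rw [hA0 w]; simp
      · push Not at hA0
        obtain ⟨y, hy⟩ := hA0
        obtain ⟨g, hg⟩ := SeparatingDual.exists_eq_one (R := ℂ) hy
        refine ⟨A y, g.comp A, ?_, ?_⟩
        · show g (A (A y)) = 0
          rw [hAA, map_zero]
        · ext w
          show A w = g (A w) • A y
          have h3 := hex ![y, w]
          have h4 : (fun j => A (![y, w] j)) = ![A y, A w] := by
            ext j; fin_cases j <;> rfl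
          rw [h4, LinearIndependent.pair_iff' hy] at h3
          push Not at h3
          obtain ⟨a, ha⟩ := h3
          rw [← ha, map_smul, hg]; simp
  · exfalso
    -- the nilpotency index is at least three
    classical
    have hex : ∃ k, A ^ k = 0 := ⟨n, hn⟩
    set k := Nat.find hex with hk
    have hk0 : A ^ k = 0 := Nat.find_spec hex
    have hk3 : 3 ≤ k := by
      by_contra hlt
      push Not at hlt
      apply h2
      rw [← pow_two]
      have : A ^ 2 = A ^ (2 - k) * A ^ k := by rw [← pow_add]; congr 1; omega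
      rw [this, hk0, mul_zero]
    have hk1 : A ^ (k - 1) ≠ 0 := Nat.find_min hex (by omega)
    obtain ⟨y, hy⟩ : ∃ y, (A ^ (k - 1)) y ≠ 0 := by
      by_contra hcon
      push Not at hcon
      apply hk1
      ext w; exact hcon w
    set x := (A ^ (k - 3)) y with hx
    have e2 : A (A x) = (A ^ (k - 1)) y := by
      have : A ^ (k - 1) = A * (A * A ^ (k - 3)) := by
        rw [← pow_succ', ← pow_succ']; congr 1; omega
      rw [this]; rfl
    have e3 : A (A (A x)) = 0 := by
      rw [e2]
      have : A ^ k = A * A ^ (k - 1) := by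
        rw [← pow_succ']; congr 1; omega
      have h5 : (A * A ^ (k - 1)) y = 0 := by rw [← this, hk0]; rfl
      exact h5
    obtain ⟨V, hVF, h1, h2, τ, h4⟩ := gadget_one hA x e3 (by rw [e2]; exact hy)
    exact h4 (hst V hVF h1 h2 τ)

theorem star2_iff [CompleteSpace X] {A : X →L[ℂ] X} : Star2 A ↔ N1 A := by
  constructor
  · exact n1_of_star2
  · rintro ⟨x, f, h, rfl⟩
    exact star2_ten h

end Pool.Agent.H.MP_bb4c62_an.helper6.Gadgets
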