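import Pool.Agent.H.MP_bb4c62_an.helper6.Apply

/-!
The form of the map on the trace zero finite rank operators.
-/

namespace Pool.Agent.H.MP_bb4c62_an.helper6.Gadgets

open Complex Metric Set Filter Topology
open Pool.Agent.H.MP_bb4c62_an.helper6.Perturb

variable {X : Type*} [NormedAddCommGroup X] [NormedSpace ℂ X]
variable {Y : Type*} [NormedAddCommGroup Y] [NormedSpace ℂ Y]

theorem continuous_of_pairing {E : Type*} [NormedAddCommGroup E] [NormedSpace ℂ E]
    [CompleteSpace E] [CompleteSpace Y] (A : E →ₗ[ℂ] Y)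
    (h : ∀ g : Y →L[ℂ] ℂ, Continuous (fun x => g (A x))) : Continuous A := by
  apply LinearMap.continuous_of_seq_closed_graph
  intro u x y hu hAu
  apply (SeparatingDual.eq_iff_forall_dual_eq (R := ℂ)).mpr
  intro g
  have h1 : Tendsto (fun n => g (A (u n))) atTop (𝓝 (g y)) :=
    (g.continuous.tendsto y).comp hAu
  have h2 : Tendsto (fun n => g (A (u n))) atTop (𝓝 (g (A x))) :=
    ((h g).tendsto x).comp hu
  exact tendsto_nhds_unique h1 h2

theorem structure_F0 [CompleteSpace X] [CompleteSpace Y] (φ : (X →L[ℂ] X) ≃ₗ[ℂ] (Y →L[ℂ] Y))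
    (hφ : ∀ T, spectralRadius ℂ (φ T) = 0 ↔ spectralRadius ℂ T = 0)
    {v : Fin 2 → X} (hv : LinearIndependent ℂ v) :
    (∃ c : ℂ, c ≠ 0 ∧ ∃ A : X ≃L[ℂ] Y, ∀ T ∈ F0 X, ∀ x, φ T (A x) = c • A (T x)) ∨
    (∃ c : ℂ, c ≠ 0 ∧ ∃ C : (X →L[ℂ] ℂ) ≃L[ℂ] Y, ∀ T ∈ F0 X, ∀ f : X →L[ℂ] ℂ,
      φ T (C f) = c • C (f.comp T)) := by
  have D := dual_data φ hφ hv
  set Ψ := tenΨ (φ : (X →L[ℂ] X) →ₗ[ℂ] (Y →L[ℂ] Y)) with hΨ
  have hΨapp : ∀ x f, Ψ x f = φ (ten x f) := fun _ _ => rfl
  obtain ⟨e', he'⟩ := SeparatingDual.exists_eq_one (R := ℂ) (hv.ne_zero 0)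
  have he : evalP X (v 0) e' = 1 := he'
  -- the target is nontrivial
  have hY : Nontrivial Y := by
    obtain ⟨f, hf, hP⟩ := D.d1 (v 0)
    have hne := D.ne (v 0) f hP (hv.ne_zero 0) hf
    by_contra hY
    rw [not_nontrivial_iff_subsingleton] at hY
    apply hne
    ext w
    exact Subsingleton.elim _ _
  have htypes : ((∀ x, x ≠ 0 → ∃ y : Y, y ≠ 0 ∧ ∀ f, evalP X x f = 0 →
        ∃ g : Y →L[ℂ] ℂ, Ψ x f = ten y g) ∧
      (∀ f, f ≠ 0 → ∃ g : Y →L[ℂ] ℂ, g ≠ 0 ∧ ∀ x, evalP X x f = 0 → ∃ y : Y,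
        Ψ x f = ten y g)) ∨
      ((∀ f, f ≠ 0 → ∃ y : Y, y ≠ 0 ∧ ∀ x, evalP X x f = 0 → ∃ g : Y →L[ℂ] ℂ,
        Ψ x f = ten y g) ∧
      (∀ x, x ≠ 0 → ∃ g : Y →L[ℂ] ℂ, g ≠ 0 ∧ ∀ f, evalP X x f = 0 → ∃ y : Y,
        Ψ x f = ten y g)) := by
    by_cases h3 : ∃ w : Fin 3 → X, LinearIndependent ℂ w
    · obtain ⟨w, hw⟩ := h3
      obtain ⟨D3a, D3b⟩ := d3 hw
      exact dichotomy D D3a D3b
    · exact Or.inl (types_dim_two h3 D)
  rcases htypes with ⟨TL, TR⟩ | ⟨TL, TR⟩
  · left
    obtain ⟨A, κ, c, hc, hA, hκ, hpair, hrep⟩ := core2 D TL TR he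
    have hcont : Continuous A := by
      apply continuous_of_pairing
      intro g
      obtain ⟨f, rfl⟩ := hκ.2 g
      have : (fun x => κ f (A x)) = fun x => c * f x := by
        ext x; exact hpair x f
      rw [this]
      exact continuous_const.mul f.continuous
    refine ⟨c, hc, (LinearEquiv.ofBijective A hA).toContinuousLinearEquivOfContinuous hcont, ?_⟩
    intro T hT x
    show φ T (A x) = c • A (T x)
    unfold F0 at hT
    induction hT using Submodule.span_induction with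
    | mem T hT =>
      obtain ⟨z, f, h, rfl⟩ := hT
      have h1 := hrep z f h
      rw [hΨapp] at h1
      rw [h1, ten_apply, hpair, ten_apply, map_smul, smul_smul]
      rfl
    | zero => simp
    | add S T _ _ hS hT => rw [map_add, add_apply, hS, hT, add_apply, map_add, smul_add]
    | smul a T _ hT =>
      rw [map_smul]
      show a • φ T (A x) = c • A (a • T x)
      rw [hT, map_smul, smul_comm]
  · right
    obtain ⟨A, κ, c, hc, hA, hκ, hpair, hrep⟩ := core2 D.flip TL TR he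
    have hcont : Continuous A := by
      apply continuous_of_pairing
      intro g
      obtain ⟨x, rfl⟩ := hκ.2 g
      have : (fun f => κ x (A f)) = fun f : X →L[ℂ] ℂ => c * f x := by
        ext f; exact hpair f x
      rw [this]
      exact continuous_const.mul (ContinuousLinearMap.apply ℂ ℂ x).continuous
    refine ⟨c, hc, (LinearEquiv.ofBijective A hA).toContinuousLinearEquivOfContinuous hcont, ?_⟩
    intro T hT f
    show φ T (A f) = c • A (f.comp T)
    unfold F0 at hT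
    induction hT using Submodule.span_induction with
    | mem T hT =>
      obtain ⟨z, k, h, rfl⟩ := hT
      have h1 : φ (ten z k) = ten (A k) (κ z) := hrep k z h
      have h2 : f.comp (ten z k) = f z • k := by
        ext w
        show f (k w • z) = f z * k w
        rw [map_smul, smul_eq_mul, mul_comm]
      have h3 : κ z (A f) = c * f z := hpair f z
      rw [h1, ten_apply, h3, h2, map_smul, smul_smul]
    | zero => simp
    | add S T _ _ hS hT =>
      rw [map_add, add_apply, hS, hT, ContinuousLinearMap.comp_add, map_add, smul_add]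
    | smul a T _ hT =>
      rw [map_smul, ContinuousLinearMap.comp_smul, map_smul]
      show a • φ T (A f) = _
      rw [hT, smul_comm]

end Pool.Agent.H.MP_bb4c62_an.helper6.Gadgets
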