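import Pool.Agent.H.MP_bb4c62_an.helper6.Star

/-!
The structure of linear maps between the trace zero finite rank operators preserving
rank one nilpotents in both directions, for abstract dual pairs.
-/

namespace Pool.Agent.H.MP_bb4c62_an.helper6.Gadgets

open Complex Metric Set Filter Topology
open Pool.Agent.H.MP_bb4c62_an.helper6.Perturb

section Rank

variable {Y : Type*} [NormedAddCommGroup Y] [NormedSpace ℂ Y]

theorem ten_smul_right (c : ℂ) (y : Y) (g : Y →L[ℂ] ℂ) : ten y (c • g) = c • ten y g := by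
  ext w
  show (c * g w) • y = c • (g w • y)
  rw [smul_smul]

theorem ten_add_right' (y : Y) (g h : Y →L[ℂ] ℂ) : ten y (g + h) = ten y g + ten y h := by
  ext w
  show (g w + h w) • y = g w • y + h w • y
  rw [add_smul]

theorem ten_eq_zero_iff {y : Y} {g : Y →L[ℂ] ℂ} : ten y g = 0 ↔ y = 0 ∨ g = 0 := by
  constructor
  · intro h
    by_cases hy : y = 0
    · exact Or.inl hy
    · right
      ext w
      have h1 : ten y g w = 0 := by rw [h]; rfl
      rw [ten_apply] at h1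
      rcases smul_eq_zero.mp h1 with h2 | h2
      · exact h2
      · exact absurd h2 hy
  · rintro (h | h)
    · rw [h]; ext w; simp
    · rw [h]; ext w; simp

theorem n1_ten_iff {y : Y} {g : Y →L[ℂ] ℂ} : N1 (ten y g) ↔ g y = 0 := by
  constructor
  · rintro ⟨x, f, hf, h⟩
    have h1 : ten y g * ten y g = 0 := by rw [h]; exact ten_sq hf
    rw [mul_ten, ten_apply] at h1
    rcases ten_eq_zero_iff.mp h1 with h2 | h2
    · rcases smul_eq_zero.mp h2 with h3 | h3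
      · exact h3
      · rw [h3, map_zero]
    · rw [h2]; rfl
  · intro h
    exact ⟨y, g, h, rfl⟩

/-- independent functionals can be separated -/
theorem exists_sep {g1 g2 : Y →L[ℂ] ℂ} (h1 : g1 ≠ 0) (h2 : ¬ ∃ c : ℂ, g2 = c • g1) :
    (∃ w, g1 w = 0 ∧ g2 w = 1) ∧ (∃ w, g1 w = 1 ∧ g2 w = 0) := by
  obtain ⟨v, hv⟩ : ∃ v, g1 v = 1 := by
    by_contra hcon
    push Not at hcon
    apply h1
    ext w
    by_contra hw
    apply hcon ((g1 w)⁻¹ • w)
    rw [map_smul, smul_eq_mul, inv_mul_cancel₀ hw]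
  have h3 : ∃ w, g1 w = 0 ∧ g2 w = 1 := by
    by_contra hcon
    push Not at hcon
    apply h2
    refine ⟨g2 v, ?_⟩
    ext w
    have h4 : g1 (w - g1 w • v) = 0 := by
      rw [map_sub, map_smul, hv]; simp
    have h5 : g2 (w - g1 w • v) = 0 := by
      by_contra h6
      apply hcon ((g2 (w - g1 w • v))⁻¹ • (w - g1 w • v))
      · rw [map_smul, h4, smul_zero]
      · rw [map_smul, smul_eq_mul, inv_mul_cancel₀ h6]
    rw [map_sub, map_smul, smul_eq_mul] at h5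
    show g2 w = g2 v * g1 w
    linear_combination h5
  refine ⟨h3, ?_⟩
  obtain ⟨w, hw1, hw2⟩ := h3
  refine ⟨v - g2 v • w, ?_, ?_⟩
  · rw [map_sub, map_smul, hw1, hv]; simp
  · rw [map_sub, map_smul, hw2]; simp

/-- independent vectors can be separated -/
theorem exists_sep' {y1 y2 : Y} (h1 : y1 ≠ 0) (h2 : ¬ ∃ c : ℂ, y2 = c • y1) :
    (∃ η : Y →L[ℂ] ℂ, η y1 = 0 ∧ η y2 = 1) ∧ (∃ η : Y →L[ℂ] ℂ, η y1 = 1 ∧ η y2 = 0) := by
  have hli : LinearIndependent ℂ ![y1, y2] := by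
    rw [LinearIndependent.pair_iff' h1]
    intro a ha
    exact h2 ⟨a, ha.symm⟩
  constructor
  · obtain ⟨f, hf⟩ := exists_dual hli ![0, 1]
    exact ⟨f, by simpa using hf 0, by simpa using hf 1⟩
  · obtain ⟨f, hf⟩ := exists_dual hli ![1, 0]
    exact ⟨f, by simpa using hf 0, by simpa using hf 1⟩

theorem rank_sum {y1 y2 z : Y} {g1 g2 h : Y →L[ℂ] ℂ} (hy1 : y1 ≠ 0) (hg1 : g1 ≠ 0)
    (hs : ten y1 g1 + ten y2 g2 = ten z h) : (∃ c : ℂ, y2 = c • y1) ∨ (∃ c : ℂ, g2 = c • g1) := by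
  by_contra hcon
  push Not at hcon
  obtain ⟨hc1, hc2⟩ := hcon
  obtain ⟨⟨w, hw1, hw2⟩, ⟨w', hw1', hw2'⟩⟩ := exists_sep hg1 (by
    rintro ⟨c, hc⟩; exact hc2 c hc)
  have e1 : y2 = h w • z := by
    have : (ten y1 g1 + ten y2 g2) w = ten z h w := by rw [hs]
    have h3 : g1 w • y1 + g2 w • y2 = h w • z := this
    rwa [hw1, hw2, zero_smul, zero_add, one_smul] at h3
  have e2 : y1 = h w' • z := by
    have : (ten y1 g1 + ten y2 g2) w' = ten z h w' := by rw [hs]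
    have h3 : g1 w' • y1 + g2 w' • y2 = h w' • z := this
    rwa [hw1', hw2', zero_smul, add_zero, one_smul] at h3
  have h4 : h w' ≠ 0 := by
    intro h5
    rw [h5, zero_smul] at e2
    exact hy1 e2
  apply hc1 (h w / h w')
  rw [e1]
  conv_rhs => rw [e2]
  rw [smul_smul, div_mul_cancel₀ _ h4]

/-- linear spaces of operators of rank at most one -/
theorem rank_one_space {W : Type*} [AddCommGroup W] [Module ℂ W] [Nontrivial Y]
    (L : W →ₗ[ℂ] (Y →L[ℂ] Y)) (hL : ∀ w, ∃ (y : Y) (g : Y →L[ℂ] ℂ), L w = ten y g) :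
    (∃ y : Y, y ≠ 0 ∧ ∀ w, ∃ g : Y →L[ℂ] ℂ, L w = ten y g) ∨
    (∃ g : Y →L[ℂ] ℂ, g ≠ 0 ∧ ∀ w, ∃ y : Y, L w = ten y g) := by
  by_cases h0 : ∀ w, L w = 0
  · left
    obtain ⟨y, hy⟩ := exists_ne (0 : Y)
    refine ⟨y, hy, fun w => ⟨0, ?_⟩⟩
    rw [h0 w]
    exact (ten_eq_zero_iff.mpr (Or.inr rfl)).symm
  push Not at h0
  obtain ⟨w1, hw1⟩ := h0
  obtain ⟨y1, g1, h1⟩ := hL w1
  have hyg : y1 ≠ 0 ∧ g1 ≠ 0 := by
    rw [h1] at hw1
    rw [Ne, ten_eq_zero_iff, not_or] at hw1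
    exact hw1
  obtain ⟨hy1, hg1⟩ := hyg
  by_cases hall : ∀ w, ∃ g : Y →L[ℂ] ℂ, L w = ten y1 g
  · exact Or.inl ⟨y1, hy1, hall⟩
  push Not at hall
  obtain ⟨w2, hw2⟩ := hall
  obtain ⟨y2, g2, h2⟩ := hL w2
  have hy21 : ¬ ∃ c : ℂ, y2 = c • y1 := by
    rintro ⟨c, hc⟩
    apply hw2 (c • g2)
    rw [h2, hc, ten_smul_left, ten_smul_right]
  have hy2 : y2 ≠ 0 := by
    rintro rfl
    exact hy21 ⟨0, by simp⟩
  have hg2 : g2 ≠ 0 := by
    rintro rfl
    apply hw2 0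
    rw [h2, ten_eq_zero_iff.mpr (Or.inr rfl), ten_eq_zero_iff.mpr (Or.inr rfl)]
  obtain ⟨z, h, hzh⟩ := hL (w1 + w2)
  rw [map_add, h1, h2] at hzh
  obtain ⟨c, hc⟩ := (rank_sum hy1 hg1 hzh).resolve_left hy21
  have hc0 : c ≠ 0 := by
    intro hc0
    apply hg2
    rw [hc, hc0]; ext w; simp
  right
  refine ⟨g1, hg1, fun w => ?_⟩
  by_cases hLw : L w = 0
  · exact ⟨0, by rw [hLw]; exact (ten_eq_zero_iff.mpr (Or.inl rfl)).symm⟩
  obtain ⟨y3, g3, h3⟩ := hL w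
  have hy3 : y3 ≠ 0 := by
    rintro rfl
    exact hLw (by rw [h3]; exact ten_eq_zero_iff.mpr (Or.inl rfl))
  by_cases hg3 : ∃ c : ℂ, g3 = c • g1
  · obtain ⟨d, hd⟩ := hg3
    refine ⟨d • y3, ?_⟩
    rw [h3, hd, ten_smul_left, ten_smul_right]
  · exfalso
    have e1 : ∃ c : ℂ, y3 = c • y1 := by
      obtain ⟨z, h, hzh⟩ := hL (w1 + w)
      rw [map_add, h1, h3] at hzh
      exact (rank_sum hy1 hg1 hzh).resolve_right hg3
    have e2 : ∃ c : ℂ, y3 = c • y2 := by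
      obtain ⟨z, h, hzh⟩ := hL (w2 + w)
      rw [map_add, h2, h3] at hzh
      refine (rank_sum hy2 hg2 hzh).resolve_right ?_
      rintro ⟨d, hd⟩
      apply hg3
      refine ⟨d * c, ?_⟩
      rw [hd, hc, smul_smul]
    obtain ⟨a, ha⟩ := e1
    obtain ⟨b, hb⟩ := e2
    have hb0 : b ≠ 0 := by
      rintro rfl
      exact hy3 (by rw [hb, zero_smul])
    apply hy21
    refine ⟨b⁻¹ * a, ?_⟩
    rw [mul_smul, ← ha, hb, smul_smul, inv_mul_cancel₀ hb0, one_smul]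

/-- the two by two determinant argument -/
theorem lemma_z {y0 a : Y} {κ g0 : Y →L[ℂ] ℂ} {Z : Y →L[ℂ] Y} {p : ℂ} (hp : p ≠ 0)
    {η0 η1 : Y →L[ℂ] ℂ} {w0 w1 : Y} (h00 : η0 y0 = 1) (h0a : η0 a = 0)
    (h1a : η1 a = 1) (k00 : κ w0 = 1) (k0g : g0 w0 = 0) (k1g : g0 w1 = 1)
    (h : ∀ s : ℂ, ∃ (y : Y) (g : Y →L[ℂ] ℂ),
      ten y0 κ + s • Z - (s ^ 2 * p) • ten a g0 = ten y g) :
    ∃ α β : ℂ, α * β = p ∧ Z = α • ten a κ - β • ten y0 g0 := by
  have M : ∀ (s : ℂ) (η η' : Y →L[ℂ] ℂ) (w w' : Y),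
      (η y0 * κ w + s * η (Z w) - s ^ 2 * p * (η a * g0 w)) *
      (η' y0 * κ w' + s * η' (Z w') - s ^ 2 * p * (η' a * g0 w')) =
      (η y0 * κ w' + s * η (Z w') - s ^ 2 * p * (η a * g0 w')) *
      (η' y0 * κ w + s * η' (Z w) - s ^ 2 * p * (η' a * g0 w)) := by
    intro s η η' w w'
    obtain ⟨y, g, hyg⟩ := h s
    have e : ∀ (η : Y →L[ℂ] ℂ) (w : Y),
        η y0 * κ w + s * η (Z w) - s ^ 2 * p * (η a * g0 w) = g w * η y := by
      intro η w
      have h1 : η ((ten y0 κ + s • Z - (s ^ 2 * p) • ten a g0) w) = η (ten y g w) := by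
        rw [hyg]
      have h2 : η (κ w • y0 + s • Z w - (s ^ 2 * p) • (g0 w • a)) = η (g w • y) := h1
      simp only [map_sub, map_add, map_smul, smul_eq_mul] at h2
      rw [← h2]; ring
    rw [e, e, e, e]; ring
  -- coefficients in `s`, with the pair `η0`, `w0`
  set α : ℂ := η1 (Z w0) with hα
  set β : ℂ := -η0 (Z w1) with hβ
  have C1 : ∀ (η : Y →L[ℂ] ℂ) (w : Y),
      η0 (Z w0) * (η y0 * κ w) + η (Z w) = κ w * η (Z w0) + η0 (Z w) * η y0 := by
    intro η w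
    have m1 := M 1 η0 η w0 w
    have m2 := M (-1) η0 η w0 w
    have m3 := M 2 η0 η w0 w
    rw [h00, h0a, k00, k0g] at m1 m2 m3
    linear_combination (1 : ℂ) / 2 * m1 - (1 : ℂ) / 2 * m2 - (1 : ℂ) / 6 * m3
      + (3 : ℂ) / 6 * m1 + (1 : ℂ) / 6 * m2
  have C2 : ∀ (η : Y →L[ℂ] ℂ) (w : Y),
      η0 (Z w0) * η (Z w) - p * (η a * g0 w) = η0 (Z w) * η (Z w0) := by
    intro η w
    have m1 := M 1 η0 η w0 w
    have m2 := M (-1) η0 η w0 w
    rw [h00, h0a, k00, k0g] at m1 m2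
    linear_combination (1 : ℂ) / 2 * m1 + (1 : ℂ) / 2 * m2
  have C3 : ∀ (η : Y →L[ℂ] ℂ) (w : Y), p * (η0 (Z w0) * (η a * g0 w)) = 0 := by
    intro η w
    have m1 := M 1 η0 η w0 w
    have m2 := M (-1) η0 η w0 w
    have m3 := M 2 η0 η w0 w
    rw [h00, h0a, k00, k0g] at m1 m2 m3
    linear_combination -(1 : ℂ) / 6 * m3 + (3 : ℂ) / 6 * m1 + (1 : ℂ) / 6 * m2
  have hz00 : η0 (Z w0) = 0 := by
    have := C3 η1 w1
    rw [h1a, k1g, mul_one, mul_one] at this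
    exact (mul_eq_zero.mp this).resolve_left hp
  have hαβ : α * β = p := by
    have := C2 η1 w1
    rw [h1a, k1g, hz00] at this
    rw [hα, hβ]
    linear_combination this
  have hα0 : α ≠ 0 := by
    intro h'; rw [h', zero_mul] at hαβ; exact hp hαβ.symm
  have hβ0 : β ≠ 0 := by
    intro h'; rw [h', mul_zero] at hαβ; exact hp hαβ.symm
  have e1 : ∀ w, η0 (Z w) = -β * g0 w := by
    intro w
    have := C2 η1 w
    rw [h1a, hz00] at this
    have h3 : α * (η0 (Z w)) = α * (-β * g0 w) := by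
      rw [hα]
      rw [hα] at hαβ
      linear_combination -this + g0 w * hαβ
    exact mul_left_cancel₀ hα0 h3
  have e2 : ∀ η : Y →L[ℂ] ℂ, η (Z w0) = α * η a := by
    intro η
    have := C2 η w1
    rw [k1g, hz00] at this
    have h3 : β * (η (Z w0)) = β * (α * η a) := by
      have h4 : η0 (Z w1) = -β := by rw [hβ]; ring
      rw [h4] at this
      linear_combination this - η a * hαβ
    exact mul_left_cancel₀ hβ0 h3
  refine ⟨α, β, hαβ, ?_⟩
  have key : ∀ (η : Y →L[ℂ] ℂ) (w : Y), η (Z w) = η ((α • ten a κ - β • ten y0 g0) w) := by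
    intro η w
    have h1 := C1 η w
    rw [hz00, e1 w, e2 η] at h1
    show η (Z w) = η (α • (κ w • a) - β • (g0 w • y0))
    simp only [map_sub, map_smul, smul_eq_mul]
    linear_combination h1
  ext w
  exact (SeparatingDual.eq_iff_forall_dual_eq (R := ℂ)).mpr (fun η => key η w)

end Rank

end Pool.Agent.H.MP_bb4c62_an.helper6.Gadgets
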